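import Pool.Agent.Lib.MP_22c5db_an.VN1

/-! Automatic continuity. -/

open scoped InnerProductSpace ComplexConjugate
open Finset

noncomputable section

namespace Pool.Agent.Kad

universe u

variable {H : Type u} [NormedAddCommGroup H] [InnerProductSpace ℂ H] [CompleteSpace H]

namespace Auto

open Filter Topology

variable {R : VonNeumannAlgebra H} {δ : Op H →ₗ[ℂ] Op H}

/-- `x ↦ p δ(x)` is bounded on `R` -/
def Good (R : VonNeumannAlgebra H) (δ : Op H →ₗ[ℂ] Op H) (p : Op H) : Prop :=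
  ∃ C : ℝ, ∀ x ∈ R, ‖p * δ x‖ ≤ C * ‖x‖

/-- vectors at which the adjoint derivation is bounded -/
def H0 (R : VonNeumannAlgebra H) (δ : Op H →ₗ[ℂ] Op H) : Submodule ℂ H where
  carrier := {η | ∃ C : ℝ, ∀ x ∈ R, ‖dag δ x η‖ ≤ C * ‖x‖}
  zero_mem' := ⟨0, by simp⟩
  add_mem' := by
    rintro a b ⟨C, h⟩ ⟨C', h'⟩
    refine ⟨C + C', fun x hx => ?_⟩
    rw [map_add, add_mul]
    exact (norm_add_le _ _).trans (add_le_add (h x hx) (h' x hx))
  smul_mem' := by
    rintro c a ⟨C, h⟩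
    refine ⟨‖c‖ * C, fun x hx => ?_⟩
    rw [map_smul, norm_smul, mul_assoc]
    exact mul_le_mul_of_nonneg_left (h x hx) (norm_nonneg _)

theorem isClosed_H0 (R : VonNeumannAlgebra H) (δ : Op H →ₗ[ℂ] Op H) :
    IsClosed (H0 R δ : Set H) := by
  let S : Submodule ℂ (Op H) := R.toStarSubalgebra.toSubalgebra.toSubmodule
  have : CompleteSpace S := (isClosed_vn R).completeSpace_coe
  refine IsSeqClosed.isClosed fun η η0 h h0 => ?_
  choose C hC using h
  let g : ℕ → S →L[ℂ] H := fun n => LinearMap.mkContinuous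
    ((ContinuousLinearMap.apply ℂ H (η n)).toLinearMap ∘ₗ dag δ ∘ₗ S.subtype) (C n)
    fun x => hC n x.1 x.2
  have ht : ∀ x : Op H, Tendsto (fun n => ‖dag δ x (η n)‖) atTop (𝓝 ‖dag δ x η0‖) := fun x =>
    (((dag δ x).continuous.tendsto _).comp h0).norm
  obtain ⟨C', hC'⟩ := banach_steinhaus (g := g) fun x => by
    obtain ⟨B, hB⟩ := (ht x.1).bddAbove_range
    exact ⟨B, fun n => hB ⟨n, rfl⟩⟩
  exact ⟨C', fun x hx => le_of_tendsto' (ht x) fun n =>
    (g n).le_of_opNorm_le (hC' n) ⟨x, hx⟩⟩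

theorem H0_mul (hd : Der R δ) {a : Op H} (ha : a ∈ R) {η : H} (h : η ∈ H0 R δ) :
    a η ∈ H0 R δ := by
  obtain ⟨C, h⟩ := h
  refine ⟨|C| * ‖a‖ + ‖dag δ a η‖, fun x hx => ?_⟩
  have e : dag δ x (a η) = dag δ (x * a) η - x (dag δ a η) := by
    simp [dag, hd _ (star_mem ha) _ (star_mem hx)]
  have h1 := (h _ (mul_mem hx ha)).trans
    (mul_le_mul (le_abs_self C) (norm_mul_le x a) (norm_nonneg _) (abs_nonneg _))
  rw [e]
  linarith [norm_sub_le (dag δ (x * a) η) (x (dag δ a η)), x.le_opNorm (dag δ a η)]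

theorem norm_dag {p : Op H} (hp : IsSelfAdjoint p) (x : Op H) :
    ‖dag δ x * p‖ = ‖p * δ (star x)‖ := by
  rw [← norm_star (p * _), star_mul, hp.star_eq]
  rfl

theorem good_of_H0 {p : Op H} (hp : IsSelfAdjoint p) (h : ∀ η, p η ∈ H0 R δ) : Good R δ p := by
  obtain ⟨C, hC⟩ := banach_steinhaus
    (g := fun x : {x : Op H // x ∈ R} => ((‖x.1‖⁻¹ : ℝ) : ℂ) • (dag δ x.1 * p)) fun η => by
      obtain ⟨C, hC⟩ := h η
      refine ⟨|C|, fun x => ?_⟩
      rw [smul_apply, norm_smul, Complex.norm_real, norm_inv, norm_norm]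
      exact inv_mul_le_of_le_mul₀ (norm_nonneg _) (abs_nonneg _) ((hC x.1 x.2).trans (by
        rw [mul_comm]; exact mul_le_mul_of_nonneg_left (le_abs_self C) (norm_nonneg _)))
  refine ⟨C, fun x hx => ?_⟩
  rcases eq_or_ne x 0 with rfl | h0
  · simp
  have h1 := hC ⟨star x, star_mem hx⟩
  rw [norm_smul, Complex.norm_real, norm_inv, norm_norm, norm_dag hp, star_star, norm_star,
    inv_mul_le_iff₀ (norm_pos_iff.2 h0)] at h1
  rwa [mul_comm C]

theorem exists_V (R : VonNeumannAlgebra H) (δ : Op H →ₗ[ℂ] Op H) : ∃ V : Submodule ℂ H,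
    IsClosed (V : Set H) ∧ ∀ η, η ∈ V ↔ ∀ s ∈ R.commutant, s η ∈ H0 R δ := by
  refine ⟨⨅ s : {s : Op H // s ∈ R.commutant}, (H0 R δ).comap s.1.toLinearMap, ?_, fun η => ?_⟩
  · rw [Submodule.coe_iInf]
    exact isClosed_iInter fun s => (isClosed_H0 R δ).preimage s.1.continuous
  · rw [Submodule.mem_iInf, Subtype.forall]
    rfl

/-- the largest good projection is central -/
theorem exists_z (hd : Der R δ) : ∃ z, Cen R z ∧ Good R δ z ∧
    ∀ p ∈ R, IsSelfAdjoint p → Good R δ p → z * p = p := by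
  obtain ⟨V, hc, hV⟩ := exists_V R δ
  obtain ⟨z, h1, h2, -, h3, -, h4⟩ := exists_proj (V : Set H)
  rw [Submodule.span_eq, hc.submodule_topologicalClosure_eq] at h3
  have k1 : ∀ t ∈ R.commutant, ∀ ζ ∈ (V : Set H), z (t ζ) = t ζ := fun t ht ζ hζ =>
    h2 _ ((hV _).2 fun s hs => by
      rw [← mul_apply_eq_comp]
      exact (hV _).1 hζ _ (mul_mem hs ht))
  have k2 : ∀ t ∈ R, ∀ ζ ∈ (V : Set H), z (t ζ) = t ζ := fun t ht ζ hζ =>
    h2 _ ((hV _).2 fun s hs => by
      rw [← mul_apply_eq_comp, comm_of_mem ht hs, mul_apply_eq_comp]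
      exact H0_mul hd ht ((hV _).1 hζ s hs))
  refine ⟨z, ⟨h1, mem_of_comm fun s hs => h4 s (k1 s hs) (k1 _ (star_mem hs)),
    fun x hx => (h4 x (k2 x hx) (k2 _ (star_mem hx))).symm⟩,
    good_of_H0 h1.isSelfAdjoint fun η => ?_, ?_⟩
  · simpa using (hV _).1 (h3 η) 1 (one_mem _)
  rintro p hp hp' ⟨C, hC⟩
  ext η
  rw [mul_apply_eq_comp]
  refine h2 _ ((hV _).2 fun s hs => ⟨C * ‖s η‖, fun x hx => ?_⟩)
  rw [← mul_apply_eq_comp s, comm_of_mem hp hs, mul_apply_eq_comp, ← mul_apply_eq_comp _ p]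
  refine ((dag δ x * p).le_opNorm (s η)).trans ?_
  rw [norm_dag hp', mul_right_comm, ← norm_star x]
  exact mul_le_mul_of_nonneg_right (hC _ (star_mem hx)) (norm_nonneg _)

theorem exists_big {p : Op H} (h : ¬ Good R δ p) {ε : ℝ} (hε : 0 < ε) (M : ℝ) :
    ∃ x ∈ R, ‖x‖ ≤ ε ∧ M < ‖p * δ x‖ := by
  simp only [Good, not_exists, not_forall, not_le] at h
  obtain ⟨x, hx, h⟩ := h (M / ε)
  have h0 : 0 < ‖x‖ := norm_pos_iff.2 (by rintro rfl; simp at h)
  have e : ‖((ε / ‖x‖ : ℝ) : ℂ)‖ = ε / ‖x‖ := by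
    rw [Complex.norm_real, Real.norm_of_nonneg (by positivity)]
  refine ⟨((ε / ‖x‖ : ℝ) : ℂ) • x, smul_mem' _ hx, ?_, ?_⟩
  · rw [norm_smul, e, div_mul_cancel₀ _ h0.ne']
  · rw [map_smul, mul_smul_comm, norm_smul, e]
    exact lt_of_eq_of_lt (by field_simp) (mul_lt_mul_of_pos_left h (div_pos hε h0))

/-- an orthogonal sequence of projections contains a good one -/
theorem exists_good (hd : Der R δ) {p : ℕ → Op H} (hp : ∀ k, IsStarProjection (p k))
    (hR : ∀ k, p k ∈ R) (ho : ∀ j k, j ≠ k → p j * p k = 0) : ∃ k, Good R δ (p k) := by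
  by_contra hc
  choose x hx h1 h2 using fun k => exists_big (not_exists.1 hc k)
    (ε := (1 / 2) ^ k) (by positivity) (k + 3 * ‖δ (p k)‖)
  have h3 : ∀ k, ‖p k * x k‖ ≤ (1 / 2) ^ k := fun k => (norm_mul_le _ _).trans
    ((mul_le_of_le_one_left (norm_nonneg _) (hp k).norm_le).trans (h1 k))
  have hs : Summable fun k => p k * x k := .of_norm_bounded summable_geometric_two h3
  have hy : ∑' k, p k * x k ∈ R := (isClosed_vn R).mem_of_tendsto hs.hasSum
    (.of_forall fun F => sum_mem fun k _ => mul_mem (hR k) (hx k))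
  have hn : ‖∑' k, p k * x k‖ ≤ 2 := tsum_of_norm_bounded hasSum_geometric_two h3
  have e : ∀ k, p k * ∑' j, p j * x j = p k * x k := fun k => by
    rw [← hs.tsum_mul_left, tsum_eq_single k fun j hj => by rw [← mul_assoc, ho _ _ hj.symm, zero_mul],
      ← mul_assoc, (hp k).isIdempotentElem]
  generalize ∑' k, p k * x k = y at hy hn e
  obtain ⟨k, hk⟩ := exists_nat_ge ‖δ y‖
  have e1 : p k * δ (x k) = p k * δ y + δ (p k) * (y - x k) := by
    have := hd _ (hR k) _ hy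
    rw [e k, hd _ (hR k) _ (hx k)] at this
    rw [mul_sub, ← add_sub_assoc, ← this, add_sub_cancel_right]
  have h4 : ‖p k * δ y‖ ≤ ‖δ y‖ :=
    (norm_mul_le _ _).trans (mul_le_of_le_one_left (norm_nonneg _) (hp k).norm_le)
  have h5 : ‖y - x k‖ ≤ 3 := by
    linarith [norm_sub_le y (x k), h1 k, pow_le_one₀ (n := k) (by norm_num : (0 : ℝ) ≤ 1 / 2)
      (by norm_num)]
  have h6 := (norm_mul_le (δ (p k)) _).trans (mul_le_mul_of_nonneg_left h5 (norm_nonneg _))
  have h7 := h2 k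
  rw [e1] at h7
  linarith [norm_add_le (p k * δ y) (δ (p k) * (y - x k))]

theorem mul_comm' {p q : Op H} (hp : IsStarProjection p) (hq : IsStarProjection q)
    (h : p * q = q) : q * p = q := by
  rw [← hq.isSelfAdjoint.star_eq, ← hp.isSelfAdjoint.star_eq, ← star_mul, h]

/-- projections of `R` under `c` -/
def Und (R : VonNeumannAlgebra H) (c q : Op H) : Prop := IsStarProjection q ∧ q ∈ R ∧ c * q = q

theorem wf (hd : Der R δ) {c : Op H} (hc : ∀ p, Und R c p → Good R δ p → p = 0) :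
    WellFounded fun q' q => Und R c q' ∧ Und R c q ∧ q * q' = q' ∧ q' ≠ q := by
  refine wellFounded_iff_isEmpty_descending_chain.2 ⟨fun ⟨f, hf⟩ => ?_⟩
  have h0 : ∀ n, Und R c (f n) := fun n => (hf n).2.1
  have h1 : ∀ n m, n ≤ m → f n * f m = f m := fun n m h => by
    induction m, h using Nat.le_induction with
    | base => exact (h0 n).1.isIdempotentElem
    | succ m _ ih => rw [← (hf m).2.2.1, ← mul_assoc, ih]
  have h2 : ∀ n m, n ≤ m → f m * f n = f m := fun n m h => mul_comm' (h0 n).1 (h0 m).1 (h1 n m h)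
  have h3 : ∀ k, Und R c (f k - f (k + 1)) := fun k =>
    ⟨(h0 _).1.sub_of_mul_eq_right (h0 k).1 (h1 _ _ k.le_succ), sub_mem (h0 _).2.1 (h0 _).2.1,
      by rw [mul_sub, (h0 _).2.2, (h0 _).2.2]⟩
  obtain ⟨k, hk⟩ := exists_good hd (fun k => (h3 k).1) (fun k => (h3 k).2.1) fun j k hjk => by
    rw [sub_mul, mul_sub, mul_sub]
    rcases hjk.lt_or_gt with h | h
    · rw [h1 j k h.le, h1 j (k + 1) (by omega), h1 (j + 1) k h, h1 (j + 1) (k + 1) (by omega),
        sub_self]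
    · rw [h2 k j h.le, h2 (k + 1) j h, h2 k (j + 1) (by omega), h2 (k + 1) (j + 1) (by omega),
        sub_self, sub_self, sub_self]
  exact (hf k).2.2.2 (sub_eq_zero.1 (hc _ (h3 k) hk)).symm

/-- the corner of a minimal projection is one dimensional -/
theorem scalar {p : Op H} (hp : IsStarProjection p) (hR : p ∈ R) (h0 : p ≠ 0)
    (hm : ∀ q ∈ R, IsStarProjection q → q ≠ 0 → p * q = q → q = p) {y : Op H} (hy : y ∈ R) :
    ∃ l : ℂ, ‖l‖ ≤ ‖y‖ ∧ p * y * p = l • p := by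
  have hpp : p * p = p := hp.isIdempotentElem
  have key : ∀ w ∈ R, IsSelfAdjoint w → p * w * p ∈ Submodule.span ℂ {p} := fun w hw hw' => by
    refine (Submodule.closed_of_finiteDimensional _).closure_subset
      (Metric.mem_closure_iff.2 fun ε hε => ?_)
    have e : p * w * p * p = p * w * p := by rw [mul_assoc, hpp]
    obtain ⟨t, q, h1, h2, h3, h4, h5⟩ := exists_loc (a := p * w * p)
      (hw'.conjugate_self hp.isSelfAdjoint) hp h0 (by simp only [e, ← mul_assoc, hpp])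
      (half_pos hε)
    rw [hm q (mem_of_comm fun s hs => h4 s (comm_of_mem (mul_mem (mul_mem hR hw) hR) hs)
      (comm_of_mem hR hs)) h1 h2 h3, sub_mul, e, smul_mul_assoc, one_mul] at h5
    exact ⟨_, Submodule.smul_mem _ (t : ℂ) (Submodule.mem_span_singleton_self p),
      by rw [dist_eq_norm]; linarith⟩
  have h1 := key _ (add_mem hy (star_mem hy)) (.add_star_self y)
  have h2 := key _ (smul_mem' Complex.I (sub_mem hy (star_mem hy))) (by
    rw [IsSelfAdjoint, star_smul, star_sub, star_star, Complex.star_def, Complex.conj_I, neg_smul,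
      ← smul_neg, neg_sub])
  obtain ⟨l, hl⟩ := Submodule.mem_span_singleton.1 (add_mem (Submodule.smul_mem _ (1 / 2) h1)
    (Submodule.smul_mem _ (-Complex.I / 2) h2))
  have e : p * y * p = l • p := by
    rw [hl, mul_smul_comm, smul_mul_assoc, smul_smul,
      show -Complex.I / 2 * Complex.I = 1 / 2 by linear_combination (-1 / 2) * Complex.I_mul_I]
    simp only [mul_add, add_mul, mul_sub, sub_mul]
    module
  refine ⟨l, le_of_mul_le_mul_right ?_ (norm_pos_iff.2 h0), e⟩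
  rw [← norm_smul, ← e]
  exact (norm_mul_le _ _).trans (mul_le_mul_of_nonneg_right ((norm_mul_le _ _).trans
    (mul_le_of_le_one_left (norm_nonneg _) hp.norm_le)) (norm_nonneg _))

theorem eq_zero (hd : Der R δ) {c : Op H} (hz : Cen R c)
    (hc : ∀ p, Und R c p → Good R δ p → p = 0) : c = 0 := by
  by_contra h0
  have hu : Und R c c := ⟨hz.1, hz.2.1, hz.1.isIdempotentElem⟩
  obtain ⟨p, ⟨hp, hp0⟩, hm⟩ := (wf hd hc).has_min {p | Und R c p ∧ p ≠ 0} ⟨c, hu, h0⟩
  have hm' : ∀ q ∈ R, IsStarProjection q → q ≠ 0 → p * q = q → q = p := fun q h1 h2 h3 h4 => by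
    have h5 : Und R c q := ⟨h2, h1, by rw [← h4, ← mul_assoc, hp.2.2]⟩
    by_contra h6
    exact hm q ⟨h5, h3⟩ ⟨h5, hp, h4, h6⟩
  obtain ⟨r, ⟨hr, C, hC⟩, hm⟩ := (wf hd hc).has_min
    {r | Und R c r ∧ ∃ C : ℝ, ∀ x ∈ R, ‖δ (p * x * (c - r))‖ ≤ C * ‖x‖} ⟨c, hu, 0, by simp⟩
  have h1 : ∀ x ∈ R, p * x * r = 0 := fun x hx => by
    by_contra h1
    obtain ⟨v, hv, v0, v1, v2, v3⟩ := exists_piso hr.1 hp.1 hr.2.1 hp.2.1 hx h1
    obtain ⟨q1, q2⟩ := piso_proj v1
    have q3 : star v * v * r = star v * v := by rw [mul_assoc, v3]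
    have q4 := mul_comm' q1 hr.1
    have q5 : r * (star v * v) = star v * v := by
      rw [← hr.1.isSelfAdjoint.star_eq, ← q1.isSelfAdjoint.star_eq, ← star_mul, q3]
    have hu' : Und R c (r - star v * v) := ⟨q1.sub_of_mul_eq_right hr.1 q5,
      sub_mem hr.2.1 (mul_mem (star_mem hv) hv), by
        rw [mul_sub, ← q5, ← mul_assoc, hr.2.2]⟩
    refine hm _ ⟨hu', C + ‖δ v‖, fun y hy => ?_⟩ ⟨hu', hr, by
      rw [mul_sub, q5, hr.1.isIdempotentElem], fun h => v0 ?_⟩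
    · obtain ⟨l, l1, l2⟩ := scalar hp.1 hp.2.1 hp0 hm' (mul_mem hy (star_mem hv))
      have e : p * y * (c - (r - star v * v)) = p * y * (c - r) + l • v := by
        have : l • v = p * (y * star v) * p * v := by rw [l2, smul_mul_assoc, v2]
        rw [this, mul_assoc _ p, v2]
        noncomm_ring
      have l3 : ‖l‖ ≤ ‖y‖ := l1.trans ((norm_mul_le _ _).trans
        (mul_le_of_le_one_right (norm_nonneg _) (by rw [norm_star]; exact piso_norm v1)))
      rw [e, map_add, map_smul, add_mul]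
      refine (norm_add_le _ _).trans (add_le_add (hC y hy) ?_)
      rw [norm_smul, mul_comm]
      exact mul_le_mul_of_nonneg_left l3 (norm_nonneg _)
    · rw [← v1, mul_assoc, sub_eq_self.1 h, mul_zero]
  refine hp0 (hc p hp ⟨C + ‖δ p‖, fun x hx => ?_⟩)
  have h2 := hC x hx
  rw [mul_sub, h1 x hx, sub_zero, ← hz.2.2 _ (mul_mem hp.2.1 hx), ← mul_assoc, hp.2.2,
    hd _ hp.2.1 _ hx] at h2
  have h3 := norm_sub_le (p * δ x + δ p * x) (δ p * x)
  rw [add_sub_cancel_right] at h3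
  linarith [norm_mul_le (δ p) x]

end Auto

theorem auto {R : VonNeumannAlgebra H} {δ : Op H →ₗ[ℂ] Op H} (hd : Der R δ) :
    ∃ c, 0 < c ∧ Bd R δ c := by
  obtain ⟨z, hz, ⟨C, hC⟩, h⟩ := Auto.exists_z hd
  have h1 := Auto.eq_zero hd hz.one_sub fun p hp hg => by
    rw [← hp.2.2, sub_mul, one_mul, h p hp.2.1 hp.1.isSelfAdjoint hg, sub_self]
  refine ⟨|C| + 1, by positivity, fun a ha => ?_⟩
  have h2 := hC a ha
  rw [← sub_eq_zero.1 h1, one_mul] at h2
  exact h2.trans (mul_le_mul_of_nonneg_right (by linarith [le_abs_self C]) (norm_nonneg _))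

end Pool.Agent.Kad
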