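import Mathlib

-- part Pool.Agent.Lib.MP_22c5db_an.Defs
section

/-! Definitions for the proof that derivations of von Neumann algebras into `B(H)` are inner. -/

open scoped InnerProductSpace ComplexConjugate
open Finset

noncomputable section

namespace Pool.Agent.Kad

universe u

/-- bounded operators -/
abbrev Op (H : Type u) [NormedAddCommGroup H] [InnerProductSpace ℂ H] := H →L[ℂ] H

variable {H : Type u} [NormedAddCommGroup H] [InnerProductSpace ℂ H] [CompleteSpace H]

/-- central projection -/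
def Cen (R : VonNeumannAlgebra H) (z : Op H) : Prop :=
  IsStarProjection z ∧ z ∈ R ∧ ∀ x ∈ R, z * x = x * z

/-- derivation on `R` (values off `R` do not matter) -/
def Der (R : VonNeumannAlgebra H) (δ : Op H →ₗ[ℂ] Op H) : Prop :=
  ∀ a ∈ R, ∀ b ∈ R, δ (a * b) = a * δ b + δ a * b

/-- bounded on `R` -/
def Bd (R : VonNeumannAlgebra H) (δ : Op H →ₗ[ℂ] Op H) (c : ℝ) : Prop :=
  ∀ a ∈ R, ‖δ a‖ ≤ c * ‖a‖

/-- the adjoint derivation -/
def dag (δ : Op H →ₗ[ℂ] Op H) : Op H →ₗ[ℂ] Op H where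
  toFun x := star (δ (star x))
  map_add' x y := by simp only [star_add, map_add]
  map_smul' c x := by simp only [star_smul, map_smul, star_star, RingHom.id_apply]

/-- the operator matrix `a` has norm at most `c` -/
def MB {ι : Type} [Fintype ι] (a : ι → ι → Op H) (c : ℝ) : Prop :=
  ∀ ξ η : ι → H, ‖∑ i, ∑ j, ⟪η i, a i j (ξ j)⟫_ℂ‖ ≤ c * √(∑ j, ‖ξ j‖ ^ 2) * √(∑ i, ‖η i‖ ^ 2)

/-- subequivalence, in the form of an injective map -/
def Le (R : VonNeumannAlgebra H) (q p : Op H) : Prop :=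
  ∃ x ∈ R, p * x = x ∧ ∀ ζ, q ζ = ζ → x ζ = 0 → ζ = 0

/-- `c R` is properly infinite -/
def PI (R : VonNeumannAlgebra H) (c : Op H) : Prop :=
  ∃ s₁ ∈ R, ∃ s₂ ∈ R, star s₁ * s₁ = c ∧ star s₂ * s₂ = c ∧ star s₁ * s₂ = 0

/-- `p R p` is commutative -/
def Ab (R : VonNeumannAlgebra H) (p : Op H) : Prop :=
  ∀ x ∈ R, ∀ y ∈ R, p * x * p * y * p = p * y * p * x * p

/-- matrix units with unit `u` -/
structure MU {ι : Type} [Fintype ι] [DecidableEq ι] (E : ι → ι → Op H) (u : Op H) : Prop where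
  mul : ∀ i j k l, E i j * E k l = if j = k then E i l else 0
  adj : ∀ i j, star (E i j) = E j i
  sum : ∑ i, E i i = u

section

variable {ι : Type} [Fintype ι] [DecidableEq ι]

/-- the representation of scalar matrices given by matrix units -/
def rho (E : ι → ι → Op H) (s : Matrix ι ι ℂ) : Op H := ∑ i, ∑ j, s i j • E i j

/-- the expectation onto the commutant of the matrix units -/
def ce (E : ι → ι → Op H) (x : Op H) : Op H :=
  (Fintype.card ι : ℂ)⁻¹ • ∑ i, ∑ k, E i k * x * E k i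

/-- a sum of diagonal matrix units -/
def pF (E : ι → ι → Op H) (F : Finset ι) : Op H := ∑ k ∈ F, E k k

/-- `r` orthogonal copies of `c e` under `q` -/
def Emb (N : VonNeumannAlgebra H) (e c q : Op H) (r : ℕ) : Prop :=
  ∃ v : Fin r → Op H, (∀ i, v i ∈ N ∧ q * v i = v i) ∧
    ∀ i j, star (v i) * v j = if i = j then c * e else 0

/-- finiteness -/
def FinH (N : VonNeumannAlgebra H) (E : ι → ι → Op H) (k₀ : ι) : Prop :=
  ∀ c, Cen N c → c ≠ 0 → ∀ F : Finset ι, ¬ Emb N (E k₀ k₀) c (pF E F) (F.card + 1)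

/-- the unitary group -/
abbrev U (ι : Type) [Fintype ι] [DecidableEq ι] := Matrix.unitaryGroup ι ℂ

/-- diagonal matrices of roots of unity -/
def dg {J : ℕ} [NeZero J] (t : ι → ZMod J) : U ι :=
  ⟨Matrix.diagonal fun i => ZMod.stdAddChar (t i), by
    rw [Matrix.mem_unitaryGroup_iff, Matrix.star_eq_conjTranspose, Matrix.diagonal_conjTranspose,
      Matrix.diagonal_mul_diagonal, ← Matrix.diagonal_one]
    congr 1
    funext i
    rw [Pi.star_apply, ZMod.stdAddChar_apply, Complex.star_def, Complex.mul_conj,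
      Circle.normSq_coe, Complex.ofReal_one]⟩

instance : CompactSpace (U ι) := by
  refine isCompact_iff_compactSpace.1 ?_
  have h1 : IsCompact (Set.pi Set.univ fun _ : ι => Set.pi Set.univ fun _ : ι =>
      Metric.closedBall (0 : ℂ) 1) :=
    isCompact_univ_pi fun _ => isCompact_univ_pi fun _ => isCompact_closedBall _ _
  refine IsCompact.of_isClosed_subset (s := (Set.pi Set.univ fun _ : ι => Set.pi Set.univ
    fun _ : ι => Metric.closedBall (0 : ℂ) 1 : Set (Matrix ι ι ℂ))) h1 ?_ ?_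
  · have : ((Matrix.unitaryGroup ι ℂ : Submonoid (Matrix ι ι ℂ)) : Set (Matrix ι ι ℂ)) =
        {A | A * star A = 1} := by
      ext A; exact Matrix.mem_unitaryGroup_iff
    rw [this]
    exact isClosed_eq (by fun_prop) continuous_const
  · intro A hA i _ j _
    rw [mem_closedBall_zero_iff]
    exact entry_norm_bound_of_unitary hA i j

/-- expectation for the Haar probability measure of the unitary group -/
def Ex {F : Type*} [NormedAddCommGroup F] [NormedSpace ℝ F] (f : U ι → F) : F :=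
  letI : MeasurableSpace (U ι) := borel _
  haveI : BorelSpace (U ι) := ⟨rfl⟩
  ∫ v, f v ∂(MeasureTheory.Measure.haarMeasure ⊤)

end

/-- matrix units of the first factor -/
def FA {A B : Type} [Fintype B] (E : A × B → A × B → Op H) (α γ : A) : Op H :=
  ∑ b, E (α, b) (γ, b)

/-- the value of a derivation on `(y u) ^ m`, if it sends `y` to `X` and `u` to zero -/
def dw (y X u : Op H) : ℕ → Op H
  | 0 => 0
  | m + 1 => (y * u) ^ m * (X * u) + dw y X u m * (y * u)

section

variable {K : Type u} [NormedAddCommGroup K] [InnerProductSpace ℂ K] [CompleteSpace K]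
  {ι : Type} [Fintype ι] [DecidableEq ι]

/-- matrix entries -/
def ent (J : ι → H →L[ℂ] K) (x : Op K) (a b : ι) : Op H :=
  (ContinuousLinearMap.adjoint (J a)).comp (x.comp (J b))

/-- the operator with given matrix entries -/
def mat (J : ι → H →L[ℂ] K) (m : ι → ι → Op H) : Op K :=
  ∑ a, ∑ b, (J a).comp ((m a b).comp (ContinuousLinearMap.adjoint (J b)))

/-- `N` is the algebra of `ι × ι` matrices over `z R z` -/
structure Frame (R : VonNeumannAlgebra H) (z : Op H) (J : ι → H →L[ℂ] K)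
    (N : VonNeumannAlgebra K) : Prop where
  proj : IsStarProjection z
  mem : z ∈ R
  adj : ∀ a b, (ContinuousLinearMap.adjoint (J a)).comp (J b) = if a = b then z else 0
  sum : ∑ a, (J a).comp (ContinuousLinearMap.adjoint (J a)) = 1
  mem_iff : ∀ x, x ∈ N ↔ ∀ a b, ent J x a b ∈ R

/-- the amplified derivation -/
def dl (J : ι → H →L[ℂ] K) (δ : Op H →ₗ[ℂ] Op H) : Op K →ₗ[ℂ] Op K where
  toFun x := mat J fun a b => δ (ent J x a b)
  map_add' x y := by
    simp only [mat, ent, ContinuousLinearMap.add_comp, ContinuousLinearMap.comp_add, map_add,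
      sum_add_distrib]
  map_smul' c x := by
    simp only [mat, ent, ContinuousLinearMap.smul_comp, ContinuousLinearMap.comp_smul, map_smul,
      RingHom.id_apply, smul_sum]

end

end Pool.Agent.Kad
end
end

-- part Pool.Agent.Lib.MP_22c5db_an.MUL
section

/-! Matrix units. -/

open scoped InnerProductSpace ComplexConjugate
open Finset

noncomputable section

namespace Pool.Agent.Kad

universe u

variable {H : Type u} [NormedAddCommGroup H] [InnerProductSpace ℂ H] [CompleteSpace H]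

variable {ι : Type} [Fintype ι] [DecidableEq ι] {E : ι → ι → Op H}

set_option linter.unusedSectionVars false

theorem rho_add (E : ι → ι → Op H) (s t : Matrix ι ι ℂ) : rho E (s + t) = rho E s + rho E t := by
  simp only [rho, Matrix.add_apply, add_smul, sum_add_distrib]

theorem rho_smul (E : ι → ι → Op H) (c : ℂ) (s : Matrix ι ι ℂ) : rho E (c • s) = c • rho E s := by
  simp only [rho, Matrix.smul_apply, smul_eq_mul, smul_sum, mul_smul]

theorem rho_single (E : ι → ι → Op H) (i k : ι) : rho E (Matrix.single i k 1) = E i k := by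
  simp [rho, Matrix.single_apply, ite_and]

theorem continuous_rho (E : ι → ι → Op H) : Continuous (rho E) := by
  unfold rho
  fun_prop

theorem MU.rho_mul {u : Op H} (h : MU E u) (s t : Matrix ι ι ℂ) :
    rho E (s * t) = rho E s * rho E t := by
  have h1 : ∀ i j, (s i j • E i j) * rho E t = ∑ l, (s i j * t j l) • E i l := by
    intro i j
    simp only [rho, mul_sum, smul_mul_smul_comm, h.mul, smul_ite, smul_zero]
    rw [sum_comm]
    simp
  rw [rho, rho, sum_mul]
  refine sum_congr rfl fun i _ => ?_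
  rw [sum_mul]
  simp only [h1, Matrix.mul_apply, sum_smul]
  exact sum_comm

theorem MU.rho_star {u : Op H} (h : MU E u) (s : Matrix ι ι ℂ) :
    rho E (star s) = star (rho E s) := by
  simp only [rho, star_sum, star_smul, h.adj, Matrix.star_apply]
  exact sum_comm

theorem MU.rho_one {u : Op H} (h : MU E u) : rho E 1 = u := by
  simp [rho, Matrix.one_apply, h.sum]

theorem MU.rho_unitary (h : MU E 1) (v : U ι) : rho E v ∈ unitary (Op H) := by
  rw [Unitary.mem_iff, ← h.rho_star, ← h.rho_mul, ← h.rho_mul, v.2.1, v.2.2, h.rho_one]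
  exact ⟨rfl, rfl⟩

theorem rho_mem {N : VonNeumannAlgebra H} (hE : ∀ i j, E i j ∈ N) (s : Matrix ι ι ℂ) :
    rho E s ∈ N :=
  sum_mem fun i _ => sum_mem fun j _ => N.toStarSubalgebra.smul_mem (hE i j) _

theorem MU.proj {u : Op H} (h : MU E u) (F : Finset ι) : IsStarProjection (pF E F) := by
  refine ⟨?_, ?_⟩
  · rw [IsIdempotentElem, pF, sum_mul_sum]
    refine sum_congr rfl fun i hi => ?_
    simp [h.mul, hi]
  · simp only [IsSelfAdjoint, pF, star_sum, h.adj]

namespace MUL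

theorem inner_E {u : Op H} (h : MU E u) (i k : ι) (ζ χ : H) :
    ⟪E i k ζ, χ⟫_ℂ = ⟪ζ, E k i χ⟫_ℂ := by
  rw [← h.adj i k, ContinuousLinearMap.star_eq_adjoint, ContinuousLinearMap.adjoint_inner_right]

theorem app {u : Op H} (h : MU E u) (i j k l : ι) (ζ : H) :
    E i j (E k l ζ) = if j = k then E i l ζ else 0 := by
  rw [← ContinuousLinearMap.mul_apply, h.mul]
  split_ifs <;> rfl

theorem sq_eq {u : Op H} (h : MU E u) (i k : ι) (ζ : H) :
    ‖E i k ζ‖ ^ 2 = RCLike.re ⟪ζ, E k k ζ⟫_ℂ := by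
  rw [← inner_self_eq_norm_sq (𝕜 := ℂ), inner_E h, app h, if_pos rfl]

end MUL

open MUL

theorem MU.norm_le {u : Op H} (h : MU E u) (i k : ι) : ‖E i k‖ ≤ 1 := by
  have h1 : ‖E k k‖ ≤ 1 := by
    have := (h.proj {k}).norm_le
    simpa [pF] using this
  have h2 : ‖E i k‖ * ‖E i k‖ = ‖E k k‖ := by
    rw [← CStarRing.norm_star_mul_self, h.adj, h.mul, if_pos rfl]
  nlinarith [norm_nonneg (E i k)]

theorem MU.norm_apply {u : Op H} (h : MU E u) (i k l : ι) (ζ : H) : ‖E i k ζ‖ = ‖E l k ζ‖ := by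
  rw [← sq_eq_sq₀ (norm_nonneg _) (norm_nonneg _), sq_eq h, sq_eq h]

theorem MU.sum_sq (h : MU E 1) (ζ : H) : ∑ i, ‖E i i ζ‖ ^ 2 = ‖ζ‖ ^ 2 := by
  simp only [sq_eq h]
  rw [← map_sum, ← inner_sum, ← ContinuousLinearMap.sum_apply, h.sum,
    ContinuousLinearMap.one_apply, inner_self_eq_norm_sq]

theorem MU.sum_sq' (h : MU E 1) (k : ι) (ζ : H) : ∑ i, ‖E k i ζ‖ ^ 2 = ‖ζ‖ ^ 2 := by
  rw [← h.sum_sq ζ]
  exact sum_congr rfl fun i _ => by rw [h.norm_apply k i i]

/-- an operator commuting with the matrix units is determined by one column -/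
theorem MU.norm_le_of_comm (h : MU E 1) {T : Op H} (hT : ∀ i j, T * E i j = E i j * T) (k : ι) :
    ‖T‖ ≤ ‖T * E k k‖ := by
  refine T.opNorm_le_bound (norm_nonneg _) fun ζ => ?_
  rw [← sq_le_sq₀ (norm_nonneg _) (by positivity), mul_pow, ← h.sum_sq' k ζ, ← h.sum_sq' k (T ζ),
    mul_sum]
  refine sum_le_sum fun i _ => ?_
  have h1 : E k i (T ζ) = (T * E k k) (E k i ζ) := by
    rw [← ContinuousLinearMap.mul_apply, ← hT, ← ContinuousLinearMap.mul_apply, mul_assoc, h.mul,
      if_pos rfl]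
  rw [h1, ← mul_pow]
  gcongr
  exact ContinuousLinearMap.le_opNorm _ _

theorem MU.fa {A B : Type} [Fintype A] [Fintype B] [DecidableEq A] [DecidableEq B]
    {E : A × B → A × B → Op H} {u : Op H} (h : MU E u) : MU (FA E) u := by
  refine ⟨fun i j k l => ?_, fun i j => ?_, ?_⟩
  · simp only [FA, sum_mul_sum, h.mul, Prod.mk.injEq]
    split_ifs with hjk
    · simp [hjk]
    · simp [hjk]
  · simp only [FA, star_sum, h.adj]
  · rw [← h.sum, Fintype.sum_prod_type]; rfl

theorem ce_add (E : ι → ι → Op H) (x y : Op H) : ce E (x + y) = ce E x + ce E y := by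
  simp only [ce, mul_add, add_mul, sum_add_distrib, smul_add]

theorem ce_sum {κ : Type*} (E : ι → ι → Op H) (s : Finset κ) (x : κ → Op H) :
    ce E (∑ a ∈ s, x a) = ∑ a ∈ s, ce E (x a) := by
  classical
  induction s using Finset.induction_on with
  | empty => simp [ce]
  | insert a s ha ih => rw [sum_insert ha, sum_insert ha, ce_add, ih]

theorem continuous_ce (E : ι → ι → Op H) : Continuous (ce E) := by
  unfold ce
  fun_prop

theorem MU.ce_one [Nonempty ι] (h : MU E 1) : ce E 1 = 1 := by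
  have hc : (Fintype.card ι : ℂ) ≠ 0 := Nat.cast_ne_zero.2 Fintype.card_ne_zero
  simp only [ce, mul_one, h.mul, if_true, sum_const, card_univ]
  rw [← smul_sum, h.sum, ← Nat.cast_smul_eq_nsmul ℂ, smul_smul, inv_mul_cancel₀ hc, one_smul]

theorem MU.ce_star (h : MU E 1) (x : Op H) : ce E (star x) = star (ce E x) := by
  simp only [ce, star_smul, star_sum, star_mul, h.adj, star_inv₀, star_natCast, mul_assoc]

theorem MU.ce_comm (h : MU E 1) (x : Op H) (i j : ι) : ce E x * E i j = E i j * ce E x := by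
  simp only [ce, smul_mul_assoc, mul_smul_comm, sum_mul, mul_sum]
  congr 1
  have h1 : ∀ a k, E a k * x * E k a * E i j = if a = i then E a k * x * E k j else 0 := by
    intro a k; rw [mul_assoc, h.mul]; split_ifs <;> simp
  have h2 : ∀ a k, E i j * (E a k * x * E k a) = if j = a then E i k * x * E k a else 0 := by
    intro a k; rw [← mul_assoc, ← mul_assoc, h.mul]; split_ifs <;> simp
  simp only [h1, h2]
  rw [sum_comm, sum_comm (f := fun a k => if j = a then E i k * x * E k a else 0)]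
  simp

theorem MU.ce_mul_right (h : MU E 1) (x : Op H) {z : Op H} (hz : ∀ i j, z * E i j = E i j * z) :
    ce E (x * z) = ce E x * z := by
  have _h := h
  simp only [ce, smul_mul_assoc, sum_mul, mul_assoc, hz]

namespace MUL

theorem ce_smul (E : ι → ι → Op H) (c : ℂ) (x : Op H) : ce E (c • x) = c • ce E x := by
  simp only [ce, mul_smul_comm, smul_mul_assoc, ← smul_sum]
  exact smul_comm _ _ _

theorem ce_right (h : MU E 1) (x : Op H) (k i : ι) :
    ce E (x * E k i) = (Fintype.card ι : ℂ)⁻¹ • ∑ a, E a i * x * E k a := by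
  rw [ce]
  congr 1
  refine sum_congr rfl fun a _ => ?_
  have h1 : ∀ b, E a b * (x * E k i) * E b a = if i = b then E a b * x * E k a else 0 := by
    intro b; rw [mul_assoc, mul_assoc, h.mul]; split_ifs <;> simp [mul_assoc]
  simp [h1]

theorem ce_left (h : MU E 1) (x : Op H) (k i : ι) :
    ce E (E k i * x) = (Fintype.card ι : ℂ)⁻¹ • ∑ a, E a i * x * E k a := by
  rw [ce]
  congr 1
  refine sum_congr rfl fun a _ => ?_
  have h1 : ∀ b, E a b * (E k i * x) * E b a = if b = k then E a i * x * E b a else 0 := by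
    intro b; rw [← mul_assoc, h.mul]; split_ifs <;> simp
  simp [h1]

theorem orth (h : MU E 1) (v : ι → H) (hv : ∀ a, E a a (v a) = v a) :
    ‖∑ a, v a‖ ^ 2 = ∑ a, ‖v a‖ ^ 2 := by
  rw [← h.sum_sq]
  refine sum_congr rfl fun i _ => ?_
  have h1 : ∀ a, E i i (v a) = if i = a then v a else 0 := by
    intro a
    rw [← hv a, app h]
    split_ifs with hia
    · rw [hia, hv]
    · rfl
  simp [map_sum, h1]

theorem norm_inv_smul (χ : H) :
    ‖(Fintype.card ι : ℂ)⁻¹ • χ‖ ^ 2 = (Fintype.card ι : ℝ)⁻¹ ^ 2 * ‖χ‖ ^ 2 := by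
  rw [norm_smul, mul_pow, norm_inv, Complex.norm_natCast]

theorem inv_sq_mul (n : ℕ) (t : ℝ) : (n : ℝ)⁻¹ ^ 2 * (n * t) = (n : ℝ)⁻¹ * t := by
  rcases Nat.eq_zero_or_pos n with rfl | hn
  · simp
  · have : (n : ℝ) ≠ 0 := by positivity
    field_simp

theorem sum_sum_sq (h : MU E 1) (ζ : H) :
    ∑ k, ∑ a, ‖E k a ζ‖ ^ 2 = Fintype.card ι * ‖ζ‖ ^ 2 := by
  simp only [h.sum_sq', sum_const, card_univ, nsmul_eq_mul]

end MUL

theorem MU.ce_cyc (h : MU E 1) (x : Op H) (s : Matrix ι ι ℂ) :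
    ce E (rho E s * x) = ce E (x * rho E s) := by
  simp only [rho, sum_mul, mul_sum, ce_sum, smul_mul_assoc, mul_smul_comm, ce_smul, ce_left h,
    ce_right h]

theorem MU.ce_E (h : MU E 1) (i j : ι) :
    ce E (E i j) = if i = j then (Fintype.card ι : ℂ)⁻¹ • 1 else 0 := by
  have h1 := ce_right h 1 i j
  rw [one_mul] at h1
  simp only [h1, mul_one, h.mul]
  by_cases hij : i = j
  · simp [hij, h.sum]
  · simp [hij, Ne.symm hij]

/-- Kadison-Schwarz inequality -/
theorem MU.ce_sq (h : MU E 1) (x : Op H) (ζ : H) :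
    ‖ce E x ζ‖ ^ 2 ≤ (Fintype.card ι : ℝ)⁻¹ * ∑ i, ∑ k, ‖x (E k i ζ)‖ ^ 2 := by
  simp only [ce, ContinuousLinearMap.smul_apply, ContinuousLinearMap.sum_apply,
    ContinuousLinearMap.mul_apply]
  rw [norm_inv_smul, orth h _ fun a => by simp [map_sum, app h], ← inv_sq_mul]
  refine mul_le_mul_of_nonneg_left ?_ (by positivity)
  rw [mul_sum]
  refine sum_le_sum fun i _ => ?_
  calc _ ≤ (∑ k, ‖x (E k i ζ)‖) ^ 2 := by
        gcongr
        refine (norm_sum_le _ _).trans (sum_le_sum fun k _ => ?_)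
        exact ((E i k).le_of_opNorm_le (h.norm_le i k) _).trans (one_mul _).le
    _ ≤ _ := by simpa using sq_sum_le_card_mul_sum_sq (s := univ) (f := fun k => ‖x (E k i ζ)‖)

theorem MU.norm_ce (h : MU E 1) (x : Op H) : ‖ce E x‖ ≤ ‖x‖ := by
  refine ContinuousLinearMap.opNorm_le_bound _ (norm_nonneg _) fun ζ => ?_
  rw [← sq_le_sq₀ (norm_nonneg _) (by positivity)]
  refine (h.ce_sq x ζ).trans ?_
  have h1 : ∑ i, ∑ k, ‖x (E k i ζ)‖ ^ 2 ≤ Fintype.card ι * (‖x‖ * ‖ζ‖) ^ 2 := by
    rw [sum_comm, mul_pow, mul_left_comm, ← sum_sum_sq h, mul_sum]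
    refine sum_le_sum fun k _ => ?_
    rw [mul_sum]
    refine sum_le_sum fun i _ => ?_
    rw [← mul_pow]
    gcongr
    exact x.le_opNorm _
  refine (mul_le_mul_of_nonneg_left h1 (by positivity)).trans ?_
  rw [← mul_assoc]
  exact mul_le_of_le_one_left (by positivity) (inv_mul_le_one)

theorem MU.ce_entries (h : MU E 1) (x : Op H) (ζ : H) :
    ∑ i, ∑ k, ‖ce E (x * E k i) ζ‖ ^ 2 ≤ (Fintype.card ι : ℝ)⁻¹ * ‖x‖ ^ 2 * ‖ζ‖ ^ 2 := by
  have h1 : ∀ i k, ‖ce E (x * E k i) ζ‖ ^ 2 =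
      (Fintype.card ι : ℝ)⁻¹ ^ 2 * ∑ a, ‖E a i (x (E k a ζ))‖ ^ 2 := by
    intro i k
    simp only [ce_right h, ContinuousLinearMap.smul_apply, ContinuousLinearMap.sum_apply,
      ContinuousLinearMap.mul_apply]
    rw [norm_inv_smul, orth h _ fun a => by simp [app h]]
  simp only [h1, ← mul_sum]
  rw [mul_assoc, ← inv_sq_mul]
  refine mul_le_mul_of_nonneg_left ?_ (by positivity)
  rw [mul_left_comm (Fintype.card ι : ℝ), ← sum_sum_sq h, sum_comm, mul_sum]
  refine sum_le_sum fun k _ => ?_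
  rw [sum_comm, mul_sum]
  refine sum_le_sum fun a _ => ?_
  rw [h.sum_sq', ← mul_pow]
  gcongr
  exact x.le_opNorm _

end Pool.Agent.Kad
end
end

-- part Pool.Agent.Lib.MP_22c5db_an.Haar
section

/-! The Haar expectation. -/

open scoped InnerProductSpace ComplexConjugate
open Finset

noncomputable section

namespace Pool.Agent.Kad

universe u

variable {H : Type u} [NormedAddCommGroup H] [InnerProductSpace ℂ H] [CompleteSpace H]

variable {ι : Type} [Fintype ι] [DecidableEq ι] {F : Type*} [NormedAddCommGroup F]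
  [NormedSpace ℝ F]

namespace Haar

open MeasureTheory MeasureTheory.Measure

instance ms : MeasurableSpace (U ι) := borel _
instance bs : BorelSpace (U ι) := ⟨rfl⟩

/-- the Haar probability measure -/
def mu (ι : Type) [Fintype ι] [DecidableEq ι] : Measure (U ι) := haarMeasure ⊤

theorem Ex_eq (f : U ι → F) : Ex f = ∫ v, f v ∂(mu ι) := rfl

instance : IsMulLeftInvariant (mu ι) := isMulLeftInvariant_haarMeasure _

instance : IsProbabilityMeasure (mu ι) := ⟨by
  have := haarMeasure_self (G := U ι) (K₀ := ⊤)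
  rwa [TopologicalSpace.PositiveCompacts.coe_top] at this⟩

instance : SecondCountableTopology (U ι) :=
  haveI : SecondCountableTopology (Matrix ι ι ℂ) :=
    inferInstanceAs (SecondCountableTopology (ι → ι → ℂ))
  TopologicalSpace.Subtype.secondCountableTopology _

theorem eq_mu (ν : Measure (U ι)) [IsProbabilityMeasure ν] [IsMulLeftInvariant ν] : mu ι = ν := by
  unfold mu
  rw [haarMeasure_eq_iff, TopologicalSpace.PositiveCompacts.coe_top]
  exact measure_univ

instance : IsMulRightInvariant (mu ι) := ⟨fun g => by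
  have : IsProbabilityMeasure (map (· * g) (mu ι)) :=
    isProbabilityMeasure_map (measurable_mul_const g).aemeasurable
  exact (eq_mu _).symm⟩

instance : IsInvInvariant (mu ι) := ⟨by
  have : IsProbabilityMeasure (mu ι).inv :=
    isProbabilityMeasure_map measurable_inv.aemeasurable
  exact (eq_mu _).symm⟩

omit [NormedSpace ℝ F] in
theorem integ {f : U ι → F} (hf : Continuous f) : Integrable f (mu ι) :=
  hf.integrable_of_hasCompactSupport (HasCompactSupport.of_compactSpace f)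

end Haar

open Haar MeasureTheory

theorem Ex_const [CompleteSpace F] (x : F) : Ex (fun _ : U ι => x) = x := by
  rw [Ex_eq, integral_const, probReal_univ, one_smul]

theorem Ex_add {f g : U ι → F} (hf : Continuous f) (hg : Continuous g) :
    Ex (fun v => f v + g v) = Ex f + Ex g := integral_add (integ hf) (integ hg)

theorem Ex_sub {f g : U ι → F} (hf : Continuous f) (hg : Continuous g) :
    Ex (fun v => f v - g v) = Ex f - Ex g := integral_sub (integ hf) (integ hg)

theorem Ex_sum {κ : Type*} (s : Finset κ) {f : κ → U ι → F} (hf : ∀ a ∈ s, Continuous (f a)) :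
    Ex (fun v => ∑ a ∈ s, f a v) = ∑ a ∈ s, Ex (f a) :=
  integral_finsetSum s fun a ha => integ (hf a ha)

theorem Ex_mul (c : ℂ) (f : U ι → ℂ) : Ex (fun v => c * f v) = c * Ex f :=
  integral_const_mul c f

theorem Ex_mul_real (c : ℝ) (f : U ι → ℝ) : Ex (fun v => c * f v) = c * Ex f :=
  integral_const_mul c f

theorem Ex_conj (f : U ι → ℂ) : Ex (fun v => conj (f v)) = conj (Ex f) := integral_conj

theorem Ex_ofReal (f : U ι → ℝ) : Ex (fun v => (f v : ℂ)) = ((Ex f : ℝ) : ℂ) :=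
  integral_complex_ofReal

theorem Ex_re {f : U ι → ℂ} (hf : Continuous f) : Ex (fun v => (f v).re) = (Ex f).re :=
  integral_re (𝕜 := ℂ) (integ hf)

theorem Ex_mono {f g : U ι → ℝ} (hf : Continuous f) (hg : Continuous g) (h : ∀ v, f v ≤ g v) :
    Ex f ≤ Ex g := integral_mono (integ hf) (integ hg) h

theorem norm_Ex_le {f : U ι → F} {g : U ι → ℝ} (hg : Continuous g) (h : ∀ v, ‖f v‖ ≤ g v) :
    ‖Ex f‖ ≤ Ex g := norm_integral_le_of_norm_le (integ hg) (Filter.Eventually.of_forall h)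

theorem Ex_mul_left (f : U ι → F) (g : U ι) : Ex (fun v => f (g * v)) = Ex f :=
  integral_mul_left_eq_self f g

theorem Ex_mul_right (f : U ι → F) (g : U ι) : Ex (fun v => f (v * g)) = Ex f :=
  integral_mul_right_eq_self (μ := mu ι) f g

theorem Ex_star (f : U ι → F) : Ex (fun v => f (star v)) = Ex f :=
  integral_inv_eq_self f (mu ι)

/-- homogeneous functions of nonzero degree have mean zero -/
theorem Ex_phase {f : Matrix ι ι ℂ → ℂ} {k j : ℕ} (hkj : k ≠ j)
    (h : ∀ (ω : ℂ), ‖ω‖ = 1 → ∀ v : U ι, f (ω • (v : Matrix ι ι ℂ)) = ω ^ k * conj ω ^ j * f v) :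
    Ex (fun v : U ι => f v) = 0 := by
  have hd : ((k : ℂ) - j) ≠ 0 := sub_ne_zero.2 (by exact_mod_cast hkj)
  set θ : ℝ := Real.pi / ((k : ℝ) - j) with hθ
  set ω : ℂ := Complex.exp (θ * Complex.I) with hω
  have h1 : ‖ω‖ = 1 := Complex.norm_exp_ofReal_mul_I θ
  have h2 : ω ^ k * conj ω ^ j = -1 := by
    rw [hω, ← Complex.exp_conj, ← Complex.exp_nat_mul, ← Complex.exp_nat_mul, ← Complex.exp_add,
      ← Complex.exp_pi_mul_I]
    congr 1
    rw [map_mul, Complex.conj_ofReal, Complex.conj_I, hθ]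
    push_cast
    field_simp
    ring
  have h3 : ω * conj ω = 1 := by
    rw [Complex.mul_conj, Complex.normSq_eq_norm_sq, h1]; simp
  let g : U ι := ⟨ω • (1 : Matrix ι ι ℂ), by
    rw [Matrix.mem_unitaryGroup_iff, star_smul, star_one, smul_mul_smul_comm, one_mul]
    rw [Complex.star_def, h3, one_smul]⟩
  have h4 := Ex_mul_left (fun v : U ι => f v) g
  have h5 : (fun v : U ι => f ((g * v : U ι) : Matrix ι ι ℂ)) = fun v : U ι => -1 * f v := by
    funext v
    rw [← h2, ← h ω h1 v]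
    congr 1
    change ω • (1 : Matrix ι ι ℂ) * v = _
    rw [smul_mul_assoc, one_mul]
  rw [h5, Ex_mul] at h4
  linear_combination (-1 / 2 : ℂ) * h4

end Pool.Agent.Kad
end
end

-- part Pool.Agent.Lib.MP_22c5db_an.SD
section

/-! Integration by parts on the unitary group. -/

open scoped InnerProductSpace ComplexConjugate
open Finset

noncomputable section

namespace Pool.Agent.Kad

universe u

variable {H : Type u} [NormedAddCommGroup H] [InnerProductSpace ℂ H] [CompleteSpace H]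

variable {ι : Type} [Fintype ι] [DecidableEq ι]

set_option linter.unusedSectionVars false

/-- `X'` is the derivative of `X` -/
structure Dif (X : Matrix ι ι ℂ → Op H) (X' : Matrix ι ι ℂ → Matrix ι ι ℂ → Op H) : Prop where
  cont : Continuous X
  cont' : Continuous fun p : Matrix ι ι ℂ × Matrix ι ι ℂ => X' p.1 p.2
  lin : ∀ v, IsLinearMap ℂ (X' v)
  der : ∀ v h (s : ℂ), HasDerivAt (fun s : ℂ => X (v + s • h)) (X' (v + s • h) h) s

namespace Dif

variable {X Y : Matrix ι ι ℂ → Op H} {X' Y' : Matrix ι ι ℂ → Matrix ι ι ℂ → Op H}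

theorem contU (h : Dif X X') : Continuous fun v : U ι => X v :=
  h.cont.comp continuous_subtype_val

theorem contR (h : Dif X X') (s : Matrix ι ι ℂ) : Continuous fun v : U ι => X' v (v * s) :=
  h.cont'.comp (continuous_subtype_val.prodMk (continuous_subtype_val.mul continuous_const))

theorem contL (h : Dif X X') (s : Matrix ι ι ℂ) : Continuous fun v : U ι => X' v (s * v) :=
  h.cont'.comp (continuous_subtype_val.prodMk (continuous_const.mul continuous_subtype_val))

theorem const (B : Op H) : Dif (fun _ : Matrix ι ι ℂ => B) (fun _ _ => 0) :=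
  ⟨continuous_const, continuous_const, fun _ => ⟨by simp, by simp⟩,
    fun _ _ s => hasDerivAt_const s B⟩

theorem rho (E : ι → ι → Op H) : Dif (rho E) (fun _ h => rho E h) := by
  refine ⟨continuous_rho E, (continuous_rho E).comp continuous_snd,
    fun _ => ⟨rho_add E, rho_smul E⟩, fun v h s => ?_⟩
  simp only [rho_add, rho_smul]
  simpa using ((hasDerivAt_id s).smul_const (Kad.rho E h)).const_add (Kad.rho E v)

theorem add (hX : Dif X X') (hY : Dif Y Y') :
    Dif (fun v => X v + Y v) (fun v h => X' v h + Y' v h) :=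
  ⟨hX.cont.add hY.cont, hX.cont'.add hY.cont', fun v =>
    ⟨fun a b => by rw [(hX.lin v).map_add, (hY.lin v).map_add]; abel,
      fun c a => by rw [(hX.lin v).map_smul, (hY.lin v).map_smul, smul_add]⟩,
    fun v h s => (hX.der v h s).add (hY.der v h s)⟩

theorem mul (hX : Dif X X') (hY : Dif Y Y') :
    Dif (fun v => X v * Y v) (fun v h => X' v h * Y v + X v * Y' v h) :=
  ⟨hX.cont.mul hY.cont, (hX.cont'.mul (hY.cont.comp continuous_fst)).add
    ((hX.cont.comp continuous_fst).mul hY.cont'), fun v =>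
    ⟨fun a b => by rw [(hX.lin v).map_add, (hY.lin v).map_add, add_mul, mul_add]; abel,
      fun c a => by
        rw [(hX.lin v).map_smul, (hY.lin v).map_smul, smul_add, smul_mul_assoc, mul_smul_comm]⟩,
    fun v h s => (hX.der v h s).mul (hY.der v h s)⟩

theorem ce {κ : Type} [Fintype κ] [DecidableEq κ] (G : κ → κ → Op H) (hX : Dif X X') :
    Dif (fun v => ce G (X v)) (fun v h => ce G (X' v h)) := by
  refine ⟨(continuous_ce G).comp hX.cont, (continuous_ce G).comp hX.cont', fun v =>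
    ⟨fun a b => by rw [(hX.lin v).map_add, ce_add],
      fun c a => by rw [(hX.lin v).map_smul, MUL.ce_smul]⟩, fun v h s => ?_⟩
  let L : Op H →L[ℂ] Op H :=
    { toFun := Kad.ce G, map_add' := ce_add G, map_smul' := MUL.ce_smul G,
      cont := continuous_ce G }
  exact L.hasFDerivAt.comp_hasDerivAt s (hX.der v h s)

theorem congr {X'' : Matrix ι ι ℂ → Matrix ι ι ℂ → Op H} (hX : Dif X X') (h1 : ∀ v, Y v = X v)
    (h2 : ∀ v h, X'' v h = X' v h) : Dif Y X'' := by
  obtain rfl : Y = X := funext h1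
  obtain rfl : X'' = X' := funext fun v => funext (h2 v)
  exact hX

end Dif

namespace SD

theorem Ex_deriv {f G : U ι → ℂ} (hf : Continuous f) (hG : Continuous G) (φ : ℝ → U ι → U ι)
    (h0 : ∀ v, φ 0 v = v) (hc : ∀ t, Continuous (φ t))
    (hinv : ∀ t, Ex (fun v => f (φ t v)) = Ex f)
    (hd : ∀ v t, HasDerivAt (fun t => f (φ t v)) (G (φ t v)) t) : Ex G = 0 := by
  obtain ⟨c, hc'⟩ := (isCompact_univ (X := U ι)).exists_bound_of_continuousOn hG.continuousOn
  have h1 := (hasDerivAt_integral_of_dominated_loc_of_deriv_le (μ := Haar.mu ι) (x₀ := (0 : ℝ))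
    (s := Set.univ) (F := fun t v => f (φ t v)) (F' := fun t v => G (φ t v))
    (bound := fun _ => c) Filter.univ_mem
    (Filter.Eventually.of_forall fun t => (hf.comp (hc t)).aestronglyMeasurable)
    (Haar.integ (hf.comp (hc 0))) (hG.comp (hc 0)).aestronglyMeasurable
    (Filter.Eventually.of_forall fun v t _ => hc' _ trivial) (MeasureTheory.integrable_const c)
    (Filter.Eventually.of_forall fun v t _ => hd v t)).2
  have h2 : (fun t => ∫ v, f (φ t v) ∂(Haar.mu ι)) = fun _ => Ex f := funext hinv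
  rw [h2] at h1
  have h3 := h1.unique (hasDerivAt_const _ _)
  simp only [h0] at h3
  exact h3

theorem lin_single (Φ : Matrix ι ι ℂ →ₗ[ℂ] ℂ)
    (h : ∀ p : Matrix ι ι ℂ, p * p = p → star p = p → Φ p = 0) (i k : ι) :
    Φ (Matrix.single i k 1) = 0 := by
  have hs : ∀ a b : ι, star (Matrix.single a b (1 : ℂ)) = Matrix.single b a 1 := fun a b => by
    rw [Matrix.star_eq_conjTranspose, Matrix.conjTranspose_single, star_one]
  have hd : ∀ a, Φ (Matrix.single a a 1) = 0 := fun a =>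
    h _ (by rw [Matrix.single_mul_single_same, one_mul]) (hs a a)
  by_cases hik : i = k
  · rw [hik]; exact hd k
  have key : ∀ ω : ℂ, ω * conj ω = 1 →
      ω * Φ (Matrix.single i k 1) + conj ω * Φ (Matrix.single k i 1) = 0 := by
    intro ω hω
    have h1 := h ((1 / 2 : ℂ) • (Matrix.single i i 1 + Matrix.single k k 1 +
      ω • Matrix.single i k 1 + conj ω • Matrix.single k i 1)) ?_ ?_
    · simp only [map_smul, map_add, hd, smul_eq_mul] at h1
      linear_combination 2 * h1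
    · have e1 : ∀ a b : ι, Matrix.single a i (1 : ℂ) * Matrix.single k b (1 : ℂ) = 0 :=
        fun a b => Matrix.single_mul_single_of_ne _ _ _ _ hik _
      have e2 : ∀ a b : ι, Matrix.single a k (1 : ℂ) * Matrix.single i b (1 : ℂ) = 0 :=
        fun a b => Matrix.single_mul_single_of_ne _ _ _ _ (Ne.symm hik) _
      simp only [smul_mul_assoc, mul_smul_comm, add_mul, mul_add, Matrix.single_mul_single_same,
        e1, e2, one_mul, smul_zero, add_zero, zero_add, smul_smul, smul_add]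
      have hω' : conj ω * ω = 1 := by rw [mul_comm, hω]
      match_scalars <;> first | ring1 | linear_combination (1 / 4 : ℂ) * hω
    · simp only [star_smul, star_add, hs, Complex.star_def, Complex.conj_conj, map_div₀, map_one,
        map_ofNat]
      congr 1
      abel
  have k1 := key 1 (by simp)
  have k2 := key Complex.I (by simp)
  rw [map_one] at k1
  rw [Complex.conj_I] at k2
  linear_combination (1 / 2 : ℂ) * k1 - (Complex.I / 2) * k2 +
    ((Φ (Matrix.single i k 1) - Φ (Matrix.single k i 1)) / 2) * Complex.I_mul_I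

/-- the one parameter group of a projection -/
def cur (p : Matrix ι ι ℂ) (h1 : p * p = p) (h2 : star p = p) (t : ℝ) : U ι :=
  ⟨1 + (Complex.exp (t * Complex.I) - 1) • p, by
    have h3 : Complex.exp (t * Complex.I) * conj (Complex.exp (t * Complex.I)) = 1 := by
      rw [Complex.mul_conj, Complex.normSq_eq_norm_sq, Complex.norm_exp_ofReal_mul_I]; simp
    rw [Matrix.mem_unitaryGroup_iff]
    simp only [star_add, star_one, star_smul, h2, add_mul, mul_add, one_mul, mul_one,
      smul_mul_assoc, mul_smul_comm, h1, Complex.star_def, map_sub, map_one]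
    match_scalars
    · ring1
    · linear_combination h3⟩

variable {X Y : Matrix ι ι ℂ → Op H} {X' Y' : Matrix ι ι ℂ → Matrix ι ι ℂ → Op H}

theorem der_cur (hX : Dif X X') (v h : Matrix ι ι ℂ) (ξ : H) (t : ℝ) :
    HasDerivAt (fun t : ℝ => X (v + (Complex.exp (t * Complex.I) - 1) • h) ξ)
      (X' (v + (Complex.exp (t * Complex.I) - 1) • h)
        ((Complex.exp (t * Complex.I) * Complex.I) • h) ξ) t := by
  have h1 : HasDerivAt (fun s : ℂ => Complex.exp (s * Complex.I) - 1)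
      (Complex.exp (t * Complex.I) * Complex.I) t := by
    simpa using (((hasDerivAt_id (t : ℂ)).mul_const Complex.I).cexp).sub_const 1
  have h2 := ((hX.der v h _).scomp (t : ℂ) h1).clm_apply (hasDerivAt_const _ ξ)
  rw [(hX.lin _).map_smul]
  have h3 : HasDerivAt (fun s : ℝ => (s : ℂ)) (1 : ℂ) t := Complex.ofRealCLM.hasDerivAt
  have h4 := (h2.hasFDerivAt.restrictScalars ℝ).comp_hasDerivAt t h3
  simpa [Function.comp_def] using h4

theorem aux (hX : Dif X X') (hY : Dif Y Y') (ξ η : H)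
    (m : Matrix ι ι ℂ →ₗ[ℂ] Matrix ι ι ℂ →ₗ[ℂ] Matrix ι ι ℂ) (φ : U ι → U ι → U ι)
    (hm : ∀ s, Continuous fun v : U ι => m v s) (hφ : ∀ g v, (φ g v : Matrix ι ι ℂ) = m v g)
    (h1 : ∀ v, m v 1 = v) (h2 : ∀ v p, p * p = p → m (m v p) p = m v p)
    (hinv : ∀ (f : U ι → ℂ) g, Ex (fun v => f (φ g v)) = Ex f) (i k : ι) :
    Ex (fun v : U ι => ⟪Y v η, X' v (m v (Matrix.single i k 1)) ξ⟫_ℂ) =
      Ex fun v : U ι => ⟪Y' v (m v (Matrix.single k i 1)) η, X v ξ⟫_ℂ := by
  have cX : ∀ s, Continuous fun v : U ι => X' v (m v s) := fun s =>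
    hX.cont'.comp (continuous_subtype_val.prodMk (hm s))
  have cY : ∀ s, Continuous fun v : U ι => Y' v (m v s) := fun s =>
    hY.cont'.comp (continuous_subtype_val.prodMk (hm s))
  have c1 : ∀ s, Continuous fun v : U ι => ⟪Y v η, X' v (m v s) ξ⟫_ℂ := fun s =>
    (hY.contU.clm_apply continuous_const).inner ((cX s).clm_apply continuous_const)
  have c2 : ∀ s, Continuous fun v : U ι => ⟪Y' v (m v s) η, X v ξ⟫_ℂ := fun s =>
    ((cY s).clm_apply continuous_const).inner (hX.contU.clm_apply continuous_const)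
  let Φ : Matrix ι ι ℂ →ₗ[ℂ] ℂ :=
    { toFun := fun s => Ex (fun v : U ι => ⟪Y v η, X' v (m v s) ξ⟫_ℂ) -
        Ex fun v : U ι => ⟪Y' v (m v (star s)) η, X v ξ⟫_ℂ
      map_add' := fun s t => by
        simp only [star_add, map_add, (hX.lin _).map_add, (hY.lin _).map_add,
          add_apply, inner_add_left, inner_add_right]
        rw [Ex_add (c1 s) (c1 t), Ex_add (c2 _) (c2 _)]
        ring
      map_smul' := fun c s => by
        simp only [star_smul, map_smul, (hX.lin _).map_smul, (hY.lin _).map_smul,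
          smul_apply, inner_smul_left, inner_smul_right, Ex_mul,
          Complex.star_def, Complex.conj_conj, RingHom.id_apply, smul_eq_mul]
        ring }
  have h3 := lin_single Φ (fun p hp hp' => ?_) i k
  · have hs : star (Matrix.single i k (1 : ℂ)) = Matrix.single k i 1 := by
      rw [Matrix.star_eq_conjTranspose, Matrix.conjTranspose_single, star_one]
    simp only [Φ, LinearMap.coe_mk, AddHom.coe_mk, hs] at h3
    exact sub_eq_zero.1 h3
  have h4 : ∀ t (v : U ι), (φ (cur p hp hp' t) v : Matrix ι ι ℂ) =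
      v + (Complex.exp (t * Complex.I) - 1) • m v p := fun t v => by
    rw [hφ]
    simp only [cur, map_add, map_smul, h1]
  have h5 := Ex_deriv (f := fun v : U ι => ⟪Y v η, X v ξ⟫_ℂ)
    (G := fun v : U ι => Complex.I * (⟪Y v η, X' v (m v p) ξ⟫_ℂ - ⟪Y' v (m v p) η, X v ξ⟫_ℂ))
    ((hY.contU.clm_apply continuous_const).inner (hX.contU.clm_apply continuous_const))
    (continuous_const.mul ((c1 p).sub (c2 p))) (fun t => φ (cur p hp hp' t))
    (fun v => Subtype.ext (by rw [h4]; simp))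
    (fun t => continuous_induced_rng.2 ((hm (cur p hp hp' t)).congr fun v => (hφ _ v).symm))
    (fun t => hinv (fun v : U ι => ⟪Y v η, X v ξ⟫_ℂ) _) ?_
  · rw [Ex_mul, Ex_sub (c1 p) (c2 p)] at h5
    simp only [Φ, LinearMap.coe_mk, AddHom.coe_mk, hp']
    exact (mul_eq_zero.1 h5).resolve_left Complex.I_ne_zero
  intro v t
  simp only [h4]
  have h6 := (der_cur hY v (m v p) η t).inner ℂ (der_cur hX v (m v p) ξ t)
  refine h6.congr_deriv ?_
  have h7 : m (v + (Complex.exp (t * Complex.I) - 1) • m v p) p =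
      Complex.exp (t * Complex.I) • m v p := by
    simp only [map_add, map_smul, LinearMap.add_apply, LinearMap.smul_apply, h2 _ _ hp]
    module
  rw [h7]
  simp only [(hX.lin _).map_smul, (hY.lin _).map_smul, smul_apply, inner_smul_left,
    inner_smul_right, map_mul, Complex.conj_I]
  ring

end SD

variable {X Y : Matrix ι ι ℂ → Op H} {X' Y' : Matrix ι ι ℂ → Matrix ι ι ℂ → Op H}

theorem sd_right (hX : Dif X X') (hY : Dif Y Y') (ξ η : H) (i k : ι) :
    Ex (fun v : U ι => ⟪Y v η, X' v (v.1 * Matrix.single i k 1) ξ⟫_ℂ) =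
      Ex fun v : U ι => ⟪Y' v (v.1 * Matrix.single k i 1) η, X v ξ⟫_ℂ :=
  SD.aux hX hY ξ η (LinearMap.mul ℂ _) (fun g v => v * g)
    (fun _ => continuous_subtype_val.mul continuous_const) (fun _ _ => rfl) (fun v => mul_one v)
    (fun v p hp => by simp only [LinearMap.mul_apply', mul_assoc, hp])
    (fun f g => Ex_mul_right f g) i k

theorem sd_left (hX : Dif X X') (hY : Dif Y Y') (ξ η : H) (i k : ι) :
    Ex (fun v : U ι => ⟪Y v η, X' v (Matrix.single i k 1 * v.1) ξ⟫_ℂ) =
      Ex fun v : U ι => ⟪Y' v (Matrix.single k i 1 * v.1) η, X v ξ⟫_ℂ :=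
  SD.aux hX hY ξ η (LinearMap.mul ℂ _).flip (fun g v => g * v)
    (fun _ => continuous_const.mul continuous_subtype_val) (fun _ _ => rfl) (fun v => one_mul v)
    (fun v p hp => by simp only [LinearMap.flip_apply, LinearMap.mul_apply', ← mul_assoc, hp])
    (fun f g => Ex_mul_left f g) i k

theorem sd_bound {A B : ι → ι → U ι → ℂ} (hA : ∀ i k, Continuous (A i k))
    (hB : ∀ i k, Continuous (B i k)) (h0 : ∀ i k, Ex (A i k) = Ex (B i k)) {f : U ι → ℂ}
    (hf : Continuous f) {g : U ι → ℝ} (hg : Continuous g)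
    (h : ∀ v, ‖f v - (∑ i, ∑ k, A i k v - ∑ i, ∑ k, B i k v)‖ ≤ g v) : ‖Ex f‖ ≤ Ex g := by
  have cA : Continuous fun v => ∑ i, ∑ k, A i k v :=
    continuous_finsetSum _ fun i _ => continuous_finsetSum _ fun k _ => hA i k
  have cB : Continuous fun v => ∑ i, ∑ k, B i k v :=
    continuous_finsetSum _ fun i _ => continuous_finsetSum _ fun k _ => hB i k
  have h1 := norm_Ex_le hg h
  rw [Ex_sub hf (cA.fun_sub cB), Ex_sub cA cB,
    Ex_sum _ fun i _ => continuous_finsetSum _ fun k _ => hA i k,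
    Ex_sum _ fun i _ => continuous_finsetSum _ fun k _ => hB i k] at h1
  simp only [Ex_sum _ fun k _ => hA _ k, Ex_sum _ fun k _ => hB _ k, h0, sub_self, sub_zero] at h1
  exact h1

variable {Z : ι → ι → Matrix ι ι ℂ → Op H} {Z' : ι → ι → Matrix ι ι ℂ → Matrix ι ι ℂ → Op H}

theorem sd_right_bound (hZ : ∀ i k, Dif (Z i k) (Z' i k)) (hY : Dif Y Y') (ξ η : H)
    {f : U ι → ℂ} (hf : Continuous f) {g : U ι → ℝ} (hg : Continuous g)
    (h : ∀ v : U ι, ‖f v - (∑ i, ∑ k, ⟪Y v η, Z' i k v (v.1 * Matrix.single i k 1) ξ⟫_ℂ -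
      ∑ i, ∑ k, ⟪Y' v (v.1 * Matrix.single k i 1) η, Z i k v ξ⟫_ℂ)‖ ≤ g v) : ‖Ex f‖ ≤ Ex g :=
  sd_bound (fun i k => (hY.contU.clm_apply continuous_const).inner
      (((hZ i k).contR _).clm_apply continuous_const))
    (fun i k => ((hY.contR _).clm_apply continuous_const).inner
      ((hZ i k).contU.clm_apply continuous_const))
    (fun i k => sd_right (hZ i k) hY ξ η i k) hf hg h

theorem sd_left_bound (hZ : ∀ i k, Dif (Z i k) (Z' i k)) (hY : Dif Y Y') (ξ η : H)
    {f : U ι → ℂ} (hf : Continuous f) {g : U ι → ℝ} (hg : Continuous g)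
    (h : ∀ v : U ι, ‖f v - (∑ i, ∑ k, ⟪Y v η, Z' i k v (Matrix.single i k 1 * v.1) ξ⟫_ℂ -
      ∑ i, ∑ k, ⟪Y' v (Matrix.single k i 1 * v.1) η, Z i k v ξ⟫_ℂ)‖ ≤ g v) : ‖Ex f‖ ≤ Ex g :=
  sd_bound (fun i k => (hY.contU.clm_apply continuous_const).inner
      (((hZ i k).contL _).clm_apply continuous_const))
    (fun i k => ((hY.contL _).clm_apply continuous_const).inner
      ((hZ i k).contU.clm_apply continuous_const))
    (fun i k => sd_left (hZ i k) hY ξ η i k) hf hg h

theorem Ex_le_of_sq {f : U ι → ℝ} (hf : Continuous f) {b : ℝ} (hb : 0 ≤ b)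
    (h : Ex (fun v => f v ^ 2) ≤ b ^ 2) : Ex f ≤ b := by
  have h1 : Ex (fun _ : U ι => -(Ex f) ^ 2) ≤ Ex fun v => f v ^ 2 - 2 * Ex f * f v :=
    Ex_mono continuous_const ((hf.pow 2).sub (continuous_const.mul hf)) fun v => by
      nlinarith [sq_nonneg (f v - Ex f)]
  rw [Ex_const, Ex_sub (hf.fun_pow 2) (continuous_const.fun_mul hf), Ex_mul_real] at h1
  exact (abs_le_of_sq_le_sq' (by nlinarith) hb).2

end Pool.Agent.Kad
end
end

-- part Pool.Agent.Lib.MP_22c5db_an.RM1
section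

/-! Words in a Haar unitary have small conditional expectation. -/

open scoped InnerProductSpace ComplexConjugate
open Finset

noncomputable section

namespace Pool.Agent.Kad

universe u

variable {H : Type u} [NormedAddCommGroup H] [InnerProductSpace ℂ H] [CompleteSpace H]

variable {ι : Type} [Fintype ι] [DecidableEq ι] {E : ι → ι → Op H}

set_option linter.unusedSectionVars false

namespace RM

theorem cs2 {f g : ι → ι → ℝ} {A B : ℝ} (hA : 0 ≤ A) (hB : 0 ≤ B)
    (hf : ∑ i, ∑ k, f i k ^ 2 ≤ A ^ 2) (hg : ∑ i, ∑ k, g i k ^ 2 ≤ B ^ 2) :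
    ∑ i, ∑ k, f i k * g i k ≤ A * B := by
  have h := sum_mul_sq_le_sq_mul_sq (univ : Finset (ι × ι)) (fun p => f p.1 p.2)
    (fun p => g p.1 p.2)
  simp only [Fintype.sum_prod_type] at h
  refine (abs_le_of_sq_le_sq' (h.trans ?_) (mul_nonneg hA hB)).2
  rw [mul_pow]
  exact mul_le_mul hf hg (by positivity) (by positivity)

theorem inner2 {a b : ι → ι → H} {A B : ℝ} (hA : 0 ≤ A) (hB : 0 ≤ B)
    (hf : ∑ i, ∑ k, ‖a i k‖ ^ 2 ≤ A ^ 2) (hg : ∑ i, ∑ k, ‖b i k‖ ^ 2 ≤ B ^ 2) :
    ‖∑ i, ∑ k, ⟪a i k, b i k⟫_ℂ‖ ≤ A * B :=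
  (norm_sum_le_of_le _ fun _ _ => norm_sum_le_of_le _ fun _ _ => norm_inner_le_norm _ _).trans
    (cs2 hA hB hf hg)

theorem mink {a b : ι → ι → H} {A B : ℝ} (hA : 0 ≤ A) (hB : 0 ≤ B)
    (hf : ∑ i, ∑ k, ‖a i k‖ ^ 2 ≤ A ^ 2) (hg : ∑ i, ∑ k, ‖b i k‖ ^ 2 ≤ B ^ 2) :
    ∑ i, ∑ k, ‖a i k + b i k‖ ^ 2 ≤ (A + B) ^ 2 := by
  have h := cs2 hA hB hf hg
  calc _ ≤ ∑ i, ∑ k, (‖a i k‖ ^ 2 + 2 * (‖a i k‖ * ‖b i k‖) + ‖b i k‖ ^ 2) := by
        refine sum_le_sum fun i _ => sum_le_sum fun k _ => ?_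
        calc _ ≤ (‖a i k‖ + ‖b i k‖) ^ 2 := by gcongr; exact norm_add_le _ _
          _ = _ := by ring
    _ ≤ _ := by
        simp only [sum_add_distrib, ← mul_sum]
        nlinarith

theorem mapp (x y : Op H) (ζ : H) : (x * y) ζ = x (y ζ) := rfl

theorem sapp {κ : Type*} (s : Finset κ) (x : κ → Op H) (ζ : H) :
    (∑ a ∈ s, x a) ζ = ∑ a ∈ s, x a ζ := _root_.sum_apply s x ζ

theorem sum4 {κ : Type} [Fintype κ] {M : Type*} [AddCommMonoid M] (f : ι → ι → κ → κ → M) :
    ∑ i, ∑ k, ∑ p, ∑ q, f i k p q = ∑ p, ∑ q, ∑ i, ∑ k, f i k p q := by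
  have h := sum_comm (s := (univ : Finset (ι × ι))) (t := (univ : Finset (κ × κ)))
    (f := fun a b => f a.1 a.2 b.1 b.2)
  simpa only [Fintype.sum_prod_type] using h

theorem app_le {x : Op H} (hx : ‖x‖ ≤ 1) (ζ : H) : ‖x ζ‖ ≤ ‖ζ‖ :=
  (x.le_of_opNorm_le hx ζ).trans (one_mul _).le

theorem unit_le {x : Op H} (hx : x ∈ unitary (Op H)) : ‖x‖ ≤ 1 := by
  rcases subsingleton_or_nontrivial (Op H) with h | h
  · rw [Subsingleton.elim x 0, norm_zero]; exact zero_le_one
  · exact (CStarRing.norm_of_mem_unitary hx).le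

theorem mul_le {x y : Op H} (hx : ‖x‖ ≤ 1) (hy : ‖y‖ ≤ 1) : ‖x * y‖ ≤ 1 :=
  (norm_mul_le _ _).trans (mul_le_one₀ hx (norm_nonneg _) hy)

theorem inner_star (x : Op H) (a b : H) : ⟪a, x b⟫_ℂ = ⟪star x a, b⟫_ℂ := by
  rw [ContinuousLinearMap.star_eq_adjoint, ContinuousLinearMap.adjoint_inner_left]

theorem inner_star' (x : Op H) (a b : H) : ⟪x a, b⟫_ℂ = ⟪a, star x b⟫_ℂ := by
  rw [ContinuousLinearMap.star_eq_adjoint, ContinuousLinearMap.adjoint_inner_right]

theorem sum_ce [Nonempty ι] (E : ι → ι → Op H) (x : Op H) :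
    ∑ i, ∑ k, E i k * x * E k i = (Fintype.card ι : ℂ) • ce E x := by
  have hc : (Fintype.card ι : ℂ) ≠ 0 := Nat.cast_ne_zero.2 Fintype.card_ne_zero
  rw [ce, smul_smul, mul_inv_cancel₀ hc, one_smul]

/-- contractive functions with controlled derivative -/
def Good (c : ℝ) (X : Matrix ι ι ℂ → Op H) : Prop :=
  0 ≤ c ∧ ∃ X', Dif X X' ∧ (∀ v : U ι, ‖X v‖ ≤ 1) ∧ ∀ (v : U ι) (ζ : H),
    ∑ i, ∑ k, ‖X' v (v.1 * Matrix.single i k 1) ζ‖ ^ 2 ≤ (c * (√(Fintype.card ι) * ‖ζ‖)) ^ 2

variable {X Y : Matrix ι ι ℂ → Op H} {c c' : ℝ}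

theorem Good.cont (h : Good c X) : Continuous fun v : U ι => X v := h.2.choose_spec.1.contU

theorem Good.norm_le (h : Good c X) (v : U ι) : ‖X v‖ ≤ 1 := h.2.choose_spec.2.1 v

theorem Good.mono (h : Good c X) (hc : c ≤ c') : Good c' X := by
  obtain ⟨h0, X', h1, h2, h3⟩ := h
  exact ⟨h0.trans hc, X', h1, h2, fun v ζ => (h3 v ζ).trans (by gcongr)⟩

theorem Good.const {B : Op H} (hB : ‖B‖ ≤ 1) : Good 0 fun _ : Matrix ι ι ℂ => B :=
  ⟨le_rfl, _, Dif.const B, fun _ => hB, fun _ _ => by simp⟩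

theorem sq_card (ζ : H) : (√(Fintype.card ι) * ‖ζ‖) ^ 2 = Fintype.card ι * ‖ζ‖ ^ 2 := by
  rw [mul_pow, Real.sq_sqrt (Nat.cast_nonneg _)]

theorem Good.rho (h : MU E 1) : Good 1 (rho E) := by
  refine ⟨zero_le_one, _, Dif.rho E, fun v => unit_le (h.rho_unitary v), fun v ζ => ?_⟩
  rw [one_mul, sq_card, ← MUL.sum_sum_sq h]
  refine sum_le_sum fun i _ => sum_le_sum fun k _ => ?_
  rw [h.rho_mul, rho_single, mapp]
  gcongr
  exact app_le (unit_le (h.rho_unitary v)) _

theorem Good.mul (hX : Good c X) (hY : Good c' Y) : Good (c + c') fun v => X v * Y v := by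
  obtain ⟨h0, X', h1, h2, h3⟩ := hX
  obtain ⟨k0, Y', k1, k2, k3⟩ := hY
  refine ⟨add_nonneg h0 k0, _, h1.mul k1, fun v => mul_le (h2 v) (k2 v), fun v ζ => ?_⟩
  simp only [add_apply, mapp]
  rw [add_mul]
  refine mink (by positivity) (by positivity) ((h3 v _).trans ?_) (le_trans ?_ (k3 v ζ))
  · gcongr; exact app_le (k2 v) ζ
  · gcongr; exact app_le (h2 v) _

theorem Good.ce {κ : Type} [Fintype κ] [DecidableEq κ] {G : κ → κ → Op H} (hG : MU G 1)
    (hX : Good c X) : Good c fun v => ce G (X v) := by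
  obtain ⟨h0, X', h1, h2, h3⟩ := hX
  refine ⟨h0, _, h1.ce G, fun v => (hG.norm_ce _).trans (h2 v), fun v ζ => ?_⟩
  calc _ ≤ ∑ i, ∑ k, (Fintype.card κ : ℝ)⁻¹ *
        ∑ p, ∑ q, ‖X' v (v.1 * Matrix.single i k 1) (G q p ζ)‖ ^ 2 :=
        sum_le_sum fun i _ => sum_le_sum fun k _ => hG.ce_sq _ _
    _ = (Fintype.card κ : ℝ)⁻¹ * ∑ p, ∑ q, ∑ i, ∑ k,
        ‖X' v (v.1 * Matrix.single i k 1) (G q p ζ)‖ ^ 2 := by
        simp only [← mul_sum]
        congr 1
        exact sum4 fun i k p q => ‖X' v (v.1 * Matrix.single i k 1) (G q p ζ)‖ ^ 2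
    _ ≤ (Fintype.card κ : ℝ)⁻¹ * ∑ p, ∑ q, (c * √(Fintype.card ι)) ^ 2 * ‖G q p ζ‖ ^ 2 := by
        gcongr with p _ q _
        exact (h3 v _).trans (by rw [← mul_assoc, mul_pow])
    _ = ((Fintype.card κ : ℝ)⁻¹ * Fintype.card κ) * (c * (√(Fintype.card ι) * ‖ζ‖)) ^ 2 := by
        simp only [← mul_sum]
        rw [sum_comm, MUL.sum_sum_sq hG]
        ring
    _ ≤ _ := mul_le_of_le_one_left (by positivity) inv_mul_le_one

/-- words -/
def wd (E : ι → ι → Op H) : List (Op H) → Matrix ι ι ℂ → Op H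
  | [], _ => 1
  | B :: l, v => B * rho E v * wd E l v

/-- derivatives of words -/
def wd' (E : ι → ι → Op H) : List (Op H) → Matrix ι ι ℂ → Matrix ι ι ℂ → Op H
  | [], _, _ => 0
  | B :: l, v, h => B * rho E h * wd E l v + B * rho E v * wd' E l v h

theorem dif_wd (E : ι → ι → Op H) : ∀ l : List (Op H), Dif (wd E l) (wd' E l)
  | [] => Dif.const 1
  | B :: l => (((Dif.const B).mul (Dif.rho E)).mul (dif_wd E l)).congr (fun _ => rfl)
      fun v h => by simp only [wd', zero_mul, zero_add]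

theorem good_wd (h : MU E 1) : ∀ l : List (Op H), (∀ B ∈ l, ‖B‖ ≤ 1) → Good l.length (wd E l)
  | [], _ => (Good.const (unit_le (one_mem _))).mono (by simp)
  | B :: l, hl => (((Good.const (hl B (by simp))).mul (Good.rho h)).mul
      (good_wd h l fun B hB => hl B (by simp [hB]))).mono (by simp [add_comm])

theorem wd_append (E : ι → ι → Op H) (l l' : List (Op H)) (v : Matrix ι ι ℂ) :
    wd E (l ++ l') v = wd E l v * wd E l' v := by
  induction l with
  | nil => simp [wd]
  | cons B l ih => simp only [List.cons_append, wd, ih, mul_assoc]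

theorem wd_replicate (E : ι → ι → Op H) (y : Op H) (n : ℕ) (v : Matrix ι ι ℂ) :
    wd E (List.replicate n y) v = (y * rho E v) ^ n := by
  induction n with
  | zero => simp [wd]
  | succ n ih => rw [List.replicate_succ, wd, ih, pow_succ']

theorem split [Nonempty ι] (h : MU E 1) (v : Matrix ι ι ℂ) (l : List (Op H)) :
    ∑ i, ∑ k, wd' E l v (v * Matrix.single i k 1) * E k i = (Fintype.card ι : ℂ) •
      ∑ n ∈ range l.length, wd E (l.take (n + 1)) v * ce E (wd E (l.drop (n + 1)) v) := by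
  induction l with
  | nil => simp [wd']
  | cons B l ih =>
    simp only [wd', add_mul, sum_add_distrib, h.rho_mul, rho_single, mul_assoc, ← mul_sum, ih]
    simp only [← mul_assoc (E _ _), sum_ce]
    rw [List.length_cons, sum_range_succ']
    simp only [List.take_succ_cons, List.drop_succ_cons, wd, List.take_zero, List.drop_zero,
      mul_one, mul_assoc, ← mul_sum, mul_smul_comm, smul_add]
    exact add_comm _ _

theorem entries [Nonempty ι] (h : MU E 1) {x : Op H} (hx : ‖x‖ ≤ 1) {ζ : H} {t : ℝ}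
    (ht : ‖ζ‖ ≤ t) : ∑ i, ∑ k, ‖ce E (x * E k i) ζ‖ ^ 2 ≤ ((√(Fintype.card ι))⁻¹ * t) ^ 2 := by
  refine (h.ce_entries x ζ).trans ?_
  rw [mul_pow, inv_pow, Real.sq_sqrt (Nat.cast_nonneg _), mul_assoc]
  gcongr
  calc _ ≤ 1 ^ 2 * t ^ 2 := by gcongr
    _ = _ := by ring

theorem small [Nonempty ι] (h : MU E 1) (η : H) (hY : Good c' Y) (j : ℕ) :
    ∀ l : List (Op H), l.length = j + 1 → (∀ B ∈ l, ‖B‖ ≤ 1) → ∀ (c : ℝ)
    (X : Matrix ι ι ℂ → Op H), Good c X → ∀ ξ : H,
    Fintype.card ι * ‖Ex fun v : U ι => ⟪Y v η, ce E (wd E l v) (X v ξ)⟫_ℂ‖ ≤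
      2 ^ (j + 1) * (c + c' + (j + 1)) * (‖ξ‖ * ‖η‖) := by
  induction j using Nat.strong_induction_on with
  | _ j ih =>
  intro l hl hB c X hX ξ
  have hD : (0 : ℝ) < Fintype.card ι := Nat.cast_pos.2 Fintype.card_pos
  have hs : 0 < √(Fintype.card ι : ℝ) := Real.sqrt_pos.2 hD
  have hP := good_wd h l hB
  have hX2 : ∀ n, Good (l.drop (n + 1)).length fun v => ce E (wd E (l.drop (n + 1)) v) := fun n =>
    (good_wd h _ fun B hB' => hB B (List.mem_of_mem_drop hB')).ce h
  have hX1 : ∀ n, Good (l.take (n + 1)).length fun v => ce E (wd E (l.take (n + 1)) v) := fun n =>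
    (good_wd h _ fun B hB' => hB B (List.mem_of_mem_take hB')).ce h
  set g : ℕ → U ι → ℂ := fun n v => ⟪Y v η, ce E (wd E (l.take (n + 1)) v)
    ((ce E (wd E (l.drop (n + 1)) v) * X v) ξ)⟫_ℂ with hg
  have cg : ∀ n, Continuous (g n) := fun n => (hY.cont.clm_apply continuous_const).inner
    ((hX1 n).cont.clm_apply (((hX2 n).mul hX).cont.clm_apply continuous_const))
  have hgj : g j = fun v : U ι => ⟪Y v η, ce E (wd E l v) (X v ξ)⟫_ℂ := by
    funext v
    simp only [hg, ← hl, List.take_length, List.drop_length, wd, h.ce_one, one_mul]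
  have hc := hX.1
  have hc' := hY.1
  have key : ‖Ex fun v => (Fintype.card ι : ℂ) * ∑ n ∈ range (j + 1), g n v‖ ≤
      Ex fun _ : U ι => (c + c') * (‖ξ‖ * ‖η‖) := by
    obtain ⟨-, X', h1, h2, h3⟩ := hX
    obtain ⟨-, Y', k1, k2, k3⟩ := hY
    refine sd_right_bound (fun i k => (((dif_wd E l).mul (Dif.const (E k i))).ce E).mul h1) k1 ξ η
      (continuous_const.fun_mul (continuous_finsetSum _ fun n _ => cg n)) continuous_const
      fun v => ?_
    have e1 : ∑ i, ∑ k, ⟪Y v η, ce E (wd' E l v (v.1 * Matrix.single i k 1) * E k i) (X v ξ)⟫_ℂ =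
        (Fintype.card ι : ℂ) * ∑ n ∈ range (j + 1), g n v := by
      simp only [← inner_sum, ← sapp, ← ce_sum]
      rw [split h, MUL.ce_smul, ce_sum, smul_apply, inner_smul_right, sapp, inner_sum, hl]
      simp only [hg, h.ce_mul_right _ (h.ce_comm _), mapp]
    simp only [mul_zero, add_zero, add_apply, mapp, inner_add_right, sum_add_distrib, e1]
    have e2 : ‖∑ i, ∑ k, ⟪Y v η, ce E (wd E l v * E k i)
        (X' v (v.1 * Matrix.single i k 1) ξ)⟫_ℂ‖ ≤
        ((√(Fintype.card ι))⁻¹ * ‖η‖) * (c * (√(Fintype.card ι) * ‖ξ‖)) := by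
      simp only [inner_star (ce E _)]
      refine inner2 (by positivity) (by positivity) ?_ (h3 v ξ)
      simp only [← h.ce_star, star_mul, h.adj, MUL.ce_left h, ← MUL.ce_right h]
      rw [sum_comm]
      exact entries h (by rw [norm_star]; exact hP.norm_le v) (app_le (k2 v) η)
    have e3 : ‖∑ i, ∑ k, ⟪Y' v (v.1 * Matrix.single k i 1) η, ce E (wd E l v * E k i) (X v ξ)⟫_ℂ‖ ≤
        (c' * (√(Fintype.card ι) * ‖η‖)) * ((√(Fintype.card ι))⁻¹ * ‖ξ‖) := by
      refine inner2 (by positivity) (by positivity) ?_ (entries h (hP.norm_le v) (app_le (h2 v) ξ))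
      rw [sum_comm]
      exact k3 v η
    rw [show ∀ a b d : ℂ, a - (a + b - d) = d - b from fun a b d => by ring]
    refine (norm_sub_le _ _).trans ((add_le_add e3 e2).trans (le_of_eq ?_))
    field_simp
    ring
  rw [Ex_const, Ex_mul, Ex_sum _ fun n _ => cg n, sum_range_succ, hgj, norm_mul,
    Complex.norm_natCast] at key
  have hind : ∀ n ∈ range j, Fintype.card ι * ‖Ex (g n)‖ ≤
      2 ^ (n + 1) * ((c + c' + (j + 1)) * (‖ξ‖ * ‖η‖)) := by
    intro n hn
    have hn' := mem_range.1 hn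
    have := ih n hn' (l.take (n + 1)) (by rw [List.length_take, hl]; omega)
      (fun B hB' => hB B (List.mem_of_mem_take hB')) _ _ ((hX2 n).mul hX) ξ
    refine this.trans (le_of_eq ?_)
    rw [List.length_drop, hl, Nat.cast_sub (by omega)]
    push_cast
    ring
  have h2 : ∑ n ∈ range j, (2 : ℝ) ^ (n + 1) = 2 ^ (j + 1) - 2 := by
    simp only [pow_succ, ← sum_mul, geom_sum_eq (x := (2 : ℝ)) (by norm_num)]
    ring
  have h3 := sum_le_sum hind
  rw [← sum_mul, h2, ← mul_sum] at h3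
  have h4 : ∀ a b : ℂ, ‖b‖ ≤ ‖a + b‖ + ‖a‖ := fun a b => by
    simpa using norm_sub_le (a + b) a
  have h5 := mul_le_mul_of_nonneg_left ((h4 (∑ n ∈ range j, Ex (g n))
    (Ex fun v : U ι => ⟪Y v η, ce E (wd E l v) (X v ξ)⟫_ℂ)).trans
    (add_le_add le_rfl (norm_sum_le _ _))) hD.le
  rw [mul_add] at h5
  have h6 : 0 ≤ ‖ξ‖ * ‖η‖ := by positivity
  have h7 : (0 : ℝ) ≤ j := Nat.cast_nonneg j
  refine h5.trans ((add_le_add key h3).trans ?_)
  nlinarith [mul_nonneg hc h6, mul_nonneg hc' h6, mul_nonneg h7 h6]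

/-- smallness of the expectations of words -/
def Sm (E : ι → ι → Op H) (M : ℕ) (δ : ℝ) : Prop :=
  ∀ l : List (Op H), l ≠ [] → l.length ≤ M → (∀ B ∈ l, ‖B‖ ≤ 1) →
    ∀ X : Matrix ι ι ℂ → Op H, Good M X → ∀ ξ : H,
      Ex (fun v : U ι => ‖ce E (wd E l v) (X v ξ)‖) ≤ δ * ‖ξ‖

theorem sm [Nonempty ι] (h : MU E 1) {M : ℕ} {δ : ℝ} (hδ : 0 ≤ δ)
    (hD : 2 ^ M * (4 * M) ≤ δ ^ 2 * Fintype.card ι) : Sm E M δ := by
  intro l h0 hl hB X hX ξ
  obtain ⟨j, hj⟩ : ∃ j, l.length = j + 1 := ⟨l.length - 1, by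
    have := List.length_pos_iff.2 h0; omega⟩
  have hY := ((good_wd h l hB).ce h).mul hX
  have h1 := small h ξ hY j l hj hB _ X hX ξ
  have hc : Continuous fun v : U ι => ‖ce E (wd E l v) (X v ξ)‖ :=
    (hY.cont.clm_apply continuous_const).norm
  refine Ex_le_of_sq hc (by positivity) ?_
  have hD0 : (0 : ℝ) < Fintype.card ι := Nat.cast_pos.2 Fintype.card_pos
  simp only [mapp, inner_self_eq_norm_sq_to_K, Complex.coe_algebraMap,
    ← Complex.ofReal_pow, Ex_ofReal, Complex.norm_real, Real.norm_eq_abs] at h1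
  have hM : (j + 1 : ℝ) ≤ M := by exact_mod_cast hj ▸ hl
  have h2 : (2 : ℝ) ^ (j + 1) * (M + (l.length + M) + (j + 1)) ≤ 2 ^ M * (4 * M) := by
    rw [hj]
    push_cast
    gcongr
    · norm_num
    · exact hj ▸ hl
    · linarith
  refine le_of_mul_le_mul_left ?_ hD0
  refine (mul_le_mul_of_nonneg_left (le_abs_self _) hD0.le).trans (h1.trans ?_)
  calc _ ≤ δ ^ 2 * Fintype.card ι * (‖ξ‖ * ‖ξ‖) :=
        mul_le_mul_of_nonneg_right (h2.trans hD) (by positivity)
    _ = _ := by ring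

end RM

end Pool.Agent.Kad
end
end

-- part Pool.Agent.Lib.MP_22c5db_an.RM2
section

/-! Two applications of integration by parts to powers of `y * rho E v`. -/

open scoped InnerProductSpace ComplexConjugate
open Finset

noncomputable section

namespace Pool.Agent.Kad

universe u

variable {H : Type u} [NormedAddCommGroup H] [InnerProductSpace ℂ H] [CompleteSpace H]

variable {ι : Type} [Fintype ι] [DecidableEq ι] {E : ι → ι → Op H}

set_option linter.unusedSectionVars false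

namespace RM

theorem dif_pow (E : ι → ι → Op H) (y : Op H) (b : ℕ) : Dif (fun v => (y * rho E v) ^ b)
    (fun v h => ∑ c ∈ range b, (y * rho E v) ^ c * (y * rho E h) * (y * rho E v) ^ (b - 1 - c)) := by
  induction b with
  | zero => exact (Dif.const 1).congr (fun _ => pow_zero _) fun _ _ => by simp
  | succ b ih =>
    refine (ih.mul ((Dif.const y).mul (Dif.rho E))).congr (fun _ => pow_succ _ _) fun v h => ?_
    rw [sum_range_succ, sum_mul, zero_mul, zero_add, Nat.add_sub_cancel, Nat.sub_self, pow_zero,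
      mul_one]
    congr 1
    refine sum_congr rfl fun c hc => ?_
    have : b - c = b - 1 - c + 1 := by have := mem_range.1 hc; omega
    rw [this, pow_succ, mul_assoc, mul_assoc, mul_assoc, mul_assoc, mul_assoc]

theorem dif_dw (h : MU E 1) (y X : Op H) (m : ℕ) : ∃ d', Dif (fun v => dw y X (rho E v) m) d' ∧
    ∀ v s, d' v (v * s) = ∑ c ∈ range m,
      (dw y X (rho E v) (c + 1) * rho E s * (y * rho E v) ^ (m - 1 - c) +
        (y * rho E v) ^ (c + 1) * rho E s * dw y X (rho E v) (m - 1 - c)) := by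
  induction m with
  | zero => exact ⟨_, Dif.const 0, fun _ _ => by simp⟩
  | succ m ih =>
    obtain ⟨d', h1, h2⟩ := ih
    refine ⟨_, ((dif_pow E y m).mul ((Dif.const X).mul (Dif.rho E))).add
      (h1.mul ((Dif.const y).mul (Dif.rho E))), fun v s => ?_⟩
    rw [sum_range_succ, h2, Nat.add_sub_cancel, Nat.sub_self, pow_zero, h.rho_mul, sum_mul, sum_mul]
    have h3 : ∑ c ∈ range m, (dw y X (rho E v) (c + 1) * rho E s * (y * rho E v) ^ (m - c) +
        (y * rho E v) ^ (c + 1) * rho E s * dw y X (rho E v) (m - c)) =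
        ∑ c ∈ range m, (y * rho E v) ^ c * (y * (rho E v * rho E s)) *
          (y * rho E v) ^ (m - 1 - c) * (X * rho E v) +
        ∑ c ∈ range m, (dw y X (rho E v) (c + 1) * rho E s * (y * rho E v) ^ (m - 1 - c) +
          (y * rho E v) ^ (c + 1) * rho E s * dw y X (rho E v) (m - 1 - c)) * (y * rho E v) := by
      rw [← sum_add_distrib]
      refine sum_congr rfl fun c hc => ?_
      have : m - c = m - 1 - c + 1 := by have := mem_range.1 hc; omega
      rw [this, dw.eq_2 _ _ _ (m - 1 - c), pow_succ, pow_succ]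
      noncomm_ring
    rw [h3, dw.eq_2 _ _ _ m, dw.eq_1]
    noncomm_ring

variable {y : Op H} {M : ℕ} {δ : ℝ}

theorem w_unit (h : MU E 1) (hy : y ∈ unitary (Op H)) (v : U ι) (b : ℕ) :
    (y * rho E v) ^ b ∈ unitary (Op H) := pow_mem (mul_mem hy (h.rho_unitary v)) b

theorem good_pow (h : MU E 1) (hy : y ∈ unitary (Op H)) (b : ℕ) :
    Good b fun v => (y * rho E v) ^ b := by
  have := good_wd h (List.replicate b y) fun B hB => by
    rw [List.eq_of_mem_replicate hB]; exact unit_le hy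
  rw [List.length_replicate] at this
  simpa only [← wd_replicate] using this

theorem Sm.pow (hS : Sm E M δ) (hy : y ∈ unitary (Op H)) {b : ℕ} (hb : b + 1 ≤ M)
    {X : Matrix ι ι ℂ → Op H} (hX : Good M X) (ξ : H) :
    Ex (fun v : U ι => ‖ce E ((y * rho E v) ^ (b + 1)) (X v ξ)‖) ≤ δ * ‖ξ‖ := by
  have := hS (List.replicate (b + 1) y) (by simp) (by simpa using hb) (fun B hB => by
    rw [List.eq_of_mem_replicate hB]; exact unit_le hy) X hX ξ
  simpa only [wd_replicate] using this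

theorem inner_unit {x : Op H} (hx : x ∈ unitary (Op H)) (a b : H) : ⟪x a, x b⟫_ℂ = ⟪a, b⟫_ℂ := by
  rw [inner_star', ← mapp, hx.1]; rfl

theorem cont_ce {X : U ι → Op H} (hX : Continuous X) {Y : U ι → Op H} (hY : Continuous Y) (ξ : H) :
    Continuous fun v => ‖ce E (X v) (Y v ξ)‖ :=
  (((continuous_ce E).comp hX).clm_apply (hY.clm_apply continuous_const)).norm

theorem conj_pow [Nonempty ι] (h : MU E 1) (hy : y ∈ unitary (Op H)) (hS : Sm E M δ)
    {F : Op H} (hF : ‖F‖ ≤ 1) (hFy : y * F = F * y)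
    (hFc : ∀ x, ce E (star F * x) = ce E (x * star F)) {τ : ℂ} (hτ : ce E F = τ • 1) {b : ℕ}
    (hb : b + 1 ≤ M) (ζ ζ' : H) :
    ‖Ex (fun v : U ι => ⟪((y * rho E v) ^ (b + 1)) ζ', F (((y * rho E v) ^ (b + 1)) ζ)⟫_ℂ) -
      τ * ⟪ζ', ζ⟫_ℂ‖ ≤ 2 * b * δ * (‖ζ‖ * ‖ζ'‖) := by
  have hD : (0 : ℝ) < Fintype.card ι := Nat.cast_pos.2 Fintype.card_pos
  have cw : ∀ n, Continuous fun v : U ι => (y * rho E v) ^ n := fun n => (good_pow h hy n).cont
  have gρ : ∀ n, n + 1 ≤ M → Good M fun v => rho E v * (y * rho E v) ^ n := fun n hn =>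
    ((Good.rho h).mul (good_pow h hy n)).mono (by rw [add_comm]; exact_mod_cast hn)
  have cρ : ∀ n, Continuous fun v : U ι => rho E v * (y * rho E v) ^ n := fun n =>
    ((Good.rho h).mul (good_pow h hy n)).cont
  have c0 : Continuous fun v : U ι =>
      ⟪((y * rho E v) ^ (b + 1)) ζ', F (((y * rho E v) ^ (b + 1)) ζ)⟫_ℂ :=
    ((cw _).clm_apply continuous_const).inner
      (F.continuous.comp ((cw _).clm_apply continuous_const))
  have hyF : ‖y * star F‖ ≤ 1 := mul_le (unit_le hy) (by rwa [norm_star])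
  set l : ℕ → List (Op H) := fun n => List.replicate n y ++ [y * star F] with hl
  have hlB : ∀ n, ∀ B ∈ l n, ‖B‖ ≤ 1 := fun n B hB => by
    rcases List.mem_append.1 hB with hB | hB
    · rw [List.eq_of_mem_replicate hB]; exact unit_le hy
    · rw [List.mem_singleton.1 hB]; exact hyF
  set g₁ : ℕ → U ι → ℝ := fun c v => ‖ζ'‖ *
    ‖ce E ((y * rho E v) ^ (c + 1)) ((rho E v * (y * rho E v) ^ (b - 1 - c)) ζ)‖ with hg₁
  set g₂ : ℕ → U ι → ℝ := fun c v => ‖ζ‖ *
    ‖ce E (wd E (l c) v) ((rho E v * (y * rho E v) ^ (b - (c + 1))) ζ')‖ with hg₂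
  have c1 : ∀ c, Continuous (g₁ c) := fun c => continuous_const.mul (cont_ce (cw _) (cρ _) _)
  have c2 : ∀ c, Continuous (g₂ c) := fun c =>
    continuous_const.mul (cont_ce (good_wd h _ (hlB c)).cont (cρ _) _)
  have key : ‖Ex fun v : U ι => (Fintype.card ι : ℂ) *
      (⟪((y * rho E v) ^ (b + 1)) ζ', F (((y * rho E v) ^ (b + 1)) ζ)⟫_ℂ - τ * ⟪ζ', ζ⟫_ℂ)‖ ≤
      Ex fun v : U ι => (Fintype.card ι : ℝ) * ∑ c ∈ range b, (g₁ c v + g₂ c v) := by
    refine sd_left_bound (fun i k => (Dif.const (F * y * E k i)).mul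
      ((Dif.rho E).mul (dif_pow E y b))) (dif_pow E y (b + 1)) ζ ζ'
      (continuous_const.fun_mul (c0.fun_sub continuous_const))
      (continuous_const.fun_mul (continuous_finsetSum _ fun c _ => (c1 c).fun_add (c2 c)))
      fun v => ?_
    set ρ := rho E v with hρ
    have hρu : ρ ∈ unitary (Op H) := h.rho_unitary v
    have hwu : ∀ n, (y * ρ) ^ n ∈ unitary (Op H) := w_unit h hy v
    have e1 : ∑ i, ∑ k, F * y * E k i * (E i k * ρ * (y * ρ) ^ b + ρ * ∑ c ∈ range b,
        (y * ρ) ^ c * (y * (E i k * ρ)) * (y * ρ) ^ (b - 1 - c)) = (Fintype.card ι : ℂ) •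
        (F * (y * ρ) ^ (b + 1) + ∑ c ∈ range b,
          F * y * (ce E ((y * ρ) ^ (c + 1)) * (ρ * (y * ρ) ^ (b - 1 - c)))) := by
      have e2 : ∀ i k, F * y * E k i * (E i k * ρ * (y * ρ) ^ b + ρ * ∑ c ∈ range b,
          (y * ρ) ^ c * (y * (E i k * ρ)) * (y * ρ) ^ (b - 1 - c)) =
          F * y * ((E k i * 1 * E i k) * (ρ * (y * ρ) ^ b)) + ∑ c ∈ range b,
          F * y * ((E k i * (ρ * ((y * ρ) ^ c * y)) * E i k) * (ρ * (y * ρ) ^ (b - 1 - c))) := by
        intro i k
        simp only [mul_add, mul_sum, mul_assoc, one_mul]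
      simp only [e2, sum_add_distrib]
      rw [sum_comm, smul_add, smul_sum]
      congr 1
      · simp only [← mul_sum, ← sum_mul, sum_ce, h.ce_one]
        simp only [smul_mul_assoc, mul_smul_comm, one_mul, pow_succ', mul_assoc]
      · rw [sum_comm]
        simp only [sum_comm (s := univ) (t := range b)]
        refine sum_congr rfl fun c _ => ?_
        simp only [← mul_sum, ← sum_mul, sum_ce]
        rw [hρ, h.ce_cyc, mul_assoc (_ ^ c) y, ← pow_succ, smul_mul_assoc, mul_smul_comm]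
    have e3 : ∀ c, ∑ i, ∑ k, ⟪((y * ρ) ^ c * (y * (E k i * ρ)) * (y * ρ) ^ (b - c)) ζ',
        (F * y * E k i * (ρ * (y * ρ) ^ b)) ζ⟫_ℂ = (Fintype.card ι : ℂ) *
        ⟪(ρ * (y * ρ) ^ (b - c)) ζ', ce E (star ((y * ρ) ^ c * y) * (F * y))
          ((ρ * (y * ρ) ^ b) ζ)⟫_ℂ := by
      intro c
      rw [← inner_smul_right, ← smul_apply, ← sum_ce, sapp, inner_sum]
      refine sum_congr rfl fun i _ => ?_
      rw [sapp, inner_sum]
      refine sum_congr rfl fun k _ => ?_
      simp only [mapp, ← MUL.inner_E h, ← inner_star']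
    have e4 : ce E (star ((y * ρ) ^ 0 * y) * (F * y)) = τ • 1 := by
      rw [pow_zero, one_mul, ← hFy, ← mul_assoc, hy.1, one_mul, hτ]
    have e5 : ∀ c, star (ce E (star ((y * ρ) ^ (c + 1) * y) * (F * y))) = ce E (wd E (l c) v) := by
      intro c
      rw [← h.ce_star, star_mul, star_star, ← hFy, star_mul, pow_succ', mul_assoc, mul_assoc,
        mul_assoc, ← mul_assoc (star y), hy.1, one_mul, hFc, mul_assoc, hρ, h.ce_cyc, hl]
      simp only [wd_append, wd_replicate, wd, mul_one, mul_assoc]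
    simp only [zero_mul, zero_add, h.rho_mul, rho_single, ← hρ, Nat.add_sub_cancel]
    simp only [← inner_sum, ← sapp, e1]
    simp only [sapp, sum_inner]
    simp only [sum_comm (s := univ) (t := range (b + 1)), e3]
    rw [sum_range_succ', e4, ← mul_sum _ _ (Fintype.card ι : ℂ)]
    simp only [smul_apply, add_apply, sapp, inner_smul_right, inner_add_right, inner_sum,
      Nat.sub_zero, one_apply_eq_self, inner_unit (mul_mem hρu (hwu b)), mapp F]
    rw [show ∀ D a t s r : ℂ, D * (a - t) - (D * (a + s) - (D * r + D * t)) = D * (r - s) from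
      fun D a t s r => by ring, norm_mul, Complex.norm_natCast, ← sum_sub_distrib]
    refine mul_le_mul_of_nonneg_left (norm_sum_le_of_le _ fun c _ => ?_) hD.le
    rw [add_comm (g₁ c v)]
    refine (norm_sub_le _ _).trans (add_le_add ?_ ?_)
    · rw [inner_star, e5]
      exact (norm_inner_le_norm _ _).trans ((mul_le_mul_of_nonneg_left
        (app_le (unit_le (mul_mem hρu (hwu b))) ζ) (norm_nonneg _)).trans (mul_comm _ _).le)
    · refine (norm_inner_le_norm _ _).trans (mul_le_mul (app_le (unit_le (hwu _)) _) ?_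
        (norm_nonneg _) (norm_nonneg _))
      exact (app_le hF _).trans (app_le (unit_le hy) _)
  rw [Ex_mul, Ex_mul_real, Ex_sub c0 continuous_const, Ex_const, norm_mul, Complex.norm_natCast,
    Ex_sum _ fun c _ => (c1 c).fun_add (c2 c)] at key
  refine (le_of_mul_le_mul_left key hD).trans ?_
  have h3 : ∀ c ∈ range b, Ex (fun v => g₁ c v + g₂ c v) ≤ 2 * δ * (‖ζ‖ * ‖ζ'‖) := by
    intro c hc
    have hc' := mem_range.1 hc
    rw [Ex_add (c1 c) (c2 c), hg₁, hg₂, Ex_mul_real, Ex_mul_real]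
    have k1 := hS.pow hy (b := c) (by omega) (gρ (b - 1 - c) (by omega)) ζ
    have k2 := hS (l c) (by simp [hl]) (by simp [hl]; omega) (hlB c) _
      (gρ (b - (c + 1)) (by omega)) ζ'
    calc _ ≤ ‖ζ'‖ * (δ * ‖ζ‖) + ‖ζ‖ * (δ * ‖ζ'‖) := by gcongr
      _ = _ := by ring
  refine (sum_le_card_nsmul _ _ _ h3).trans (le_of_eq ?_)
  rw [card_range, nsmul_eq_mul]
  ring

end RM

end Pool.Agent.Kad
end
end
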