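import Pool.Agent.Lib.MP_22c5db_an.VN1
import Pool.Agent.Lib.MP_22c5db_an.RM2

-- part Pool.Agent.Lib.MP_22c5db_an.Groth
section

/-! Derivations are row and column bounded. -/

open scoped InnerProductSpace ComplexConjugate
open Finset

noncomputable section

namespace Pool.Agent.Kad

universe u

variable {H : Type u} [NormedAddCommGroup H] [InnerProductSpace ℂ H] [CompleteSpace H]

variable {R : VonNeumannAlgebra H} {δ : Op H →ₗ[ℂ] Op H} {c : ℝ}

theorem Der.one (h : Der R δ) : δ 1 = 0 := by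
  have := h 1 (one_mem R) 1 (one_mem R)
  rw [mul_one, one_mul, mul_one] at this
  exact left_eq_add.1 this

theorem Der.adjoint (h : Der R δ) : Der R (dag δ) := fun a ha b hb => by
  change star (δ (star (a * b))) = a * star (δ (star b)) + star (δ (star a)) * b
  rw [star_mul, h _ (star_mem hb) _ (star_mem ha), star_add, star_mul, star_mul, star_star,
    star_star, add_comm]

theorem Bd.adjoint (h : Bd R δ c) : Bd R (dag δ) c := fun a ha => by
  change ‖star (δ (star a))‖ ≤ _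
  rw [norm_star, ← norm_star a]
  exact h _ (star_mem ha)

namespace Groth

lemma norm_sq_eq (x : Op H) (ζ : H) : ‖x ζ‖ ^ 2 = RCLike.re ⟪(star x * x) ζ, ζ⟫_ℂ := by
  rw [mul_apply_eq_comp, ContinuousLinearMap.star_eq_adjoint,
    ContinuousLinearMap.adjoint_inner_left, inner_self_eq_norm_sq]

lemma exists_sqrt {h : Op H} (hh : IsSelfAdjoint h) (hR : h ∈ R) (h1 : ‖h‖ ≤ 1) :
    ∃ s ∈ R, IsSelfAdjoint s ∧ s * h = h * s ∧ s * s + h * h = 1 ∧ 0 ≤ 1 - s ∧ 1 - s ≤ h * h := by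
  have hs : ∀ t ∈ spectrum ℝ h, 0 ≤ 1 - t ^ 2 := fun t ht => by
    have h2 : |t| ≤ 1 := (spectrum.norm_le_norm_mul_of_mem ht).trans
      (mul_le_one₀ h1 (norm_nonneg _) ContinuousLinearMap.norm_id_le)
    rw [sub_nonneg, sq_le_one_iff_abs_le_one]
    exact h2
  have e1 : h * h = cfc (fun t : ℝ => t * t) h := by rw [cfc_mul .., cfc_id' ℝ h]
  have e2 : 1 - cfc (fun t : ℝ => √(1 - t ^ 2)) h = cfc (fun t : ℝ => 1 - √(1 - t ^ 2)) h := by
    rw [cfc_sub .., cfc_const_one ℝ h]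
  refine ⟨cfc (fun t : ℝ => √(1 - t ^ 2)) h, mem_of_comm fun r hr => ?_, IsSelfAdjoint.cfc, ?_, ?_,
    ?_, ?_⟩
  · exact (Commute.cfc_real (comm_of_mem hR hr).symm _).eq.symm
  · exact (Commute.cfc_real (Commute.refl h) _).eq
  · rw [e1, ← cfc_mul .., ← cfc_add .., ← cfc_const_one ℝ h]
    refine cfc_congr fun t ht => ?_
    rw [Real.mul_self_sqrt (hs t ht)]
    ring
  · rw [e2]
    refine cfc_nonneg fun t _ => sub_nonneg.2 (Real.sqrt_le_one.2 ?_)
    nlinarith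
  · rw [e1, e2]
    refine cfc_mono fun t ht => ?_
    have h2 := Real.mul_self_sqrt (hs t ht)
    have h3 : √(1 - t ^ 2) ≤ 1 := Real.sqrt_le_one.2 (by nlinarith)
    nlinarith [Real.sqrt_nonneg (1 - t ^ 2)]

lemma unit_of {s h : Op H} (hs : IsSelfAdjoint s) (hh : IsSelfAdjoint h) (hc : s * h = h * s)
    (h1 : s * s + h * h = 1) : s + Complex.I • h ∈ unitary (Op H) := by
  have e : star (s + Complex.I • h) = s - Complex.I • h := by
    rw [star_add, star_smul, hs.star_eq, hh.star_eq, Complex.star_def, Complex.conj_I, neg_smul,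
      sub_eq_add_neg]
  rw [Unitary.mem_iff, e]
  constructor <;>
  · simp only [mul_add, add_mul, mul_sub, sub_mul, smul_mul_assoc, mul_smul_comm, smul_smul,
      smul_add, smul_sub, Complex.I_mul_I, neg_smul, one_smul, hc]
    rw [← h1]
    abel

omit [CompleteSpace H] in
lemma norm_le_one {κ : Type} [Fintype κ] {x : κ → Op H}
    (h : ∀ ζ, ∑ i, ‖x i ζ‖ ^ 2 ≤ ‖ζ‖ ^ 2) (i : κ) : ‖x i‖ ≤ 1 := by
  refine ContinuousLinearMap.opNorm_le_bound _ zero_le_one fun ζ => ?_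
  rw [one_mul]
  refine (sq_le_sq₀ (norm_nonneg _) (norm_nonneg _)).1 ?_
  exact (single_le_sum (f := fun i => ‖x i ζ‖ ^ 2) (fun _ _ => sq_nonneg _) (mem_univ i)).trans (h ζ)

variable {T : Op H →ₗ[ℂ] H} {b : ℝ}

lemma key (hT : ∀ a ∈ R, ‖T a‖ ≤ b * ‖a‖) (hb : 0 ≤ b) {S ε : ℝ}
    (hS : ∀ w ∈ R, w ∈ unitary (Op H) → ‖T w‖ ^ 2 ≤ S) {u : Op H} (hu : u ∈ R)
    (hu' : u ∈ unitary (Op H)) (hε : S - ε ≤ ‖T u‖ ^ 2) {κ : Type} [Fintype κ] {h : κ → Op H}
    (hR : ∀ i, h i ∈ R) (hh : ∀ i, IsSelfAdjoint (h i)) (h1 : ∀ ζ, ∑ i, ‖h i ζ‖ ^ 2 ≤ ‖ζ‖ ^ 2) :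
    ∑ i, ‖T (u * h i)‖ ^ 2 ≤ Fintype.card κ * ε + 2 * b ^ 2 := by
  choose s sR ssa sc s1 s0 sle using fun i => exists_sqrt (hh i) (hR i) (norm_le_one h1 i)
  have one : ∀ i, ‖T (u * h i)‖ ^ 2 ≤ ε + 2 * RCLike.re ⟪T u, T (u * (1 - s i))⟫_ℂ := fun i => by
    have w1 := unit_of (ssa i) (hh i) (sc i) (s1 i)
    have w2 := unit_of (ssa i) (hh i).neg (by rw [mul_neg, neg_mul, sc i])
      (by rw [neg_mul_neg, s1 i])
    have m1 := hS _ (mul_mem hu (add_mem (sR i) (smul_mem' _ (hR i)))) (mul_mem hu' w1)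
    have m2 := hS _ (mul_mem hu (add_mem (sR i) (smul_mem' _ (neg_mem (hR i))))) (mul_mem hu' w2)
    rw [mul_add, mul_smul_comm, map_add, map_smul] at m1 m2
    rw [mul_neg, map_neg, smul_neg, ← sub_eq_add_neg] at m2
    have p := parallelogram_law_with_norm ℂ (T (u * s i)) (Complex.I • T (u * h i))
    rw [norm_smul, Complex.norm_I, one_mul] at p
    have e : T (u * s i) = T u - T (u * (1 - s i)) := by
      rw [← map_sub, mul_sub, mul_one, sub_sub_cancel]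
    have q := norm_sub_sq (𝕜 := ℂ) (T u) (T (u * (1 - s i)))
    rw [← e] at q
    nlinarith [sq_nonneg ‖T (u * (1 - s i))‖]
  have hP0 : 0 ≤ ∑ i, (1 - s i) := sum_nonneg fun i _ => s0 i
  have hP1 : ∑ i, h i * h i ≤ 1 := by
    rw [ContinuousLinearMap.le_def, ContinuousLinearMap.isPositive_def']
    refine ⟨(IsSelfAdjoint.one _).sub (isSelfAdjoint_sum _ fun i _ => ?_), fun ζ => ?_⟩
    · rw [IsSelfAdjoint, star_mul, (hh i).star_eq]
    · rw [ContinuousLinearMap.reApplyInnerSelf_apply, sub_apply, inner_sub_left,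
        map_sub, one_apply_eq_self, inner_self_eq_norm_sq,
        _root_.sum_apply, sum_inner, map_sum, sub_nonneg]
      refine le_trans (le_of_eq (sum_congr rfl fun i _ => ?_)) (h1 ζ)
      rw [norm_sq_eq, (hh i).star_eq]
  have hP : ‖∑ i, (1 - s i)‖ ≤ 1 := (CStarAlgebra.norm_le_one_iff_of_nonneg _ hP0).2
    ((sum_le_sum fun i _ => sle i).trans hP1)
  have hu1 : ‖u‖ ≤ 1 := ContinuousLinearMap.opNorm_le_bound _ zero_le_one fun ζ => by
    rw [u.norm_map_of_mem_unitary hu', one_mul]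
  have t1 : ‖T u‖ ≤ b := (hT u hu).trans (mul_le_of_le_one_right hb hu1)
  have t2 : ‖T (u * ∑ i, (1 - s i))‖ ≤ b :=
    (hT _ (mul_mem hu (sum_mem fun i _ => sub_mem (one_mem R) (sR i)))).trans
      (mul_le_of_le_one_right hb ((norm_mul_le _ _).trans (mul_le_one₀ hu1 (norm_nonneg _) hP)))
  refine (sum_le_sum fun i _ => one i).trans ?_
  rw [sum_add_distrib, sum_const, card_univ, nsmul_eq_mul, ← mul_sum, ← map_sum, ← inner_sum,
    ← map_sum, ← mul_sum]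
  have t3 := (re_inner_le_norm (𝕜 := ℂ) (T u) (T (u * ∑ i, (1 - s i)))).trans
    (mul_le_mul t1 t2 (norm_nonneg _) hb)
  linarith

omit [CompleteSpace H] in
lemma norm_add_sq_le (a a' : H) : ‖a + a'‖ ^ 2 ≤ 2 * (‖a‖ ^ 2 + ‖a'‖ ^ 2) := by
  have p := parallelogram_law_with_norm ℂ a a'
  nlinarith [mul_self_nonneg ‖a - a'‖]

lemma sa_one (hT : ∀ a ∈ R, ‖T a‖ ≤ b * ‖a‖) (hb : 0 ≤ b) {κ : Type} [Fintype κ] {x : κ → Op H}
    (hR : ∀ i, x i ∈ R) (hx : ∀ i, IsSelfAdjoint (x i)) (h1 : ∀ ζ, ∑ i, ‖x i ζ‖ ^ 2 ≤ ‖ζ‖ ^ 2) :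
    ∑ i, ‖T (x i)‖ ^ 2 ≤ 4 * b ^ 2 := by
  set A : Set ℝ := {r | ∃ w ∈ R, w ∈ unitary (Op H) ∧ r = ‖T w‖ ^ 2} with hA
  have hne : A.Nonempty := ⟨_, 1, one_mem R, one_mem _, rfl⟩
  have hbd : BddAbove A := by
    refine ⟨b ^ 2, ?_⟩
    rintro r ⟨w, hw, hw', rfl⟩
    have hu1 : ‖w‖ ≤ 1 := ContinuousLinearMap.opNorm_le_bound _ zero_le_one fun ζ => by
      rw [w.norm_map_of_mem_unitary hw', one_mul]
    exact pow_le_pow_left₀ (norm_nonneg _) ((hT w hw).trans (mul_le_of_le_one_right hb hu1)) 2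
  have hk : (0 : ℝ) < 4 * Fintype.card κ + 1 := by positivity
  refine le_of_forall_pos_le_add fun η hη => ?_
  set ε := η / (4 * Fintype.card κ + 1) with hε
  have hε0 : 0 < ε := by positivity
  obtain ⟨_, ⟨u, hu, hu', rfl⟩, hlt⟩ := exists_lt_of_lt_csSup hne (sub_lt_self (sSup A) hε0)
  set y : κ → Op H := fun i => star u * x i with hy
  have yR : ∀ i, y i ∈ R := fun i => mul_mem (star_mem hu) (hR i)
  set h : κ ⊕ κ → Op H := Sum.elim (fun i => (1 / 2 : ℂ) • (y i + star (y i)))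
    fun i => (-Complex.I / 2) • (y i - star (y i)) with hh
  have k := key hT hb (S := sSup A) (fun w hw hw' => le_csSup hbd ⟨w, hw, hw', rfl⟩) hu hu' hlt.le
    (h := h) ?_ ?_ ?_
  · rw [Fintype.sum_sum_type, ← sum_add_distrib, Fintype.card_sum] at k
    have e : ∀ i, ‖T (x i)‖ ^ 2 ≤
        2 * (‖T (u * h (Sum.inl i))‖ ^ 2 + ‖T (u * h (Sum.inr i))‖ ^ 2) := fun i => by
      have e1 : x i = u * h (Sum.inl i) + Complex.I • (u * h (Sum.inr i)) := by
        have e2 : h (Sum.inl i) + Complex.I • h (Sum.inr i) = y i := by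
          simp only [hh, Sum.elim_inl, Sum.elim_inr, smul_smul]
          rw [show Complex.I * (-Complex.I / 2) = 1 / 2 by
            rw [neg_div, mul_neg, ← mul_div_assoc, Complex.I_mul_I]; ring, ← smul_add,
            add_add_sub_cancel, ← two_smul ℂ, smul_smul]
          norm_num
        rw [← mul_smul_comm, ← mul_add, e2, hy, ← mul_assoc, Unitary.mul_star_self_of_mem hu',
          one_mul]
      rw [e1, map_add, map_smul]
      refine (norm_add_sq_le _ _).trans ?_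
      rw [norm_smul, Complex.norm_I, one_mul]
    refine (sum_le_sum fun i _ => e i).trans ?_
    rw [← mul_sum]
    have e3 : ε * (4 * Fintype.card κ + 1) = η := div_mul_cancel₀ _ hk.ne'
    push_cast at k
    nlinarith
  · rintro (i | i)
    · exact smul_mem' _ (add_mem (yR i) (star_mem (yR i)))
    · exact smul_mem' _ (sub_mem (yR i) (star_mem (yR i)))
  · rintro (i | i)
    · simp only [hh, Sum.elim_inl]
      rw [IsSelfAdjoint, star_smul, star_add, star_star, add_comm]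
      simp
    · simp only [hh, Sum.elim_inr]
      rw [IsSelfAdjoint, star_smul, star_sub, star_star, ← neg_sub (y i), smul_neg, ← neg_smul]
      congr 1
      simp [neg_div]
  · intro ζ
    rw [Fintype.sum_sum_type, ← sum_add_distrib]
    have e : ∀ i, ‖h (Sum.inl i) ζ‖ ^ 2 + ‖h (Sum.inr i) ζ‖ ^ 2 =
        (‖x i ζ‖ ^ 2 + ‖x i (u ζ)‖ ^ 2) / 2 := fun i => by
      have p := parallelogram_law_with_norm ℂ (y i ζ) (star (y i) ζ)
      have n1 : ‖y i ζ‖ = ‖x i ζ‖ :=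
        (star u).norm_map_of_mem_unitary (Unitary.star_mem hu') (x i ζ)
      have n2 : star (y i) ζ = x i (u ζ) := by
        rw [hy, star_mul, star_star, (hx i).star_eq, mul_apply_eq_comp]
      simp only [hh, Sum.elim_inl, Sum.elim_inr, smul_apply, norm_smul,
        add_apply, sub_apply, norm_div, norm_neg,
        Complex.norm_I, norm_one, Complex.norm_ofNat]
      rw [n1, n2] at p
      rw [n2]
      nlinarith
    simp only [e]
    rw [← sum_div, sum_add_distrib]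
    have := h1 (u ζ)
    rw [u.norm_map_of_mem_unitary hu'] at this
    linarith [h1 ζ]

lemma sa (hT : ∀ a ∈ R, ‖T a‖ ≤ b * ‖a‖) (hb : 0 ≤ b) {κ : Type} [Fintype κ] {x : κ → Op H}
    (hR : ∀ i, x i ∈ R) (hx : ∀ i, IsSelfAdjoint (x i)) {t : ℝ} (ht : 0 ≤ t)
    (h1 : ∀ ζ, ∑ i, ‖x i ζ‖ ^ 2 ≤ t ^ 2 * ‖ζ‖ ^ 2) : ∑ i, ‖T (x i)‖ ^ 2 ≤ 4 * b ^ 2 * t ^ 2 := by
  rcases ht.eq_or_lt with rfl | ht
  · have : ∀ i, x i = 0 := fun i => by
      ext ζ
      have h2 := (single_le_sum (f := fun i => ‖x i ζ‖ ^ 2) (fun _ _ => sq_nonneg _)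
        (mem_univ i)).trans (h1 ζ)
      simpa using h2
    simp [this]
  · have n : ‖((t⁻¹ : ℝ) : ℂ)‖ = t⁻¹ := by
      rw [Complex.norm_real, Real.norm_of_nonneg (by positivity)]
    have k := sa_one hT hb (x := fun i => ((t⁻¹ : ℝ) : ℂ) • x i) (fun i => smul_mem' _ (hR i))
      (fun i => by rw [IsSelfAdjoint, star_smul, (hx i).star_eq, Complex.star_def,
        Complex.conj_ofReal]) fun ζ => by
        simp only [smul_apply, norm_smul, n, mul_pow]
        rw [← mul_sum, inv_pow, inv_mul_le_iff₀ (by positivity)]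
        exact h1 ζ
    simp only [map_smul, norm_smul, n, mul_pow] at k
    rw [← mul_sum, inv_pow, inv_mul_le_iff₀ (by positivity)] at k
    linarith

end Groth

open Groth

theorem col_bound (hd : Der R δ) (hb : Bd R δ c) (hc : 0 ≤ c) {κ : Type} [Fintype κ]
    {x : κ → Op H} (hx : ∀ i, x i ∈ R) {t : ℝ} (ht : 0 ≤ t)
    (h : ∀ ζ, ∑ i, ‖x i ζ‖ ^ 2 ≤ t ^ 2 * ‖ζ‖ ^ 2) (ξ : H) :
    ∑ i, ‖δ (x i) ξ‖ ^ 2 ≤ (4 * c * t) ^ 2 * ‖ξ‖ ^ 2 := by
  choose v vR g gR gsa gg xe vv _ using fun i => polar (hx i)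
  have n : ∀ i ζ, ‖g i ζ‖ ^ 2 = ‖x i ζ‖ ^ 2 := fun i ζ => by
    rw [norm_sq_eq, norm_sq_eq, (gsa i).star_eq, gg]
  have k := sa (R := R) (T := (ContinuousLinearMap.apply ℂ H ξ).toLinearMap ∘ₗ δ) (b := c * ‖ξ‖)
    (fun a ha => by
      change ‖δ a ξ‖ ≤ _
      refine ((δ a).le_opNorm ξ).trans ?_
      rw [mul_right_comm]
      exact mul_le_mul_of_nonneg_right (hb a ha) (norm_nonneg _))
    (by positivity) gR gsa ht (fun ζ => by simpa only [n] using h ζ)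
  change ∑ i, ‖δ (g i) ξ‖ ^ 2 ≤ _ at k
  have e : ∀ i, ‖δ (x i) ξ‖ ^ 2 ≤ 2 * (‖δ (g i) ξ‖ ^ 2 + c ^ 2 * ‖x i ξ‖ ^ 2) := fun i => by
    have v1 := piso_norm (vv i)
    have a1 : ‖v i (δ (g i) ξ)‖ ≤ ‖δ (g i) ξ‖ :=
      ((v i).le_opNorm _).trans (mul_le_of_le_one_left (norm_nonneg _) v1)
    have a2 : ‖δ (v i) (g i ξ)‖ ≤ c * ‖g i ξ‖ := ((δ (v i)).le_opNorm _).trans
      (mul_le_mul_of_nonneg_right ((hb _ (vR i)).trans (mul_le_of_le_one_right hc v1))
        (norm_nonneg _))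
    rw [← n, ← mul_pow]
    have a3 : δ (x i) ξ = v i (δ (g i) ξ) + δ (v i) (g i ξ) := by
      rw [xe i, hd _ (vR i) _ (gR i)]
      rfl
    rw [a3]
    refine (norm_add_sq_le _ _).trans ?_
    gcongr
  refine (sum_le_sum fun i _ => e i).trans ?_
  rw [← mul_sum, sum_add_distrib, ← mul_sum]
  have h2 := mul_le_mul_of_nonneg_left (h ξ) (sq_nonneg c)
  have h3 : 0 ≤ c ^ 2 * (t ^ 2 * ‖ξ‖ ^ 2) := by positivity
  nlinarith

theorem row_bound (hd : Der R δ) (hb : Bd R δ c) (hc : 0 ≤ c) {κ : Type} [Fintype κ]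
    {x : κ → Op H} (hx : ∀ i, x i ∈ R) {t : ℝ} (ht : 0 ≤ t)
    (h : ∀ ζ, ∑ i, ‖star (x i) ζ‖ ^ 2 ≤ t ^ 2 * ‖ζ‖ ^ 2) (ξ : H) :
    ∑ i, ‖star (δ (x i)) ξ‖ ^ 2 ≤ (4 * c * t) ^ 2 * ‖ξ‖ ^ 2 := by
  have k := col_bound hd.adjoint hb.adjoint hc (x := fun i => star (x i))
    (fun i => star_mem (hx i)) ht h ξ
  refine le_trans (le_of_eq (sum_congr rfl fun i _ => ?_)) k
  change _ = ‖star (δ (star (star (x i)))) ξ‖ ^ 2
  rw [star_star]

/-- row times column -/
theorem norm_sum_mul_le {κ : Type} [Fintype κ] {x y : κ → Op H} {s t : ℝ} (hs : 0 ≤ s) (ht : 0 ≤ t)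
    (hx : ∀ ζ, ∑ i, ‖star (x i) ζ‖ ^ 2 ≤ s ^ 2 * ‖ζ‖ ^ 2)
    (hy : ∀ ζ, ∑ i, ‖y i ζ‖ ^ 2 ≤ t ^ 2 * ‖ζ‖ ^ 2) : ‖∑ i, x i * y i‖ ≤ s * t := by
  refine ContinuousLinearMap.opNorm_le_bound _ (by positivity) fun ζ => ?_
  set η := (∑ i, x i * y i) ζ with hη
  have h1 : ‖η‖ ^ 2 ≤ ∑ i, ‖star (x i) η‖ * ‖y i ζ‖ := by
    rw [← inner_self_eq_norm_sq (𝕜 := ℂ)]
    nth_rewrite 2 [hη]
    rw [_root_.sum_apply, inner_sum, map_sum]
    refine sum_le_sum fun i _ => ?_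
    rw [mul_apply_eq_comp, ← ContinuousLinearMap.adjoint_inner_left,
      ← ContinuousLinearMap.star_eq_adjoint]
    exact re_inner_le_norm _ _
  have h2 : √(∑ i, ‖star (x i) η‖ ^ 2) ≤ s * ‖η‖ :=
    Real.sqrt_le_iff.2 ⟨by positivity, by rw [mul_pow]; exact hx η⟩
  have h3 : √(∑ i, ‖y i ζ‖ ^ 2) ≤ t * ‖ζ‖ :=
    Real.sqrt_le_iff.2 ⟨by positivity, by rw [mul_pow]; exact hy ζ⟩
  have h4 := (h1.trans (Real.sum_mul_le_sqrt_mul_sqrt _ _ _)).trans
    (mul_le_mul h2 h3 (Real.sqrt_nonneg _) (by positivity))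
  rcases (norm_nonneg η).eq_or_lt with h0 | h0
  · rw [← h0]
    positivity
  · refine le_of_mul_le_mul_left ?_ h0
    nlinarith

/-- a derivation is inner on matrix units -/
theorem exists_T (hd : Der R δ) (hb : Bd R δ c) (hc : 0 ≤ c) {κ : Type} [Fintype κ]
    [DecidableEq κ] [Nonempty κ] {f : κ → κ → Op H} {z : Op H} (hf : MU f z)
    (hfR : ∀ i j, f i j ∈ R) :
    ∃ T : Op H, ‖T‖ ≤ 4 * c ∧ ∀ i j, δ (f i j) * z = T * f i j - f i j * T := by
  have hk : (0 : ℝ) < Fintype.card κ := by exact_mod_cast Fintype.card_pos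
  have hk' : (Fintype.card κ : ℂ) ≠ 0 := by exact_mod_cast Fintype.card_pos.ne'
  have hz : IsStarProjection z := by
    rw [← hf.sum]
    exact hf.proj univ
  have col : ∀ ζ, ∑ p : κ × κ, ‖f p.2 p.1 ζ‖ ^ 2 ≤ √(Fintype.card κ) ^ 2 * ‖ζ‖ ^ 2 := fun ζ => by
    have h1 : ∑ s, ‖f s s ζ‖ ^ 2 ≤ ‖ζ‖ ^ 2 := by
      have h2 : ∑ s, ‖f s s ζ‖ ^ 2 = ‖z ζ‖ ^ 2 := by
        rw [norm_sq_eq z, hz.isSelfAdjoint.star_eq, hz.isIdempotentElem.eq, ← hf.sum,
          _root_.sum_apply, sum_inner, map_sum]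
        refine sum_congr rfl fun s _ => ?_
        rw [norm_sq_eq, hf.adj, hf.mul, if_pos rfl]
      rw [h2]
      exact pow_le_pow_left₀ (norm_nonneg _)
        ((z.le_opNorm ζ).trans (mul_le_of_le_one_left (norm_nonneg _) hz.norm_le)) 2
    rw [Real.sq_sqrt hk.le, Fintype.sum_prod_type_right]
    calc _ = ∑ _t : κ, ∑ s, ‖f s s ζ‖ ^ 2 :=
          sum_congr rfl fun t _ => sum_congr rfl fun s _ => by rw [hf.norm_apply t s s]
      _ ≤ _ := by
          rw [sum_const, card_univ, nsmul_eq_mul]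
          exact mul_le_mul_of_nonneg_left h1 hk.le
  have row := row_bound hd hb hc (x := fun p : κ × κ => f p.1 p.2) (fun p => hfR _ _)
    (Real.sqrt_nonneg (Fintype.card κ)) (fun ζ => by simpa only [hf.adj] using col ζ)
  have nrm := norm_sum_mul_le (x := fun p : κ × κ => δ (f p.1 p.2)) (y := fun p => f p.2 p.1)
    (by positivity) (Real.sqrt_nonneg _) row col
  refine ⟨(Fintype.card κ : ℂ)⁻¹ • ∑ p : κ × κ, δ (f p.1 p.2) * f p.2 p.1, ?_, fun i j => ?_⟩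
  · rw [norm_smul, norm_inv, Complex.norm_natCast, inv_mul_le_iff₀ hk]
    rw [mul_assoc, Real.mul_self_sqrt hk.le] at nrm
    linarith
  · have e1 : (∑ p : κ × κ, δ (f p.1 p.2) * f p.2 p.1) * f i j = ∑ t, δ (f i t) * f t j := by
      rw [sum_mul, Fintype.sum_prod_type_right]
      refine sum_congr rfl fun t _ => ?_
      simp only [mul_assoc, hf.mul, mul_ite, mul_zero, sum_ite_eq', mem_univ, if_true]
    have e2 : f i j * ∑ p : κ × κ, δ (f p.1 p.2) * f p.2 p.1 =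
        ∑ t, δ (f i t) * f t j - (Fintype.card κ : ℂ) • (δ (f i j) * z) := by
      have e3 : ∀ s t, f i j * (δ (f s t) * f t s) =
          (if j = s then δ (f i t) * f t s else 0) - δ (f i j) * f s s := fun s t => by
        have e4 : f i j * δ (f s t) = δ (f i j * f s t) - δ (f i j) * f s t := by
          rw [hd _ (hfR i j) _ (hfR s t), add_sub_cancel_right]
        rw [← mul_assoc, e4, sub_mul, mul_assoc, hf.mul, hf.mul, if_pos rfl]
        split_ifs <;> simp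
      rw [mul_sum, Fintype.sum_prod_type_right]
      simp only [e3, sum_sub_distrib, sum_ite_eq, mem_univ, if_true, ← mul_sum, hf.sum, sum_const,
        card_univ, Nat.cast_smul_eq_nsmul, mul_smul_comm]
    rw [smul_mul_assoc, mul_smul_comm, ← smul_sub, e1, e2, sub_sub_cancel, smul_smul,
      inv_mul_cancel₀ hk', one_smul]

end Pool.Agent.Kad
end
end

-- part Pool.Agent.Lib.MP_22c5db_an.CoreA
section

/-! The main estimate: pointwise bounds. -/

open scoped InnerProductSpace ComplexConjugate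
open Finset

noncomputable section

namespace Pool.Agent.Kad.Core

universe u

variable {K : Type u} [NormedAddCommGroup K] [InnerProductSpace ℂ K] [CompleteSpace K]
  {N : VonNeumannAlgebra K} {Δ : Op K →ₗ[ℂ] Op K} {ι : Type} [Fintype ι] [DecidableEq ι]
  {E : ι → ι → Op K} {B₀ : Finset ι} {C β : ℝ}

/-- the standing hypotheses -/
structure Hyp (N : VonNeumannAlgebra K) (Δ : Op K →ₗ[ℂ] Op K) (E : ι → ι → Op K) (B₀ : Finset ι)
    (C β : ℝ) : Prop where
  der : Der N Δ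
  bd : Bd N Δ β
  mu : MU E 1
  mem : ∀ i j, E i j ∈ N
  zero : ∀ i j, Δ (E i j) = 0
  ne : B₀.Nonempty
  col : ∀ x ∈ N, ‖Δ (x * pF E B₀)‖ ≤ C * ‖x‖
  row : ∀ x ∈ N, ‖Δ (pF E B₀ * x)‖ ≤ C * ‖x‖
  C0 : 0 ≤ C
  β0 : 0 ≤ β

lemma dag_apply (Δ : Op K →ₗ[ℂ] Op K) (x : Op K) : dag Δ x = star (Δ (star x)) := rfl

lemma Hyp.dag (h : Hyp N Δ E B₀ C β) : Hyp N (dag Δ) E B₀ C β where
  der := h.der.adjoint
  bd := h.bd.adjoint
  mu := h.mu
  mem := h.mem
  zero i j := by rw [dag_apply, h.mu.adj, h.zero, star_zero]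
  ne := h.ne
  col x hx := by
    rw [dag_apply, norm_star, star_mul, (h.mu.proj B₀).isSelfAdjoint.star_eq, ← norm_star x]
    exact h.row _ (star_mem hx)
  row x hx := by
    rw [dag_apply, norm_star, star_mul, (h.mu.proj B₀).isSelfAdjoint.star_eq, ← norm_star x]
    exact h.col _ (star_mem hx)
  C0 := h.C0
  β0 := h.β0

lemma Hyp.rho (h : Hyp N Δ E B₀ C β) (s : Matrix ι ι ℂ) : Δ (rho E s) = 0 := by
  simp only [Kad.rho, map_sum, map_smul, h.zero, smul_zero, sum_const_zero]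

lemma der_pow (hd : Der N Δ) {y u : Op K} (hy : y ∈ N) (hu : u ∈ N) (h0 : Δ u = 0) (m : ℕ) :
    Δ ((y * u) ^ m) = dw y (Δ y) u m := by
  induction m with
  | zero => rw [pow_zero, hd.one]; rfl
  | succ m ih =>
    rw [pow_succ, hd _ (pow_mem (mul_mem hy hu) m) _ (mul_mem hy hu), ih, hd y hy u hu, h0,
      mul_zero, zero_add]
    rfl

lemma continuous_dw (y X : Op K) (m : ℕ) : Continuous fun u => dw y X u m := by
  induction m with
  | zero => exact continuous_const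
  | succ m ih =>
    simp only [dw]
    fun_prop

lemma E_mul_pF (hE : MU E 1) {k₁ : ι} (hk : k₁ ∈ B₀) (k : ι) : E k k₁ * pF E B₀ = E k k₁ := by
  simp only [pF, mul_sum, hE.mul]
  rw [sum_eq_single k₁ (fun b _ hb => if_neg (Ne.symm hb)) (fun h => absurd hk h), if_pos rfl]

lemma Hyp.colE (h : Hyp N Δ E B₀ C β) {x : Op K} (hx : x ∈ N) (k : ι) :
    ‖Δ x * E k k‖ ≤ C * ‖x‖ := by
  obtain ⟨k₁, hk⟩ := h.ne
  have e1 : Δ x * E k k = Δ (x * E k k₁ * pF E B₀) * E k₁ k := by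
    rw [mul_assoc x, E_mul_pF h.mu hk, h.der x hx _ (h.mem _ _), h.zero, mul_zero, zero_add,
      mul_assoc, h.mu.mul, if_pos rfl]
  have h1 := h.col _ (mul_mem hx (h.mem k k₁))
  have h2 : ‖x * E k k₁‖ ≤ ‖x‖ :=
    (norm_mul_le _ _).trans (mul_le_of_le_one_right (norm_nonneg _) (h.mu.norm_le _ _))
  rw [e1]
  exact (norm_mul_le _ _).trans ((mul_le_of_le_one_right (norm_nonneg _)
    (h.mu.norm_le _ _)).trans (h1.trans (mul_le_mul_of_nonneg_left h2 h.C0)))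

lemma Hyp.comm (h : Hyp N Δ E B₀ C β) {x e : Op K} (hx : x ∈ N) (he : e ∈ N) (h0 : Δ e = 0)
    (hc : x * e = e * x) : Δ x * e = e * Δ x := by
  have h1 := h.der x hx e he
  have h2 := h.der e he x hx
  rw [hc, h2, h0, mul_zero, zero_mul, zero_add, add_zero] at h1
  exact h1.symm

lemma Hyp.cen (h : Hyp N Δ E B₀ C β) {z : Op K} (hz : Cen N z) : ‖Δ z‖ ≤ C := by
  obtain ⟨k, -⟩ := h.ne
  refine (h.mu.norm_le_of_comm (fun i j => h.comm hz.2.1 (h.mem i j) (h.zero i j)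
    (hz.2.2 _ (h.mem i j))) k).trans ((h.colE hz.2.1 k).trans ?_)
  exact mul_le_of_le_one_right h.C0 (hz.1.norm_le _)

omit [CompleteSpace K] in
lemma inner_op_le (T : Op K) {c : ℝ} (hT : ‖T‖ ≤ c) (ξ η : K) :
    ‖⟪η, T ξ⟫_ℂ‖ ≤ c * (‖ξ‖ * ‖η‖) :=
  calc _ ≤ ‖η‖ * ‖T ξ‖ := norm_inner_le_norm _ _
    _ ≤ ‖η‖ * (c * ‖ξ‖) := by
        gcongr
        exact (T.le_opNorm ξ).trans (by gcongr)
    _ = _ := by ring

lemma inner_star_left (T : Op K) (ξ η : K) : ⟪star T η, ξ⟫_ℂ = ⟪η, T ξ⟫_ℂ := by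
  rw [ContinuousLinearMap.star_eq_adjoint, ContinuousLinearMap.adjoint_inner_left]

lemma inner_star_right (T : Op K) (ξ η : K) : ⟪η, star T ξ⟫_ℂ = ⟪T η, ξ⟫_ℂ := by
  rw [ContinuousLinearMap.star_eq_adjoint, ContinuousLinearMap.adjoint_inner_right]

lemma norm_mul_le' {x y : Op K} {s t : ℝ} (hx : ‖x‖ ≤ s) (hy : ‖y‖ ≤ t) : ‖x * y‖ ≤ s * t :=
  (norm_mul_le _ _).trans (mul_le_mul hx hy (norm_nonneg _) ((norm_nonneg _).trans hx))

/-- the pointwise bound -/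
lemma Hyp.point (h : Hyp N Δ E B₀ C β) {F B q V : Op K} {M : ℝ} (hF : F ∈ N) (hM : ‖F‖ ≤ M)
    (hB : Cen N B) (hq : IsStarProjection q) (hqN : q ∈ N) (hV : V ∈ N)
    (hVV : V * star V = (1 - B) * q) (hVp : V * pF E B₀ = V) (h1 : ‖Δ (F * (1 - q))‖ ≤ C * M)
    (ξ η : K) : ‖⟪η, Δ F ξ⟫_ℂ‖ ≤ M * (5 * C * (‖ξ‖ * ‖η‖) + β * (‖B ξ‖ * ‖B η‖)) := by
  have hC := h.C0
  have hM0 : 0 ≤ M := (norm_nonneg _).trans hM
  have hBN := hB.2.1
  have nB : ‖B‖ ≤ 1 := hB.1.norm_le _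
  have nq : ‖q‖ ≤ 1 := hq.norm_le _
  have nV : ‖V‖ ≤ 1 := by
    have h2 : ‖V * star V‖ ≤ 1 * 1 := by
      rw [hVV]; exact norm_mul_le' (hB.1.one_sub.norm_le _) nq
    rw [CStarRing.norm_self_mul_star] at h2
    nlinarith [norm_nonneg V]
  have nV' : ‖star V‖ ≤ 1 := by rwa [norm_star]
  have hx : F * q ∈ N := mul_mem hF hqN
  have nx : ‖F * q‖ ≤ M := by simpa using norm_mul_le' hM nq
  have nFV : ‖F * V‖ ≤ M := by simpa using norm_mul_le' hM nV
  have e1 : F = F * (1 - q) + F * V * star V + B * (F * q * B) := by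
    rw [← hB.2.2 _ hx, ← mul_assoc B, hB.1.isIdempotentElem.eq, ← mul_assoc B, hB.2.2 F hF,
      mul_assoc F V, hVV]
    noncomm_ring
  have d1 : ‖Δ (F * V)‖ ≤ C * M := by
    have := h.col _ (mul_mem hF hV)
    rw [mul_assoc, hVp] at this
    exact this.trans (by gcongr)
  have d2 : ‖Δ (star V)‖ ≤ C := by
    have := h.row _ (star_mem hV)
    rw [← (h.mu.proj B₀).isSelfAdjoint.star_eq, ← star_mul, hVp] at this
    exact this.trans (mul_le_of_le_one_right hC nV')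
  have d3 := h.cen hB
  have d4 : ‖Δ (F * q)‖ ≤ β * M := (h.bd _ hx).trans (by have := h.β0; gcongr)
  have e2 : Δ F = (Δ (F * (1 - q)) + (F * V * Δ (star V) + Δ (F * V) * star V) +
      (B * (F * q * Δ B) + Δ B * (F * q * B))) + B * (Δ (F * q) * B) := by
    conv_lhs => rw [e1]
    rw [map_add, map_add, h.der _ (mul_mem hF hV) _ (star_mem hV), h.der B hBN _ (mul_mem hx hBN),
      h.der _ hx B hBN]
    noncomm_ring
  have n1 : ‖Δ (F * (1 - q)) + (F * V * Δ (star V) + Δ (F * V) * star V) +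
      (B * (F * q * Δ B) + Δ B * (F * q * B))‖ ≤ 5 * C * M := by
    have a1 := norm_mul_le' nFV d2
    have a2 := norm_mul_le' d1 nV'
    have a3 := norm_mul_le' nB (norm_mul_le' nx d3)
    have a4 := norm_mul_le' d3 (norm_mul_le' nx nB)
    refine (norm_add_le _ _).trans ((add_le_add (norm_add_le _ _) (norm_add_le _ _)).trans ?_)
    linarith [norm_add_le (F * V * Δ (star V)) (Δ (F * V) * star V)]
  have n2 : ⟪η, (B * (Δ (F * q) * B)) ξ⟫_ℂ = ⟪B η, Δ (F * q) (B ξ)⟫_ℂ := by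
    rw [← inner_star_left, star_mul, hB.1.isSelfAdjoint.star_eq, mul_apply_eq_comp,
      inner_star_left, mul_apply_eq_comp]
  rw [e2, add_apply, inner_add_right, n2]
  refine (norm_add_le _ _).trans ?_
  linarith [inner_op_le _ n1 ξ η, inner_op_le _ d4 (B ξ) (B η)]

lemma norm_unitary_le {w : Op K} (hw : w ∈ unitary (Op K)) : ‖w‖ ≤ 1 :=
  ContinuousLinearMap.opNorm_le_bound _ zero_le_one fun ζ => by
    rw [ContinuousLinearMap.norm_map_of_mem_unitary hw, one_mul]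

lemma norm_pow_le' {x : Op K} {s : ℝ} (hx : ‖x‖ ≤ s) (n : ℕ) : ‖x ^ n‖ ≤ s ^ n := by
  induction n with
  | zero => simpa using norm_unitary_le (one_mem (unitary (Op K)))
  | succ n ih => rw [pow_succ, pow_succ]; exact norm_mul_le' ih hx

/-- the localising polynomial -/
def FF (w : Op K) (R r : ℕ) : Op K := w ^ (r * R) * (∑ j ∈ range R, w ^ j) ^ r

lemma FF_mem {w : Op K} (hw : w ∈ N) (R r : ℕ) : FF w R r ∈ N :=
  mul_mem (pow_mem hw _) (pow_mem (sum_mem fun j _ => pow_mem hw j) _)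

lemma norm_FF {w : Op K} (hw : w ∈ unitary (Op K)) (R r : ℕ) : ‖FF w R r‖ ≤ (R : ℝ) ^ r := by
  have h1 : ‖∑ j ∈ range R, w ^ j‖ ≤ R :=
    (norm_sum_le_of_le _ fun j _ => norm_unitary_le (pow_mem hw j)).trans (by simp)
  simpa [FF] using norm_mul_le' (norm_unitary_le (pow_mem hw (r * R))) (norm_pow_le' h1 r)

lemma norm_FF_mul {w q : Op K} (hw : w ∈ unitary (Op K)) (hq : IsStarProjection q)
    (hc : q * w = w * q) {J : ℝ} (hJ : 0 ≤ J) (h : ∀ ζ, q ζ = 0 → ‖ζ‖ ≤ J * ‖ζ - w ζ‖) (R : ℕ)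
    {r : ℕ} (hr : 0 < r) : ‖FF w R r * (1 - q)‖ ≤ (2 * J) ^ r := by
  have c1 : Commute q (∑ j ∈ range R, w ^ j) :=
    Commute.sum_right _ _ _ fun j _ => Commute.pow_right hc j
  have c2 : Commute (∑ j ∈ range R, w ^ j) (1 - q) := (Commute.one_right _).sub_right c1.symm
  have h1 : ‖(∑ j ∈ range R, w ^ j) * (1 - q)‖ ≤ 2 * J := by
    refine ContinuousLinearMap.opNorm_le_bound _ (by positivity) fun ζ => ?_
    have h2 := h (((∑ j ∈ range R, w ^ j) * (1 - q)) ζ) (by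
      rw [← mul_apply_eq_comp, ← mul_assoc, c1.eq, mul_assoc, hq.mul_one_sub_self,
        mul_zero, zero_apply])
    have e1 : ((∑ j ∈ range R, w ^ j) * (1 - q)) ζ - w (((∑ j ∈ range R, w ^ j) * (1 - q)) ζ) =
        ((1 - w ^ R) * (1 - q)) ζ := by
      rw [← mul_neg_geom_sum, mul_assoc, mul_apply_eq_comp (1 - w)]
      rfl
    have h3 : ‖(1 - w ^ R) * (1 - q)‖ ≤ 2 * 1 := norm_mul_le' ((norm_sub_le _ _).trans (by
      linarith [norm_unitary_le (one_mem (unitary (Op K))), norm_unitary_le (pow_mem hw R)]))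
      (hq.one_sub.norm_le _)
    have h4 := ContinuousLinearMap.le_of_opNorm_le _ h3 ζ
    rw [e1] at h2
    nlinarith [mul_le_mul_of_nonneg_left h4 hJ]
  rw [FF, mul_assoc, ← hq.one_sub.pow_eq hr.ne', ← c2.mul_pow]
  simpa using norm_mul_le' (norm_unitary_le (pow_mem hw (r * R))) (norm_pow_le' h1 r)

/-- the multi-indices -/
def PP (R r : ℕ) : Finset (Fin r → ℕ) := Fintype.piFinset fun _ => range R

/-- the exponents -/
def kk (R : ℕ) {r : ℕ} (p : Fin r → ℕ) : ℕ := r * R + ∑ i, p i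

omit [CompleteSpace K] in
lemma FF_eq (w : Op K) (R r : ℕ) : FF w R r = ∑ p ∈ PP R r, w ^ kk R p := by
  have h := congrArg (Polynomial.aeval w)
    (sum_pow' (range R) (fun j => (Polynomial.X : Polynomial ℂ) ^ j) r)
  simp only [map_pow, map_sum, Polynomial.aeval_X, prod_pow_eq_pow_sum] at h
  rw [FF, h, mul_sum]
  simp only [kk, pow_add, PP]

lemma card_PP (R r : ℕ) : (PP R r).card = R ^ r := by simp [PP]

lemma kk_le {R r : ℕ} {p : Fin r → ℕ} (hp : p ∈ PP R r) : kk R p ≤ 2 * (r * R) := by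
  have : ∑ i, p i ≤ ∑ _i : Fin r, R :=
    sum_le_sum fun i _ => (mem_range.1 (Fintype.mem_piFinset.1 hp i)).le
  simp only [sum_const, card_univ, Fintype.card_fin, smul_eq_mul] at this
  unfold kk
  omega

/-- the basic identity -/
lemma split (hd : Der N Δ) {y u : Op K} (hy : y ∈ unitary (Op K)) (hyN : y ∈ N)
    (hu : u ∈ unitary (Op K)) (huN : u ∈ N) (h0 : Δ u = 0) (h0' : Δ (star u) = 0) (m l : ℕ)
    (ξ η : K) :
    ⟪((y * u) ^ m) η, Δ ((y * u) ^ (m + l + 1)) ((star (y * u) ^ l) (star u ξ))⟫_ℂ =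
      ⟪((y * u) ^ m) η, Δ ((y * u) ^ m) (y ξ)⟫_ℂ + ⟪η, Δ y ξ⟫_ℂ +
        conj ⟪((star y * star u) ^ l) ξ, dag Δ ((star y * star u) ^ l) (star y η)⟫_ℂ := by
  have hw : y * u ∈ unitary (Op K) := mul_mem hy hu
  have hwN : y * u ∈ N := mul_mem hyN huN
  have u1 : u * star u = 1 := Unitary.mul_star_self_of_mem hu
  have u2 : star u * u = 1 := Unitary.star_mul_self_of_mem hu
  have w1 : (y * u) ^ l * star (y * u) ^ l = 1 := by
    rw [← star_pow]; exact Unitary.mul_star_self_of_mem (pow_mem hw l)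
  have e0 : ∀ l, (u * y) ^ l = u * (y * u) ^ l * star u := fun l => by
    rw [← mul_pow_mul, mul_assoc, u1, mul_one]
  have e1 : Δ ((u * y) ^ l) = u * Δ ((y * u) ^ l) * star u := by
    rw [e0, hd _ (mul_mem huN (pow_mem hwN l)) _ (star_mem huN), h0',
      hd _ huN _ (pow_mem hwN l), h0]
    simp
  have e2 : (star y * star u) ^ l = u * star (y * u) ^ l * star u := by
    rw [← star_mul, ← star_pow, e0, star_mul, star_mul, star_star, star_pow, mul_assoc]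
  have e3 : Δ (y * u) = Δ y * u := by rw [hd _ hyN _ huN, h0, mul_zero, zero_add]
  have e4 : Δ ((y * u) ^ (m + l + 1)) * (star (y * u) ^ l * star u) =
      Δ ((y * u) ^ m) * y + (y * u) ^ m * Δ y +
        (y * u) ^ m * (y * (Δ ((u * y) ^ l) * (star y * star u) ^ l)) := by
    rw [add_assoc m, pow_add, pow_succ' _ l, hd _ (pow_mem hwN m) _ (mul_mem hwN (pow_mem hwN l)),
      hd _ hwN _ (pow_mem hwN l), e3, e1, e2]
    generalize Δ ((y * u) ^ m) = D1, Δ ((y * u) ^ l) = D2, (y * u) ^ m = W1,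
      star (y * u) ^ l = W3, (y * u) ^ l = W2, Δ y = X at *
    have a1 : ∀ x, W2 * (W3 * x) = x := fun x => by rw [← mul_assoc, w1, one_mul]
    have a2 : ∀ x, star u * (u * x) = x := fun x => by rw [← mul_assoc, u2, one_mul]
    simp only [mul_add, add_mul, mul_assoc, a1, a2, u1, mul_one]
    abel
  have e5 := congrArg (fun T : Op K => ⟪((y * u) ^ m) η, T ξ⟫_ℂ) e4
  simp only [add_apply, mul_apply_eq_comp, inner_add_right,
    ContinuousLinearMap.inner_map_map_of_mem_unitary (pow_mem hw m)] at e5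
  rw [e5, inner_conj_symm, dag_apply, inner_star_left, inner_star_left, star_pow, star_mul,
    star_star, star_star]

/-- the right test vector -/
def xi (w u : Op K) (L : ℕ) (ξ : K) : K := ∑ l ∈ range L, (star w ^ l) (star u ξ)

/-- the left test vector -/
def et (w : Op K) (L : ℕ) (η : K) : K := ∑ m ∈ range L, (w ^ m) η

lemma norm_cen_apply {B x : Op K} (hB : Cen N B) (hx : x ∈ unitary (Op K)) (hxN : x ∈ N) (ζ : K) :
    ‖B (x ζ)‖ = ‖B ζ‖ := by
  rw [← mul_apply_eq_comp, hB.2.2 x hxN, mul_apply_eq_comp,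
    ContinuousLinearMap.norm_map_of_mem_unitary hx]

lemma norm_xi {B w u : Op K} (hB : Cen N B) (hw : w ∈ unitary (Op K)) (hwN : w ∈ N)
    (hu : u ∈ unitary (Op K)) (huN : u ∈ N) (L : ℕ) (ξ : K) : ‖B (xi w u L ξ)‖ ≤ L * ‖B ξ‖ := by
  rw [xi, map_sum]
  refine (norm_sum_le_of_le (n := fun _ => ‖B ξ‖) _ fun l _ => le_of_eq ?_).trans (by simp)
  rw [norm_cen_apply hB (pow_mem (Unitary.star_mem hw) l) (pow_mem (star_mem hwN) l),
    norm_cen_apply hB (Unitary.star_mem hu) (star_mem huN)]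

lemma norm_et {B w : Op K} (hB : Cen N B) (hw : w ∈ unitary (Op K)) (hwN : w ∈ N) (L : ℕ)
    (η : K) : ‖B (et w L η)‖ ≤ L * ‖B η‖ := by
  rw [et, map_sum]
  refine (norm_sum_le_of_le (n := fun _ => ‖B η‖) _ fun l _ => le_of_eq ?_).trans (by simp)
  rw [norm_cen_apply hB (pow_mem hw l) (pow_mem hwN l)]

omit [CompleteSpace K] in
lemma norm_le_of_inner {T : Op K} {c : ℝ} (hc : 0 ≤ c)
    (h : ∀ ξ η, ‖⟪η, T ξ⟫_ℂ‖ ≤ c * (‖ξ‖ ^ 2 + ‖η‖ ^ 2)) : ‖T‖ ≤ 2 * c := by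
  refine ContinuousLinearMap.opNorm_le_of_unit_norm (by positivity) fun ξ hξ => ?_
  rcases eq_or_ne (T ξ) 0 with h0 | h0
  · rw [h0, norm_zero]; positivity
  have h1 : 0 < ‖T ξ‖ := norm_pos_iff.2 h0
  have h2 := h ξ (((‖T ξ‖⁻¹ : ℝ) : ℂ) • T ξ)
  rw [inner_smul_left, norm_mul, norm_smul, inner_self_eq_norm_sq_to_K, hξ] at h2
  simp only [Complex.conj_ofReal, Complex.norm_real, norm_inv, norm_norm, norm_pow,
    RCLike.norm_ofReal, abs_norm] at h2
  rw [inv_mul_cancel₀ h1.ne', pow_two, ← mul_assoc, inv_mul_cancel₀ h1.ne'] at h2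
  linarith

end Pool.Agent.Kad.Core
end
end

-- part Pool.Agent.Lib.MP_22c5db_an.Conc
section

/-! Concentration of the size of spectral projections. -/

open scoped InnerProductSpace ComplexConjugate
open Finset

noncomputable section

namespace Pool.Agent.Kad

universe u

variable {H : Type u} [NormedAddCommGroup H] [InnerProductSpace ℂ H] [CompleteSpace H]

variable {N : VonNeumannAlgebra H} {ι : Type} [Fintype ι] [DecidableEq ι] {E : ι → ι → Op H}

namespace Conc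

/-- variance in one coordinate -/
theorem var_one {A : Type} [Fintype A] [Nonempty A] (h : A → ℝ) (hh : ∀ x y, h y ≤ h x + 1)
    (μ : ℝ) : ∑ x, (h x - μ) ^ 2 ≤
      Fintype.card A + Fintype.card A * ((∑ x, h x) / Fintype.card A - μ) ^ 2 := by
  have ha : (0 : ℝ) < Fintype.card A := by exact_mod_cast Fintype.card_pos
  set g := (∑ x, h x) / Fintype.card A with hg
  have e : ∑ x, h x = Fintype.card A * g := by rw [hg]; field_simp
  have h1 : ∀ x, (h x - g) ^ 2 ≤ 1 := fun x => by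
    have a1 : ∑ y, h y ≤ ∑ _y : A, (h x + 1) := sum_le_sum fun y _ => hh x y
    have a2 : ∑ _y : A, (h x - 1) ≤ ∑ y, h y := sum_le_sum fun y _ => by linarith [hh y x]
    rw [sum_const, card_univ, nsmul_eq_mul, e] at a1 a2
    have a3 := le_of_mul_le_mul_left a1 ha
    have a4 := le_of_mul_le_mul_left a2 ha
    nlinarith
  calc ∑ x, (h x - μ) ^ 2 ≤ ∑ x, (1 + (g - μ) ^ 2 + (2 * (g - μ) * h x - 2 * (g - μ) * g)) :=
        sum_le_sum fun x _ => by nlinarith [h1 x]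
    _ = _ := by
      rw [sum_add_distrib, sum_sub_distrib, ← mul_sum, e, sum_const, sum_const, card_univ,
        nsmul_eq_mul, nsmul_eq_mul]
      ring

/-- bounded differences bound the variance -/
theorem var_fin {A : Type} [Fintype A] [Nonempty A] (n : ℕ) : ∀ f : (Fin n → A) → ℝ,
    (∀ t k a, f (Function.update t k a) ≤ f t + 1) → ∀ μ : ℝ,
      ∑ t, f t = (Fintype.card A : ℝ) ^ n * μ →
        ∑ t, (f t - μ) ^ 2 ≤ n * (Fintype.card A : ℝ) ^ n := by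
  have ha : (0 : ℝ) < Fintype.card A := by exact_mod_cast Fintype.card_pos
  induction n with
  | zero =>
    intro f _ μ h
    rw [Fintype.sum_unique, pow_zero, one_mul] at h
    rw [Fintype.sum_unique, h]
    simp
  | succ n ih =>
    intro f hf μ h
    have e : ∀ F : (Fin (n + 1) → A) → ℝ,
        ∑ t, F t = ∑ s : Fin n → A, ∑ x : A, F (Fin.cons x s) := fun F => by
      rw [← (Fin.consEquiv fun _ => A).sum_comp, Fintype.sum_prod_type_right]
      rfl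
    have h1 := ih (fun s => (∑ x : A, f (Fin.cons x s)) / Fintype.card A) (fun s k y => by
      rw [div_add_one ha.ne']
      refine div_le_div_of_nonneg_right ?_ ha.le
      have a1 : ∑ x : A, f (Fin.cons x (Function.update s k y)) ≤
          ∑ x : A, (f (Fin.cons x s) + 1) := sum_le_sum fun x _ => by
        rw [Fin.cons_update]
        exact hf _ _ _
      rwa [sum_add_distrib, sum_const, card_univ, nsmul_eq_mul, mul_one] at a1) μ (by
      rw [← sum_div, ← e, h, div_eq_iff ha.ne']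
      ring)
    rw [e]
    refine (sum_le_sum fun s _ => var_one (fun x => f (Fin.cons x s)) (fun x y => ?_) μ).trans ?_
    · have := hf (Fin.cons x s) 0 y
      rwa [Fin.update_cons_zero] at this
    · rw [sum_add_distrib, ← mul_sum, sum_const, card_univ, nsmul_eq_mul, Fintype.card_fun,
        Fintype.card_fin]
      have := mul_le_mul_of_nonneg_left h1 ha.le
      push_cast
      rw [pow_succ]
      linarith

theorem var_pi {A : Type} [Fintype A] [Nonempty A] (f : (ι → A) → ℝ)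
    (hf : ∀ t k a, f (Function.update t k a) ≤ f t + 1) (μ : ℝ)
    (h : ∑ t, f t = Fintype.card (ι → A) * μ) :
    ∑ t, (f t - μ) ^ 2 ≤ Fintype.card ι * Fintype.card (ι → A) := by
  let e := Fintype.equivFin ι
  have e1 : ∀ F : (ι → A) → ℝ, ∑ t, F t = ∑ s : Fin (Fintype.card ι) → A, F (s ∘ e) := fun F =>
    ((Equiv.arrowCongr e.symm (Equiv.refl A)).sum_comp F).symm
  rw [Fintype.card_fun, Nat.cast_pow] at h ⊢
  rw [e1] at h ⊢
  refine var_fin _ (fun s => f (s ∘ e)) (fun s k a => ?_) μ h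
  rw [Function.update_comp_equiv]
  exact hf _ _ _

theorem root_far {ω : ℂ} {J : ℕ} (hJ : J ≠ 0) (h : ω ^ J = 1) (h1 : ω ≠ 1) (hn : ‖ω‖ = 1) :
    2 ≤ J * ‖1 - ω‖ := by
  have a1 : ∀ m : ℕ, ‖1 - ω ^ m‖ ≤ m * ‖1 - ω‖ := fun m => by
    induction m with
    | zero => simp
    | succ m ih =>
      have e : 1 - ω ^ (m + 1) = 1 - ω ^ m + ω ^ m * (1 - ω) := by ring
      have := norm_add_le (1 - ω ^ m) (ω ^ m * (1 - ω))
      rw [norm_mul, norm_pow, hn, one_pow, one_mul, ← e] at this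
      push_cast
      linarith
  have a2 : ∀ m : ℕ, ‖(m : ℂ) - ∑ i ∈ range m, ω ^ i‖ ≤ m ^ 2 / 2 * ‖1 - ω‖ := fun m => by
    induction m with
    | zero => simp
    | succ m ih =>
      have e : ((m + 1 : ℕ) : ℂ) - ∑ i ∈ range (m + 1), ω ^ i =
          (m : ℂ) - ∑ i ∈ range m, ω ^ i + (1 - ω ^ m) := by
        rw [sum_range_succ]; push_cast; ring
      have := norm_add_le ((m : ℂ) - ∑ i ∈ range m, ω ^ i) (1 - ω ^ m)
      rw [e]
      push_cast
      nlinarith [a1 m, norm_nonneg (1 - ω)]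
  have a3 := a2 J
  rw [geom_sum_eq h1, h, sub_self, zero_div, sub_zero, Complex.norm_natCast] at a3
  have hJ' : (0 : ℝ) < J := by positivity
  refine le_of_mul_le_mul_left ?_ hJ'
  linarith

omit [CompleteSpace H] in
theorem ap (x y : Op H) (ζ : H) : (x * y) ζ = x (y ζ) := rfl

theorem proj_sq {z : Op H} (hz : IsStarProjection z) (ζ : H) :
    ‖ζ‖ ^ 2 = ‖z ζ‖ ^ 2 + ‖(1 - z) ζ‖ ^ 2 := by
  have h0 : ⟪z ζ, (1 - z) ζ⟫_ℂ = 0 := by
    rw [← ContinuousLinearMap.adjoint_inner_right, ← ContinuousLinearMap.star_eq_adjoint,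
      hz.isSelfAdjoint.star_eq, ← ap, hz.mul_one_sub_self]
    simp
  have e : ζ = z ζ + (1 - z) ζ := by simp
  conv_lhs => rw [e]
  rw [sq, sq, sq]
  exact norm_add_sq_eq_norm_sq_add_norm_sq_of_inner_eq_zero _ _ h0

/-- a central projection on which finitely many central projections are constant -/
theorem refine_cen {κ : Type} (φ : H → ℝ)
    (hφ : ∀ z, Cen N z → ∀ ζ, φ ζ = φ (z ζ) + φ ((1 - z) ζ)) {ζ : H} (h : φ ζ < 0)
    (z : κ → Op H) (hz : ∀ a, Cen N (z a)) (s : Finset κ) :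
    ∃ c, Cen N c ∧ φ (c ζ) < 0 ∧ ∀ a ∈ s, z a * c = c ∨ z a * c = 0 := by
  classical
  induction s using Finset.induction_on with
  | empty => exact ⟨1, Cen.one, h, by simp⟩
  | insert a s _ ih =>
    obtain ⟨c, hc, h1, h2⟩ := ih
    have key : ∀ y, Cen N y → ∀ b ∈ s, z b * (y * c) = y * c ∨ z b * (y * c) = 0 := by
      intro y hy b hb
      rw [← mul_assoc, (hz b).2.2 y hy.2.1, mul_assoc]
      rcases h2 b hb with h3 | h3 <;> rw [h3]
      · exact Or.inl rfl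
      · exact Or.inr (mul_zero _)
    rw [hφ (z a) (hz a)] at h1
    by_cases h3 : φ (z a (c ζ)) < 0
    · refine ⟨z a * c, (hz a).mul hc, h3, fun b hb => ?_⟩
      rcases mem_insert.1 hb with rfl | hb
      · exact Or.inl (by rw [← mul_assoc, (hz b).1.isIdempotentElem.eq])
      · exact key _ (hz a) b hb
    · refine ⟨(1 - z a) * c, (hz a).one_sub.mul hc, by rw [ap]; linarith, fun b hb => ?_⟩
      rcases mem_insert.1 hb with rfl | hb
      · exact Or.inr (by rw [← mul_assoc, (hz b).1.mul_one_sub_self, zero_mul])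
      · exact key _ (hz a).one_sub b hb

theorem le_restr {c z q p : Op H} (hc : Cen N c) (hq : q ∈ N) (h : z * c = c)
    (hl : Le N (z * q) p) : Le N (c * q) p := by
  obtain ⟨x, hx, h1, h2⟩ := hl
  refine ⟨x, hx, h1, fun ζ hζ => h2 ζ ?_⟩
  have e : z * q * c = c * q := by rw [mul_assoc, ← hc.2.2 q hq, ← mul_assoc, h]
  have e2 : c ζ = ζ := by rw [← hζ, ← ap, ← mul_assoc, hc.1.isIdempotentElem.eq]
  rw [← e2, ← ap, e, hζ, e2]

theorem cen_proj {c q : Op H} (hc : Cen N c) (hq : IsStarProjection q) (hqN : q ∈ N) :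
    IsStarProjection (c * q) := hc.1.mul hq (hc.2.2 q hqN)

/-- orthogonal copies indexed by any type -/
def EmbT (N : VonNeumannAlgebra H) (e c q : Op H) (κ : Type) [DecidableEq κ] : Prop :=
  ∃ v : κ → Op H, (∀ i, v i ∈ N ∧ q * v i = v i) ∧
    ∀ i j, star (v i) * v j = if i = j then c * e else 0

theorem EmbT.emb {e c q : Op H} {κ : Type} [DecidableEq κ] [Fintype κ] (h : EmbT N e c q κ)
    {r : ℕ} (hr : r ≤ Fintype.card κ) : Emb N e c q r := by
  obtain ⟨v, h1, h2⟩ := h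
  obtain ⟨f⟩ := Function.Embedding.nonempty_of_card_le (α := Fin r) (β := κ) (by simpa using hr)
  exact ⟨fun i => v (f i), fun i => h1 _, fun i j => by simp only [h2, f.injective.eq_iff]⟩

omit [Fintype ι] [DecidableEq ι] in
theorem pF_mem (hEN : ∀ i j, E i j ∈ N) (F : Finset ι) : pF E F ∈ N :=
  sum_mem fun k _ => hEN k k

theorem pF_mul (hE : MU E 1) (F : Finset ι) (k l : ι) :
    pF E F * E k l = if k ∈ F then E k l else 0 := by
  simp only [pF, sum_mul, hE.mul]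
  rw [sum_ite_eq']

theorem mul_pF (hE : MU E 1) (F : Finset ι) (k l : ι) :
    E k l * pF E F = if l ∈ F then E k l else 0 := by
  have h := congrArg star (pF_mul hE F l k)
  rw [star_mul, hE.adj, (hE.proj F).isSelfAdjoint.star_eq] at h
  rw [h]
  split_ifs
  · exact hE.adj _ _
  · exact star_zero _

theorem emb_of_le (hE : MU E 1) (hEN : ∀ i j, E i j ∈ N) (k₀ : ι) {c q : Op H} (hc : Cen N c)
    (hq : IsStarProjection q) {F : Finset ι} (h : Le N (c * pF E F) q) :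
    Emb N (E k₀ k₀) c q F.card := by
  obtain ⟨v, hv, h1, h2⟩ := h.isom (cen_proj hc (hE.proj F) (pF_mem hEN F))
    (mul_mem hc.2.1 (pF_mem hEN F)) hq
  refine EmbT.emb (κ := F) ⟨fun k => v * E k k₀, fun k => ⟨mul_mem hv (hEN _ _), ?_⟩,
    fun k l => ?_⟩ (by simp)
  · rw [← mul_assoc, h2]
  · rw [star_mul, hE.adj, mul_assoc, ← mul_assoc (star v), h1, mul_assoc, pF_mul hE, if_pos l.2,
      ← mul_assoc, ← hc.2.2 _ (hEN _ _), mul_assoc, hE.mul]
    simp only [Subtype.ext_iff]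
    split_ifs
    · rfl
    · exact mul_zero _

theorem emb_trans {e c q p : Op H} (hc : Cen N c) (hq : IsStarProjection q) (hqN : q ∈ N)
    (hp : IsStarProjection p) {r : ℕ} (h : Emb N e c q r) (hl : Le N (c * q) p) :
    Emb N e c p r := by
  obtain ⟨u, hu, h1, h2⟩ := hl.isom (cen_proj hc hq hqN) (mul_mem hc.2.1 hqN) hp
  obtain ⟨v, h3, h4⟩ := h
  refine ⟨fun i => u * v i, fun i => ⟨mul_mem hu (h3 i).1, by rw [← mul_assoc, h2]⟩,
    fun i j => ?_⟩
  rw [star_mul, mul_assoc, ← mul_assoc (star u), h1, mul_assoc, (h3 j).2, ← mul_assoc,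
    ← hc.2.2 _ (star_mem (h3 i).1), mul_assoc, h4]
  split_ifs
  · rw [← mul_assoc, hc.1.isIdempotentElem.eq]
  · exact mul_zero _

theorem emb_sum {A : Type} [Fintype A] [DecidableEq A] {e c : Op H} {q : A → Op H}
    (hq : ∀ a, IsStarProjection (q a)) (ho : ∀ a b, a ≠ b → q a * q b = 0) {r : A → ℕ}
    (h : ∀ a, Emb N e c (q a) (r a)) {m : ℕ} (hm : m ≤ ∑ a, r a) : Emb N e c 1 m := by
  choose v h1 h2 using h
  refine EmbT.emb (κ := Σ a, Fin (r a)) ⟨fun x => v x.1 x.2, fun x => ⟨(h1 _ _).1, one_mul _⟩,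
    ?_⟩ (by simpa using hm)
  rintro ⟨a, i⟩ ⟨b, j⟩
  by_cases hab : a = b
  · subst hab
    simp only [h2, Sigma.mk.injEq, heq_eq_eq, true_and]
  · rw [if_neg fun h => hab (congrArg Sigma.fst h)]
    beta_reduce
    rw [← (h1 a i).2, ← (h1 b j).2, star_mul,
      (hq a).isSelfAdjoint.star_eq, mul_assoc, ← mul_assoc (q a), ho a b hab, zero_mul, mul_zero]

theorem le_step (hE : MU E 1) (hEN : ∀ i j, E i j ∈ N) {c q q' : Op H} (hc : Cen N c)
    (hq : IsStarProjection q) (hqN : q ∈ N) (hq' : IsStarProjection q') (hqN' : q' ∈ N) {k : ι}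
    (h : ∀ ζ, q' ζ = ζ → q ζ = 0 → E k k ζ = 0 → ζ = 0) {F : Finset ι} {k' : ι} (hk : k' ∉ F)
    (hl : Le N (c * q) (pF E F)) : Le N (c * q') (pF E (insert k' F)) := by
  obtain ⟨x, hx, h1, h2⟩ := hl
  have e0 : E k' k' * x = 0 := by rw [← h1, ← mul_assoc, mul_pF hE, if_neg hk, zero_mul]
  refine ⟨x * (c * q) + E k' k, add_mem (mul_mem hx (mul_mem hc.2.1 hqN)) (hEN _ _), ?_,
    fun ζ a1 a2 => ?_⟩
  · rw [mul_add, pF_mul hE, if_pos (mem_insert_self _ _), ← mul_assoc, pF, sum_insert hk, add_mul,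
      e0, zero_add, ← pF, h1]
  · have b1 : E k' k ζ = 0 := by
      have e1 : E k' k' * (x * (c * q) + E k' k) = E k' k := by
        rw [mul_add, ← mul_assoc, e0, zero_mul, zero_add, hE.mul, if_pos rfl]
      rw [← e1, ap, a2, map_zero]
    have b2 : E k k ζ = 0 := by
      have e1 : E k k' * E k' k = E k k := by rw [hE.mul, if_pos rfl]
      rw [← e1, ap, b1, map_zero]
    have b3 : (c * q) ζ = 0 := by
      refine h2 _ (by rw [← ap, (cen_proj hc hq hqN).isIdempotentElem.eq]) ?_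
      rwa [add_apply, b1, add_zero] at a2
    have b4 : c ζ = ζ := by rw [← a1, ← ap, ← mul_assoc, hc.1.isIdempotentElem.eq]
    refine h ζ ?_ ?_ b2
    · rw [← a1, hc.2.2 q' hqN', ← ap, ← mul_assoc, hq'.isIdempotentElem.eq]
    · rwa [hc.2.2 q hqN, ap, b4] at b3

/-- the counting argument -/
theorem count (hE : MU E 1) (hEN : ∀ i j, E i j ∈ N) {k₀ : ι} (hfin : FinH N E k₀)
    (B₀ : Finset ι) {d K J : ℕ} [NeZero J] (hJ : J = 2 * d) (hK : 4 ≤ K)
    (hι : Fintype.card ι = d * K) (hB : B₀.card = K) {q : (ι → ZMod J) → Op H}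
    (hq : ∀ t, IsStarProjection (q t)) (hqN : ∀ t, q t ∈ N)
    (h1 : ∀ t k a ζ, q (Function.update t k a) ζ = ζ → q t ζ = 0 → E k k ζ = 0 → ζ = 0)
    (h4 : ∀ t (j : ZMod J), j ≠ 0 → q t * q (t + fun _ => j) = 0) {c : Op H} (hc : Cen N c)
    (c0 : c ≠ 0) (hz : ∀ F t, Le N (c * q t) (pF E F) ∨ Le N (c * pF E F) (q t))
    (S : Finset (ι → ZMod J)) (hS : ∀ t ∈ S, Le N (c * pF E B₀) (q t)) :
    (S.card : ℝ) ≤ 16 * d / K * Fintype.card (ι → ZMod J) := by
  classical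
  have pu : pF E univ = 1 := hE.sum
  have lu : ∀ t, Le N (c * q t) (pF E univ) := fun t =>
    ⟨1, one_mem _, by rw [pu, one_mul], fun ζ _ h => h⟩
  have ex : ∀ t, ∃ m, ∃ F : Finset ι, F.card = m ∧ Le N (c * q t) (pF E F) := fun t =>
    ⟨_, univ, rfl, lu t⟩
  set n : (ι → ZMod J) → ℕ := fun t => Nat.find (ex t) with hn
  have n1 : ∀ t F, Le N (c * q t) (pF E F) → n t ≤ F.card := fun t F h =>
    Nat.find_min' (ex t) ⟨F, rfl, h⟩
  have n2 : ∀ t, ∃ F : Finset ι, F.card = n t ∧ Le N (c * q t) (pF E F) := fun t =>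
    Nat.find_spec (ex t)
  have s1 : ∀ t k a, n (Function.update t k a) ≤ n t + 1 := fun t k a => by
    obtain ⟨F, hF, hl⟩ := n2 t
    by_cases hu : F = univ
    · rw [← hF, hu]
      exact (n1 _ _ (lu _)).trans (Nat.le_succ _)
    · obtain ⟨k', hk⟩ : ∃ k', k' ∉ F := by
        by_contra h
        push Not at h
        exact hu (eq_univ_of_forall h)
      rw [← hF, ← card_insert_of_notMem hk]
      exact n1 _ _ (le_step hE hEN hc (hq t) (hqN t) (hq _) (hqN _) (h1 t k a) hk hl)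
  have s2 : ∀ t, Emb N (E k₀ k₀) c (q t) (n t - 1) := fun t => by
    rcases Nat.eq_zero_or_pos (n t) with h | h
    · rw [h]
      exact ⟨fun i => i.elim0, fun i => i.elim0, fun i => i.elim0⟩
    · obtain ⟨F, -, hF⟩ := exists_subset_card_eq (s := (univ : Finset ι)) (n := n t - 1)
        ((Nat.sub_le _ _).trans (n1 t _ (lu t)))
      rw [← hF]
      refine emb_of_le hE hEN k₀ hc (hq t) ((hz F t).resolve_left fun h' => ?_)
      have := n1 t F h'
      omega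
  have s3 : ∀ t ∈ S, K ≤ n t := fun t ht => by
    by_contra h
    obtain ⟨F, hF, hl⟩ := n2 t
    have a1 := emb_trans hc (hq t) (hqN t) (hE.proj F) (emb_of_le hE hEN k₀ hc (hq t) (hS t ht)) hl
    exact hfin c hc c0 F (EmbT.emb (κ := Fin B₀.card) a1 (by rw [Fintype.card_fin]; omega))
  have s4 : ∀ t, ∑ j : ZMod J, n (t + fun _ => j) ≤ d * K + J := fun t => by
    have a1 : ∑ j : ZMod J, (n (t + fun _ => j) - 1) ≤ d * K := by
      by_contra h
      refine hfin c hc c0 univ ?_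
      rw [pu]
      refine emb_sum (q := fun j : ZMod J => q (t + fun _ => j)) (fun _ => hq _)
        (fun a b hab => ?_) (fun _ => s2 _) (by rw [card_univ, hι]; omega)
      have := h4 (t + fun _ => a) (b - a) (sub_ne_zero.2 hab.symm)
      have e : ((t + fun _ => a) + fun _ => b - a) = t + fun _ => b := by
        funext i
        simp
      rwa [e] at this
    have a2 : ∑ j : ZMod J, n (t + fun _ => j) ≤ ∑ j : ZMod J, (n (t + fun _ => j) - 1 + 1) :=
      sum_le_sum fun j _ => by omega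
    rw [sum_add_distrib, sum_const, card_univ, ZMod.card, smul_eq_mul, mul_one] at a2
    omega
  have s5 : J * ∑ t, n t ≤ Fintype.card (ι → ZMod J) * (d * K + J) := by
    have a1 : ∑ t, ∑ j : ZMod J, n (t + fun _ => j) ≤ ∑ _t : ι → ZMod J, (d * K + J) :=
      sum_le_sum fun t _ => s4 t
    rw [sum_comm, sum_const, card_univ, smul_eq_mul] at a1
    have a2 : ∀ j : ZMod J, ∑ t, n (t + fun _ => j) = ∑ t, n t := fun j =>
      Equiv.sum_comp (Equiv.addRight (fun _ => j : ι → ZMod J)) n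
    rwa [sum_congr rfl fun j _ => a2 j, sum_const, card_univ, ZMod.card, smul_eq_mul] at a1
  have hT : (0 : ℝ) < Fintype.card (ι → ZMod J) := by exact_mod_cast Fintype.card_pos
  have hd : (0 : ℝ) < d := by
    have := NeZero.ne J
    exact_mod_cast (by omega : 0 < d)
  have hK' : (4 : ℝ) ≤ K := by exact_mod_cast hK
  set μ : ℝ := (∑ t, (n t : ℝ)) / Fintype.card (ι → ZMod J) with hμ
  have m1 : ∑ t, (n t : ℝ) = Fintype.card (ι → ZMod J) * μ := by rw [hμ]; field_simp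
  have m2 : μ ≤ K / 2 + 1 := by
    have a1 : (J : ℝ) * ∑ t, (n t : ℝ) ≤ Fintype.card (ι → ZMod J) * (d * K + J) := by
      exact_mod_cast s5
    have a2 : (J : ℝ) = 2 * d := by exact_mod_cast hJ
    rw [m1, a2] at a1
    refine le_of_mul_le_mul_left ?_ (mul_pos hT hd)
    linarith
  have v1 := var_pi (fun t => (n t : ℝ)) (fun t k a => by exact_mod_cast s1 t k a) μ m1
  have v2 : ∑ _t ∈ S, ((K : ℝ) / 4) ^ 2 ≤ ∑ t, ((n t : ℝ) - μ) ^ 2 := by
    refine le_trans (sum_le_sum fun t ht => ?_)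
      (sum_le_sum_of_subset_of_nonneg (subset_univ S) fun _ _ _ => sq_nonneg _)
    have a1 : (K : ℝ) ≤ n t := by exact_mod_cast s3 t ht
    exact pow_le_pow_left₀ (by positivity) (by linarith) 2
  rw [sum_const, nsmul_eq_mul] at v2
  rw [hι, Nat.cast_mul] at v1
  rw [div_mul_eq_mul_div, le_div_iff₀ (by positivity)]
  refine le_of_mul_le_mul_left ?_ (by positivity : (0 : ℝ) < K)
  linarith

omit [CompleteSpace H] in
theorem rho_dg {J : ℕ} [NeZero J] (t : ι → ZMod J) :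
    rho E (dg t) = ∑ i, ZMod.stdAddChar (t i) • E i i := by
  simp only [rho, dg, Matrix.diagonal_apply, ite_smul, zero_smul, sum_ite_eq, mem_univ, if_true]

/-- the spectral projection of a unitary near `1` -/
theorem exists_q {w : Op H} (hwN : w ∈ N) {J : ℝ} (hJ : 0 < J) :
    ∃ q, IsStarProjection q ∧ q ∈ N ∧
      (∀ s, s * w = w * s → s * star w = star w * s → s * q = q * s) ∧
      (∀ ζ, q ζ = 0 → ‖ζ‖ ≤ J * ‖ζ - w ζ‖) ∧ ∀ ζ, q ζ = ζ → ζ ≠ 0 → J * ‖ζ - w ζ‖ < ‖ζ‖ := by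
  have hb : IsSelfAdjoint (1 - ((J ^ 2 : ℝ) : ℂ) • (star (1 - w) * (1 - w))) := by
    rw [IsSelfAdjoint, star_sub, star_one, star_smul, star_mul, star_star, Complex.star_def,
      Complex.conj_ofReal]
  obtain ⟨q, h1, h2, h3, h4⟩ := exists_spec hb
  have e : ∀ ζ, (⟪ζ, (1 - ((J ^ 2 : ℝ) : ℂ) • (star (1 - w) * (1 - w))) ζ⟫_ℂ).re =
      ‖ζ‖ ^ 2 - (J * ‖ζ - w ζ‖) ^ 2 := fun ζ => by
    change (⟪ζ, ζ - ((J ^ 2 : ℝ) : ℂ) • ContinuousLinearMap.adjoint (1 - w) (ζ - w ζ)⟫_ℂ).re = _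
    rw [inner_sub_right, inner_smul_right, ContinuousLinearMap.adjoint_inner_right]
    change (⟪ζ, ζ⟫_ℂ - ((J ^ 2 : ℝ) : ℂ) * ⟪ζ - w ζ, ζ - w ζ⟫_ℂ).re = _
    rw [Complex.sub_re, Complex.re_ofReal_mul, mul_pow]
    exact congrArg₂ (fun a b => a - J ^ 2 * b) (inner_self_eq_norm_sq (𝕜 := ℂ) _)
      (inner_self_eq_norm_sq (𝕜 := ℂ) _)
  have h5 : ∀ s, s * w = w * s → s * star w = star w * s → s * q = q * s := fun s a1 a2 => by
    have b1 : Commute s (1 - w) := (Commute.one_right s).sub_right a1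
    have b2 : Commute s (star (1 - w)) := by
      rw [star_sub, star_one]
      exact (Commute.one_right s).sub_right a2
    exact h2 s ((Commute.one_right s).sub_right ((b2.mul_right b1).smul_right _))
  refine ⟨q, h1, mem_of_comm fun s hs => h5 s (comm_of_mem hwN hs)
    (comm_of_mem (star_mem hwN) hs), h5, fun ζ h => ?_, fun ζ h h0 => ?_⟩
  · have := h3 ζ h
    rw [e] at this
    exact (abs_le_of_sq_le_sq' (by linarith) (by positivity)).2
  · have := h4 ζ h h0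
    rw [e] at this
    exact (abs_lt_of_sq_lt_sq' (by linarith) (norm_nonneg _)).2

end Conc

open Conc in
theorem conc (hE : MU E 1) (hEN : ∀ i j, E i j ∈ N) {k₀ : ι} (hfin : FinH N E k₀)
    (B₀ : Finset ι) {d K J : ℕ} [NeZero J] (hJ : J = 2 * d) (hK : 4 ≤ K)
    (hι : Fintype.card ι = d * K) (hB : B₀.card = K) {w : Op H} (hw : w ∈ unitary (Op H))
    (hwN : w ∈ N) :
    ∃ B q V : (ι → ZMod J) → Op H, (∀ t, Cen N (B t) ∧ IsStarProjection (q t) ∧ q t ∈ N ∧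
      q t * (w * rho E (dg t)) = w * rho E (dg t) * q t ∧
      (∀ ζ, q t ζ = 0 → ‖ζ‖ ≤ J * ‖ζ - (w * rho E (dg t)) ζ‖) ∧
      V t ∈ N ∧ V t * star (V t) = (1 - B t) * q t ∧ V t * pF E B₀ = V t) ∧
      ∀ ζ, ∑ t, ‖B t ζ‖ ^ 2 ≤ 16 * d / K * Fintype.card (ι → ZMod J) * ‖ζ‖ ^ 2 := by
  have hJ0 : (0 : ℝ) < J := by exact_mod_cast Nat.pos_of_ne_zero (NeZero.ne J)
  have hu : ∀ t : ι → ZMod J, w * rho E (dg t) ∈ unitary (Op H) := fun t =>
    mul_mem hw (hE.rho_unitary _)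
  choose q q1 q2 q3 q4 q5 using fun t : ι → ZMod J =>
    exists_q (mul_mem hwN (rho_mem hEN _)) hJ0
  have qw : ∀ t, q t * (w * rho E (dg t)) = w * rho E (dg t) * q t := fun t =>
    (q3 t _ rfl (by rw [Unitary.mul_star_self_of_mem (hu t),
      Unitary.star_mul_self_of_mem (hu t)])).symm
  have h1 : ∀ t k a ζ, q (Function.update t k a) ζ = ζ → q t ζ = 0 → E k k ζ = 0 → ζ = 0 := by
    intro t k a ζ a1 a2 a3
    by_contra h0
    have e : rho E (dg (Function.update t k a)) ζ = rho E (dg t) ζ := by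
      simp only [rho_dg, _root_.sum_apply, smul_apply]
      refine sum_congr rfl fun i _ => ?_
      by_cases hi : i = k
      · rw [hi, a3, smul_zero, smul_zero]
      · rw [Function.update_of_ne hi]
    have b1 := q5 _ ζ a1 h0
    have b2 := q4 t ζ a2
    rw [ap] at b1 b2
    rw [e] at b1
    linarith
  have h4 : ∀ t (j : ZMod J), j ≠ 0 → q t * q (t + fun _ => j) = 0 := by
    intro t j hj
    have e : w * rho E (dg (t + fun _ => j)) = ZMod.stdAddChar j • (w * rho E (dg t)) := by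
      rw [← mul_smul_comm, rho_dg, rho_dg, smul_sum]
      congr 1
      refine sum_congr rfl fun i _ => ?_
      rw [Pi.add_apply, AddChar.map_add_eq_mul, mul_comm, mul_smul]
    have c1 : q t * q (t + fun _ => j) = q (t + fun _ => j) * q t := by
      refine q3 _ _ ?_ ?_
      · rw [e, mul_smul_comm, smul_mul_assoc, qw]
      · have := congrArg star (qw t)
        rw [star_mul, star_mul (w * _), (q1 t).isSelfAdjoint.star_eq] at this
        rw [e, star_smul, mul_smul_comm, smul_mul_assoc, this]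
    ext η
    by_contra h0
    have a1 : q t ((q t * q (t + fun _ => j)) η) = (q t * q (t + fun _ => j)) η := by
      rw [← ap, ← mul_assoc, (q1 t).isIdempotentElem.eq]
    have a2 : q (t + fun _ => j) ((q t * q (t + fun _ => j)) η) =
        (q t * q (t + fun _ => j)) η := by
      rw [c1, ← ap, ← mul_assoc, (q1 _).isIdempotentElem.eq]
    have b1 := q5 _ _ a1 h0
    have b2 := q5 _ _ a2 h0
    rw [e] at b2
    have b3 := Unitary.norm_map (⟨_, hu t⟩ : unitary (Op H)) ((q t * q (t + fun _ => j)) η)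
    generalize (q t * q (t + fun _ => j)) η = ζ at *
    change J * ‖ζ - ZMod.stdAddChar j • (w * rho E (dg t)) ζ‖ < _ at b2
    change ‖(w * rho E (dg t)) ζ‖ = _ at b3
    generalize (w * rho E (dg t)) ζ = ξ at *
    have b4 : 2 ≤ J * ‖1 - ZMod.stdAddChar j‖ := by
      refine root_far (NeZero.ne J) ?_ (fun h => hj ?_) (Circle.norm_coe _)
      · rw [← AddChar.map_nsmul_eq_pow, nsmul_eq_mul, ZMod.natCast_self, zero_mul,
          AddChar.map_zero_eq_one]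
      · exact ZMod.injective_stdAddChar (h.trans (AddChar.map_zero_eq_one _).symm)
    have b5 : ‖1 - ZMod.stdAddChar j‖ * ‖ζ‖ ≤ ‖ζ - ZMod.stdAddChar j • ξ‖ + ‖ζ - ξ‖ := by
      rw [← b3, ← norm_smul]
      refine le_trans (le_of_eq ?_) (norm_sub_le _ _)
      congr 1
      module
    have b6 := mul_le_mul_of_nonneg_left b5 hJ0.le
    have b7 := mul_le_mul_of_nonneg_right b4 (norm_nonneg ζ)
    linarith
  choose z z1 z2 z3 using fun p : Finset ι × (ι → ZMod J) =>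
    compare (q1 p.2) (hE.proj p.1) (q2 p.2) (pF_mem hEN p.1)
  choose v v1 v2 v3 using fun t => (z2 (B₀, t)).isom (cen_proj (z1 _) (q1 t) (q2 t))
    (mul_mem (z1 _).2.1 (q2 t)) (hE.proj B₀)
  refine ⟨fun t => 1 - z (B₀, t), q, fun t => star (v t), fun t => ⟨(z1 _).one_sub, q1 t, q2 t,
    qw t, q4 t, star_mem (v1 t), by rw [star_star, v2, sub_sub_cancel], ?_⟩, fun ζ => ?_⟩
  · have := congrArg star (v3 t)
    rwa [star_mul, (hE.proj B₀).isSelfAdjoint.star_eq] at this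
  by_contra hc
  obtain ⟨c, c1, c2, c3⟩ := refine_cen (N := N) (fun ζ => 16 * d / K *
      Fintype.card (ι → ZMod J) * ‖ζ‖ ^ 2 - ∑ t, ‖(1 - z (B₀, t)) ζ‖ ^ 2) (fun y hy η => by
    have e : ∀ t, ‖(1 - z (B₀, t)) η‖ ^ 2 =
        ‖(1 - z (B₀, t)) (y η)‖ ^ 2 + ‖(1 - z (B₀, t)) ((1 - y) η)‖ ^ 2 := fun t => by
      rw [← ap, ← ap, (z1 _).one_sub.2.2 y hy.2.1, (z1 _).one_sub.2.2 _ hy.one_sub.2.1, ap, ap]
      exact proj_sq hy.1 _
    rw [sum_congr rfl fun t _ => e t, sum_add_distrib, proj_sq hy.1 η]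
    ring) (ζ := ζ) (sub_neg.2 (not_le.1 hc)) z z1 univ
  classical
  have c4 : ∀ p, z p * c = 0 → (1 - z p) * c = c := fun p h => by rw [sub_mul, h, one_mul, sub_zero]
  have c5 : ∑ t, ‖(1 - z (B₀, t)) (c ζ)‖ ^ 2 =
      (univ.filter fun t => z (B₀, t) * c = 0).card * ‖c ζ‖ ^ 2 := by
    rw [← nsmul_eq_mul, ← sum_const, sum_filter]
    refine sum_congr rfl fun t _ => ?_
    split_ifs with h
    · rw [← ap, c4 _ h]
    · rw [← ap, sub_mul, (c3 _ (mem_univ _)).resolve_right h, one_mul, sub_self]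
      simp
  have c0 : c ≠ 0 := by
    rintro rfl
    simp at c2
  have := count hE hEN hfin B₀ hJ hK hι hB q1 q2 h1 h4 c1 c0 (fun F t =>
    (c3 (F, t) (mem_univ _)).imp (fun h => le_restr c1 (q2 t) h (z2 (F, t)))
      fun h => le_restr c1 (pF_mem hEN F) (c4 _ h) (z3 (F, t)))
    (univ.filter fun t => z (B₀, t) * c = 0) fun t ht =>
      le_restr c1 (pF_mem hEN B₀) (c4 _ (mem_filter.1 ht).2) (z3 (B₀, t))
  have := mul_le_mul_of_nonneg_right this (sq_nonneg ‖c ζ‖)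
  simp only [c5] at c2
  linarith

end Pool.Agent.Kad
end
end

-- part Pool.Agent.Lib.MP_22c5db_an.CasesA
section

/-! Elementary facts on operator matrices. -/

open scoped InnerProductSpace ComplexConjugate
open Finset

noncomputable section

namespace Pool.Agent.Kad.Cases

universe u

variable {H : Type u} [NormedAddCommGroup H] [InnerProductSpace ℂ H] [CompleteSpace H]

variable {R : VonNeumannAlgebra H} {δ : Op H →ₗ[ℂ] Op H} {c : ℝ} {ι : Type} [Fintype ι]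
  {a b : ι → ι → Op H}

omit [CompleteSpace H] in
lemma cs {κ : Type*} (s : Finset κ) (η ζ : κ → H) :
    ‖∑ i ∈ s, ⟪η i, ζ i⟫_ℂ‖ ≤ √(∑ i ∈ s, ‖ζ i‖ ^ 2) * √(∑ i ∈ s, ‖η i‖ ^ 2) := by
  refine (norm_sum_le _ _).trans (le_trans (sum_le_sum fun i _ => ?_)
    (Real.sum_mul_le_sqrt_mul_sqrt s (fun i => ‖ζ i‖) fun i => ‖η i‖))
  rw [mul_comm]; exact norm_inner_le_norm _ _

lemma inner_star (x : Op H) (η ξ : H) : ⟪η, x ξ⟫_ℂ = ⟪star x η, ξ⟫_ℂ := by
  rw [ContinuousLinearMap.star_eq_adjoint, ContinuousLinearMap.adjoint_inner_left]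

lemma sqrt_le_mul {S s x : ℝ} (hs : 0 ≤ s) (hx : 0 ≤ x) (h : S ≤ s ^ 2 * x ^ 2) : √S ≤ s * x :=
  Real.sqrt_le_iff.2 ⟨by positivity, by rwa [mul_pow]⟩

/-- a row bound, in dual form -/
lemma row_dual {κ : Type*} [Fintype κ] {y : κ → Op H} {t : ℝ} (ht : 0 ≤ t)
    (hy : ∀ ζ, ∑ j, ‖star (y j) ζ‖ ^ 2 ≤ t ^ 2 * ‖ζ‖ ^ 2) (ξ : κ → H) :
    ‖∑ j, y j (ξ j)‖ ≤ t * √(∑ j, ‖ξ j‖ ^ 2) := by
  set v := ∑ j, y j (ξ j) with hv
  have h1 : ‖v‖ * ‖v‖ ≤ ‖v‖ * (t * √(∑ j, ‖ξ j‖ ^ 2)) := by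
    calc ‖v‖ * ‖v‖ = ‖⟪v, v⟫_ℂ‖ := by
          rw [inner_self_eq_norm_sq_to_K]; simp [sq]
      _ = ‖∑ j, ⟪star (y j) v, ξ j⟫_ℂ‖ := by
          conv_lhs => rw [hv, inner_sum, ← hv]
          simp only [inner_star]
      _ ≤ √(∑ j, ‖ξ j‖ ^ 2) * √(∑ j, ‖star (y j) v‖ ^ 2) := cs _ _ _
      _ ≤ √(∑ j, ‖ξ j‖ ^ 2) * (t * ‖v‖) := by
          gcongr; exact sqrt_le_mul ht (norm_nonneg _) (hy v)
      _ = _ := by ring
  rcases (norm_nonneg v).eq_or_lt with h | h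
  · rw [← h]; positivity
  · exact le_of_mul_le_mul_left h1 h

/-- Bessel inequality for operators with orthogonal ranges -/
lemma bessel {κ : Type*} [Fintype κ] {t : κ → Op H} (h1 : ∀ i, ‖t i‖ ≤ 1)
    (h0 : ∀ i j, i ≠ j → star (t i) * t j = 0) (ξ : H) :
    ∑ i, ‖star (t i) ξ‖ ^ 2 ≤ 1 ^ 2 * ‖ξ‖ ^ 2 := by
  classical
  set χ : κ → H := fun i => star (t i) ξ with hχ
  set S := ∑ i, ‖χ i‖ ^ 2 with hS
  have hS0 : 0 ≤ S := by positivity
  have e1 : ‖∑ i, t i (χ i)‖ ^ 2 ≤ S := by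
    have : (‖∑ i, t i (χ i)‖ ^ 2 : ℝ) = ∑ i, ‖t i (χ i)‖ ^ 2 := by
      have h2 : ⟪∑ i, t i (χ i), ∑ i, t i (χ i)⟫_ℂ = ∑ i, ⟪t i (χ i), t i (χ i)⟫_ℂ := by
        rw [sum_inner]
        refine sum_congr rfl fun i _ => ?_
        rw [inner_sum, sum_eq_single i]
        · intro j _ hj
          rw [inner_star, ← ContinuousLinearMap.mul_apply, h0 j i hj]; simp
        · simp
      simp only [inner_self_eq_norm_sq_to_K] at h2
      exact_mod_cast h2
    rw [this]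
    refine sum_le_sum fun i _ => ?_
    gcongr
    exact ((t i).le_opNorm _).trans (mul_le_of_le_one_left (norm_nonneg _) (h1 i))
  have e2 : S ≤ ‖ξ‖ * √S := by
    have h2 : ((S : ℝ) : ℂ) = ⟪ξ, ∑ i, t i (χ i)⟫_ℂ := by
      rw [inner_sum, hS]
      push_cast
      refine sum_congr rfl fun i _ => ?_
      rw [inner_star, inner_self_eq_norm_sq_to_K]; rfl
    calc S = ‖((S : ℝ) : ℂ)‖ := by rw [Complex.norm_real, Real.norm_of_nonneg hS0]
      _ ≤ ‖ξ‖ * ‖∑ i, t i (χ i)‖ := by rw [h2]; exact norm_inner_le_norm _ _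
      _ ≤ _ := by gcongr; exact Real.le_sqrt_of_sq_le e1
  have e3 := Real.sq_sqrt hS0
  nlinarith [sq_nonneg (‖ξ‖ - √S)]

omit [CompleteSpace H] in
lemma mb_add {s t : ℝ} (h : MB a s) (h' : MB b t) : MB (fun i j => a i j + b i j) (s + t) := by
  intro ξ η
  simp only [ContinuousLinearMap.add_apply, inner_add_right, sum_add_distrib]
  refine (norm_add_le _ _).trans ?_
  linarith [h ξ η, h' ξ η]

omit [CompleteSpace H] in
lemma mb_sub {s t : ℝ} (h : MB a s) (h' : MB b t) : MB (fun i j => a i j - b i j) (s + t) := by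
  intro ξ η
  simp only [ContinuousLinearMap.sub_apply, inner_sub_right, sum_sub_distrib]
  refine (norm_sub_le _ _).trans ?_
  linarith [h ξ η, h' ξ η]

omit [CompleteSpace H] in
lemma sqrt_sum_op {x : Op H} {r : ℝ} (hx : ‖x‖ ≤ r) (ξ : ι → H) :
    √(∑ j, ‖x (ξ j)‖ ^ 2) ≤ r * √(∑ j, ‖ξ j‖ ^ 2) := by
  have hr : 0 ≤ r := (norm_nonneg _).trans hx
  refine sqrt_le_mul hr (Real.sqrt_nonneg _) ?_
  rw [Real.sq_sqrt (by positivity), mul_sum]
  refine sum_le_sum fun j _ => ?_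
  rw [← mul_pow]
  gcongr
  exact x.le_of_opNorm_le hx _

lemma mb_mul {s p q : ℝ} (h : MB a s) (hs : 0 ≤ s) {x y : Op H} (hx : ‖x‖ ≤ p) (hy : ‖y‖ ≤ q) :
    MB (fun i j => x * a i j * y) (p * s * q) := by
  intro ξ η
  have hp : 0 ≤ p := (norm_nonneg _).trans hx
  have hq : 0 ≤ q := (norm_nonneg _).trans hy
  simp only [ContinuousLinearMap.mul_apply, inner_star x]
  refine (h (fun j => y (ξ j)) fun i => star x (η i)).trans ?_
  calc _ ≤ s * (q * √(∑ j, ‖ξ j‖ ^ 2)) * (p * √(∑ i, ‖η i‖ ^ 2)) := by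
        gcongr
        · exact sqrt_sum_op hy ξ
        · exact sqrt_sum_op (by rwa [norm_star]) η
    _ = _ := by ring

omit [CompleteSpace H] in
lemma mb_small {ε : ℝ} (hε : 0 ≤ ε) (h : ∀ i j, ‖b i j‖ ≤ ε) : MB b (Fintype.card ι * ε) := by
  intro ξ η
  have key : ∀ ζ : ι → H, ∑ j, ‖ζ j‖ ≤ √(Fintype.card ι) * √(∑ j, ‖ζ j‖ ^ 2) := fun ζ => by
    have := Real.sum_mul_le_sqrt_mul_sqrt univ (fun _ : ι => (1 : ℝ)) fun j => ‖ζ j‖
    simpa using this
  calc _ ≤ ∑ i, ∑ j, ‖η i‖ * (ε * ‖ξ j‖) := by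
        refine (norm_sum_le _ _).trans (sum_le_sum fun i _ => (norm_sum_le _ _).trans
          (sum_le_sum fun j _ => (norm_inner_le_norm _ _).trans ?_))
        gcongr
        exact (b i j).le_of_opNorm_le (h i j) _
    _ = ε * (∑ j, ‖ξ j‖) * ∑ i, ‖η i‖ := by
        simp only [← mul_sum, ← sum_mul]; ring
    _ ≤ ε * (√(Fintype.card ι) * √(∑ j, ‖ξ j‖ ^ 2)) *
          (√(Fintype.card ι) * √(∑ j, ‖η j‖ ^ 2)) := by
        gcongr <;> exact key _
    _ = (√(Fintype.card ι) * √(Fintype.card ι)) * ε * √(∑ j, ‖ξ j‖ ^ 2) *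
          √(∑ j, ‖η j‖ ^ 2) := by ring
    _ = _ := by rw [Real.mul_self_sqrt (by positivity)]

/-- column times operator times row -/
lemma mb_fact {x y : ι → Op H} {m : Op H} {s r t : ℝ} (hs : 0 ≤ s) (ht : 0 ≤ t)
    (hx : ∀ ζ, ∑ i, ‖x i ζ‖ ^ 2 ≤ s ^ 2 * ‖ζ‖ ^ 2) (hm : ‖m‖ ≤ r)
    (hy : ∀ ζ, ∑ j, ‖star (y j) ζ‖ ^ 2 ≤ t ^ 2 * ‖ζ‖ ^ 2) :
    MB (fun i j => x i * m * y j) (s * r * t) := by
  intro ξ η
  have hr : 0 ≤ r := (norm_nonneg _).trans hm
  have e : ∑ i, ∑ j, ⟪η i, (x i * m * y j) (ξ j)⟫_ℂ = ∑ i, ⟪η i, x i (m (∑ j, y j (ξ j)))⟫_ℂ := by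
    simp only [ContinuousLinearMap.mul_apply, map_sum, inner_sum]
  rw [e]
  refine (cs _ _ _).trans ?_
  gcongr
  refine (sqrt_le_mul hs (norm_nonneg _) (hx _)).trans ?_
  rw [mul_assoc, mul_assoc]
  gcongr
  refine (m.le_of_opNorm_le hm _).trans ?_
  gcongr
  exact row_dual ht hy ξ

/-- the operator given by a bounded matrix and a bounded row -/
lemma norm_mb_le {t : ι → Op H} (h : MB a 1)
    (ht : ∀ ζ, ∑ j, ‖star (t j) ζ‖ ^ 2 ≤ 1 ^ 2 * ‖ζ‖ ^ 2) :
    ‖∑ k, ∑ l, t k * a k l * star (t l)‖ ≤ 1 := by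
  refine ContinuousLinearMap.opNorm_le_bound _ zero_le_one fun ξ => ?_
  set v := (∑ k, ∑ l, t k * a k l * star (t l)) ξ with hv
  have h1 : ‖v‖ * ‖v‖ ≤ ‖v‖ * (1 * ‖ξ‖) := by
    calc ‖v‖ * ‖v‖ = ‖⟪v, v⟫_ℂ‖ := by
          rw [inner_self_eq_norm_sq_to_K]; simp [sq]
      _ = ‖∑ k, ∑ l, ⟪star (t k) v, a k l (star (t l) ξ)⟫_ℂ‖ := by
          nth_rewrite 2 [hv]
          simp only [ContinuousLinearMap.sum_apply, inner_sum, ContinuousLinearMap.mul_apply,
            inner_star (t _)]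
      _ ≤ 1 * √(∑ l, ‖star (t l) ξ‖ ^ 2) * √(∑ k, ‖star (t k) v‖ ^ 2) :=
          h (fun l => star (t l) ξ) fun k => star (t k) v
      _ ≤ 1 * (1 * ‖ξ‖) * (1 * ‖v‖) := by
          gcongr <;> exact sqrt_le_mul zero_le_one (norm_nonneg _) (ht _)
      _ = _ := by ring
  rcases (norm_nonneg v).eq_or_lt with h | h
  · rw [← h]; positivity
  · exact le_of_mul_le_mul_left h1 h

lemma cut (hd : Der R δ) {z x : Op H} (hz : Cen R z) (hx : x ∈ R) :
    z * δ (z * x) * z = z * δ x * z := by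
  have hzz : z * z = z := hz.1.isIdempotentElem
  have h1 := hd z hz.2.1 z hz.2.1
  rw [hzz] at h1
  have h2 : z * δ z * z = 0 := by
    have h3 : z * δ z * z = z * δ z * z + z * δ z * z := by
      conv_lhs => rw [h1]
      rw [mul_add, add_mul, ← mul_assoc, hzz, ← mul_assoc, mul_assoc _ z z, hzz]
    simpa using h3
  rw [hd z hz.2.1 x hx, mul_add, add_mul, ← mul_assoc, hzz, ← mul_assoc, mul_assoc _ x z,
    ← hz.2.2 x hx, ← mul_assoc, h2, zero_mul, add_zero]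

lemma der3 (hd : Der R δ) {x y w : Op H} (hx : x ∈ R) (hy : y ∈ R) (hw : w ∈ R) :
    δ (x * y * w) = δ x * y * w + x * δ y * w + x * y * δ w := by
  rw [hd _ (mul_mem hx hy) w hw, hd x hx y hy]; noncomm_ring

end Pool.Agent.Kad.Cases
end
end
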