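import Pool.Agent.Lib.MP_22c5db_an.VN1
import Pool.Agent.Lib.MP_22c5db_an.RM2

-- part Pool.Agent.Lib.MP_22c5db_an.Frame
section

/-! Matrix amplifications. -/

open scoped InnerProductSpace ComplexConjugate
open Finset

noncomputable section

namespace Pool.Agent.Kad

universe u

variable {H : Type u} [NormedAddCommGroup H] [InnerProductSpace ℂ H] [CompleteSpace H]

variable {R : VonNeumannAlgebra H}

namespace FrameAux

variable {K : Type u} [NormedAddCommGroup K] [InnerProductSpace ℂ K] [CompleteSpace K]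
  {ι : Type} [Fintype ι] [DecidableEq ι] {z : Op H} {J : ι → H →L[ℂ] K}

/-- the algebraic part of a frame, in pointwise form -/
structure Pre (z : Op H) (J : ι → H →L[ℂ] K) : Prop where
  adj : ∀ a b ξ, ContinuousLinearMap.adjoint (J a) (J b ξ) = if a = b then z ξ else 0
  sum : ∀ ζ, ∑ a, J a (ContinuousLinearMap.adjoint (J a) ζ) = ζ

omit [Fintype ι] [DecidableEq ι] in
theorem ent_apply (J : ι → H →L[ℂ] K) (x : Op K) (a b : ι) (ξ : H) :
    ent J x a b ξ = ContinuousLinearMap.adjoint (J a) (x (J b ξ)) := rfl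

omit [DecidableEq ι] in
theorem mat_apply (J : ι → H →L[ℂ] K) (m : ι → ι → Op H) (ζ : K) :
    mat J m ζ = ∑ a, ∑ b, J a (m a b (ContinuousLinearMap.adjoint (J b) ζ)) := by
  simp only [mat, _root_.sum_apply, ContinuousLinearMap.comp_apply]

omit [DecidableEq ι] in
theorem star_mat (J : ι → H →L[ℂ] K) (m : ι → ι → Op H) :
    star (mat J m) = mat J fun a b => star (m b a) := by
  simp only [mat, star_sum]
  rw [sum_comm]
  simp only [ContinuousLinearMap.star_eq_adjoint, ContinuousLinearMap.adjoint_comp,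
    ContinuousLinearMap.adjoint_adjoint, ContinuousLinearMap.comp_assoc]

theorem Pre.Jz (h : Pre z J) (a : ι) (ξ : H) : J a (z ξ) = J a ξ := by
  have := h.sum (J a ξ)
  simp only [h.adj, apply_ite (J _), map_zero, sum_ite_eq', mem_univ, if_true] at this
  exact this

theorem Pre.zA (h : Pre z J) (a : ι) (ζ : K) :
    z (ContinuousLinearMap.adjoint (J a) ζ) = ContinuousLinearMap.adjoint (J a) ζ := by
  have := congrArg (ContinuousLinearMap.adjoint (J a)) (h.sum ζ)
  simp only [map_sum, h.adj, sum_ite_eq, mem_univ, if_true] at this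
  exact this

theorem Pre.ent_mat (h : Pre z J) (m : ι → ι → Op H) (a b : ι) :
    ent J (mat J m) a b = z * m a b * z := by
  ext ξ
  simp only [ent_apply, mat_apply, map_sum, h.adj, mul_apply_eq_comp]
  rw [sum_eq_single a (fun c _ hc => by simp [hc.symm]) (by simp),
    sum_eq_single b (fun c _ hc => by simp [hc]) (by simp)]
  simp

theorem Pre.mat_ent (h : Pre z J) (x : Op K) : mat J (ent J x) = x := by
  ext ζ
  simp only [ent_apply, mat_apply]
  rw [sum_comm]
  simp only [h.sum]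
  rw [← map_sum, h.sum]

theorem Pre.ent_mul (h : Pre z J) (x y : Op K) (a b : ι) :
    ent J (x * y) a b = ∑ c, ent J x a c * ent J y c b := by
  ext ξ
  simp only [ent_apply, mul_apply_eq_comp, _root_.sum_apply]
  rw [← map_sum, ← map_sum, h.sum]

theorem Pre.z_ent (h : Pre z J) (x : Op K) (a b : ι) :
    z * ent J x a b = ent J x a b ∧ ent J x a b * z = ent J x a b := by
  constructor <;> ext ξ <;> simp only [ent_apply, mul_apply_eq_comp, h.zA, h.Jz]

theorem Pre.ext (h : Pre z J) {x y : Op K} (e : ∀ a b, ent J x a b = ent J y a b) : x = y := by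
  rw [← h.mat_ent x, ← h.mat_ent y, show ent J x = ent J y from funext fun a => funext (e a)]

theorem Pre.comm_iff (h : Pre z J) {s : Op H} (hs : s * z = z * s) (x : Op K) :
    mat J (fun a b => if a = b then s else 0) * x = x * mat J (fun a b => if a = b then s else 0) ↔
      ∀ a b, s * ent J x a b = ent J x a b * s := by
  have e1 : ∀ a b, ent J (mat J (fun a b => if a = b then s else 0) * x) a b =
      s * ent J x a b := fun a b => by
    simp only [h.ent_mul, h.ent_mat]
    rw [sum_eq_single a (fun c _ hc => by simp [hc.symm]) (by simp), if_pos rfl, ← hs,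
      mul_assoc, mul_assoc, (h.z_ent x a b).1, (h.z_ent x a b).1]
  have e2 : ∀ a b, ent J (x * mat J (fun a b => if a = b then s else 0)) a b =
      ent J x a b * s := fun a b => by
    simp only [h.ent_mul, h.ent_mat]
    rw [sum_eq_single b (fun c _ hc => by simp [hc]) (by simp), if_pos rfl, mul_assoc z, hs,
      ← mul_assoc, ← mul_assoc, (h.z_ent x a b).2, (h.z_ent x a b).2]
  exact ⟨fun e a b => by rw [← e1, ← e2, e], fun e => h.ext fun a b => by rw [e1, e2, e]⟩

theorem Pre.sum_sq (h : Pre z J) (ζ : K) :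
    √(∑ a, ‖ContinuousLinearMap.adjoint (J a) ζ‖ ^ 2) = ‖ζ‖ := by
  have e : ⟪ζ, ζ⟫_ℂ = ∑ a, ⟪ContinuousLinearMap.adjoint (J a) ζ,
      ContinuousLinearMap.adjoint (J a) ζ⟫_ℂ := by
    simp only [ContinuousLinearMap.adjoint_inner_left]
    rw [← inner_sum, h.sum]
  have e2 := congrArg Complex.re e
  rw [Complex.re_sum] at e2
  simp only [inner_self_eq_norm_sq_to_K, Complex.coe_algebraMap, ← Complex.ofReal_pow,
    Complex.ofReal_re] at e2
  rw [← e2, Real.sqrt_sq (norm_nonneg _)]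

theorem Pre.norm_sum (h : Pre z J) (hz : IsStarProjection z) (ξ : ι → H) :
    ‖∑ a, J a (ξ a)‖ ≤ √(∑ a, ‖ξ a‖ ^ 2) := by
  rw [← h.sum_sq]
  refine Real.sqrt_le_sqrt (sum_le_sum fun a _ => pow_le_pow_left₀ (norm_nonneg _) ?_ 2)
  simp only [map_sum, h.adj, sum_ite_eq, mem_univ, if_true]
  exact (z.le_opNorm _).trans (mul_le_of_le_one_left (norm_nonneg _) hz.norm_le)

theorem pre {N : VonNeumannAlgebra K} (h : Frame R z J N) : Pre z J where
  adj a b ξ := by
    have := congrArg (fun T : Op H => T ξ) (h.adj a b)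
    simp only [ContinuousLinearMap.comp_apply] at this
    rw [this]
    split_ifs <;> rfl
  sum ζ := by
    have := congrArg (fun T : Op K => T ζ) h.sum
    simp only [_root_.sum_apply, ContinuousLinearMap.comp_apply] at this
    exact this

theorem frame_of_pre (h : Pre z J) (hz : IsStarProjection z) (hzR : z ∈ R) :
    ∃ N : VonNeumannAlgebra K, Frame R z J N := by
  refine ⟨⟨StarSubalgebra.centralizer ℂ
    {x | ∃ s ∈ R.commutant, x = mat J fun a b => if a = b then s else 0}, by simp⟩,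
    hz, hzR, fun a b => ?_, ?_, fun x => ?_⟩
  · ext ξ
    rw [ContinuousLinearMap.comp_apply, h.adj]
    split_ifs <;> rfl
  · ext ζ
    simp only [_root_.sum_apply, ContinuousLinearMap.comp_apply]
    exact h.sum ζ
  · change x ∈ StarSubalgebra.centralizer ℂ _ ↔ _
    rw [StarSubalgebra.mem_centralizer_iff]
    constructor
    · exact fun e a b => mem_of_comm fun s hs =>
        (h.comm_iff (comm_of_mem hzR hs) x).1 (e _ ⟨s, hs, rfl⟩).1 a b
    · rintro e _ ⟨s, hs, rfl⟩
      have e1 : star (mat J fun a b => if a = b then s else 0) =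
          mat J fun a b => if a = b then star s else 0 := by
        rw [star_mat]
        congr 1
        funext a b
        simp only [apply_ite star, star_zero, eq_comm]
      rw [e1]
      exact ⟨(h.comm_iff (comm_of_mem hzR hs) x).2 fun a b => comm_of_mem (e a b) hs,
        (h.comm_iff (comm_of_mem hzR (star_mem hs)) x).2 fun a b =>
          comm_of_mem (e a b) (star_mem hs)⟩

end FrameAux

open FrameAux

theorem exists_frame {z : Op H} (hz : IsStarProjection z) (hzR : z ∈ R) (ι : Type) [Fintype ι]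
    [DecidableEq ι] : ∃ (K : Type u) (_ : NormedAddCommGroup K) (_ : InnerProductSpace ℂ K)
      (_ : CompleteSpace K) (J : ι → H →L[ℂ] K) (N : VonNeumannAlgebra K), Frame R z J N := by
  let S : Submodule ℂ H := (1 - z : Op H).ker
  have hS : ∀ ξ, ξ ∈ S ↔ z ξ = ξ := fun ξ => by
    change ξ - z ξ = 0 ↔ _
    rw [sub_eq_zero, eq_comm]
  have : CompleteSpace S := ContinuousLinearMap.completeSpace_ker _
  have hzz : ∀ ξ, z ξ ∈ S := fun ξ => (hS _).2 (congrArg (fun T : Op H => T ξ) hz.isIdempotentElem.eq)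
  let A : ι → PiLp 2 (fun _ : ι => S) →L[ℂ] H := fun a =>
    S.subtypeL.comp (PiLp.proj 2 (fun _ : ι => S) a)
  have hA : ∀ a y, A a y = (y a : H) := fun _ _ => rfl
  have hJ : ∀ a ξ, ContinuousLinearMap.adjoint (A a) ξ = PiLp.single 2 a ⟨z ξ, hzz ξ⟩ :=
    fun a ξ => by
    refine ext_inner_right ℂ fun y => ?_
    rw [ContinuousLinearMap.adjoint_inner_left, hA, PiLp.inner_apply,
      sum_eq_single a (fun c _ hc => by simp [hc]) (by simp), PiLp.single_eq_same,
      Submodule.coe_inner, ← ContinuousLinearMap.adjoint_inner_right,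
      ← ContinuousLinearMap.star_eq_adjoint, hz.isSelfAdjoint.star_eq, (hS _).1 (y a).2]
  have h : Pre z fun a => ContinuousLinearMap.adjoint (A a) := by
    refine ⟨fun a b ξ => ?_, fun y => ?_⟩
    · rw [ContinuousLinearMap.adjoint_adjoint, hJ, hA]
      split_ifs with e
      · rw [e, PiLp.single_eq_same]
      · simp [e]
    · ext b
      simp only [ContinuousLinearMap.adjoint_adjoint, hJ, hA, WithLp.ofLp_sum, Finset.sum_apply]
      rw [sum_eq_single b (fun c _ hc => by simp [hc.symm]) (by simp), PiLp.single_eq_same]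
      exact (hS _).1 (y b).2
  obtain ⟨N, hN⟩ := frame_of_pre h hz hzR
  exact ⟨_, _, _, inferInstance, _, N, hN⟩

variable {K : Type u} [NormedAddCommGroup K] [InnerProductSpace ℂ K] [CompleteSpace K]
  {ι : Type} [Fintype ι] [DecidableEq ι] {z : Op H} {J : ι → H →L[ℂ] K} {N : VonNeumannAlgebra K}

theorem Frame.comp_z (h : Frame R z J N) (a : ι) : (J a).comp z = J a :=
  ContinuousLinearMap.ext fun ξ => (pre h).Jz a ξ
theorem Frame.ent_mat (h : Frame R z J N) (m : ι → ι → Op H) (a b : ι) :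
    ent J (mat J m) a b = z * m a b * z := (pre h).ent_mat m a b
theorem Frame.mat_ent (h : Frame R z J N) (x : Op K) : mat J (ent J x) = x := (pre h).mat_ent x
theorem Frame.z_ent (h : Frame R z J N) (x : Op K) (a b : ι) :
    z * ent J x a b = ent J x a b ∧ ent J x a b * z = ent J x a b := (pre h).z_ent x a b
theorem Frame.mat_z (h : Frame R z J N) (m : ι → ι → Op H) :
    mat J (fun a b => z * m a b * z) = mat J m := by
  ext ζ
  simp only [mat_apply, mul_apply_eq_comp, (pre h).zA, (pre h).Jz]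
theorem Frame.ent_mul (h : Frame R z J N) (x y : Op K) (a b : ι) :
    ent J (x * y) a b = ∑ c, ent J x a c * ent J y c b := (pre h).ent_mul x y a b
theorem Frame.mat_mul (h : Frame R z J N) (m m' : ι → ι → Op H) :
    mat J m * mat J m' = mat J fun a b => ∑ c, m a c * z * m' c b := by
  refine (pre h).ext fun a b => ?_
  simp only [h.ent_mul, h.ent_mat, mul_sum, sum_mul]
  refine sum_congr rfl fun c _ => ?_
  have e : ∀ y : Op H, z * (z * y) = z * y := fun y => by
    rw [← mul_assoc, h.proj.isIdempotentElem.eq]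
  simp only [mul_assoc, e]
theorem ent_star (J : ι → H →L[ℂ] K) (x : Op K) (a b : ι) :
    ent J (star x) a b = star (ent J x b a) := by
  simp only [ent, ContinuousLinearMap.star_eq_adjoint, ContinuousLinearMap.adjoint_comp,
    ContinuousLinearMap.adjoint_adjoint, ContinuousLinearMap.comp_assoc]
theorem mat_star (J : ι → H →L[ℂ] K) (m : ι → ι → Op H) :
    star (mat J m) = mat J fun a b => star (m b a) := star_mat J m
theorem Frame.mat_mem (h : Frame R z J N) {m : ι → ι → Op H} (hm : ∀ a b, m a b ∈ R) :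
    mat J m ∈ N := (h.mem_iff _).2 fun a b => by
  rw [h.ent_mat]
  exact mul_mem (mul_mem h.mem (hm a b)) h.mem
theorem Frame.mb_ent (h : Frame R z J N) (x : Op K) : MB (ent J x) ‖x‖ := by
  intro ξ η
  have e : ∑ i, ∑ j, ⟪η i, ent J x i j (ξ j)⟫_ℂ = ⟪∑ i, J i (η i), x (∑ j, J j (ξ j))⟫_ℂ := by
    simp only [ent_apply, ContinuousLinearMap.adjoint_inner_right, map_sum, sum_inner, inner_sum]
    exact sum_comm
  rw [e, mul_comm]
  refine (norm_inner_le_norm _ _).trans (mul_le_mul ((pre h).norm_sum h.proj η)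
    ((x.le_opNorm _).trans (mul_le_mul_of_nonneg_left ((pre h).norm_sum h.proj ξ)
      (norm_nonneg _))) (norm_nonneg _) (Real.sqrt_nonneg _))
theorem Frame.norm_mat (h : Frame R z J N) {m : ι → ι → Op H} {c : ℝ} (hc : 0 ≤ c) (hm : MB m c) :
    ‖mat J m‖ ≤ c := by
  refine ContinuousLinearMap.opNorm_le_bound _ hc fun ζ => ?_
  have e := hm (fun b => ContinuousLinearMap.adjoint (J b) ζ)
    (fun a => ContinuousLinearMap.adjoint (J a) (mat J m ζ))
  rw [(pre h).sum_sq, (pre h).sum_sq] at e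
  simp only [ContinuousLinearMap.adjoint_inner_left, ← inner_sum] at e
  rw [← mat_apply, inner_self_eq_norm_sq_to_K, norm_pow, RCLike.norm_ofReal,
    abs_of_nonneg (norm_nonneg _), sq] at e
  rcases (norm_nonneg (mat J m ζ)).eq_or_lt with e0 | e0
  · rw [← e0]
    positivity
  · exact le_of_mul_le_mul_right e e0
theorem Frame.der (h : Frame R z J N) {δ : Op H →ₗ[ℂ] Op H} (hd : Der R δ) : Der N (dl J δ) := by
  intro x hx y hy
  have ex := (h.mem_iff x).1 hx
  have ey := (h.mem_iff y).1 hy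
  change mat J (fun a b => δ (ent J (x * y) a b)) =
    x * mat J (fun a b => δ (ent J y a b)) + mat J (fun a b => δ (ent J x a b)) * y
  have e1 : x * mat J (fun a b => δ (ent J y a b)) =
      mat J fun a b => ∑ c, ent J x a c * δ (ent J y c b) := by
    conv_lhs => rw [← h.mat_ent x, h.mat_mul]
    simp only [(h.z_ent x _ _).2]
  have e2 : mat J (fun a b => δ (ent J x a b)) * y =
      mat J fun a b => ∑ c, δ (ent J x a c) * ent J y c b := by
    conv_lhs => rw [← h.mat_ent y, h.mat_mul]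
    simp only [mul_assoc, (h.z_ent y _ _).1]
  rw [e1, e2]
  simp only [h.ent_mul, map_sum, hd _ (ex _ _) _ (ey _ _), sum_add_distrib, mat,
    ContinuousLinearMap.add_comp, ContinuousLinearMap.comp_add]
/-- the amplified derivation on a matrix -/
theorem Frame.dl_mat (h : Frame R z J N) (δ : Op H →ₗ[ℂ] Op H) (m : ι → ι → Op H) :
    dl J δ (mat J m) = mat J fun a b => δ (z * m a b * z) := by
  change mat J (fun a b => δ (ent J (mat J m) a b)) = _
  simp only [h.ent_mat]

end Pool.Agent.Kad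
end
end

-- part Pool.Agent.Lib.MP_22c5db_an.Cancel
section

/-! Cancellation. -/

open scoped InnerProductSpace ComplexConjugate
open Finset

noncomputable section

namespace Pool.Agent.Kad

universe u

variable {H : Type u} [NormedAddCommGroup H] [InnerProductSpace ℂ H] [CompleteSpace H]

variable {N : VonNeumannAlgebra H} {ι : Type} [Fintype ι] [DecidableEq ι] {E : ι → ι → Op H}

namespace Cancel

theorem proj_mul {c f : Op H} (hc : Cen N c) (hf : IsStarProjection f) (hfN : f ∈ N) :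
    IsStarProjection (c * f) :=
  hc.1.mul hf (hc.2.2 f hfN)

section fam

variable {κ : Type} [Fintype κ] [DecidableEq κ] {v : κ → Op H} {f : Op H}

omit [Fintype κ] in
theorem mul_src (hf : IsStarProjection f)
    (h : ∀ i j, star (v i) * v j = if i = j then f else 0) (i : κ) : v i * f = v i := by
  have h1 : star (v i) * v i = f := by rw [h, if_pos rfl]
  have h2 := piso_of_proj (v := v i) (by rw [h1]; exact hf)
  rw [mul_assoc, h1] at h2
  exact h2

theorem rng_mul (hf : IsStarProjection f)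
    (h : ∀ i j, star (v i) * v j = if i = j then f else 0) (j : κ) :
    (∑ i, v i * star (v i)) * v j = v j := by
  rw [sum_mul, sum_eq_single j]
  · rw [mul_assoc, h, if_pos rfl, mul_src hf h]
  · intro i _ hij
    rw [mul_assoc, h, if_neg hij, mul_zero]
  · intro hj
    exact absurd (mem_univ j) hj

theorem rng_proj (hf : IsStarProjection f)
    (h : ∀ i j, star (v i) * v j = if i = j then f else 0) :
    IsStarProjection (∑ i, v i * star (v i)) := by
  refine ⟨?_, ?_⟩
  · change _ * _ = _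
    rw [mul_sum]
    refine sum_congr rfl fun j _ => ?_
    rw [← mul_assoc, rng_mul hf h]
  · change star _ = _
    rw [star_sum]
    refine sum_congr rfl fun j _ => ?_
    rw [star_mul, star_star]

omit [DecidableEq κ] in
theorem rng_mem (h : ∀ i, v i ∈ N) : (∑ i, v i * star (v i)) ∈ N :=
  sum_mem fun i _ => mul_mem (h i) (star_mem (h i))

/-- move a family under a projection -/
theorem move (hf : IsStarProjection f) (hv : ∀ i, v i ∈ N)
    (h : ∀ i j, star (v i) * v j = if i = j then f else 0) {z p : Op H} (hz : Cen N z)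
    (hp : IsStarProjection p) (hle : Le N (z * ∑ i, v i * star (v i)) p) :
    ∃ w : κ → Op H, (∀ i, w i ∈ N ∧ p * w i = w i) ∧
      ∀ i j, star (w i) * w j = if i = j then z * f else 0 := by
  obtain ⟨x, hx, h1, h2⟩ := hle.isom (proj_mul hz (rng_proj hf h) (rng_mem hv))
    (mul_mem hz.2.1 (rng_mem hv)) hp
  refine ⟨fun i => x * v i, fun i => ⟨mul_mem hx (hv i), by rw [← mul_assoc, h2]⟩, fun i j => ?_⟩
  have : star (x * v i) * (x * v j) = star (v i) * (star x * x * v j) := by
    rw [star_mul]; simp only [mul_assoc]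
  rw [this, h1, mul_assoc, rng_mul hf h, ← mul_assoc, ← hz.2.2 _ (star_mem (hv i)), mul_assoc, h]
  split_ifs
  · rfl
  · rw [mul_zero]

end fam

theorem inner_proj {p : Op H} (hp : IsStarProjection p) (a b : H) : ⟪a, p b⟫_ℂ = ⟪p a, b⟫_ℂ := by
  have h := hp.isSelfAdjoint.star_eq
  rw [ContinuousLinearMap.star_eq_adjoint] at h
  conv_lhs => rw [← h]
  rw [ContinuousLinearMap.adjoint_inner_right]

theorem proj_app {p : Op H} (hp : IsStarProjection p) (a : H) : p (p a) = p a := by
  rw [← ContinuousLinearMap.mul_apply, hp.isIdempotentElem.eq]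

theorem half {p₁ p₂ G₁ G₂ m₁ m₂ z : Op H} (hp₁ : IsStarProjection p₁) (hp₁N : p₁ ∈ N)
    (hG₁ : IsStarProjection G₁) (hG₁N : G₁ ∈ N) (hG₂ : IsStarProjection G₂)
    (hm₁ : IsStarProjection m₁) (hm₁N : m₁ ∈ N) (hm₂ : IsStarProjection m₂)
    (hs : (p₁ + p₂) * G₁ = G₁) (ho : G₂ * G₁ = 0)
    (e₁ : ∀ ζ, m₁ ζ = ζ ↔ G₁ ζ = ζ ∧ p₂ ζ = ζ) (e₂ : ∀ ζ, m₂ ζ = ζ ↔ G₂ ζ = ζ ∧ p₁ ζ = ζ)
    (hz : Cen N z) (hle : Le N (z * m₁) m₂) : Le N (z * G₁) p₁ := by
  obtain ⟨x, hx, h1, h2⟩ := hle
  have hxa : ∀ ζ, G₂ (x ζ) = x ζ ∧ p₁ (x ζ) = x ζ := fun ζ =>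
    (e₂ _).1 (by rw [← ContinuousLinearMap.mul_apply, h1])
  refine ⟨x * (z * m₁) + p₁ * (G₁ - m₁), add_mem (mul_mem hx (mul_mem hz.2.1 hm₁N))
    (mul_mem hp₁N (sub_mem hG₁N hm₁N)), ?_, fun ζ hζ h0 => ?_⟩
  · ext ζ
    simp only [ContinuousLinearMap.mul_apply, ContinuousLinearMap.add_apply, map_add]
    rw [(hxa _).2, proj_app hp₁]
  · simp only [ContinuousLinearMap.mul_apply, ContinuousLinearMap.add_apply] at h0 hζ
    obtain ⟨η, hη⟩ : ∃ η, η = (G₁ - m₁) ζ := ⟨_, rfl⟩
    rw [← hη] at h0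
    have hmm : G₁ (m₁ ζ) = m₁ ζ := ((e₁ _).1 (proj_app hm₁ ζ)).1
    have hGη : G₁ η = η := by
      rw [hη, ContinuousLinearMap.sub_apply, map_sub, proj_app hG₁, hmm]
    have hmη : m₁ η = 0 := by
      rw [hη, ContinuousLinearMap.sub_apply, map_sub, proj_app hm₁, sub_eq_zero]
      refine ext_inner_left ℂ fun a => ?_
      rw [inner_proj hm₁, inner_proj hG₁, ((e₁ _).1 (proj_app hm₁ a)).1, inner_proj hm₁]
    have hin : ⟪x (z (m₁ ζ)), p₁ η⟫_ℂ = 0 := by
      rw [inner_proj hp₁, (hxa _).2, ← (hxa _).1, ← inner_proj hG₂, ← hGη,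
        ← ContinuousLinearMap.mul_apply G₂, ho, ContinuousLinearMap.zero_apply, inner_zero_right]
    have hb : p₁ η = -x (z (m₁ ζ)) := eq_neg_of_add_eq_zero_right h0
    have ha : x (z (m₁ ζ)) = 0 := by
      rw [hb, inner_neg_right, neg_eq_zero, inner_self_eq_zero] at hin
      exact hin
    rw [ha, neg_zero] at hb
    have hzm : z (m₁ ζ) = 0 := by
      refine h2 _ ?_ ha
      exact proj_app (proj_mul hz hm₁ hm₁N) ζ
    have hp2 : p₂ η = η := by
      have := congrArg (fun T : Op H => T η) hs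
      simp only [ContinuousLinearMap.mul_apply, ContinuousLinearMap.add_apply] at this
      rw [hGη, hb, zero_add] at this
      exact this
    have hη0 : η = 0 := by rw [← (e₁ η).2 ⟨hGη, hp2⟩, hmη]
    rw [hη0, ContinuousLinearMap.sub_apply, eq_comm, sub_eq_zero] at hη
    rw [← hζ, hη, hzm]

theorem split {p₁ p₂ G₁ G₂ : Op H} (hp₁ : IsStarProjection p₁) (hp₁N : p₁ ∈ N)
    (hp₂ : IsStarProjection p₂) (hp₂N : p₂ ∈ N)
    (hG₁ : IsStarProjection G₁) (hG₁N : G₁ ∈ N) (hG₂ : IsStarProjection G₂) (hG₂N : G₂ ∈ N)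
    (hs₁ : (p₁ + p₂) * G₁ = G₁) (hs₂ : (p₁ + p₂) * G₂ = G₂) (ho : G₂ * G₁ = 0) :
    ∃ z, Cen N z ∧ Le N (z * G₁) p₁ ∧ Le N ((1 - z) * G₂) p₂ := by
  obtain ⟨m₁, hm₁N, hm₁, e₁⟩ := exists_meet hG₁ hp₂ hG₁N hp₂N
  obtain ⟨m₂, hm₂N, hm₂, e₂⟩ := exists_meet hG₂ hp₁ hG₂N hp₁N
  obtain ⟨z, hz, l₁, l₂⟩ := compare hm₁ hm₂ hm₁N hm₂N
  have ho' : G₁ * G₂ = 0 := by
    have := congrArg star ho
    rwa [star_mul, hG₁.isSelfAdjoint.star_eq, hG₂.isSelfAdjoint.star_eq, star_zero] at this
  exact ⟨z, hz, half hp₁ hp₁N hG₁ hG₁N hG₂ hm₁ hm₁N hm₂ hs₁ ho e₁ e₂ hz l₁,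
    half hp₂ hp₂N hG₂ hG₂N hG₁ hm₂ hm₂N hm₁ (by rw [add_comm, hs₂]) ho' e₂ e₁ hz.one_sub l₂⟩

theorem proj_E (hE : MU E 1) (k : ι) : IsStarProjection (E k k) := by
  have := hE.proj {k}
  rwa [pF, sum_singleton] at this

theorem conj_E (hE : MU E 1) (hEN : ∀ i j, E i j ∈ N) (k₀ k : ι) {c : Op H} (hc : Cen N c) :
    E k k₀ * (c * E k₀ k₀) * E k₀ k = c * E k k := by
  rw [← mul_assoc, ← hc.2.2 _ (hEN k k₀), mul_assoc c, hE.mul, if_pos rfl, mul_assoc, hE.mul,
    if_pos rfl]

theorem two (hE : MU E 1) (hEN : ∀ i j, E i j ∈ N) (k₀ : ι) (F : Finset ι) :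
    ∀ c, Cen N c → c ≠ 0 → Emb N (E k₀ k₀) c (pF E F) (F.card + 1) →
      ∃ c', Cen N c' ∧ c' ≠ 0 ∧ Emb N (E k₀ k₀) c' (E k₀ k₀) 2 := by
  induction F using Finset.induction_on with
  | empty =>
    rintro c hc hc0 ⟨v, h1, h2⟩
    exfalso
    apply hc0
    have h3 : v 0 = 0 := by rw [← (h1 0).2, pF, sum_empty, zero_mul]
    have h4 := h2 0 0
    rw [if_pos rfl, h3, mul_zero] at h4
    rw [← mul_one c, ← hE.sum, mul_sum]
    refine sum_eq_zero fun k _ => ?_
    rw [← conj_E hE hEN k₀ k hc, ← h4, mul_zero, zero_mul]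
  | insert k F hk ih =>
    rintro c hc hc0 ⟨v, h1, h2⟩
    have hf : IsStarProjection (c * E k₀ k₀) := proj_mul hc (proj_E hE k₀) (hEN _ _)
    obtain ⟨φ, hφ⟩ : ∃ φ, φ = (insert k F).equivFin.symm := ⟨_, rfl⟩
    obtain ⟨V, hV⟩ : ∃ V, V = ∑ i, v (Fin.succ i) * E k₀ (φ i) := ⟨_, rfl⟩
    have hVN : V ∈ N := by
      rw [hV]; exact sum_mem fun i _ => mul_mem (h1 _).1 (hEN _ _)
    have hpV : pF E (insert k F) * V = V := by
      rw [hV, mul_sum]
      exact sum_congr rfl fun i _ => by rw [← mul_assoc, (h1 _).2]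
    have hVV : star V * V = c * pF E (insert k F) := by
      have : ∀ i, star (v (Fin.succ i) * E k₀ (φ i)) * V = c * E (φ i) (φ i) := by
        intro i
        rw [hV, mul_sum, sum_eq_single i]
        · rw [star_mul, hE.adj, mul_assoc, ← mul_assoc (star _), h2, if_pos rfl, ← mul_assoc,
            conj_E hE hEN k₀ _ hc]
        · intro j _ hji
          rw [star_mul, mul_assoc, ← mul_assoc (star (v _)), h2,
            if_neg fun h => hji (Fin.succ_injective _ h).symm, zero_mul, mul_zero]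
        · intro hi
          exact absurd (mem_univ i) hi
      conv_lhs => rw [hV, star_sum, ← hV, sum_mul]
      rw [sum_congr rfl fun i _ => this i, ← mul_sum, pF,
        Equiv.sum_comp φ (fun x : ↥(insert k F) => E x x), sum_coe_sort (insert k F) fun x => E x x]
    have hcv : ∀ i, c * v i = v i := fun i => by
      rw [hc.2.2 _ (h1 i).1, ← mul_src hf h2 i, mul_assoc, mul_assoc, ← hc.2.2 _ (hEN _ _),
        ← mul_assoc c, hc.1.isIdempotentElem.eq]
    have hVv : ∀ i j, star (V * v i) * (V * v j) = if i = j then c * E k₀ k₀ else 0 := by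
      intro i j
      rw [star_mul, mul_assoc, ← mul_assoc (star V), hVV, mul_assoc, (h1 j).2, hcv, h2]
    have h0V : star (v 0) * V = 0 := by
      rw [hV, mul_sum]
      refine sum_eq_zero fun i _ => ?_
      rw [← mul_assoc, h2, if_neg (Fin.succ_ne_zero i).symm, zero_mul]
    have hV0 : star V * v 0 = 0 := by
      have := congrArg star h0V
      rwa [star_mul, star_star, star_zero] at this
    obtain ⟨a, ha⟩ : ∃ a : Fin 2 → Op H, a = ![v 0, V * v 0] := ⟨_, rfl⟩
    obtain ⟨b, hb⟩ : ∃ b : Fin (insert k F).card → Op H, b = fun i => V * v (Fin.succ i) :=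
      ⟨_, rfl⟩
    have haN : ∀ i, a i ∈ N ∧ pF E (insert k F) * a i = a i := by
      rw [ha, Fin.forall_fin_two]
      exact ⟨h1 0, mul_mem hVN (h1 0).1, by
        change _ * (V * v 0) = V * v 0
        rw [← mul_assoc, hpV]⟩
    have hbN : ∀ i, b i ∈ N ∧ pF E (insert k F) * b i = b i := by
      rw [hb]
      exact fun i => ⟨mul_mem hVN (h1 _).1, by rw [← mul_assoc, hpV]⟩
    have haa : ∀ i j, star (a i) * a j = if i = j then c * E k₀ k₀ else 0 := by
      rw [ha, Fin.forall_fin_two, Fin.forall_fin_two, Fin.forall_fin_two]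
      refine ⟨⟨?_, ?_⟩, ?_, ?_⟩
      · change star (v 0) * v 0 = _
        rw [h2, if_pos rfl, if_pos rfl]
      · change star (v 0) * (V * v 0) = _
        rw [← mul_assoc, h0V, zero_mul, if_neg (by decide)]
      · change star (V * v 0) * v 0 = _
        rw [star_mul, mul_assoc, hV0, mul_zero, if_neg (by decide)]
      · change star (V * v 0) * (V * v 0) = _
        rw [hVv, if_pos rfl, if_pos rfl]
    have hbb : ∀ i j, star (b i) * b j = if i = j then c * E k₀ k₀ else 0 := by
      rw [hb]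
      intro i j
      rw [hVv]
      simp only [Fin.succ_inj]
    have hba : ∀ i j, star (b i) * a j = 0 := by
      intro i
      rw [ha, hb, Fin.forall_fin_two]
      refine ⟨?_, ?_⟩
      · change star (V * v _) * v 0 = _
        rw [star_mul, mul_assoc, hV0, mul_zero]
      · change star (V * v _) * (V * v 0) = _
        rw [hVv, if_neg (Fin.succ_ne_zero i)]
    have hpF : pF E (insert k F) = E k k + pF E F := by rw [pF, sum_insert hk, pF]
    have hFN : pF E F ∈ N := sum_mem fun i _ => hEN i i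
    obtain ⟨z, hz, l₁, l₂⟩ := split (proj_E hE k) (hEN k k) (hE.proj F) hFN (rng_proj hf haa)
      (rng_mem fun i => (haN i).1) (rng_proj hf hbb) (rng_mem fun i => (hbN i).1)
      (by
        rw [← hpF, mul_sum]
        exact sum_congr rfl fun i _ => by rw [← mul_assoc, (haN i).2])
      (by
        rw [← hpF, mul_sum]
        exact sum_congr rfl fun i _ => by rw [← mul_assoc, (hbN i).2])
      (by
        rw [sum_mul_sum]
        refine sum_eq_zero fun i _ => sum_eq_zero fun j _ => ?_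
        rw [mul_assoc, ← mul_assoc (star _), hba, zero_mul, mul_zero])
    by_cases hcz : z * c = 0
    · obtain ⟨w, hw1, hw2⟩ := move hf (fun i => (hbN i).1) hbb hz.one_sub (hE.proj F) l₂
      refine ih c hc hc0 ?_
      rw [← card_insert_of_notMem hk]
      refine ⟨w, hw1, fun i j => ?_⟩
      rw [hw2, ← mul_assoc, sub_mul, one_mul, hcz, sub_zero]
    · obtain ⟨w, hw1, hw2⟩ := move hf (fun i => (haN i).1) haa hz (proj_E hE k) l₁
      refine ⟨z * c, hz.mul hc, hcz, fun i => E k₀ k * w i, fun i =>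
        ⟨mul_mem (hEN _ _) (hw1 i).1, by rw [← mul_assoc, hE.mul, if_pos rfl]⟩, fun i j => ?_⟩
      rw [star_mul, hE.adj, mul_assoc, ← mul_assoc (E k k₀), hE.mul, if_pos rfl, (hw1 j).2, hw2,
        mul_assoc]

end Cancel

open Cancel in
theorem cancel (hE : MU E 1) (hEN : ∀ i j, E i j ∈ N) (k₀ : ι) (h : ¬ FinH N E k₀) :
    ∃ c, Cen N c ∧ c ≠ 0 ∧ ∃ s₁ ∈ N, ∃ s₂ ∈ N, star s₁ * s₁ = c ∧ star s₂ * s₂ = c ∧
      star s₁ * s₂ = 0 ∧ ∀ i k, s₁ * E i k = E i k * s₁ ∧ s₂ * E i k = E i k * s₂ := by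
  unfold FinH at h
  push Not at h
  obtain ⟨c₀, hc₀, hc₀0, F, hF⟩ := h
  obtain ⟨c, hc, hc0, v, h1, h2⟩ := two hE hEN k₀ F c₀ hc₀ hc₀0 hF
  obtain ⟨s, hs⟩ : ∃ s : Fin 2 → Op H, s = fun i => ∑ k, E k k₀ * v i * E k₀ k := ⟨_, rfl⟩
  have hsN : ∀ i, s i ∈ N := by
    rw [hs]
    exact fun i => sum_mem fun k _ => mul_mem (mul_mem (hEN _ _) (h1 i).1) (hEN _ _)
  have hl : ∀ i a b, E a b * s i = E a k₀ * v i * E k₀ b := by
    intro i a b
    rw [hs]
    beta_reduce
    rw [mul_sum, sum_eq_single b]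
    · rw [← mul_assoc, ← mul_assoc, hE.mul, if_pos rfl]
    · intro j _ hj
      rw [← mul_assoc, ← mul_assoc, hE.mul, if_neg (Ne.symm hj), zero_mul, zero_mul]
    · intro hi
      exact absurd (mem_univ b) hi
  have hr : ∀ i a b, s i * E a b = E a k₀ * v i * E k₀ b := by
    intro i a b
    rw [hs]
    beta_reduce
    rw [sum_mul, sum_eq_single a]
    · rw [mul_assoc, hE.mul, if_pos rfl]
    · intro j _ hj
      rw [mul_assoc, hE.mul, if_neg hj, mul_zero]
    · intro hi
      exact absurd (mem_univ a) hi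
  have hss : ∀ i j, star (s i) * s j = if i = j then c else 0 := by
    intro i j
    have : ∀ k, star (E k k₀ * v i * E k₀ k) * s j =
        E k k₀ * (if i = j then c * E k₀ k₀ else 0) * E k₀ k := by
      intro k
      rw [star_mul, star_mul, hE.adj, hE.adj, mul_assoc, mul_assoc, hl, (h1 j).2, ← mul_assoc,
        ← mul_assoc, mul_assoc (E k k₀), h2]
    have e : star (s i) = ∑ k, star (E k k₀ * v i * E k₀ k) := by rw [hs, star_sum]
    rw [e, sum_mul, sum_congr rfl fun k _ => this k]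
    split_ifs
    · rw [sum_congr rfl fun k _ => conj_E hE hEN k₀ k hc, ← mul_sum, hE.sum, mul_one]
    · simp only [mul_zero, zero_mul, sum_const_zero]
  refine ⟨c, hc, hc0, s 0, hsN 0, s 1, hsN 1, by rw [hss, if_pos rfl], by rw [hss, if_pos rfl],
    by rw [hss, if_neg (by decide)], fun i k => ⟨by rw [hl, hr], by rw [hl, hr]⟩⟩

end Pool.Agent.Kad
end
end

-- part Pool.Agent.Lib.MP_22c5db_an.VN2A
section

/-! Type decomposition, in local form: tools and nilpotent partial isometries. -/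

open scoped InnerProductSpace ComplexConjugate
open Finset

noncomputable section

namespace Pool.Agent.Kad.VN2

universe u

variable {H : Type u} [NormedAddCommGroup H] [InnerProductSpace ℂ H] [CompleteSpace H]

variable {R : VonNeumannAlgebra H}

omit [CompleteSpace H] in
theorem mulA (x y : Op H) (ζ : H) : (x * y) ζ = x (y ζ) := rfl
omit [CompleteSpace H] in
theorem subA (x y : Op H) (ζ : H) : (x - y) ζ = x ζ - y ζ := rfl
omit [CompleteSpace H] in
theorem zeroA (ζ : H) : (0 : Op H) ζ = 0 := rfl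
omit [CompleteSpace H] in
theorem oneA (ζ : H) : (1 : Op H) ζ = ζ := rfl
omit [CompleteSpace H] in
theorem smulA (c : ℂ) (x : Op H) (ζ : H) : (c • x) ζ = c • x ζ := rfl
omit [CompleteSpace H] in
theorem sumA {κ : Type*} (s : Finset κ) (x : κ → Op H) (ζ : H) :
    (∑ i ∈ s, x i) ζ = ∑ i ∈ s, x i ζ := map_sum (ContinuousLinearMap.apply ℂ H ζ) x s

theorem inner_star_left (x : Op H) (ζ η : H) : ⟪star x ζ, η⟫_ℂ = ⟪ζ, x η⟫_ℂ := by
  rw [ContinuousLinearMap.star_eq_adjoint, ContinuousLinearMap.adjoint_inner_left]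

theorem inner_star_right (x : Op H) (ζ η : H) : ⟪ζ, star x η⟫_ℂ = ⟪x ζ, η⟫_ℂ := by
  rw [ContinuousLinearMap.star_eq_adjoint, ContinuousLinearMap.adjoint_inner_right]

theorem inner_mul (x y : Op H) (ζ η : H) : ⟪x ζ, y η⟫_ℂ = ⟪ζ, (star x * y) η⟫_ℂ := by
  rw [mulA, inner_star_right]

theorem star_apply_eq_zero {x : Op H} {η : H} (h : ∀ ζ, ⟪x ζ, η⟫_ℂ = 0) : star x η = 0 := by
  refine ext_inner_left ℂ fun ζ => ?_
  rw [inner_star_right, h, inner_zero_right]

/-- operators agreeing on a set and on its orthogonal complement are equal -/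
theorem ext_set (V : Set H) {x y : Op H} (h1 : ∀ ζ ∈ V, x ζ = y ζ)
    (h2 : ∀ η, (∀ ζ ∈ V, ⟪ζ, η⟫_ℂ = 0) → x η = y η) : x = y := by
  obtain ⟨q, hq, hqV, -, -, hx, -⟩ := exists_proj V
  have h3 : (x - y) * q = 0 := hx _ fun ζ hζ => by
    rw [subA, h1 ζ hζ, sub_self]
  ext η
  have h4 : x (η - q η) = y (η - q η) := h2 _ fun ζ hζ => by
    rw [inner_sub_right, ← inner_star_left q, hq.isSelfAdjoint.star_eq, hqV ζ hζ, sub_self]
  have h5 : x (q η) = y (q η) := by
    have := congrArg (fun t : Op H => t η) h3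
    simpa only [mulA, subA,
      zeroA, sub_eq_zero] using this
  rw [map_sub, map_sub, h5] at h4
  exact sub_left_inj.1 h4

theorem mul_comm_proj {p q : Op H} (hp : IsStarProjection p) (hq : IsStarProjection q)
    (h : p * q = q) : q * p = q := by
  have := congrArg star h
  rwa [star_mul, hp.isSelfAdjoint.star_eq, hq.isSelfAdjoint.star_eq] at this

theorem re_inner_sq (c : Op H) (r : ℝ) (ζ : H) :
    (⟪ζ, (star c * c - (r : ℂ) • (1 : Op H)) ζ⟫_ℂ).re = ‖c ζ‖ ^ 2 - r * ‖ζ‖ ^ 2 := by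
  rw [subA, inner_sub_right, ← inner_mul, smulA,
    oneA, inner_smul_right, inner_self_eq_norm_sq_to_K,
    inner_self_eq_norm_sq_to_K]
  simp only [Complex.sub_re, Complex.mul_re, Complex.ofReal_re, Complex.ofReal_im, zero_mul,
    sub_zero, Complex.coe_algebraMap, ← Complex.ofReal_pow]

/-- a projection under `p` on which `c` is bounded below -/
theorem exists_below {p c : Op H} (hp : IsStarProjection p) (hcR : c ∈ R) (hc : c ≠ 0)
    (hcp : c * p = c) : ∃ q ∈ R, IsStarProjection q ∧ q ≠ 0 ∧ p * q = q ∧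
      ∀ ζ, q ζ = ζ → ζ ≠ 0 → ‖c‖ / 2 * ‖ζ‖ < ‖c ζ‖ := by
  have hc0 : 0 < ‖c‖ := norm_pos_iff.2 hc
  set b : Op H := star c * c - (((‖c‖ / 2) ^ 2 : ℝ) : ℂ) • (1 : Op H) with hb
  have hbs : IsSelfAdjoint b := by
    rw [IsSelfAdjoint, hb, star_sub, star_mul, star_star, star_smul, star_one, Complex.star_def,
      Complex.conj_ofReal]
  have hbR : b ∈ R := sub_mem (mul_mem (star_mem hcR) hcR) (smul_mem' _ (one_mem R))
  obtain ⟨q, hq, hcomm, hle, hlt⟩ := exists_spec hbs
  have key : ∀ ζ, q ζ = ζ → ζ ≠ 0 → ‖c‖ / 2 * ‖ζ‖ < ‖c ζ‖ := fun ζ h1 h2 => by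
    have h3 := hlt ζ h1 h2
    rw [hb, re_inner_sq] at h3
    refine lt_of_pow_lt_pow_left₀ 2 (norm_nonneg _) ?_
    rw [mul_pow]
    linarith
  refine ⟨q, mem_of_comm fun s hs => hcomm s (comm_of_mem hbR hs), hq, ?_, ?_, key⟩
  · rintro rfl
    have h1 : ‖c‖ ≤ ‖c‖ / 2 := by
      refine ContinuousLinearMap.opNorm_le_bound _ (by positivity) fun ζ => ?_
      have h3 := hle ζ rfl
      rw [hb, re_inner_sq] at h3
      refine (pow_le_pow_iff_left₀ (norm_nonneg _) (by positivity) two_ne_zero).1 ?_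
      rw [mul_pow]
      linarith
    linarith
  · have hpc : p * star c = star c := by
      have := congrArg star hcp
      rwa [star_mul, hp.isSelfAdjoint.star_eq] at this
    have hpb : p * b = b * p := by
      rw [hb, mul_sub, sub_mul, ← mul_assoc, hpc, mul_assoc, hcp, mul_smul_comm, smul_mul_assoc,
        mul_one, one_mul]
    have hpq := hcomm p hpb
    ext η
    by_contra hne
    have h1 : q (q η - p (q η)) = q η - p (q η) := by
      rw [map_sub, ← mulA q q, hq.isIdempotentElem.eq,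
        ← mulA q p, ← hpq, mulA,
        ← mulA q q, hq.isIdempotentElem.eq]
    have h2 : q η - p (q η) ≠ 0 := fun h => hne (by
      rw [mulA]; exact (sub_eq_zero.1 h).symm)
    have h3 := key _ h1 h2
    rw [map_sub, ← mulA c p, hcp, sub_self, norm_zero] at h3
    have : 0 ≤ ‖c‖ / 2 * ‖q η - p (q η)‖ := by positivity
    linarith

/-- if all projections under `p` commute with `p R p`, so do all self adjoint elements -/
theorem comm_of_proj {p : Op H} (hp : IsStarProjection p)
    (hall : ∀ q ∈ R, IsStarProjection q → p * q = q → ∀ x ∈ R, p * x = x → x * p = x →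
      q * x = x * q)
    {a x : Op H} (haR : a ∈ R) (ha : IsSelfAdjoint a) (hpa : p * a = a) (hxR : x ∈ R)
    (hpx : p * x = x) (hxp : x * p = x) : a * x = x * a := by
  have hap : a * p = a := by
    have := congrArg star hpa
    rwa [star_mul, hp.isSelfAdjoint.star_eq, ha.star_eq] at this
  by_contra hne
  set c : Op H := a * x - x * a with hc
  have hc0 : c ≠ 0 := sub_ne_zero.2 hne
  have hcR : c ∈ R := sub_mem (mul_mem haR hxR) (mul_mem hxR haR)
  have hcp : c * p = c := by rw [hc, sub_mul, mul_assoc, hxp, mul_assoc, hap]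
  obtain ⟨q, hqR, hq, hq0, hpq, hlow⟩ := exists_below hp hcR hc0 hcp
  have hcn : 0 < ‖c‖ := norm_pos_iff.2 hc0
  have hε : 0 < ‖c‖ / (4 * (‖x‖ + 1)) := by positivity
  obtain ⟨t, q', hq', hq'0, hqq', hcomm, hnorm⟩ :=
    exists_loc ha hq hq0 (hall q hqR hq hpq a haR hpa hap).symm hε
  have hq'R : q' ∈ R := mem_of_comm fun s hs => hcomm s (comm_of_mem haR hs) (comm_of_mem hqR hs)
  have hpq' : p * q' = q' := by rw [← hqq', ← mul_assoc, hpq]
  have hx' := hall q' hq'R hq' hpq' x hxR hpx hxp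
  have h1 : c * q' = (a - (t : ℂ) • 1) * q' * x - x * ((a - (t : ℂ) • 1) * q') := by
    simp only [hc, sub_mul, mul_sub, smul_mul_assoc, mul_smul_comm, one_mul, mul_assoc, hx']
    abel
  have h2 : ‖c * q'‖ ≤ ‖c‖ / 2 := by
    rw [h1]
    refine (norm_sub_le _ _).trans ?_
    have h3 := norm_mul_le ((a - (t : ℂ) • 1) * q') x
    have h4 := norm_mul_le x ((a - (t : ℂ) • 1) * q')
    have h5 : ‖(a - (t : ℂ) • 1) * q'‖ * ‖x‖ ≤ ‖c‖ / (4 * (‖x‖ + 1)) * (‖x‖ + 1) :=
      mul_le_mul hnorm (by linarith) (norm_nonneg _) hε.le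
    have h6 : ‖c‖ / (4 * (‖x‖ + 1)) * (‖x‖ + 1) = ‖c‖ / 4 := by
      field_simp
    nlinarith
  obtain ⟨η, hη⟩ : ∃ η, q' η ≠ 0 := by
    by_contra hh
    push Not at hh
    exact hq'0 (ContinuousLinearMap.ext hh)
  have h7 : q (q' η) = q' η := by rw [← mulA, hqq']
  have h8 := hlow _ h7 hη
  have h9 : c (q' η) = (c * q') (q' η) := by
    rw [mulA, ← mulA q' q',
      hq'.isIdempotentElem.eq]
  have h10 := (c * q').le_opNorm (q' η)
  rw [← h9] at h10
  have h11 : ‖c * q'‖ * ‖q' η‖ ≤ ‖c‖ / 2 * ‖q' η‖ :=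
    mul_le_mul_of_nonneg_right h2 (norm_nonneg _)
  linarith

theorem exists_nil' {p : Op H} (hp : IsStarProjection p) (hpR : p ∈ R) (h : ¬ Ab R p) :
    ∃ v ∈ R, v ≠ 0 ∧ v * star v * v = v ∧ p * v = v ∧ v * p = v ∧ v * v = 0 := by
  by_contra hno
  apply h
  have hpp := hp.isIdempotentElem.eq
  have step1 : ∀ q ∈ R, IsStarProjection q → p * q = q → ∀ x ∈ R, q * x * (p - q) = 0 := by
    intro q hqR hq hpq x hxR
    by_contra hne
    have hqp := mul_comm_proj hp hq hpq
    obtain ⟨v, hvR, hv0, hv, h1, h2⟩ :=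
      exists_piso (hq.sub_of_mul_eq_right hp hpq) hq (sub_mem hpR hqR) hqR hxR hne
    refine hno ⟨v, hvR, hv0, hv, ?_, ?_, ?_⟩
    · rw [← h1, ← mul_assoc, hpq]
    · rw [← h2, mul_assoc, sub_mul, hpp, hqp]
    · calc v * v = v * (p - q) * (q * v) := by rw [h1, h2]
        _ = v * ((p - q) * q) * v := by simp only [mul_assoc]
        _ = 0 := by rw [sub_mul, hpq, hq.isIdempotentElem.eq, sub_self, mul_zero, zero_mul]
  have hall : ∀ q ∈ R, IsStarProjection q → p * q = q → ∀ x ∈ R, p * x = x → x * p = x →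
      q * x = x * q := by
    intro q hqR hq hpq x hxR hpx hxp
    have h1 := step1 q hqR hq hpq x hxR
    have h2 := congrArg star (step1 q hqR hq hpq (star x) (star_mem hxR))
    rw [star_mul, star_mul, star_star, star_sub, hp.isSelfAdjoint.star_eq,
      hq.isSelfAdjoint.star_eq, star_zero, sub_mul, ← mul_assoc, hpx, sub_eq_zero] at h2
    rw [mul_sub, mul_assoc q x p, hxp, sub_eq_zero] at h1
    rw [h1, h2, mul_assoc]
  have hgen : ∀ x ∈ R, p * x = x → x * p = x → ∀ y ∈ R, p * y = y → y * p = y →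
      x * y = y * x := by
    intro x hxR hpx hxp y hyR hpy hyp
    have hps : p * star x = star x := by
      have := congrArg star hxp
      rwa [star_mul, hp.isSelfAdjoint.star_eq] at this
    have h1 : (x + star x) * y = y * (x + star x) :=
      comm_of_proj hp hall (add_mem hxR (star_mem hxR))
        (by rw [IsSelfAdjoint, star_add, star_star, add_comm]) (by rw [mul_add, hpx, hps])
        hyR hpy hyp
    have h2 : (Complex.I • (x - star x)) * y = y * (Complex.I • (x - star x)) :=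
      comm_of_proj hp hall (smul_mem' _ (sub_mem hxR (star_mem hxR)))
        (by rw [IsSelfAdjoint, star_smul, star_sub, star_star, Complex.star_def, Complex.conj_I,
          neg_smul, ← smul_neg, neg_sub])
        (by rw [mul_smul_comm, mul_sub, hpx, hps]) hyR hpy hyp
    rw [smul_mul_assoc, mul_smul_comm] at h2
    have h3 := smul_right_injective _ Complex.I_ne_zero h2
    have h4 : (2 : ℂ) • (x * y) = (2 : ℂ) • (y * x) := by
      rw [add_mul, mul_add] at h1
      rw [sub_mul, mul_sub] at h3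
      rw [two_smul, two_smul]
      calc x * y + x * y = (x * y + star x * y) + (x * y - star x * y) := by abel
        _ = _ := by rw [h1, h3]; abel
    exact smul_right_injective _ two_ne_zero h4
  intro x hxR y hyR
  have := hgen (p * x * p) (mul_mem (mul_mem hpR hxR) hpR) (by rw [← mul_assoc, ← mul_assoc, hpp])
    (by rw [mul_assoc, hpp]) (p * y * p) (mul_mem (mul_mem hpR hyR) hpR)
    (by rw [← mul_assoc, ← mul_assoc, hpp]) (by rw [mul_assoc, hpp])
  calc p * x * p * y * p = p * x * p * (p * y * p) := by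
        rw [← mul_assoc, ← mul_assoc, mul_assoc (p * x) p p, hpp]
    _ = p * y * p * (p * x * p) := this
    _ = _ := by rw [← mul_assoc, ← mul_assoc, mul_assoc (p * y) p p, hpp]

/-- matrix units from a family of equivalent orthogonal partial isometries -/
theorem mu_of_tup {κ : Type} [Fintype κ] [DecidableEq κ] {u : κ → Op H} {e : Op H}
    (he : IsStarProjection e) (hu : ∀ i j, star (u i) * u j = if i = j then e else 0) :
    MU (fun i j => u i * star (u j)) (∑ i, u i * star (u i)) := by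
  have hue : ∀ i, u i * e = u i := fun i => by
    have h1 : star (u i) * u i = e := by rw [hu, if_pos rfl]
    have h2 := piso_of_proj (v := u i) (h1 ▸ he)
    rwa [mul_assoc, h1] at h2
  refine ⟨fun i j k l => ?_, fun i j => by rw [star_mul, star_star], rfl⟩
  rw [mul_assoc, ← mul_assoc (star (u j)), hu]
  split_ifs
  · rw [← mul_assoc, hue]
  · rw [zero_mul, mul_zero]

theorem MU.isProj {κ : Type} [Fintype κ] [DecidableEq κ] {E : κ → κ → Op H} {P : Op H}
    (h : MU E P) : IsStarProjection P := by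
  refine ⟨?_, ?_⟩
  · rw [IsIdempotentElem, ← h.sum, sum_mul_sum]
    refine sum_congr rfl fun i _ => ?_
    simp only [h.mul, sum_ite_eq, mem_univ, if_true]
  · rw [IsSelfAdjoint, ← h.sum, star_sum]
    exact sum_congr rfl fun i _ => h.adj i i

end Pool.Agent.Kad.VN2
end
end

-- part Pool.Agent.Lib.MP_22c5db_an.VN2B
section

/-! Type decomposition, in local form: matrix units without abelian projections. -/

open scoped InnerProductSpace ComplexConjugate
open Finset

noncomputable section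

namespace Pool.Agent.Kad.VN2

universe u

variable {H : Type u} [NormedAddCommGroup H] [InnerProductSpace ℂ H] [CompleteSpace H]

variable {R : VonNeumannAlgebra H}

/-- a family of equivalent orthogonal nonzero partial isometries under `r` -/
def Tup (R : VonNeumannAlgebra H) (κ : Type) [DecidableEq κ] (r : Op H) : Prop :=
  ∃ (e : Op H) (u : κ → Op H), IsStarProjection e ∧ e ≠ 0 ∧ (∀ i, u i ∈ R ∧ r * u i = u i) ∧
    ∀ i j, star (u i) * u j = if i = j then e else 0

theorem Tup.restrict {κ κ' : Type} [DecidableEq κ] [DecidableEq κ'] {r : Op H} (h : Tup R κ r)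
    (f : κ' ↪ κ) : Tup R κ' r := by
  obtain ⟨e, u, he, he0, hu, huu⟩ := h
  refine ⟨e, fun i => u (f i), he, he0, fun i => hu _, fun i j => ?_⟩
  simp only [huu, f.injective.eq_iff]

theorem Tup.double {z r : Op H} (hzr : z * r = r)
    (h : ∀ p ∈ R, IsStarProjection p → p ≠ 0 → z * p = p → ¬ Ab R p)
    {κ : Type} [DecidableEq κ] (i₀ : κ) (hT : Tup R κ r) : Tup R (κ × Bool) r := by
  obtain ⟨e, u, he, he0, hu, huu⟩ := hT
  have h00 : star (u i₀) * u i₀ = e := by rw [huu, if_pos rfl]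
  have hpi : u i₀ * star (u i₀) * u i₀ = u i₀ := piso_of_proj (h00 ▸ he)
  set e' := u i₀ * star (u i₀) with he'
  have he'p : IsStarProjection e' := (piso_proj hpi).2
  have he'R : e' ∈ R := mul_mem (hu i₀).1 (star_mem (hu i₀).1)
  have he'0 : e' ≠ 0 := fun h0 => he0 (by rw [← h00, ← hpi, h0, zero_mul, mul_zero])
  have hze' : z * e' = e' := by
    rw [he', ← mul_assoc, ← (hu i₀).2, ← mul_assoc, hzr]
  obtain ⟨v, hvR, hv0, hv, hev, hve, hvv⟩ := exists_nil' he'p he'R (h e' he'R he'p he'0 hze')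
  have hvp : IsStarProjection (star v * v) := (piso_proj hv).1
  have hes : e' * star v = star v := by
    have := congrArg star hve
    rwa [star_mul, he'p.isSelfAdjoint.star_eq] at this
  let A : Bool → Op H := fun b => if b then v else star v * v
  have hAR : ∀ b, A b ∈ R := fun b => by
    cases b
    · exact mul_mem (star_mem hvR) hvR
    · exact hvR
  have hA : ∀ b, e' * A b = A b := fun b => by
    cases b
    · show e' * (star v * v) = star v * v
      rw [← mul_assoc, hes]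
    · exact hev
  have hAA : ∀ b b', star (A b) * A b' = if b = b' then star v * v else 0 := fun b b' => by
    cases b <;> cases b'
    · show star (star v * v) * (star v * v) = star v * v
      rw [hvp.isSelfAdjoint.star_eq, hvp.isIdempotentElem.eq]
    · show star (star v * v) * v = 0
      rw [hvp.isSelfAdjoint.star_eq, mul_assoc, hvv, mul_zero]
    · show star v * (star v * v) = 0
      rw [← mul_assoc, ← star_mul, hvv, star_zero, zero_mul]
    · rfl
  refine ⟨star v * v, fun x => u x.1 * star (u i₀) * A x.2, hvp, fun h0 => hv0 ?_,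
    fun x => ⟨mul_mem (mul_mem (hu _).1 (star_mem (hu _).1)) (hAR _), ?_⟩, fun x y => ?_⟩
  · rw [← hv, mul_assoc, h0, mul_zero]
  · rw [← mul_assoc, ← mul_assoc, (hu _).2]
  · have h1 : star (u x.1 * star (u i₀) * A x.2) * (u y.1 * star (u i₀) * A y.2) =
        star (A x.2) * (u i₀ * (star (u x.1) * u y.1) * star (u i₀) * A y.2) := by
      simp only [star_mul, star_star, mul_assoc]
    rw [h1, huu]
    by_cases h2 : x.1 = y.1
    · have h3 : u i₀ * e * star (u i₀) = e' := by
        rw [← h00, ← mul_assoc, hpi]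
      rw [if_pos h2, h3, hA, hAA]
      simp only [Prod.ext_iff, h2, true_and]
    · rw [if_neg h2, if_neg fun h => h2 (congrArg Prod.fst h), mul_zero, zero_mul, zero_mul,
        mul_zero]

theorem tup_fin {z r : Op H} (hr : IsStarProjection r) (hrR : r ∈ R) (hr0 : r ≠ 0)
    (hzr : z * r = r) (h : ∀ p ∈ R, IsStarProjection p → p ≠ 0 → z * p = p → ¬ Ab R p) (K : ℕ) :
    Tup R (Fin (K + 1)) r := by
  induction K with
  | zero =>
    refine ⟨r, fun _ => r, hr, hr0, fun _ => ⟨hrR, hr.isIdempotentElem.eq⟩, fun i j => ?_⟩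
    rw [if_pos (Subsingleton.elim (α := Fin 1) i j), hr.isSelfAdjoint.star_eq,
      hr.isIdempotentElem.eq]
  | succ K ih =>
    obtain ⟨f⟩ : Nonempty (Fin (K + 1 + 1) ↪ Fin (K + 1) × Bool) :=
      Function.Embedding.nonempty_of_card_le (by simp only [Fintype.card_fin, Fintype.card_prod, Fintype.card_bool]; omega)
    exact (ih.double hzr h 0).restrict f

/-- graphs of systems of matrix units -/
def Sys (R : VonNeumannAlgebra H) (z : Op H) (K : ℕ) (G : Set (Fin (K + 1) → H)) : Prop :=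
  (∀ g ∈ G, ∀ g' ∈ G, ∀ s t, ⟪g s, g' t⟫_ℂ = if s = t then ⟪g 0, g' 0⟫_ℂ else 0) ∧
    (∀ g ∈ G, ∀ s, z (g s) = g s) ∧ ∀ a ∈ R.commutant, ∀ g ∈ G, (fun s => a (g s)) ∈ G

theorem exists_max_sys (R : VonNeumannAlgebra H) (z : Op H) (K : ℕ) :
    ∃ G, Maximal (fun G => G ∈ {G | Sys R z K G}) G := by
  refine zorn_subset _ fun c hc hch => ⟨⋃₀ c, ⟨?_, ?_, ?_⟩, fun s hs => Set.subset_sUnion_of_mem hs⟩
  · rintro g ⟨A, hA, hg⟩ g' ⟨B, hB, hg'⟩
    rcases hch.total hA hB with h | h
    · exact (hc hB).1 g (h hg) g' hg'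
    · exact (hc hA).1 g hg g' (h hg')
  · rintro g ⟨A, hA, hg⟩
    exact (hc hA).2.1 g hg
  · rintro a ha g ⟨A, hA, hg⟩
    exact ⟨A, hA, (hc hA).2.2 a ha g hg⟩

theorem Sys.units {z : Op H} {K : ℕ} {G : Set (Fin (K + 1) → H)} (hG : Sys R z K G) :
    ∃ (e : Op H) (w : Fin (K + 1) → Op H), IsStarProjection e ∧ (∀ s, w s ∈ R ∧ z * w s = w s) ∧
      (∀ s t, star (w s) * w t = if s = t then e else 0) ∧
      ∀ g ∈ G, ∀ s, (∑ t, w t * star (w t)) (g s) = g s := by
  have h1 : ∀ s : Fin (K + 1), ∃ v ∈ R, (∀ g ∈ G, v (g 0) = g s ∧ star v (g s) = g 0) ∧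
      (∀ η, (∀ g ∈ G, ⟪g 0, η⟫_ℂ = 0) → v η = 0) ∧
      (∀ η, (∀ g ∈ G, ⟪g s, η⟫_ℂ = 0) → star v η = 0) := by
    intro s
    obtain ⟨v, hvR, -, h1, h2, h3⟩ := pgraph (R := R) ((fun g => (g 0, g s)) '' G) (by
      rintro _ ⟨g, hg, rfl⟩ _ ⟨g', hg', rfl⟩
      show ⟪g 0, g' 0⟫_ℂ = ⟪g s, g' s⟫_ℂ
      rw [hG.1 g hg g' hg' s s, if_pos rfl]) (by
      rintro a ha _ ⟨g, hg, rfl⟩
      exact ⟨_, hG.2.2 a ha g hg, rfl⟩)
    refine ⟨v, hvR, fun g hg => h1 _ ⟨g, hg, rfl⟩, fun η hη => h2 η ?_, fun η hη => h3 η ?_⟩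
    · rintro _ ⟨g, hg, rfl⟩
      exact hη g hg
    · rintro _ ⟨g, hg, rfl⟩
      exact hη g hg
  choose w hwR hw1 hw2 hw3 using h1
  have hw4 : ∀ g ∈ G, ∀ s t, star (w s) (g t) = if s = t then g 0 else 0 := by
    intro g hg s t
    split_ifs with hst
    · rw [← hst, (hw1 s g hg).2]
    · exact hw3 s _ fun g' hg' => by rw [hG.1 g' hg' g hg, if_neg hst]
  obtain ⟨e, he, he1, he2, -⟩ := exists_proj ((fun g => g 0) '' G)
  refine ⟨e, w, he, fun s => ⟨hwR s, ?_⟩, fun s t => ?_, fun g hg s => ?_⟩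
  · refine ext_set ((fun g => g 0) '' G) ?_ fun η hη => ?_
    · rintro _ ⟨g, hg, rfl⟩
      rw [mulA, (hw1 s g hg).1, hG.2.1 g hg]
    · rw [mulA, hw2 s η fun g hg => hη _ ⟨g, hg, rfl⟩, map_zero]
  · refine ext_set ((fun g => g 0) '' G) ?_ fun η hη => ?_
    · rintro _ ⟨g, hg, rfl⟩
      rw [mulA, (hw1 t g hg).1, hw4 g hg]
      split_ifs
      · exact (he1 _ ⟨g, hg, rfl⟩).symm
      · rfl
    · rw [mulA, hw2 t η fun g hg => hη _ ⟨g, hg, rfl⟩, map_zero]
      split_ifs
      · exact (he2 η hη).symm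
      · rfl
  · rw [sumA, sum_eq_single s]
    · rw [mulA, (hw1 s g hg).2, (hw1 s g hg).1]
    · intro t _ hts
      rw [mulA, hw4 g hg, if_neg hts, map_zero]
    · intro h
      exact absurd (mem_univ s) h

theorem halving' {z : Op H} (hz : IsStarProjection z) (hzR : z ∈ R)
    (h : ∀ p ∈ R, IsStarProjection p → p ≠ 0 → z * p = p → ¬ Ab R p) (K : ℕ) :
    ∃ f : Fin (K + 1) → Fin (K + 1) → Op H, MU f z ∧ ∀ i j, f i j ∈ R := by
  obtain ⟨G, hG, hmax⟩ := exists_max_sys R z K
  replace hG : Sys R z K G := hG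
  obtain ⟨e, w, he, hw, hww, hP⟩ := hG.units
  have hmu := mu_of_tup he hww
  set P := ∑ t, w t * star (w t) with hPdef
  suffices hPz : P = z from
    ⟨_, hPz ▸ hmu, fun i j => mul_mem (hw i).1 (star_mem (hw j).1)⟩
  by_contra hne
  have hPp : IsStarProjection P := MU.isProj hmu
  have hzP : z * P = P := by
    rw [hPdef, mul_sum]
    exact sum_congr rfl fun t _ => by rw [← mul_assoc, (hw t).2]
  have hPR : P ∈ R := sum_mem fun t _ => mul_mem (hw t).1 (star_mem (hw t).1)
  have hr : IsStarProjection (z - P) := hPp.sub_of_mul_eq_right hz hzP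
  have hzr : z * (z - P) = z - P := by rw [mul_sub, hz.isIdempotentElem.eq, hzP]
  obtain ⟨e', u, he', he'0, hu, huu⟩ :=
    tup_fin hr (sub_mem hzR hPR) (sub_ne_zero.2 (Ne.symm hne)) hzr h K
  have hrg : ∀ g ∈ G, ∀ s, (z - P) (g s) = 0 := fun g hg s => by
    rw [subA, hG.2.1 g hg, hP g hg, sub_self]
  have hcross : ∀ g ∈ G, ∀ s t ζ, ⟪g s, u t ζ⟫_ℂ = 0 := fun g hg s t ζ => by
    rw [← (hu t).2, mulA, ← inner_star_left, hr.isSelfAdjoint.star_eq, hrg g hg, inner_zero_left]
  have hS : Sys R z K (G ∪ Set.range fun ζ s => u s ζ) := by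
    refine ⟨?_, ?_, ?_⟩
    · rintro g (hg | ⟨ζ, rfl⟩) g' (hg' | ⟨ζ', rfl⟩) s t
      · exact hG.1 g hg g' hg' s t
      · simp only [hcross g hg, ite_self]
      · simp only [inner_eq_zero_symm.1 (hcross g' hg' _ _ _), ite_self]
      · simp only [inner_mul, huu]
        split_ifs
        · rfl
        · rw [zeroA, inner_zero_right]
    · rintro g (hg | ⟨ζ, rfl⟩) s
      · exact hG.2.1 g hg s
      · show z (u s ζ) = u s ζ
        rw [← (hu s).2, ← mulA, ← mul_assoc, hzr]
    · rintro a ha g (hg | ⟨ζ, rfl⟩)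
      · exact Or.inl (hG.2.2 a ha g hg)
      · refine Or.inr ⟨a ζ, funext fun s => ?_⟩
        show u s (a ζ) = a (u s ζ)
        rw [← mulA, ← comm_of_mem (hu s).1 ha, mulA]
  have hsub := hmax hS Set.subset_union_left
  apply he'0
  have h0 : u 0 = 0 := by
    ext ζ
    have h1 := hrg _ (hsub (Or.inr ⟨ζ, rfl⟩)) 0
    rw [← mulA, (hu 0).2] at h1
    exact h1
  have := huu 0 0
  rw [if_pos rfl, h0, mul_zero] at this
  exact this.symm

end Pool.Agent.Kad.VN2
end
end
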