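import Pool.Agent.Lib.MP_22c5db_an.VN1
import Pool.Agent.Lib.MP_22c5db_an.CasesA
import Pool.Agent.Lib.MP_22c5db_an.VN2B

-- part Pool.Agent.Lib.MP_22c5db_an.Core
section

/-! The main estimate. -/

open scoped InnerProductSpace ComplexConjugate
open Finset

noncomputable section

namespace Pool.Agent.Kad

universe u

namespace Core

variable {K : Type u} [NormedAddCommGroup K] [InnerProductSpace ℂ K] [CompleteSpace K]
  {N : VonNeumannAlgebra K} {Δ : Op K →ₗ[ℂ] Op K} {ι : Type} [Fintype ι] [DecidableEq ι]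
  {E : ι → ι → Op K} {B₀ : Finset ι} {C β : ℝ} {y : Op K}

lemma cont_rho (E : ι → ι → Op K) : Continuous fun v : U ι => rho E v :=
  (continuous_rho E).comp continuous_subtype_val

omit [CompleteSpace K] in
lemma Ex_sq {z : ℕ → U ι → K} {c : ℝ} (L : ℕ) (hc : ∀ l, Continuous (z l))
    (hn : ∀ l v, ‖z l v‖ = c) (ho : ∀ l l', l ≠ l' → Ex (fun v => ⟪z l v, z l' v⟫_ℂ) = 0) :
    Ex (fun v => ‖∑ l ∈ range L, z l v‖ ^ 2) = L * c ^ 2 := by
  refine Complex.ofReal_injective ?_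
  have e1 : ∀ v, ((‖∑ l ∈ range L, z l v‖ ^ 2 : ℝ) : ℂ) =
      ∑ l ∈ range L, ∑ l' ∈ range L, ⟪z l v, z l' v⟫_ℂ := fun v => by
    simp only [← inner_sum, ← sum_inner, inner_self_eq_norm_sq_to_K]
    norm_cast
  have e2 : ∀ l ∈ range L, Ex (fun v => ∑ l' ∈ range L, ⟪z l v, z l' v⟫_ℂ) = (c : ℂ) ^ 2 :=
    fun l hl => by
      rw [Ex_sum _ fun l' _ => (hc l).inner (hc l'),
        sum_eq_single l (fun l' _ h => ho l l' h.symm) fun h => absurd hl h]
      simp only [inner_self_eq_norm_sq_to_K, hn]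
      exact Ex_const _
  rw [← Ex_ofReal]
  simp only [e1]
  rw [Ex_sum _ fun l _ => continuous_finsetSum _ fun l' _ => (hc l).inner (hc l'),
    sum_congr rfl e2]
  simp

lemma pw_smul (y : Op K) (ω : ℂ) (s : Matrix ι ι ℂ) (m : ℕ) :
    (y * rho E (ω • s)) ^ m = ω ^ m • (y * rho E s) ^ m := by
  rw [rho_smul, mul_smul_comm, smul_pow]

lemma pw_smul' (y : Op K) (ω : ℂ) (s : Matrix ι ι ℂ) (l : ℕ) (ξ : K) :
    (star (y * rho E (ω • s)) ^ l) (star (rho E (ω • s)) ξ) =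
      conj ω ^ (l + 1) • (star (y * rho E s) ^ l) (star (rho E s) ξ) := by
  rw [rho_smul, mul_smul_comm, star_smul, star_smul, smul_pow, smul_apply, smul_apply, map_smul,
    smul_smul, pow_succ]
  rfl

lemma cont_xi (y : Op K) (l : ℕ) (ξ : K) :
    Continuous fun v : U ι => (star (y * rho E v) ^ l) (star (rho E v) ξ) := by
  have := cont_rho E
  fun_prop

lemma cont_et (y : Op K) (m : ℕ) (η : K) : Continuous fun v : U ι => ((y * rho E v) ^ m) η := by
  have := cont_rho E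
  fun_prop

lemma Ex_xi (hE : MU E 1) (hy : y ∈ unitary (Op K)) (L : ℕ) (ξ : K) :
    Ex (fun v : U ι => ‖xi (y * rho E v) (rho E v) L ξ‖ ^ 2) = L * ‖ξ‖ ^ 2 := by
  unfold xi
  refine Ex_sq (z := fun l (v : U ι) => (star (y * rho E v) ^ l) (star (rho E v) ξ)) L
    (fun l => cont_xi y l ξ) (fun l v => ?_) fun l l' h => ?_
  · rw [ContinuousLinearMap.norm_map_of_mem_unitary
      (pow_mem (Unitary.star_mem (mul_mem hy (hE.rho_unitary v))) l),
      ContinuousLinearMap.norm_map_of_mem_unitary (Unitary.star_mem (hE.rho_unitary v))]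
  · refine Ex_phase (f := fun s => ⟪(star (y * rho E s) ^ l) (star (rho E s) ξ),
      (star (y * rho E s) ^ l') (star (rho E s) ξ)⟫_ℂ) (k := l + 1) (j := l' + 1) (by omega)
      fun ω _ v => ?_
    simp only [pw_smul', inner_smul_left, inner_smul_right, map_pow, Complex.conj_conj]
    ring

lemma Ex_et (hE : MU E 1) (hy : y ∈ unitary (Op K)) (L : ℕ) (η : K) :
    Ex (fun v : U ι => ‖et (y * rho E v) L η‖ ^ 2) = L * ‖η‖ ^ 2 := by
  unfold et
  refine Ex_sq (z := fun l (v : U ι) => ((y * rho E v) ^ l) η) L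
    (fun l => cont_et y l η) (fun l v => ?_) fun l l' h => ?_
  · rw [ContinuousLinearMap.norm_map_of_mem_unitary (pow_mem (mul_mem hy (hE.rho_unitary v)) l)]
  · refine Ex_phase (f := fun s => ⟪((y * rho E s) ^ l) η, ((y * rho E s) ^ l') η⟫_ℂ) (k := l')
      (j := l) h.symm fun ω _ v => ?_
    simp only [pw_smul, smul_apply, inner_smul_left, inner_smul_right, map_pow]
    ring

lemma Hyp.cont (h : Hyp N Δ E B₀ C β) (hyN : y ∈ N) (m : ℕ) :
    Continuous fun v : U ι => Δ ((y * Kad.rho E v) ^ m) := by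
  simp only [der_pow h.der hyN (rho_mem h.mem _) (h.rho _)]
  exact (continuous_dw y (Δ y) m).comp (cont_rho E)

/-- the error terms -/
def T1 (Δ : Op K →ₗ[ℂ] Op K) (E : ι → ι → Op K) (y : Op K) (m : ℕ) (ξ η : K) (v : U ι) : ℂ :=
  ⟪((y * rho E v) ^ m) η, Δ ((y * rho E v) ^ m) (y ξ)⟫_ℂ

/-- the test functions -/
def gg (Δ : Op K →ₗ[ℂ] Op K) (E : ι → ι → Op K) (y : Op K) (L k : ℕ) (ξ η : K) (v : U ι) : ℂ :=
  ⟪et (y * rho E v) L η, Δ ((y * rho E v) ^ k) (xi (y * rho E v) (rho E v) L ξ)⟫_ℂ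

lemma Hyp.cont_T1 (h : Hyp N Δ E B₀ C β) (hyN : y ∈ N) (m : ℕ) (ξ η : K) :
    Continuous (T1 Δ E y m ξ η) :=
  (cont_et y m η).inner ((h.cont hyN m).clm_apply continuous_const)

lemma Hyp.cont_gg (h : Hyp N Δ E B₀ C β) (hyN : y ∈ N) (L k : ℕ) (ξ η : K) :
    Continuous (gg Δ E y L k ξ η) :=
  (continuous_finsetSum _ fun m _ => cont_et y m η).inner
    ((h.cont hyN k).clm_apply (continuous_finsetSum _ fun l _ => cont_xi y l ξ))

lemma Hyp.Ex_gg (h : Hyp N Δ E B₀ C β) (hy : y ∈ unitary (Op K)) (hyN : y ∈ N) {L k : ℕ}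
    (hk : k ≤ L) (ξ η : K) : Ex (gg Δ E y L k ξ η) = ∑ m ∈ range k,
      (Ex (T1 Δ E y m ξ η) + ⟪η, Δ y ξ⟫_ℂ +
        conj (Ex (T1 (Kad.dag Δ) E (star y) (k - 1 - m) η ξ))) := by
  set t : ℕ → ℕ → Matrix ι ι ℂ → ℂ := fun m l s => ⟪((y * Kad.rho E s) ^ m) η,
    Δ ((y * Kad.rho E s) ^ k) ((star (y * Kad.rho E s) ^ l) (star (Kad.rho E s) ξ))⟫_ℂ with ht
  have c1 : ∀ m l, Continuous fun v : U ι => t m l v := fun m l =>
    (cont_et y m η).inner ((h.cont hyN k).clm_apply (cont_xi y l ξ))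
  have e1 : gg Δ E y L k ξ η = fun v : U ι => ∑ m ∈ range L, ∑ l ∈ range L, t m l v := by
    funext v
    simp only [gg, et, xi, ht, map_sum, sum_inner, inner_sum]
    exact sum_comm
  have e2 : ∀ m l, k ≠ m + l + 1 → Ex (fun v : U ι => t m l v) = 0 := fun m l hne =>
    Ex_phase (f := t m l) hne fun ω _ v => by
      simp only [ht, pw_smul, pw_smul', map_smul, smul_apply, inner_smul_left, inner_smul_right,
        map_pow]
      ring
  have e3 : ∀ m ∈ range L, m ∉ range k →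
      Ex (fun v : U ι => ∑ l ∈ range L, t m l v) = 0 := fun m _ hm => by
    rw [Ex_sum _ fun l _ => c1 m l]
    exact sum_eq_zero fun l _ => e2 m l (by rw [mem_range] at hm; omega)
  rw [e1, Ex_sum _ fun m _ => continuous_finsetSum _ fun l _ => c1 m l,
    ← sum_subset (range_subset_range.2 hk) e3]
  refine sum_congr rfl fun m hm => ?_
  rw [mem_range] at hm
  rw [Ex_sum _ fun l _ => c1 m l, sum_eq_single (k - 1 - m) (fun l _ hl => e2 m l (by omega))
    fun hl => absurd (mem_range.2 (by omega)) hl]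
  have c2 := h.cont_T1 hyN m ξ η
  have c3 := (h.dag.cont_T1 (star_mem hyN) (k - 1 - m) η ξ).comp continuous_star
  rw [← Ex_star (T1 (Kad.dag Δ) E (star y) (k - 1 - m) η ξ), ← Ex_conj,
    ← Ex_const (ι := ι) ⟪η, Δ y ξ⟫_ℂ, ← Ex_add c2 continuous_const,
    ← Ex_add (f := fun v => T1 Δ E y m ξ η v + ⟪η, Δ y ξ⟫_ℂ)
      (g := fun v => conj (T1 (Kad.dag Δ) E (star y) (k - 1 - m) η ξ (star v)))
      (c2.add continuous_const) (Complex.continuous_conj.comp c3)]
  congr 1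
  funext v
  have e4 := split h.der hy hyN (h.mu.rho_unitary v) (rho_mem h.mem _) (h.rho _)
    (by rw [← h.mu.rho_star, h.rho]) m (k - 1 - m) ξ η
  rw [show m + (k - 1 - m) + 1 = k by omega] at e4
  simp only [ht, T1, Unitary.coe_star, h.mu.rho_star]
  exact e4

lemma Hyp.norm_Ex (h : Hyp N Δ E B₀ C β) {k₀ : ι} (hfin : FinH N E k₀) (hy : y ∈ unitary (Op K))
    (hyN : y ∈ N) {d k r : ℕ} (hd : 0 < d) (hr : 0 < r) (hk : 4 ≤ k)
    (hk' : 8 * d * (16 * r * d) * 2 ^ r ≤ k) (hι : Fintype.card ι = d * k) (hB : B₀.card = k)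
    (hβ : β = 2 ^ r * C) (ξ η : K) :
    ‖∑ p ∈ PP (8 * d) r, Ex (gg Δ E y (16 * r * d) (kk (8 * d) p) ξ η)‖ ≤
      (8 * d : ℝ) ^ r * (16 * r * d) * (7 / 2 * C) * (‖ξ‖ ^ 2 + ‖η‖ ^ 2) := by
  have : NeZero (2 * d) := ⟨by omega⟩
  have hC := h.C0
  have hβ0 := h.β0
  set L := 16 * r * d with hL
  set M : ℝ := (8 * d : ℝ) ^ r with hM
  have hM0 : 0 ≤ M := by positivity
  set g : U ι → ℂ := fun v => ∑ p ∈ PP (8 * d) r, gg Δ E y L (kk (8 * d) p) ξ η v with hg
  set b : U ι → ℝ := fun v => ‖xi (y * Kad.rho E v) (Kad.rho E v) L ξ‖ ^ 2 +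
    ‖et (y * Kad.rho E v) L η‖ ^ 2 with hb
  have cg : Continuous g := continuous_finsetSum _ fun p _ => h.cont_gg hyN _ _ _ _
  have c1 : Continuous fun v : U ι => ‖xi (y * Kad.rho E v) (Kad.rho E v) L ξ‖ ^ 2 :=
    (continuous_finsetSum _ fun l _ => cont_xi y l ξ).norm.pow 2
  have c2 : Continuous fun v : U ι => ‖et (y * Kad.rho E v) L η‖ ^ 2 :=
    (continuous_finsetSum _ fun l _ => cont_et y l η).norm.pow 2
  have cb : Continuous b := c1.add c2
  have eb : Ex b = L * (‖ξ‖ ^ 2 + ‖η‖ ^ 2) := by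
    rw [hb, Ex_add c1 c2, Ex_xi h.mu hy, Ex_et h.mu hy, mul_add]
  have hk0 : (0 : ℝ) < k := by exact_mod_cast (by omega : 0 < k)
  have small : β * L ^ 2 * (16 * d / k) ≤ 2 * C * L := by
    have h1 : (8 * d * L * 2 ^ r : ℝ) ≤ k := by exact_mod_cast hk'
    rw [← mul_div_assoc, div_le_iff₀ hk0, hβ]
    have h2 := mul_le_mul_of_nonneg_left h1 (show 0 ≤ 2 * C * L by positivity)
    linarith
  have key : ∀ v : U ι, ‖∑ t : ι → ZMod (2 * d), g (v * dg t)‖ ≤
      M * (5 / 2 * C) * ∑ t : ι → ZMod (2 * d), b (v * dg t) +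
      Fintype.card (ι → ZMod (2 * d)) * (M * (C * L) * (‖ξ‖ ^ 2 + ‖η‖ ^ 2)) := fun v => by
    obtain ⟨B, q, V, h1, h2⟩ := conc h.mu h.mem hfin B₀ (J := 2 * d) rfl hk hι hB
      (mul_mem hy (h.mu.rho_unitary v)) (mul_mem hyN (rho_mem h.mem v))
    have h3 : ∀ t : ι → ZMod (2 * d), ‖g (v * dg t)‖ ≤ M * (5 / 2 * C) * b (v * dg t) +
        M * (β * L ^ 2 / 2) * (‖B t ξ‖ ^ 2 + ‖B t η‖ ^ 2) := fun t => by
      obtain ⟨a1, a2, a3, a4, a5, a6, a7, a8⟩ := h1 t
      rw [mul_assoc, ← h.mu.rho_mul, ← Submonoid.coe_mul] at a4 a5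
      simp only [hg, hb]
      generalize v * dg t = v' at a4 a5 ⊢
      have hu := h.mu.rho_unitary v'
      have huN := rho_mem h.mem (v' : Matrix ι ι ℂ)
      have hw := mul_mem hy hu
      have hwN := mul_mem hyN huN
      have hF := FF_mem hwN (8 * d) r
      have n1 : ‖FF (y * Kad.rho E v') (8 * d) r‖ ≤ M := by
        have := norm_FF hw (8 * d) r
        rwa [Nat.cast_mul] at this
      have n2 : ‖Δ (FF (y * Kad.rho E v') (8 * d) r * (1 - q t))‖ ≤ C * M := by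
        refine (h.bd _ (mul_mem hF (sub_mem (one_mem N) a3))).trans ?_
        refine (mul_le_mul_of_nonneg_left (norm_FF_mul hw a2 a4 (by positivity) a5 _ hr)
          hβ0).trans (le_of_eq ?_)
        rw [hβ, hM, mul_comm _ C, mul_assoc, ← mul_pow]
        congr 2
        push_cast
        ring
      have n3 := h.point hF n1 a1 a2 a3 a6 a7 a8 n2
        (xi (y * Kad.rho E v') (Kad.rho E v') L ξ) (et (y * Kad.rho E v') L η)
      have n4 := norm_xi a1 hw hwN hu huN L ξ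
      have n5 := norm_et a1 hw hwN L η
      have n6 := mul_le_mul n4 n5 (norm_nonneg _) (by positivity)
      rw [FF_eq, map_sum, _root_.sum_apply, inner_sum] at n3
      refine n3.trans ?_
      generalize ‖xi (y * Kad.rho E v') (Kad.rho E v') L ξ‖ = s1,
        ‖et (y * Kad.rho E v') L η‖ = s2, ‖B t (xi (y * Kad.rho E v') (Kad.rho E v') L ξ)‖ = s3,
        ‖B t (et (y * Kad.rho E v') L η)‖ = s4, ‖B t ξ‖ = s5, ‖B t η‖ = s6 at n6 ⊢
      have n7 : s1 * s2 ≤ (s1 ^ 2 + s2 ^ 2) / 2 := by nlinarith [sq_nonneg (s1 - s2)]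
      have n8 : s3 * s4 ≤ L ^ 2 * ((s5 ^ 2 + s6 ^ 2) / 2) := by
        nlinarith [mul_nonneg (sq_nonneg (L : ℝ)) (sq_nonneg (s5 - s6))]
      calc _ ≤ M * (5 * C * ((s1 ^ 2 + s2 ^ 2) / 2) + β * (L ^ 2 * ((s5 ^ 2 + s6 ^ 2) / 2))) := by
            gcongr
        _ = _ := by ring
    refine (norm_sum_le_of_le _ fun t _ => h3 t).trans ?_
    rw [sum_add_distrib, ← mul_sum, ← mul_sum, sum_add_distrib (f := fun t => ‖B t ξ‖ ^ 2)]
    have h4 := mul_le_mul_of_nonneg_left (add_le_add (h2 ξ) (h2 η))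
      (show 0 ≤ M * (β * L ^ 2 / 2) by positivity)
    have h5 := mul_le_mul_of_nonneg_left small
      (show 0 ≤ M / 2 * Fintype.card (ι → ZMod (2 * d)) * (‖ξ‖ ^ 2 + ‖η‖ ^ 2) by positivity)
    linarith
  have c3 : ∀ t : ι → ZMod (2 * d), Continuous fun v : U ι => v * dg t := fun t =>
    continuous_mul_const _
  have c4 : Continuous fun v : U ι => ∑ t : ι → ZMod (2 * d), b (v * dg t) :=
    continuous_finsetSum _ fun t _ => cb.comp (c3 t)
  have c5 : Continuous fun v : U ι => M * (5 / 2 * C) * ∑ t : ι → ZMod (2 * d), b (v * dg t) :=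
    continuous_const.mul c4
  have h6 := norm_Ex_le (g := fun v => M * (5 / 2 * C) * ∑ t : ι → ZMod (2 * d), b (v * dg t) +
    Fintype.card (ι → ZMod (2 * d)) * (M * (C * L) * (‖ξ‖ ^ 2 + ‖η‖ ^ 2)))
    (c5.add continuous_const) key
  rw [Ex_add c5 continuous_const, Ex_const, Ex_mul_real,
    Ex_sum (f := fun t v => b (v * dg t)) _ fun t _ => cb.comp (c3 t),
    Ex_sum (f := fun t v => g (v * dg t)) _ fun t _ => cg.comp (c3 t)] at h6
  simp only [Ex_mul_right b, Ex_mul_right g, eb, sum_const, card_univ, nsmul_eq_mul, norm_mul,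
    Complex.norm_natCast] at h6
  have h7 : (0 : ℝ) < Fintype.card (ι → ZMod (2 * d)) := by exact_mod_cast Fintype.card_pos
  rw [← Ex_sum _ fun p _ => h.cont_gg hyN _ _ _ _]
  refine le_of_mul_le_mul_left (h6.trans (le_of_eq ?_)) h7
  rw [hL]
  push_cast
  ring

section

variable {A B : Type} [Fintype A] [Fintype B] [DecidableEq A] [DecidableEq B]
  {E : A × B → A × B → Op K} {B₀ : Finset (A × B)}

/-- the conclusion of the random matrix estimate -/
def RMs (E : A × B → A × B → Op K) (a : ℕ) (β ε : ℝ) : Prop :=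
  ∀ m ≤ a ^ 2, ∀ y ∈ unitary (Op K),
    (∀ α γ, y * FA E α γ = FA E α γ * y) → ∀ X : Op K, ‖X‖ ≤ β → ∀ C : ℝ, 0 ≤ C →
    (∀ (v : U (A × B)) k, ‖dw y X (rho E v) m * E k k‖ ≤ C) → ∀ ξ η : K,
    ‖(a : ℂ)⁻¹ * ∑ α, ∑ γ, Ex fun v : U (A × B) =>
      ⟪((y * rho E v) ^ m) (FA E γ α η), dw y X (rho E v) m (FA E γ α ξ)⟫_ℂ‖ ≤
      (2 * C + ε) * ‖ξ‖ * ‖η‖

lemma Hyp.err (h : Hyp N Δ E B₀ C β) {a : ℕ} (hR : RMs E a β C) (hy : y ∈ unitary (Op K))
    (hyN : y ∈ N) (hc : ∀ α γ, y * FA E α γ = FA E α γ * y) {m : ℕ} (hm : m ≤ a ^ 2) (ξ η : K) :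
    ‖(a : ℂ)⁻¹ * ∑ α, ∑ γ, Ex (T1 Δ E y m (FA E γ α ξ) (FA E γ α η))‖ ≤
      3 / 2 * C * (‖ξ‖ ^ 2 + ‖η‖ ^ 2) := by
  have hC := h.C0
  have e1 : ∀ v : U (A × B), Δ ((y * Kad.rho E v) ^ m) = dw y (Δ y) (Kad.rho E v) m := fun v =>
    der_pow h.der hyN (rho_mem h.mem _) (h.rho _) m
  have h1 := hR m hm y hy hc (Δ y)
    ((h.bd y hyN).trans (mul_le_of_le_one_right h.β0 (norm_unitary_le hy))) C hC
    (fun v k => by
      rw [← e1]
      exact (h.colE (pow_mem (mul_mem hyN (rho_mem h.mem _)) m) k).trans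
        (mul_le_of_le_one_right hC
          (norm_unitary_le (pow_mem (mul_mem hy (h.mu.rho_unitary v)) m)))) (y ξ) η
  rw [ContinuousLinearMap.norm_map_of_mem_unitary hy] at h1
  have e2 : ∀ α γ, T1 Δ E y m (FA E γ α ξ) (FA E γ α η) = fun v : U (A × B) =>
      ⟪((y * Kad.rho E v) ^ m) (FA E γ α η), dw y (Δ y) (Kad.rho E v) m (FA E γ α (y ξ))⟫_ℂ :=
    fun α γ => by
      funext v
      rw [T1, e1, ← mul_apply_eq_comp y, hc, mul_apply_eq_comp]
  simp only [e2]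
  refine h1.trans ?_
  nlinarith [mul_nonneg hC (sq_nonneg (‖ξ‖ - ‖η‖))]

lemma sum_FA (hE : MU E 1) (ξ : K) :
    ∑ α, ∑ γ, ‖FA E γ α ξ‖ ^ 2 = Fintype.card A * ‖ξ‖ ^ 2 := by
  rw [sum_comm]
  simp only [hE.fa.sum_sq', sum_const, card_univ, nsmul_eq_mul]

lemma Hyp.avg_inner (h : Hyp N Δ E B₀ C β) (hyN : y ∈ N)
    (hc : ∀ α γ, y * FA E α γ = FA E α γ * y) (ξ η : K) :
    ∑ α, ∑ γ, ⟪FA E γ α η, Δ y (FA E γ α ξ)⟫_ℂ = Fintype.card A * ⟪η, Δ y ξ⟫_ℂ := by
  have e1 : ∀ α γ, ⟪FA E γ α η, Δ y (FA E γ α ξ)⟫_ℂ = ⟪η, FA E α α (Δ y ξ)⟫_ℂ := fun α γ => by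
    rw [← mul_apply_eq_comp (Δ y), h.comm (e := FA E γ α) hyN (sum_mem fun b _ => h.mem _ _)
      (by simp only [FA, map_sum, h.zero, sum_const_zero]) (hc γ α), ← h.mu.fa.adj α γ,
      inner_star_left, h.mu.fa.adj, mul_apply_eq_comp, ← mul_apply_eq_comp (FA E α γ)]
    congr 2
    exact (h.mu.fa.mul α γ γ α).trans (if_pos rfl)
  simp only [e1, sum_const, card_univ, nsmul_eq_mul]
  rw [← mul_sum, ← inner_sum, ← _root_.sum_apply, h.mu.fa.sum, one_apply_eq_self]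

lemma Hyp.avg_gg (h : Hyp N Δ E B₀ C β) {a : ℕ} (hR : RMs E a β C) (ha : Fintype.card A = a)
    (ha0 : 0 < a) (hy : y ∈ unitary (Op K)) (hyN : y ∈ N)
    (hc : ∀ α γ, y * FA E α γ = FA E α γ * y) {L k : ℕ} (hk : k ≤ L) (hL : L ≤ a ^ 2) (ξ η : K) :
    ‖(a : ℂ)⁻¹ * ∑ α, ∑ γ, Ex (gg Δ E y L k (FA E γ α ξ) (FA E γ α η)) - k * ⟪η, Δ y ξ⟫_ℂ‖ ≤
      k * (3 * C * (‖ξ‖ ^ 2 + ‖η‖ ^ 2)) := by
  have hc' : ∀ α γ, star y * FA E α γ = FA E α γ * star y := fun α γ => by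
    rw [← h.mu.fa.adj γ α, ← star_mul, ← star_mul, hc]
  have ha' : (a : ℂ) ≠ 0 := by exact_mod_cast ha0.ne'
  have e1 : (a : ℂ)⁻¹ * ∑ α, ∑ γ, Ex (gg Δ E y L k (FA E γ α ξ) (FA E γ α η)) -
      k * ⟪η, Δ y ξ⟫_ℂ = ∑ m ∈ range k,
        ((a : ℂ)⁻¹ * ∑ α, ∑ γ, Ex (T1 Δ E y m (FA E γ α ξ) (FA E γ α η)) +
          conj ((a : ℂ)⁻¹ * ∑ α, ∑ γ,
            Ex (T1 (Kad.dag Δ) E (star y) (k - 1 - m) (FA E γ α η) (FA E γ α ξ)))) := by
    simp only [h.Ex_gg hy hyN hk]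
    have s1 : ∀ f : A → A → ℕ → ℂ, ∑ α, ∑ γ, ∑ m ∈ range k, f α γ m =
        ∑ m ∈ range k, ∑ α, ∑ γ, f α γ m := fun f => by
      rw [sum_comm (s := range k)]
      exact sum_congr rfl fun α _ => sum_comm
    rw [s1]
    simp only [sum_add_distrib, h.avg_inner hyN hc, ha, sum_const, card_range, nsmul_eq_mul,
      map_mul, map_sum, map_inv₀, map_natCast, ← mul_sum]
    field_simp
    ring
  rw [e1]
  refine (norm_sum_le_of_le (n := fun _ => 3 * C * (‖ξ‖ ^ 2 + ‖η‖ ^ 2)) _ fun m hm => ?_).trans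
    (by simp)
  rw [mem_range] at hm
  have h1 := h.err hR hy hyN hc (m := m) (by omega) ξ η
  have h2 := h.dag.err hR (Unitary.star_mem hy) (star_mem hyN) hc' (m := k - 1 - m) (by omega) η ξ
  refine (norm_add_le _ _).trans ?_
  rw [Complex.norm_conj]
  linarith

end

end Core

variable {H : Type u} [NormedAddCommGroup H] [InnerProductSpace ℂ H] [CompleteSpace H]

open Pool.Agent.Kad.Core in
theorem core (a d r : ℕ) (β C : ℝ) (hd : 0 < d) (hr : 0 < r) (hC : 0 < C)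
    (ha : 16 * r * d ≤ a ^ 2) (hβ : β ≤ 2 ^ r * C) : ∃ K₀ : ℕ, ∀ k ≥ K₀, ∀ {K : Type u}
    [NormedAddCommGroup K] [InnerProductSpace ℂ K] [CompleteSpace K] (N : VonNeumannAlgebra K)
    (Δ : Op K →ₗ[ℂ] Op K), Der N Δ → Bd N Δ β → ∀ {A B : Type} [Fintype A] [Fintype B]
    [DecidableEq A] [DecidableEq B] (E : A × B → A × B → Op K), MU E 1 → (∀ i j, E i j ∈ N) →
    (∀ i j, Δ (E i j) = 0) → Fintype.card A = a → Fintype.card (A × B) = d * k →
    ∀ B₀ : Finset (A × B), B₀.card = k → (∀ x ∈ N, ‖Δ (x * pF E B₀)‖ ≤ C * ‖x‖) →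
    (∀ x ∈ N, ‖Δ (pF E B₀ * x)‖ ≤ C * ‖x‖) → ∀ k₀, FinH N E k₀ → ∀ y ∈ unitary (Op K), y ∈ N →
    (∀ α γ, y * FA E α γ = FA E α γ * y) → ‖Δ y‖ ≤ 20 * C := by
  obtain ⟨D₀, hD⟩ := rm.{u} a (2 ^ r * C) C hC
  refine ⟨4 + D₀ + 8 * d * (16 * r * d) * 2 ^ r, fun k hk K _ _ _ N Δ hder hbd A B _ _ _ _ E hE
    hEN hE0 hA hAB B₀ hB₀ hcol hrow k₀ hfin y hy hyN hc => ?_⟩
  have h : Hyp N Δ E B₀ C (2 ^ r * C) :=
    ⟨hder, fun x hx => (hbd x hx).trans (by gcongr), hE, hEN, hE0,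
      card_pos.1 (by omega), hcol, hrow, hC.le, by positivity⟩
  have hR : RMs E a (2 ^ r * C) C := fun m hm =>
    hD m hm E hE hA (by rw [hAB]; exact le_trans (by omega) (Nat.le_mul_of_pos_left k hd))
  have ha0 : 0 < a := by
    rcases Nat.eq_zero_or_pos a with rfl | h0
    · have : 0 < 16 * r * d := by positivity
      omega
    · exact h0
  have ha1 : (0 : ℝ) < a := by exact_mod_cast ha0
  rw [show 20 * C = 2 * (10 * C) by ring]
  refine norm_le_of_inner (by positivity) fun ξ η => ?_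
  set S := ‖ξ‖ ^ 2 + ‖η‖ ^ 2 with hS
  have hS0 : 0 ≤ S := by positivity
  set G : (Fin r → ℕ) → ℂ := fun p => (a : ℂ)⁻¹ * ∑ α, ∑ γ,
    Ex (gg Δ E y (16 * r * d) (kk (8 * d) p) (FA E γ α ξ) (FA E γ α η)) with hG
  set κ : ℕ := ∑ p ∈ PP (8 * d) r, kk (8 * d) p with hκ
  have k1 : (8 * d : ℝ) ^ r * (16 * r * d) ≤ 2 * κ := by
    have : ∑ _p ∈ PP (8 * d) r, r * (8 * d) ≤ κ := sum_le_sum fun p _ => Nat.le_add_right _ _
    rw [sum_const, card_PP, smul_eq_mul] at this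
    have h2 : ((8 * d) ^ r * (r * (8 * d)) : ℝ) ≤ κ := by exact_mod_cast this
    linarith
  have k0 : (0 : ℝ) < κ := by
    have : (0 : ℝ) < (8 * d : ℝ) ^ r * (16 * r * d) := by positivity
    linarith
  have h1 : ‖∑ p ∈ PP (8 * d) r, G p - κ * ⟪η, Δ y ξ⟫_ℂ‖ ≤ κ * (3 * C * S) := by
    rw [hκ, Nat.cast_sum, Nat.cast_sum, sum_mul, sum_mul, ← sum_sub_distrib]
    exact norm_sum_le_of_le _ fun p hp => h.avg_gg hR hA ha0 hy hyN hc
      ((kk_le hp).trans (le_of_eq (by ring))) ha ξ η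
  have h2 : ‖∑ p ∈ PP (8 * d) r, G p‖ ≤ (8 * d : ℝ) ^ r * (16 * r * d) * (7 / 2 * C) * S := by
    have e1 : ∑ p ∈ PP (8 * d) r, G p = (a : ℂ)⁻¹ * ∑ α, ∑ γ, ∑ p ∈ PP (8 * d) r,
        Ex (gg Δ E y (16 * r * d) (kk (8 * d) p) (FA E γ α ξ) (FA E γ α η)) := by
      rw [← mul_sum, sum_comm]
      congr 1
      exact sum_congr rfl fun α _ => sum_comm
    rw [e1, norm_mul, norm_inv, Complex.norm_natCast, inv_mul_le_iff₀ ha1]
    refine (norm_sum_le_of_le _ fun α _ => norm_sum_le_of_le _ fun γ _ =>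
      h.norm_Ex hfin hy hyN hd hr (by omega) (by omega) hAB hB₀ rfl _ _).trans (le_of_eq ?_)
    simp only [← mul_sum, sum_add_distrib, sum_FA hE, hA, hS]
    ring
  have h3 : ‖(κ : ℂ) * ⟪η, Δ y ξ⟫_ℂ‖ ≤ ‖∑ p ∈ PP (8 * d) r, G p‖ +
      ‖∑ p ∈ PP (8 * d) r, G p - κ * ⟪η, Δ y ξ⟫_ℂ‖ := norm_le_norm_add_norm_sub _ _
  rw [norm_mul, Complex.norm_natCast] at h3
  have h4 := mul_le_mul_of_nonneg_right k1 (show 0 ≤ 7 / 2 * C * S by positivity)
  refine le_of_mul_le_mul_left ?_ k0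
  linarith

end Pool.Agent.Kad
end
end

-- part Pool.Agent.Lib.MP_22c5db_an.CaseCA
section

/-! Tools for the type II case: bounded matrices, single entries, column bounds. -/

open scoped InnerProductSpace ComplexConjugate
open Finset

noncomputable section

namespace Pool.Agent.Kad.CaseC

universe u

variable {H : Type u} [NormedAddCommGroup H] [InnerProductSpace ℂ H] [CompleteSpace H]

section MB

variable {ι : Type} [Fintype ι]

omit [CompleteSpace H] in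
lemma mb_mono {m : ι → ι → Op H} {c c' : ℝ} (h : MB m c) (hc : c ≤ c') : MB m c' := by
  intro ξ η
  refine (h ξ η).trans ?_
  gcongr

lemma cs_sum {κ : Type} [Fintype κ] (x y : κ → ℝ) :
    ∑ i, x i * y i ≤ √(∑ i, x i ^ 2) * √(∑ i, y i ^ 2) :=
  Real.sum_mul_le_sqrt_mul_sqrt _ _ _

omit [CompleteSpace H] in
lemma mb_col [DecidableEq ι] {m : ι → ι → Op H} {c : ℝ} (h : MB m c) (hc : 0 ≤ c) (q : ι)
    (ζ : H) : ∑ p, ‖m p q ζ‖ ^ 2 ≤ c ^ 2 * ‖ζ‖ ^ 2 := by
  have h1 := h (Pi.single q ζ) (fun p => m p q ζ)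
  have h2 : ∀ p, ∑ j, ⟪m p q ζ, m p j ((Pi.single q ζ : ι → H) j)⟫_ℂ = ((‖m p q ζ‖ ^ 2 : ℝ) : ℂ) := by
    intro p
    rw [Finset.sum_eq_single q]
    · rw [Pi.single_eq_same, inner_self_eq_norm_sq_to_K]
      simp
    · intro j _ hj
      rw [Pi.single_eq_of_ne hj, map_zero, inner_zero_right]
    · simp
  have h3 : ∑ j, ‖(Pi.single q ζ : ι → H) j‖ ^ 2 = ‖ζ‖ ^ 2 := by
    rw [Finset.sum_eq_single q]
    · rw [Pi.single_eq_same]
    · intro j _ hj
      rw [Pi.single_eq_of_ne hj]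
      simp
    · simp
  simp_rw [h2] at h1
  rw [h3, ← Complex.ofReal_sum, Complex.norm_real, Real.sqrt_sq (norm_nonneg _)] at h1
  set S := ∑ p, ‖m p q ζ‖ ^ 2 with hS
  have hS0 : 0 ≤ S := Finset.sum_nonneg fun _ _ => sq_nonneg _
  rw [Real.norm_of_nonneg hS0] at h1
  have h4 : √S * √S = S := Real.mul_self_sqrt hS0
  have h5 := Real.sqrt_nonneg S
  have h6 : 0 ≤ c * ‖ζ‖ := mul_nonneg hc (norm_nonneg _)
  have h7 : √S ≤ c * ‖ζ‖ := by
    by_contra hlt
    push Not at hlt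
    nlinarith
  calc S = √S * √S := h4.symm
    _ ≤ (c * ‖ζ‖) * (c * ‖ζ‖) := mul_le_mul h7 h7 h5 h6
    _ = _ := by ring

omit [CompleteSpace H] in
lemma mb_of_col [DecidableEq ι] {y : ι → Op H} {c : ℝ} (hc : 0 ≤ c)
    (h : ∀ ζ, ∑ p, ‖y p ζ‖ ^ 2 ≤ c ^ 2 * ‖ζ‖ ^ 2) (q₀ : ι) :
    MB (fun p q => if q = q₀ then y p else 0) c := by
  intro ξ η
  have h1 : ∀ p, ∑ q, ⟪η p, (if q = q₀ then y p else 0) (ξ q)⟫_ℂ = ⟪η p, y p (ξ q₀)⟫_ℂ := by
    intro p
    rw [Finset.sum_eq_single q₀]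
    · simp
    · intro q _ hq
      simp [hq]
    · simp
  simp_rw [h1]
  have h2 : ‖ξ q₀‖ ≤ √(∑ j, ‖ξ j‖ ^ 2) := by
    apply Real.le_sqrt_of_sq_le
    exact Finset.single_le_sum (f := fun j => ‖ξ j‖ ^ 2) (fun _ _ => sq_nonneg _)
      (Finset.mem_univ q₀)
  have h3 : √(∑ p, ‖y p (ξ q₀)‖ ^ 2) ≤ c * ‖ξ q₀‖ := by
    apply Real.sqrt_le_iff.2
    refine ⟨by positivity, ?_⟩
    rw [mul_pow]
    exact h _
  calc ‖∑ p, ⟪η p, y p (ξ q₀)⟫_ℂ‖ ≤ ∑ p, ‖y p (ξ q₀)‖ * ‖η p‖ := by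
        refine (norm_sum_le _ _).trans (Finset.sum_le_sum fun p _ => ?_)
        rw [mul_comm]
        exact norm_inner_le_norm _ _
    _ ≤ √(∑ p, ‖y p (ξ q₀)‖ ^ 2) * √(∑ p, ‖η p‖ ^ 2) := cs_sum _ _
    _ ≤ c * √(∑ j, ‖ξ j‖ ^ 2) * √(∑ p, ‖η p‖ ^ 2) := by
        gcongr
        exact h3.trans (mul_le_mul_of_nonneg_left h2 hc)

omit [CompleteSpace H] in
lemma mb_diag [DecidableEq ι] (T : Op H) : MB (fun p q : ι => if p = q then T else 0) ‖T‖ := by
  intro ξ η
  have h1 : ∀ p, ∑ q, ⟪η p, (if p = q then T else 0) (ξ q)⟫_ℂ = ⟪η p, T (ξ p)⟫_ℂ := by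
    intro p
    rw [Finset.sum_eq_single p]
    · simp
    · intro q _ hq
      simp [hq.symm]
    · simp
  simp_rw [h1]
  calc ‖∑ p, ⟪η p, T (ξ p)⟫_ℂ‖ ≤ ∑ p, ‖T‖ * (‖ξ p‖ * ‖η p‖) := by
        refine (norm_sum_le _ _).trans (Finset.sum_le_sum fun p _ => ?_)
        calc ‖⟪η p, T (ξ p)⟫_ℂ‖ ≤ ‖η p‖ * ‖T (ξ p)‖ := norm_inner_le_norm _ _
          _ ≤ ‖η p‖ * (‖T‖ * ‖ξ p‖) :=
            mul_le_mul_of_nonneg_left (T.le_opNorm _) (norm_nonneg _)
          _ = _ := by ring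
    _ = ‖T‖ * ∑ p, ‖ξ p‖ * ‖η p‖ := by rw [Finset.mul_sum]
    _ ≤ ‖T‖ * (√(∑ j, ‖ξ j‖ ^ 2) * √(∑ p, ‖η p‖ ^ 2)) :=
        mul_le_mul_of_nonneg_left (cs_sum _ _) (norm_nonneg _)
    _ = _ := by ring

omit [CompleteSpace H] in
lemma mb_block {A : Type} [Fintype A] [DecidableEq A] {a : ι → ι → Op H} (h : MB a 1) :
    MB (fun p q : A × ι => if p.1 = q.1 then a p.2 q.2 else 0) 1 := by
  intro ξ η
  have h1 : ∑ p : A × ι, ∑ q : A × ι, ⟪η p, (if p.1 = q.1 then a p.2 q.2 else 0) (ξ q)⟫_ℂ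
      = ∑ α : A, ∑ i, ∑ j, ⟪η (α, i), a i j (ξ (α, j))⟫_ℂ := by
    rw [Fintype.sum_prod_type]
    refine Finset.sum_congr rfl fun α _ => Finset.sum_congr rfl fun i _ => ?_
    rw [Fintype.sum_prod_type, Finset.sum_eq_single α]
    · simp
    · intro γ _ hγ
      simp [hγ.symm]
    · simp
  rw [h1]
  calc _ ≤ ∑ α : A, √(∑ j, ‖ξ (α, j)‖ ^ 2) * √(∑ i, ‖η (α, i)‖ ^ 2) := by
        refine (norm_sum_le _ _).trans (Finset.sum_le_sum fun α _ => ?_)
        have := h (fun j => ξ (α, j)) (fun i => η (α, i))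
        rwa [one_mul] at this
    _ ≤ √(∑ α : A, √(∑ j, ‖ξ (α, j)‖ ^ 2) ^ 2) * √(∑ α : A, √(∑ i, ‖η (α, i)‖ ^ 2) ^ 2) :=
        cs_sum _ _
    _ = _ := by
        rw [one_mul, Fintype.sum_prod_type, Fintype.sum_prod_type]
        congr 2 <;> refine Finset.sum_congr rfl fun α _ => ?_ <;>
          exact Real.sq_sqrt (Finset.sum_nonneg fun _ _ => sq_nonneg _)

omit [CompleteSpace H] in
lemma mb_restrict {A : Type} [Fintype A] [DecidableEq A] {m : A × ι → A × ι → Op H} {c : ℝ}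
    (h : MB m c) (α₀ : A) : MB (fun i j => m (α₀, i) (α₀, j)) c := by
  intro ξ η
  have := h (fun p => if p.1 = α₀ then ξ p.2 else 0) (fun p => if p.1 = α₀ then η p.2 else 0)
  have e1 : ∀ θ : ι → H, ∑ p : A × ι, ‖if p.1 = α₀ then θ p.2 else 0‖ ^ 2 = ∑ i, ‖θ i‖ ^ 2 := by
    intro θ
    rw [Fintype.sum_prod_type, Finset.sum_eq_single α₀]
    · simp
    · intro γ _ hγ
      simp [hγ]
    · simp
  have e2 : ∑ p : A × ι, ∑ q : A × ι, ⟪if p.1 = α₀ then η p.2 else 0,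
      m p q (if q.1 = α₀ then ξ q.2 else 0)⟫_ℂ = ∑ i, ∑ j, ⟪η i, m (α₀, i) (α₀, j) (ξ j)⟫_ℂ := by
    rw [Fintype.sum_prod_type, Finset.sum_eq_single α₀]
    · refine Finset.sum_congr rfl fun i _ => ?_
      rw [Fintype.sum_prod_type, Finset.sum_eq_single α₀]
      · simp
      · intro γ _ hγ
        simp [hγ]
      · simp
    · intro γ _ hγ
      simp [hγ]
    · simp
  rwa [e1, e1, e2] at this

end MB

variable {R : VonNeumannAlgebra H}
variable {K : Type u} [NormedAddCommGroup K] [InnerProductSpace ℂ K] [CompleteSpace K]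
  {ι : Type} [Fintype ι] [DecidableEq ι] {z : Op H} {J : ι → H →L[ℂ] K} {N : VonNeumannAlgebra K}

/-- the matrix with one entry -/
def sg (p q : ι) (x : Op H) : ι → ι → Op H := fun a b => if a = p ∧ b = q then x else 0

/-- the operator with one matrix entry -/
def el (J : ι → H →L[ℂ] K) (p q : ι) : Op H →ₗ[ℂ] Op K where
  toFun x := (J p).comp (x.comp (ContinuousLinearMap.adjoint (J q)))
  map_add' x y := by
    simp only [ContinuousLinearMap.add_comp, ContinuousLinearMap.comp_add]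
  map_smul' c x := by
    simp only [ContinuousLinearMap.smul_comp, ContinuousLinearMap.comp_smul, RingHom.id_apply]

omit [DecidableEq ι] in
lemma mat_eq (m : ι → ι → Op H) : mat J m = ∑ a, ∑ b, el J a b (m a b) := rfl

lemma mat_sg (p q : ι) (x : Op H) : mat J (sg p q x) = el J p q x := by
  rw [mat_eq, Finset.sum_eq_single p, Finset.sum_eq_single q]
  · simp [sg]
  · intro b _ hb
    simp [sg, hb]
  · simp
  · intro a _ ha
    simp [sg, ha]
  · simp

lemma el_mul (h : Frame R z J N) (p q p' q' : ι) (x y : Op H) :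
    el J p q x * el J p' q' y = if q = p' then el J p q' (x * z * y) else 0 := by
  have h1 := h.adj q p'
  ext ζ
  have h2 := DFunLike.congr_fun h1 (y (ContinuousLinearMap.adjoint (J q') ζ))
  simp only [ContinuousLinearMap.comp_apply] at h2
  simp only [el, LinearMap.coe_mk, AddHom.coe_mk, mul_apply_eq_comp,
    ContinuousLinearMap.comp_apply, h2]
  split_ifs <;> simp

omit [Fintype ι] [DecidableEq ι] in
lemma el_star (p q : ι) (x : Op H) : star (el J p q x) = el J q p (star x) := by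
  simp only [el, LinearMap.coe_mk, AddHom.coe_mk, ContinuousLinearMap.star_eq_adjoint,
    ContinuousLinearMap.adjoint_comp, ContinuousLinearMap.adjoint_adjoint,
    ContinuousLinearMap.comp_assoc]

lemma el_zl (h : Frame R z J N) (p q : ι) (x : Op H) : el J p q (z * x) = el J p q x := by
  ext ζ
  have h2 := DFunLike.congr_fun (h.comp_z p) (x (ContinuousLinearMap.adjoint (J q) ζ))
  simpa [el] using h2

lemma el_zr (h : Frame R z J N) (p q : ι) (x : Op H) : el J p q (x * z) = el J p q x := by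
  have := congrArg star (el_zl h q p (star x))
  rwa [el_star, el_star, star_mul, star_star, h.proj.isSelfAdjoint.star_eq] at this

lemma el_mem (h : Frame R z J N) (p q : ι) {x : Op H} (hx : x ∈ R) : el J p q x ∈ N := by
  rw [← mat_sg]
  refine h.mat_mem fun a b => ?_
  unfold sg
  split_ifs
  · exact hx
  · exact zero_mem _

lemma ent_el (h : Frame R z J N) (p q a b : ι) (x : Op H) :
    ent J (el J p q x) a b = if a = p ∧ b = q then z * x * z else 0 := by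
  rw [← mat_sg, h.ent_mat, sg]
  split_ifs <;> simp

lemma dl_el (h : Frame R z J N) (δ : Op H →ₗ[ℂ] Op H) (p q : ι) (x : Op H) :
    dl J δ (el J p q x) = el J p q (δ (z * x * z)) := by
  rw [← mat_sg, h.dl_mat, ← mat_sg]
  congr 1
  funext a b
  unfold sg
  split_ifs <;> simp

lemma sum_el (h : Frame R z J N) : ∑ p, el J p p z = 1 := by
  rw [← h.sum]
  refine Finset.sum_congr rfl fun p _ => ?_
  have := el_zl h p p 1
  rw [mul_one] at this
  rw [this]
  rfl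

lemma el_proj (h : Frame R z J N) (p : ι) : IsStarProjection (el J p p z) := by
  have hz := h.proj.isIdempotentElem.eq
  refine ⟨?_, ?_⟩
  · rw [IsIdempotentElem, el_mul h, if_pos rfl, hz, hz]
  · rw [IsSelfAdjoint, el_star, h.proj.isSelfAdjoint.star_eq]

lemma ent_mul_el (h : Frame R z J N) (y : Op K) (p q a b : ι) (x : Op H) :
    ent J (y * el J p q x) a b = if b = q then ent J y a p * x * z else 0 := by
  rw [h.ent_mul, Finset.sum_eq_single p]
  · rw [ent_el h]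
    by_cases hb : b = q
    · simp only [hb, and_self, if_true]
      rw [← mul_assoc, ← mul_assoc, (h.z_ent y a p).2]
    · simp [hb]
  · intro c _ hc
    rw [ent_el h]
    simp [hc]
  · simp

lemma ent_el_mul (h : Frame R z J N) (y : Op K) (p q a b : ι) (x : Op H) :
    ent J (el J p q x * y) a b = if a = p then z * x * ent J y q b else 0 := by
  rw [h.ent_mul, Finset.sum_eq_single q]
  · rw [ent_el h]
    by_cases ha : a = p
    · simp only [ha, and_self, if_true]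
      rw [mul_assoc, (h.z_ent y q b).1]
    · simp [ha]
  · intro c _ hc
    rw [ent_el h]
    simp [hc]
  · simp

omit [DecidableEq ι] in
lemma dl_star (δ : Op H →ₗ[ℂ] Op H) (x : Op K) :
    star (dl J δ x) = dl J (dag δ) (star x) := by
  classical
  change star (mat J _) = mat J _
  rw [mat_star]
  congr 1
  funext a b
  change _ = star (δ (star (ent J (star x) a b)))
  rw [ent_star, star_star]

lemma dl_col (h : Frame R z J N) {δ : Op H →ₗ[ℂ] Op H} {c : ℝ} (hd : Der R δ) (hb : Bd R δ c)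
    (hc : 0 ≤ c) (q : ι) {x : Op K} (hx : x ∈ N) :
    ‖dl J δ (x * el J q q z)‖ ≤ 4 * c * ‖x‖ := by
  have h1 : dl J δ (x * el J q q z) =
      mat J (fun a b => if b = q then δ (ent J x a q) else 0) := by
    change mat J _ = _
    congr 1
    funext a b
    rw [ent_mul_el h]
    split_ifs
    · rw [(h.z_ent x a q).2, (h.z_ent x a q).2]
    · simp
  rw [h1]
  have h0 : 0 ≤ 4 * c * ‖x‖ := by positivity
  refine h.norm_mat h0 (mb_of_col h0 ?_ q)
  exact col_bound hd hb hc (fun a => (h.mem_iff x).1 hx a q) (norm_nonneg x)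
    (mb_col (h.mb_ent x) (norm_nonneg x) q)

lemma dl_row (h : Frame R z J N) {δ : Op H →ₗ[ℂ] Op H} {c : ℝ} (hd : Der R δ) (hb : Bd R δ c)
    (hc : 0 ≤ c) (q : ι) {x : Op K} (hx : x ∈ N) :
    ‖dl J δ (el J q q z * x)‖ ≤ 4 * c * ‖x‖ := by
  rw [← norm_star, dl_star, star_mul, (el_proj h q).isSelfAdjoint.star_eq, ← norm_star x]
  exact dl_col h hd.adjoint hb.adjoint hc q (star_mem hx)

/-- an operator commuting with the scalar matrix units is diagonal -/
lemma ent_of_comm (h : Frame R z J N) {y : Op K}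
    (hy : ∀ p q, y * el J p q z = el J p q z * y) (p₀ p q : ι) :
    ent J y p q = if p = q then ent J y p₀ p₀ else 0 := by
  have h1 := congrArg (fun w => ent J w p p₀) (hy q p₀)
  simp only [ent_mul_el h, ent_el_mul h, if_true] at h1
  rw [(h.z_ent y p q).2, (h.z_ent y p q).2, h.proj.isIdempotentElem.eq,
    (h.z_ent y p₀ p₀).1] at h1
  exact h1

lemma ent_star_mul (h : Frame R z J N) {y y' : Op K}
    (hy : ∀ p q, y * el J p q z = el J p q z * y) (p₀ : ι) :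
    ent J (star y * y') p₀ p₀ = star (ent J y p₀ p₀) * ent J y' p₀ p₀ := by
  rw [h.ent_mul, Finset.sum_eq_single p₀, ent_star]
  · intro c _ hc
    rw [ent_star, ent_of_comm h hy p₀ c p₀, if_neg hc, star_zero, zero_mul]
  · simp

/-- proper infiniteness passes to the corner -/
lemma pi_corner (h : Frame R z J N) (hz : Cen R z) (p₀ : ι) {c s₁ s₂ : Op K} (hc : Cen N c)
    (hc0 : c ≠ 0) (h1 : s₁ ∈ N) (h2 : s₂ ∈ N) (e1 : star s₁ * s₁ = c) (e2 : star s₂ * s₂ = c)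
    (e3 : star s₁ * s₂ = 0) (c1 : ∀ p q, s₁ * el J p q z = el J p q z * s₁)
    (c2 : ∀ p q, s₂ * el J p q z = el J p q z * s₂) :
    ∃ c', Cen R c' ∧ c' ≠ 0 ∧ z * c' = c' ∧ PI R c' := by
  have cc : ∀ p q, c * el J p q z = el J p q z * c := fun p q =>
    hc.2.2 _ (el_mem h p q h.mem)
  have hz2 := h.proj.isIdempotentElem.eq
  have hsa : star (ent J c p₀ p₀) = ent J c p₀ p₀ := by
    rw [← ent_star, hc.1.isSelfAdjoint.star_eq]
  refine ⟨ent J c p₀ p₀, ⟨⟨?_, hsa⟩, (h.mem_iff c).1 hc.2.1 _ _, fun x hx => ?_⟩, ?_,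
    (h.z_ent c p₀ p₀).1, ent J s₁ p₀ p₀, (h.mem_iff _).1 h1 _ _, ent J s₂ p₀ p₀,
    (h.mem_iff _).1 h2 _ _, ?_, ?_, ?_⟩
  · have := ent_star_mul h (y' := c) cc p₀
    rw [hc.1.isSelfAdjoint.star_eq, hc.1.isIdempotentElem.eq, hsa] at this
    exact this.symm
  · have h3 := congrArg (fun w => ent J w p₀ p₀) (hc.2.2 _ (el_mem h p₀ p₀ hx))
    simp only [ent_mul_el h, ent_el_mul h, if_true] at h3
    rw [mul_assoc, ← hz.2.2 x hx, ← mul_assoc, (h.z_ent c p₀ p₀).2, hz.2.2 x hx, mul_assoc,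
      (h.z_ent c p₀ p₀).1] at h3
    exact h3
  · intro h0
    apply hc0
    rw [← h.mat_ent c, mat_eq]
    refine Finset.sum_eq_zero fun p _ => Finset.sum_eq_zero fun q _ => ?_
    rw [ent_of_comm h cc p₀, h0, ite_self, map_zero]
  · rw [← ent_star_mul h c1, e1]
  · rw [← ent_star_mul h c2, e2]
  · rw [← ent_star_mul h c1, e3]
    simp [ent]

/-- from unitaries to contractions -/
lemma bound_of_unitary {S : Set (Op K)} {Δ : Op K →ₗ[ℂ] Op K} {M : ℝ}
    (hS : ∀ s ∈ S, star s ∈ S)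
    (hu : ∀ y ∈ unitary (Op K), y ∈ N → (∀ s ∈ S, y * s = s * y) → ‖Δ y‖ ≤ M)
    {x : Op K} (hx : x ∈ N) (hx1 : ‖x‖ ≤ 1) (hxS : ∀ s ∈ S, x * s = s * x) :
    ‖Δ x‖ ≤ 2 * M := by
  have hst : ∀ y : Op K, (∀ s ∈ S, y * s = s * y) → ∀ s ∈ S, star y * s = s * star y := by
    intro y hy s hs
    have := congrArg star (hy _ (hS s hs))
    simpa using this.symm
  have key : ∀ h : Op K, IsSelfAdjoint h → h ∈ N → ‖h‖ ≤ 1 → (∀ s ∈ S, h * s = s * h) →
      ‖Δ h‖ ≤ M := by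
    intro h hsa hN h1 hhS
    set w : Op K := CFC.sqrt (1 - h ^ 2) with hw
    have hwc : ∀ s : Op K, h * s = s * h → w * s = s * w := by
      intro s hs
      have h2 : Commute (1 - h ^ 2) s :=
        (Commute.one_left s).sub_left ((show Commute h s from hs).pow_left 2)
      exact h2.cfcₙ_nnreal _
    have hwsa : IsSelfAdjoint w := (CFC.sqrt_nonneg _).isSelfAdjoint
    have hwN : w ∈ N := mem_of_comm fun s hs => (hwc s (comm_of_mem hN hs).symm).symm
    have hU : h + Complex.I • w ∈ unitary (Op K) :=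
      hsa.self_add_I_smul_cfcSqrt_sub_sq_mem_unitary h h1
    have huN : h + Complex.I • w ∈ N := add_mem hN (smul_mem' _ hwN)
    have huS : ∀ s ∈ S, (h + Complex.I • w) * s = s * (h + Complex.I • w) := by
      intro s hs
      rw [add_mul, mul_add, smul_mul_assoc, mul_smul_comm, hhS s hs, hwc s (hhS s hs)]
    have b1 := hu _ hU huN huS
    have b2 := hu _ (Unitary.star_mem hU) (star_mem huN) (hst _ huS)
    have e : h = (1 / 2 : ℂ) • ((h + Complex.I • w) + star (h + Complex.I • w)) := by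
      rw [star_add, star_smul, hsa.star_eq, hwsa.star_eq, Complex.star_def, Complex.conj_I]
      module
    rw [e, map_smul, map_add, norm_smul]
    have := norm_add_le (Δ (h + Complex.I • w)) (Δ (star (h + Complex.I • w)))
    have e2 : ‖(1 / 2 : ℂ)‖ = 1 / 2 := by simp
    rw [e2]
    linarith
  have n2 : ‖(1 / 2 : ℂ)‖ = 1 / 2 := by simp
  have n3 : ‖(-Complex.I / 2 : ℂ)‖ = 1 / 2 := by simp
  have k1 := key ((1 / 2 : ℂ) • (x + star x)) (by
      rw [IsSelfAdjoint, star_smul, star_add, star_star, add_comm]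
      simp) (smul_mem' _ (add_mem hx (star_mem hx))) (by
      rw [norm_smul, n2]
      have := norm_add_le x (star x)
      rw [norm_star] at this
      linarith) (fun s hs => by
      rw [smul_mul_assoc, mul_smul_comm, add_mul, mul_add, hxS s hs, hst x hxS s hs])
  have k2 := key ((-Complex.I / 2 : ℂ) • (x - star x)) (by
      rw [IsSelfAdjoint, star_smul, star_sub, star_star, ← neg_sub x, smul_neg, ← neg_smul]
      congr 1
      simp [neg_div]) (smul_mem' _ (sub_mem hx (star_mem hx))) (by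
      rw [norm_smul, n3]
      have := norm_sub_le x (star x)
      rw [norm_star] at this
      linarith) (fun s hs => by
      rw [smul_mul_assoc, mul_smul_comm, sub_mul, mul_sub, hxS s hs, hst x hxS s hs])
  have e : x = (1 / 2 : ℂ) • (x + star x) + Complex.I • ((-Complex.I / 2 : ℂ) • (x - star x)) := by
    rw [smul_smul]
    have : Complex.I * (-Complex.I / 2) = 1 / 2 := by
      rw [mul_div_assoc', mul_neg, Complex.I_mul_I, neg_neg]
    rw [this]
    module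
  rw [e, map_add, map_smul Δ Complex.I]
  refine (norm_add_le _ _).trans ?_
  rw [norm_smul Complex.I, Complex.norm_I, one_mul]
  linarith

lemma exists_r (n : ℕ) : ∃ r : ℕ, 0 < r ∧ 16 * r * n * n ≤ 2 ^ r := by
  have h : ∀ r : ℕ, (r + 4) ^ 2 ≤ 2 ^ (r + 4) := by
    intro r
    induction r with
    | zero => norm_num
    | succ r ih =>
      have : 2 ^ (r + 1 + 4) = 2 * 2 ^ (r + 4) := by ring
      rw [this]
      calc (r + 1 + 4) ^ 2 ≤ 2 * (r + 4) ^ 2 := by nlinarith [Nat.zero_le (r * r), Nat.zero_le r]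
        _ ≤ _ := Nat.mul_le_mul_left 2 ih
  refine ⟨16 * n * n + 4, by omega, le_trans ?_ (h _)⟩
  nlinarith

lemma z_der_z {δ : Op H →ₗ[ℂ] Op H} (hd : Der R δ) (hz : Cen R z) {a : Op H} (ha : a ∈ R) :
    z * δ (z * a * z) * z = z * δ a * z := by
  have hz2 := hz.1.isIdempotentElem.eq
  have h0 : z * δ z * z = 0 := by
    have h1 := hd z hz.2.1 z hz.2.1
    rw [hz2] at h1
    have h2 : z * δ z * z = z * (z * δ z + δ z * z) * z := by rw [← h1]
    have h3 : z * (z * δ z + δ z * z) * z = z * δ z * z + z * δ z * z := by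
      rw [mul_add, add_mul, ← mul_assoc, hz2, mul_assoc z (δ z * z) z, mul_assoc (δ z) z z, hz2,
        mul_assoc]
    rw [h3] at h2
    exact left_eq_add.1 h2
  have hc := hz.2.2 a ha
  rw [hd _ (mul_mem hz.2.1 ha) z hz.2.1, hd z hz.2.1 a ha]
  have e1 : z * (z * a * δ z) * z = a * (z * δ z * z) := by
    rw [← mul_assoc, ← mul_assoc, hz2, hc]
    noncomm_ring
  have e2 : z * (δ z * a * z) * z = (z * δ z * z) * a := by
    rw [mul_assoc z _ z, mul_assoc _ z z, hz2, mul_assoc (δ z) a z, ← hc]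
    noncomm_ring
  have e3 : z * (z * δ a * z) * z = z * δ a * z := by
    rw [← mul_assoc, ← mul_assoc, hz2, mul_assoc _ z z, hz2]
  rw [add_mul, mul_add, mul_add, add_mul, add_mul, e1, e2, e3, h0]
  simp

end Pool.Agent.Kad.CaseC
end
end

-- part Pool.Agent.Lib.MP_22c5db_an.CaseC
section

/-! The type II case. -/

open scoped InnerProductSpace ComplexConjugate
open Finset

noncomputable section

namespace Pool.Agent.Kad

universe u

variable {H : Type u} [NormedAddCommGroup H] [InnerProductSpace ℂ H] [CompleteSpace H]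

namespace CaseC

lemma mu_z {κ : Type} [Fintype κ] [DecidableEq κ] {f : κ → κ → Op H} {z : Op H} (hf : MU f z)
    (s t : κ) : z * f s t = f s t ∧ f s t * z = f s t := by
  constructor
  · rw [← hf.sum, Finset.sum_mul]
    simp [hf.mul]
  · rw [← hf.sum, Finset.mul_sum]
    simp [hf.mul]

/-- inner derivation -/
def ad {K : Type u} [NormedAddCommGroup K] [InnerProductSpace ℂ K] (M : Op K) :
    Op K →ₗ[ℂ] Op K :=
  LinearMap.mulLeft ℂ M - LinearMap.mulRight ℂ M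

lemma ad_apply {K : Type u} [NormedAddCommGroup K] [InnerProductSpace ℂ K] (M x : Op K) :
    ad M x = M * x - x * M := rfl

lemma norm_ad {K : Type u} [NormedAddCommGroup K] [InnerProductSpace ℂ K] (M x : Op K) :
    ‖ad M x‖ ≤ 2 * ‖M‖ * ‖x‖ := by
  rw [ad_apply]
  have h1 := norm_sub_le (M * x) (x * M)
  have h2 := norm_mul_le M x
  have h3 := norm_mul_le x M
  nlinarith

end CaseC

open CaseC

theorem caseC {R : VonNeumannAlgebra H} {δ : Op H →ₗ[ℂ] Op H} {c : ℝ} {ι : Type} [Fintype ι]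
    {a : ι → ι → Op H} (hd : Der R δ) (hb : Bd R δ c) (hc : 0 < c) (ha : ∀ i j, a i j ∈ R)
    (h1 : MB a 1) {z : Op H} (hz : Cen R z)
    (hfin : ∀ c', Cen R c' → c' ≠ 0 → z * c' = c' → ¬ PI R c')
    (hK : ∀ K : ℕ, 0 < K → ∃ f : Fin K → Fin K → Op H, MU f z ∧ ∀ i j, f i j ∈ R) :
    MB (fun i j => z * δ (a i j) * z) (1000 * c) := by
  classical
  rcases isEmpty_or_nonempty ι with hι | ⟨⟨i₀⟩⟩
  · intro ξ η
    simp
  have hn : 0 < Fintype.card ι := Fintype.card_pos_iff.2 ⟨i₀⟩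
  set n := Fintype.card ι with hn'
  obtain ⟨r, hr, hr2⟩ := exists_r n
  have hA : 0 < 16 * r * n := by positivity
  obtain ⟨K₀, hK₀⟩ := core.{u} (16 * r * n) (16 * r * n * n) r
    ((16 * r * n * n : ℕ) * (12 * c)) (12 * c) (by positivity) hr (by positivity)
    (le_of_eq (by ring)) (by
      refine mul_le_mul_of_nonneg_right ?_ (by positivity)
      exact_mod_cast hr2)
  have hk : 0 < max K₀ 1 := lt_max_of_lt_right one_pos
  set k := max K₀ 1 with hk'
  obtain ⟨f, hf, hfR⟩ := hK k hk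
  have : Nonempty (Fin k) := ⟨⟨0, hk⟩⟩
  obtain ⟨T, hT, hTf⟩ := exists_T hd hb hc.le hf hfR
  obtain ⟨K, _, _, _, J, N, h⟩ := exists_frame (R := R) hz.1 hz.2.1 (Fin (16 * r * n) × ι)
  have hz2 := hz.1.isIdempotentElem.eq
  set α₀ : Fin (16 * r * n) := ⟨0, hA⟩
  set p₀ : Fin (16 * r * n) × ι := (α₀, i₀)
  set M : Op K := mat J fun p q => if p = q then T else 0 with hM
  have hMn : ‖M‖ ≤ 4 * c := (h.norm_mat (norm_nonneg T) (mb_diag T)).trans hT
  have hM' : M = ∑ p, el J p p T := by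
    rw [hM, mat_eq]
    refine Finset.sum_congr rfl fun p _ => ?_
    rw [Finset.sum_eq_single p]
    · simp
    · intro q _ hq
      simp [hq.symm]
    · simp
  set Δ : Op K →ₗ[ℂ] Op K := dl J δ - ad M with hΔ
  have hΔa : ∀ x, Δ x = dl J δ x - ad M x := fun x => rfl
  have hD : Der N Δ := by
    intro x hx y hy
    rw [hΔa, hΔa, hΔa, h.der hd x hx y hy, ad_apply, ad_apply, ad_apply]
    noncomm_ring
  have had : ∀ x y : Op K, ‖y‖ ≤ ‖x‖ → ‖ad M y‖ ≤ 8 * c * ‖x‖ := by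
    intro x y hy
    refine (norm_ad M y).trans ?_
    have := mul_le_mul hMn hy (norm_nonneg _) (by positivity)
    linarith
  have hcol : ∀ q, ∀ x ∈ N, ‖Δ (x * el J q q z)‖ ≤ 12 * c * ‖x‖ := by
    intro q x hx
    rw [hΔa]
    have b1 := dl_col h hd hb hc.le q hx
    have b2 := had x (x * el J q q z) ((norm_mul_le _ _).trans
      (mul_le_of_le_one_right (norm_nonneg _) ((el_proj h q).norm_le _)))
    linarith [norm_sub_le (dl J δ (x * el J q q z)) (ad M (x * el J q q z))]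
  have hrow : ∀ q, ∀ x ∈ N, ‖Δ (el J q q z * x)‖ ≤ 12 * c * ‖x‖ := by
    intro q x hx
    rw [hΔa]
    have b1 := dl_row h hd hb hc.le q hx
    have b2 := had x (el J q q z * x) ((norm_mul_le _ _).trans
      (mul_le_of_le_one_left (norm_nonneg _) ((el_proj h q).norm_le _)))
    linarith [norm_sub_le (dl J δ (el J q q z * x)) (ad M (el J q q z * x))]
  have hB : Bd N Δ ((16 * r * n * n : ℕ) * (12 * c)) := by
    intro x hx
    have e : x = ∑ q, x * el J q q z := by rw [← Finset.mul_sum, sum_el h, mul_one]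
    calc ‖Δ x‖ = ‖∑ q, Δ (x * el J q q z)‖ := by rw [← map_sum, ← e]
      _ ≤ ∑ q : Fin (16 * r * n) × ι, 12 * c * ‖x‖ :=
          (norm_sum_le _ _).trans (Finset.sum_le_sum fun q _ => hcol q x hx)
      _ = _ := by
          rw [Finset.sum_const, Finset.card_univ, Fintype.card_prod, Fintype.card_fin, ← hn',
            nsmul_eq_mul]
          ring
  set E : Fin (16 * r * n) × (ι × Fin k) → Fin (16 * r * n) × (ι × Fin k) → Op K :=
    fun x y => el J (x.1, x.2.1) (y.1, y.2.1) (f x.2.2 y.2.2) with hE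
  have hsum : ∀ p q : Fin (16 * r * n) × ι,
      ∑ s, E (p.1, p.2, s) (q.1, q.2, s) = el J p q z := by
    intro p q
    simp only [hE]
    rw [← map_sum, hf.sum]
  have hMU : MU E 1 := by
    refine ⟨fun x y y' x' => ?_, fun x y => ?_, ?_⟩
    · simp only [hE]
      rw [el_mul h, (mu_z hf _ _).2, hf.mul]
      obtain ⟨y1, y2, y3⟩ := y
      obtain ⟨y1', y2', y3'⟩ := y'
      by_cases e1 : y1 = y1' <;> by_cases e2 : y2 = y2' <;> by_cases e3 : y3 = y3' <;>
        simp [e1, e2, e3]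
    · simp only [hE]
      rw [el_star, hf.adj]
    · rw [← sum_el h, Fintype.sum_prod_type, Fintype.sum_prod_type]
      refine Finset.sum_congr rfl fun α _ => ?_
      rw [Fintype.sum_prod_type]
      exact Finset.sum_congr rfl fun i _ => hsum (α, i) (α, i)
  have hEN : ∀ x y, E x y ∈ N := fun x y => el_mem h _ _ (hfR _ _)
  have hΔE : ∀ x y, Δ (E x y) = 0 := by
    intro x y
    simp only [hE]
    rw [hΔa, dl_el h, (mu_z hf _ _).1, (mu_z hf _ _).2, ← el_zr h, hTf, ad_apply, hM',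
      Finset.sum_mul, Finset.mul_sum]
    simp only [el_mul h, Finset.sum_ite_eq, Finset.sum_ite_eq', Finset.mem_univ, if_true]
    rw [mul_assoc T, (mu_z hf _ _).1, (mu_z hf _ _).2, map_sub, sub_self]
  set B₀ : Finset (Fin (16 * r * n) × (ι × Fin k)) :=
    Finset.univ.map ⟨fun s : Fin k => (α₀, i₀, s), fun s t hst => by simpa using hst⟩ with hB₀
  have hpF : pF E B₀ = el J p₀ p₀ z := by
    rw [pF, hB₀, Finset.sum_map]
    exact hsum p₀ p₀
  have hFin : FinH N E (α₀, i₀, ⟨0, hk⟩) := by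
    by_contra hno
    obtain ⟨c₀, hc₀, hc0, s₁, hs₁, s₂, hs₂, e1, e2, e3, hcomm⟩ := cancel hMU hEN _ hno
    obtain ⟨c', g1, g2, g3, g4⟩ := pi_corner h hz p₀ hc₀ hc0 hs₁ hs₂ e1 e2 e3
      (fun p q => by
        rw [← hsum, Finset.mul_sum, Finset.sum_mul]
        exact Finset.sum_congr rfl fun s _ => (hcomm _ _).1)
      (fun p q => by
        rw [← hsum, Finset.mul_sum, Finset.sum_mul]
        exact Finset.sum_congr rfl fun s _ => (hcomm _ _).2)
    exact hfin c' g1 g2 g3 g4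
  have hcore := hK₀ k (le_max_left _ _) N Δ hD hB E hMU hEN hΔE (Fintype.card_fin _)
    (by simp only [Fintype.card_prod, Fintype.card_fin, ← hn']; ring) B₀
    (by simp [hB₀]) (by rw [hpF]; exact hcol p₀) (by rw [hpF]; exact hrow p₀) _ hFin
  set m : Fin (16 * r * n) × ι → Fin (16 * r * n) × ι → Op H :=
    fun p q => if p.1 = q.1 then a p.2 q.2 else 0 with hm
  have hX1 : ‖mat J m‖ ≤ 1 := h.norm_mat zero_le_one (mb_block h1)
  have hXN : mat J m ∈ N := h.mat_mem fun p q => by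
    simp only [hm]
    split_ifs
    · exact ha _ _
    · exact zero_mem _
  have hFA : ∀ α γ, FA E α γ = ∑ i, el J (α, i) (γ, i) z := by
    intro α γ
    rw [FA, Fintype.sum_prod_type]
    exact Finset.sum_congr rfl fun i _ => hsum (α, i) (γ, i)
  have hXc : ∀ α γ, mat J m * FA E α γ = FA E α γ * mat J m := by
    intro α γ
    rw [← h.mat_ent (mat J m * FA E α γ), ← h.mat_ent (FA E α γ * mat J m)]
    congr 1
    funext p q
    have hent : ∀ (g : ι → Op K), ent J (∑ i, g i) p q = ∑ i, ent J (g i) p q := by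
      intro g
      simp only [ent, ContinuousLinearMap.finsetSum_comp, ContinuousLinearMap.comp_finsetSum]
    rw [hFA, Finset.mul_sum, Finset.sum_mul, hent, hent]
    simp only [ent_mul_el h, ent_el_mul h, h.ent_mat, hm]
    obtain ⟨p1, p2⟩ := p
    obtain ⟨q1, q2⟩ := q
    rw [Finset.sum_eq_single q2, Finset.sum_eq_single p2]
    · by_cases e1 : p1 = α <;> by_cases e2 : q1 = γ
      · simp only [e1, e2, if_true]
        rw [mul_assoc _ z z, hz2, mul_assoc _ z z, hz2, ← mul_assoc, ← mul_assoc, hz2]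
      · simp [e1, e2, Ne.symm e2]
      · simp [e1, e2]
      · simp [e1, e2]
    · intro i _ hi
      simp [hi.symm]
    · simp
    · intro i _ hi
      simp [hi.symm]
    · simp
  have hbd := bound_of_unitary (N := N) (S := Set.range fun w : _ × _ => FA E w.1 w.2) (Δ := Δ)
    (M := 20 * (12 * c)) (by
      rintro _ ⟨w, rfl⟩
      exact ⟨(w.2, w.1), (hMU.fa.adj _ _).symm⟩)
    (fun y hy hyN hyc => hcore y hy hyN fun α γ => hyc _ ⟨(α, γ), rfl⟩) hXN hX1 (by
      rintro _ ⟨w, rfl⟩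
      exact hXc _ _)
  have hdl : ‖dl J δ (mat J m)‖ ≤ 1000 * c := by
    have e : dl J δ (mat J m) = Δ (mat J m) + ad M (mat J m) := by rw [hΔa, sub_add_cancel]
    have b2 := had (mat J m) (mat J m) le_rfl
    have b3 : 8 * c * ‖mat J m‖ ≤ 8 * c := mul_le_of_le_one_right (by positivity) hX1
    rw [e]
    linarith [norm_add_le (Δ (mat J m)) (ad M (mat J m))]
  have hfinal := mb_restrict (mb_mono (h.mb_ent (dl J δ (mat J m))) hdl) α₀
  have e : (fun i j => ent J (dl J δ (mat J m)) (α₀, i) (α₀, j))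
      = fun i j => z * δ (a i j) * z := by
    funext i j
    rw [h.dl_mat, h.ent_mat]
    simp only [hm, if_true]
    exact z_der_z hd hz (ha i j)
  rwa [e] at hfinal

end Pool.Agent.Kad
end
end
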