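import Pool.Agent.Lib.MP_22c5db_an.CasesA
import Pool.Agent.Lib.MP_22c5db_an.VN2B

-- part Pool.Agent.Lib.MP_22c5db_an.Cases
section

/-! The properly infinite and type I cases, and the passage from local to global. -/

open scoped InnerProductSpace ComplexConjugate
open Finset

noncomputable section

namespace Pool.Agent.Kad

universe u

variable {H : Type u} [NormedAddCommGroup H] [InnerProductSpace ℂ H] [CompleteSpace H]

variable {R : VonNeumannAlgebra H} {δ : Op H →ₗ[ℂ] Op H} {c : ℝ} {ι : Type} [Fintype ι]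
  {a : ι → ι → Op H}

open Cases

omit [CompleteSpace H] in
theorem MB.mono {s t : ℝ} (h : MB a s) (hst : s ≤ t) : MB a t := fun ξ η =>
  (h ξ η).trans (by gcongr)

omit [CompleteSpace H] in
lemma Cases.mb_congr {s : ℝ} {b : ι → ι → Op H} (h : MB a s) (e : ∀ i j, b i j = a i j) :
    MB b s := by
  rwa [show b = a from funext fun i => funext fun j => e i j]

/-- orthogonal isometries in a properly infinite algebra -/
lemma Cases.exists_isoms {z : Op H} (hz : Cen R z) (hpi : PI R z) :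
    ∃ t : ℕ → Op H, (∀ n, t n ∈ R) ∧ ∀ n m, star (t n) * t m = if n = m then z else 0 := by
  obtain ⟨s₁, h₁, s₂, h₂, e₁, e₂, e₃⟩ := hpi
  have k : ∀ s ∈ R, star s * s = z → z * s = s := fun s hs e => by
    rw [hz.2.2 s hs, ← e, ← mul_assoc]
    exact piso_of_proj (e ▸ hz.1)
  let t : ℕ → Op H := fun n => Nat.rec s₁ (fun _ x => s₂ * x) n
  have t0 : t 0 = s₁ := rfl
  have ts : ∀ n, t (n + 1) = s₂ * t n := fun _ => rfl
  have hz' : ∀ n, z * t n = t n := by
    intro n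
    cases n with
    | zero => exact k _ h₁ e₁
    | succ n => rw [ts, ← mul_assoc, k _ h₂ e₂]
  refine ⟨t, fun n => ?_, fun n => ?_⟩
  · induction n with
    | zero => exact h₁
    | succ n ih => exact mul_mem h₂ ih
  · induction n with
    | zero =>
      intro m
      cases m with
      | zero => rw [if_pos rfl]; exact e₁
      | succ m => rw [ts, t0, ← mul_assoc, e₃]; simp
    | succ n ih =>
      intro m
      cases m with
      | zero =>
        have : star s₂ * s₁ = 0 := by simpa using congrArg star e₃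
        rw [ts, t0, star_mul, mul_assoc, this]; simp
      | succ m =>
        rw [ts, ts, star_mul, mul_assoc, ← mul_assoc (star s₂), e₂, hz', ih]; simp

theorem caseA (hd : Der R δ) (hb : Bd R δ c) (hc : 0 < c) (ha : ∀ i j, a i j ∈ R) (h1 : MB a 1)
    {z : Op H} (hz : Cen R z) (hpi : PI R z) :
    MB (fun i j => z * δ (a i j) * z) (1000 * c) := by
  classical
  obtain ⟨t, htR, ht⟩ := exists_isoms hz hpi
  set T : ι → Op H := fun i => t (Fintype.equivFin ι i) with hT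
  have hTR : ∀ i, T i ∈ R := fun i => htR _
  have hTT : ∀ i j, star (T i) * T j = if i = j then z else 0 := fun i j => by
    simp only [hT, ht, Fin.val_inj, EmbeddingLike.apply_eq_iff_eq]
  have hB := bessel (t := T)
    (fun i => piso_norm (piso_of_proj (by rw [hTT, if_pos rfl]; exact hz.1)))
    fun i j hij => by rw [hTT, if_neg hij]
  set m := ∑ k, ∑ l, T k * a k l * star (T l) with hm
  have hm1 : ‖m‖ ≤ 1 := norm_mb_le h1 hB
  have hmR : m ∈ R := sum_mem fun k _ => sum_mem fun l _ =>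
    mul_mem (mul_mem (hTR k) (ha k l)) (star_mem (hTR l))
  have hzz : z * z = z := hz.1.isIdempotentElem
  have key : ∀ i j, z * a i j = star (T i) * m * T j := fun i j => by
    have : ∀ k l, star (T i) * (T k * a k l * star (T l)) * T j =
        (star (T i) * T k) * a k l * (star (T l) * T j) := fun k l => by noncomm_ring
    simp only [hm, mul_sum, sum_mul, this, hTT, ite_mul, mul_ite, zero_mul, mul_zero, sum_ite_eq,
      sum_ite_eq', mem_univ, if_true]
    rw [mul_assoc, ← hz.2.2 _ (ha i j), ← mul_assoc, hzz]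
  have b1 := mb_fact (x := fun i => δ (star (T i))) (y := T) (by positivity) zero_le_one
    (col_bound hd hb hc.le (fun i => star_mem (hTR i)) zero_le_one hB) hm1 hB
  have b2 := mb_fact (x := fun i => star (T i)) (y := T) zero_le_one zero_le_one hB
    ((hb m hmR).trans (mul_le_of_le_one_right hc.le hm1)) hB
  have b3 := mb_fact (x := fun i => star (T i)) (y := fun j => δ (T j)) zero_le_one
    (by positivity) hB hm1 (row_bound hd hb hc.le hTR zero_le_one hB)
  have b4 := mb_mul (mb_add (mb_add b1 b2) b3) (by positivity) hz.1.norm_le hz.1.norm_le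
  refine (mb_congr b4 fun i j => ?_).mono (by linarith)
  rw [← cut hd hz (ha i j), key, der3 hd (star_mem (hTR i)) hmR (hTR j)]

lemma Cases.ab_comm {p q b : Op H} (hp : IsStarProjection p) (hab : Ab R p)
    (hq : IsStarProjection q) (hqR : q ∈ R) (hpq : p * q = q) (hb : b ∈ R) (hpb : p * b = b)
    (hbp : b * p = b) : b * q = q * b := by
  have hqp : q * p = q := by
    simpa [hp.isSelfAdjoint.star_eq, hq.isSelfAdjoint.star_eq] using congrArg star hpq
  have := hab b hb q hqR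
  rwa [hpb, hbp, hpq, hqp, mul_assoc, hqp, mul_assoc, hbp] at this

lemma Cases.loc_sa {p q b : Op H} (hp : IsStarProjection p) (hab : Ab R p)
    (hq : IsStarProjection q) (hqR : q ∈ R) (hq0 : q ≠ 0) (hpq : p * q = q) (hb : b ∈ R)
    (hpb : p * b = b) (hbp : b * p = b) (hsa : IsSelfAdjoint b) {ε : ℝ} (hε : 0 < ε) :
    ∃ (t : ℂ) (q' : Op H), IsStarProjection q' ∧ q' ∈ R ∧ q' ≠ 0 ∧ q * q' = q' ∧
      ‖(b - t • 1) * q'‖ ≤ ε := by
  obtain ⟨t, q', h1, h2, h3, h4, h5⟩ :=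
    exists_loc hsa hq hq0 (ab_comm hp hab hq hqR hpq hb hpb hbp) hε
  exact ⟨t, q', h1, mem_of_comm fun s hs => h4 s (comm_of_mem hb hs) (comm_of_mem hqR hs), h2,
    h3, h5⟩

lemma Cases.norm_cut {x q q' : Op H} (hq' : IsStarProjection q') (h : q * q' = q') {ε : ℝ}
    (hx : ‖x * q‖ ≤ ε) : ‖x * q'‖ ≤ ε := by
  rw [← h, ← mul_assoc]
  exact (norm_mul_le _ _).trans
    ((mul_le_of_le_one_right (norm_nonneg _) hq'.norm_le).trans hx)

lemma Cases.loc_one {p q b : Op H} (hp : IsStarProjection p) (hab : Ab R p)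
    (hq : IsStarProjection q) (hqR : q ∈ R) (hq0 : q ≠ 0) (hpq : p * q = q) (hb : b ∈ R)
    (hpb : p * b = b) (hbp : b * p = b) {ε : ℝ} (hε : 0 < ε) :
    ∃ (t : ℂ) (q' : Op H), IsStarProjection q' ∧ q' ∈ R ∧ q' ≠ 0 ∧ q * q' = q' ∧
      ‖(b - t • 1) * q'‖ ≤ ε := by
  have hpb' : p * star b = star b := by
    simpa [hp.isSelfAdjoint.star_eq] using congrArg star hbp
  have hbp' : star b * p = star b := by
    simpa [hp.isSelfAdjoint.star_eq] using congrArg star hpb
  obtain ⟨t, q', h1, h2, h3, h4, h5⟩ := loc_sa (b := (1 / 2 : ℂ) • (b + star b)) hp hab hq hqR hq0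
    hpq (smul_mem' _ (add_mem hb (star_mem hb))) (by rw [mul_smul_comm, mul_add, hpb, hpb'])
    (by rw [smul_mul_assoc, add_mul, hbp, hbp'])
    (by rw [IsSelfAdjoint, star_smul, star_add, star_star, add_comm]; simp) (half_pos hε)
  obtain ⟨t', q'', k1, k2, k3, k4, k5⟩ := loc_sa (b := (-Complex.I / 2 : ℂ) • (b - star b)) hp hab
    h1 h2 h3 (by rw [← h4, ← mul_assoc, hpq]) (smul_mem' _ (sub_mem hb (star_mem hb)))
    (by rw [mul_smul_comm, mul_sub, hpb, hpb']) (by rw [smul_mul_assoc, sub_mul, hbp, hbp'])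
    (by
      rw [IsSelfAdjoint, star_smul, star_sub, star_star, ← neg_sub b, smul_neg, ← neg_smul]
      congr 1; simp; ring) (half_pos hε)
  refine ⟨t + Complex.I * t', q'', k1, k2, k3, by rw [← k4, ← mul_assoc, h4], ?_⟩
  have e : b - (t + Complex.I * t') • (1 : Op H) = ((1 / 2 : ℂ) • (b + star b) - t • 1) +
      Complex.I • ((-Complex.I / 2 : ℂ) • (b - star b) - t' • 1) := by
    have : Complex.I * (-Complex.I / 2) = 1 / 2 := by
      rw [mul_div_assoc', mul_neg, Complex.I_mul_I, neg_neg]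
    rw [smul_sub, smul_smul, smul_smul, this]; module
  rw [e, add_mul, smul_mul_assoc]
  refine (norm_add_le _ _).trans ?_
  rw [norm_smul, Complex.norm_I, one_mul]
  linarith [norm_cut k1 k4 h5]

lemma Cases.loc_fin {κ : Type*} [Fintype κ] {p : Op H} {b : κ → Op H} (hp : IsStarProjection p)
    (hpR : p ∈ R) (hp0 : p ≠ 0) (hab : Ab R p) (hb : ∀ i, b i ∈ R) (hpb : ∀ i, p * b i = b i)
    (hbp : ∀ i, b i * p = b i) {ε : ℝ} (hε : 0 < ε) :
    ∃ q : Op H, IsStarProjection q ∧ q ∈ R ∧ q ≠ 0 ∧ p * q = q ∧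
      ∀ i, ∃ t : ℂ, ‖(b i - t • 1) * q‖ ≤ ε := by
  classical
  suffices h : ∀ s : Finset κ, ∃ q : Op H, IsStarProjection q ∧ q ∈ R ∧ q ≠ 0 ∧ p * q = q ∧
      ∀ i ∈ s, ∃ t : ℂ, ‖(b i - t • 1) * q‖ ≤ ε by
    simpa using h univ
  intro s
  induction s using Finset.induction_on with
  | empty => exact ⟨p, hp, hpR, hp0, hp.isIdempotentElem, by simp⟩
  | insert i s _ ih =>
    obtain ⟨q, h1, h2, h3, h4, h5⟩ := ih
    obtain ⟨t, q', k1, k2, k3, k4, k5⟩ := loc_one hp hab h1 h2 h3 h4 (hb i) (hpb i) (hbp i) hε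
    refine ⟨q', k1, k2, k3, by rw [← k4, ← mul_assoc, h4], fun j hj => ?_⟩
    rcases mem_insert.1 hj with rfl | hj
    · exact ⟨t, k5⟩
    · obtain ⟨t, ht⟩ := h5 j hj
      exact ⟨t, norm_cut k1 k4 ht⟩

theorem caseB (hd : Der R δ) (hb : Bd R δ c) (hc : 0 < c) (ha : ∀ i j, a i j ∈ R) (h1 : MB a 1)
    {k : ℕ} {e : Fin (k + 1) → Fin (k + 1) → Op H} {P : Op H} (hP : Cen R P) (hP0 : P ≠ 0)
    (he : MU e P) (heR : ∀ i j, e i j ∈ R) (hab : Ab R (e 0 0)) :
    ∃ z, Cen R z ∧ z ≠ 0 ∧ P * z = z ∧ MB (fun i j => z * δ (a i j) * z) (1000 * c) := by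
  classical
  have hm : ∀ i j l, e i j * e j l = e i l := fun i j l => by rw [he.mul, if_pos rfl]
  have hp : IsStarProjection (e 0 0) := ⟨hm 0 0 0, he.adj 0 0⟩
  have hp0 : e 0 0 ≠ 0 := fun h => hP0 (by
    rw [← he.sum]
    exact sum_eq_zero fun s _ => by rw [← hm s 0 s, ← hm s 0 0, h, mul_zero, zero_mul])
  set ε : ℝ := 1 / (Fintype.card ι + 1) with hε
  have hε0 : 0 < ε := by positivity
  have hε1 : Fintype.card ι * ε ≤ 1 := by
    rw [hε, mul_one_div, div_le_one (by positivity)]; linarith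
  have hl : ∀ s t x, e 0 0 * (e 0 s * x * e t 0) = e 0 s * x * e t 0 := fun s t x => by
    rw [← mul_assoc, ← mul_assoc, hm]
  have hr : ∀ s t x, (e 0 s * x * e t 0) * e 0 0 = e 0 s * x * e t 0 := fun s t x => by
    rw [mul_assoc, hm]
  obtain ⟨q, hq, hqR, hq0, hpq, hlam⟩ := loc_fin
    (b := fun w : (ι × ι) × Fin (k + 1) × Fin (k + 1) => e 0 w.2.1 * a w.1.1 w.1.2 * e w.2.2 0)
    hp (heR 0 0) hp0 hab (fun w => mul_mem (mul_mem (heR _ _) (ha _ _)) (heR _ _))
    (fun w => hl _ _ _) (fun w => hr _ _ _) (ε := ε / ((k + 1) * (k + 1))) (by positivity)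
  choose lam hlam using hlam
  have hqq : q * q = q := hq.isIdempotentElem
  have hqp : q * e 0 0 = q := by
    simpa [hp.isSelfAdjoint.star_eq, hq.isSelfAdjoint.star_eq] using congrArg star hpq
  have hcomm : ∀ s t, ∀ x ∈ R, (e 0 s * x * e t 0) * q = q * (e 0 s * x * e t 0) :=
    fun s t x hx => ab_comm hp hab hq hqR hpq (mul_mem (mul_mem (heR _ _) hx) (heR _ _))
      (hl _ _ _) (hr _ _ _)
  set f : Fin (k + 1) → Fin (k + 1) → Op H := fun s t => e s 0 * q * e 0 t with hf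
  set z := ∑ s, f s s with hz
  have hfR : ∀ s t, f s t ∈ R := fun s t => mul_mem (mul_mem (heR _ _) hqR) (heR _ _)
  have hmu : MU f z := by
    refine ⟨fun i j l m => ?_, fun i j => ?_, rfl⟩
    · have : f i j * f l m = e i 0 * (q * (e 0 j * e l 0) * q) * e 0 m := by
        simp only [hf]; noncomm_ring
      rw [this, he.mul]
      split_ifs
      · rw [hqp, hqq]
      · simp
    · simp only [hf, star_mul, he.adj, hq.isSelfAdjoint.star_eq, mul_assoc]
  have hPe : ∀ s t, P * e s t = e s t := fun s t => by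
    rw [← he.sum, sum_mul]; simp [he.mul]
  have hPz : P * z = z := by
    simp only [hz, hf, mul_sum, ← mul_assoc, hPe]
  have hzR : z ∈ R := sum_mem fun s _ => hfR s s
  have hzP : z * P = z := by rw [← hP.2.2 z hzR, hPz]
  have hzx : ∀ x ∈ R, z * x = ∑ s, ∑ t, e s 0 * ((e 0 s * x * e t 0) * q) * e 0 t := by
    intro x hx
    rw [← hzP, mul_assoc, hP.2.2 x hx, ← he.sum, hz, sum_mul]
    refine sum_congr rfl fun s _ => ?_
    rw [mul_sum, mul_sum]
    refine sum_congr rfl fun t _ => ?_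
    rw [hcomm s t x hx, ← hm t 0 t]; simp only [hf]; noncomm_ring
  have hzc : Cen R z := by
    refine ⟨hmu.proj univ, hzR, fun x hx => ?_⟩
    rw [hzx x hx]
    conv_rhs => rw [← hPz, ← mul_assoc, ← hP.2.2 x hx, ← he.sum, hz, sum_mul, sum_mul]
    refine sum_congr rfl fun s _ => ?_
    rw [mul_sum]
    refine sum_congr rfl fun t _ => ?_
    rw [← hm s 0 s]; simp only [hf]; noncomm_ring
  have hz0 : z ≠ 0 := fun h => hq0 (by
    have : z * f 0 0 = f 0 0 := by rw [hz, sum_mul]; simp [hmu.mul]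
    rw [h, zero_mul] at this
    simp only [hf, hpq, hqp] at this
    exact this.symm)
  refine ⟨z, hzc, hz0, hPz, ?_⟩
  obtain ⟨T, hT, hTf⟩ := exists_T hd hb hc.le hmu hfR
  set g : ι → ι → Op H := fun i j => ∑ s, ∑ t, lam ((i, j), s, t) • f s t with hg
  set r : ι → ι → Op H := fun i j => z * a i j - g i j with hr'
  have hrR : ∀ i j, r i j ∈ R := fun i j => sub_mem (mul_mem hzR (ha i j))
    (sum_mem fun s _ => sum_mem fun t _ => smul_mem' _ (hfR s t))
  have hrn : ∀ i j, ‖r i j‖ ≤ ε := fun i j => by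
    have : r i j = ∑ s, ∑ t, e s 0 * ((e 0 s * a i j * e t 0 - lam ((i, j), s, t) • 1) * q) *
        e 0 t := by
      simp only [hr', hg, hzx _ (ha i j), ← sum_sub_distrib, hf, sub_mul, mul_sub, smul_mul_assoc,
        mul_smul_comm, one_mul]
    rw [this]
    calc _ ≤ ∑ _s : Fin (k + 1), ∑ _t : Fin (k + 1), ε / ((k + 1) * (k + 1)) := by
          refine norm_sum_le_of_le _ fun s _ => norm_sum_le_of_le _ fun t _ => ?_
          refine (norm_mul_le _ _).trans ((mul_le_of_le_one_right (norm_nonneg _)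
            (he.norm_le _ _)).trans ((norm_mul_le _ _).trans ((mul_le_of_le_one_left
              (norm_nonneg _) (he.norm_le _ _)).trans (hlam ((i, j), s, t)))))
      _ = ε := by simp; field_simp
  have hz1 := hzc.1.norm_le
  have hone : ‖(1 : Op H)‖ ≤ 1 := ContinuousLinearMap.norm_id_le
  have bg : MB g 2 := (mb_congr (mb_sub (mb_mul h1 zero_le_one hz1 hone) (mb_small hε0.le hrn))
    fun i j => by simp [hr']).mono (by linarith)
  have b1 := mb_mul bg zero_le_two ((norm_mul_le z T).trans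
    ((mul_le_of_le_one_left (norm_nonneg _) hz1).trans hT)) hone
  have b2 := mb_mul bg zero_le_two hz1 hT
  have b3 := mb_mul (mb_small (b := fun i j => δ (r i j)) (ε := c * ε) (by positivity)
    fun i j => (hb _ (hrR i j)).trans (by gcongr; exact hrn i j)) (by positivity) hz1 hz1
  refine (mb_congr (mb_add (mb_sub b1 b2) b3) fun i j => ?_).mono (by nlinarith)
  have e1 : z * a i j = g i j + r i j := by simp [hr']
  have e2 : δ (g i j) * z = T * g i j - g i j * T := by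
    simp only [hg, map_sum, map_smul, sum_mul, mul_sum, smul_mul_assoc, mul_smul_comm, hTf,
      smul_sub, sum_sub_distrib]
  rw [← cut hd hzc (ha i j), e1, map_add, mul_add, add_mul, mul_assoc z, e2]
  noncomm_ring

/-- block diagonal sums -/
lemma Cases.mb_block {κ : Type*} [Fintype κ] {z : κ → Op H} (hz : ∀ b, IsStarProjection (z b))
    (hB : ∀ ζ, ∑ b, ‖z b ζ‖ ^ 2 ≤ 1 ^ 2 * ‖ζ‖ ^ 2) {C : ℝ} (hC : 0 ≤ C)
    (h : ∀ b, MB (fun i j => z b * a i j * z b) C) :
    MB (fun i j => ∑ b, z b * a i j * z b) C := by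
  intro ξ η
  have e : ∑ i, ∑ j, ⟪η i, (∑ b, z b * a i j * z b) (ξ j)⟫_ℂ =
      ∑ b, ∑ i, ∑ j, ⟪z b (η i), (z b * a i j * z b) (z b (ξ j))⟫_ℂ := by
    simp only [ContinuousLinearMap.sum_apply, inner_sum]
    rw [sum_comm]
    simp only [sum_comm (s := univ) (t := (univ : Finset κ))]
    refine sum_congr rfl fun b _ => ?_
    rw [sum_comm]
    refine sum_congr rfl fun i _ => sum_congr rfl fun j _ => ?_
    have hzz : z b * z b = z b := (hz b).isIdempotentElem
    conv_rhs => rw [← (hz b).isSelfAdjoint.star_eq, ← inner_star, (hz b).isSelfAdjoint.star_eq,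
      ← ContinuousLinearMap.mul_apply, ← ContinuousLinearMap.mul_apply, ← mul_assoc, ← mul_assoc,
      hzz, mul_assoc, hzz]
  have key : ∀ ζ : ι → H, √(∑ b, √(∑ j, ‖z b (ζ j)‖ ^ 2) ^ 2) ≤ √(∑ j, ‖ζ j‖ ^ 2) := fun ζ => by
    refine Real.sqrt_le_sqrt ?_
    rw [sum_congr rfl fun b _ => Real.sq_sqrt (by positivity), sum_comm]
    exact sum_le_sum fun j _ => by simpa using hB (ζ j)
  rw [e]
  calc _ ≤ ∑ b, C * √(∑ j, ‖z b (ξ j)‖ ^ 2) * √(∑ i, ‖z b (η i)‖ ^ 2) :=
        norm_sum_le_of_le _ fun b _ => h b (fun j => z b (ξ j)) fun i => z b (η i)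
    _ = C * ∑ b, √(∑ j, ‖z b (ξ j)‖ ^ 2) * √(∑ i, ‖z b (η i)‖ ^ 2) := by
        simp only [mul_sum, mul_assoc]
    _ ≤ C * (√(∑ j, ‖ξ j‖ ^ 2) * √(∑ i, ‖η i‖ ^ 2)) := by
        gcongr
        exact (Real.sum_mul_le_sqrt_mul_sqrt _ _ _).trans
          (mul_le_mul (key _) (key _) (by positivity) (by positivity))
    _ = _ := by ring

lemma Cases.glue_fin (hd : Der R δ) (hb : Bd R δ c) (hc : 0 < c) (ha : ∀ i j, a i j ∈ R)
    (h1 : MB a 1) {C : ℝ} (hC : 0 ≤ C) {κ : Type} [Fintype κ] {z : κ → Op H}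
    (hz : ∀ b, Cen R (z b)) (h0 : ∀ b b', b ≠ b' → z b * z b' = 0)
    (h : ∀ b, MB (fun i j => z b * δ (a i j) * z b) C) :
    MB (fun i j => δ (a i j) * ∑ b, z b) (C + 9 * c) := by
  have hs : ∀ b, star (z b) = z b := fun b => (hz b).1.isSelfAdjoint.star_eq
  have hzz : ∀ b, z b * z b = z b := fun b => (hz b).1.isIdempotentElem
  have hzR : ∀ b, z b ∈ R := fun b => (hz b).2.1
  have hB := bessel (t := z) (fun b => (hz b).1.norm_le) fun b b' hb => by rw [hs, h0 b b' hb]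
  have hB' : ∀ ζ, ∑ b, ‖z b ζ‖ ^ 2 ≤ 1 ^ 2 * ‖ζ‖ ^ 2 := by simpa only [hs] using hB
  have hone : ‖(1 : Op H)‖ ≤ 1 := ContinuousLinearMap.norm_id_le
  have n1 := norm_sum_mul_le (x := fun b => δ (z b)) (by positivity) zero_le_one
    (row_bound hd hb hc.le hzR zero_le_one hB) hB'
  have n2 := norm_sum_mul_le (y := fun b => δ (z b)) zero_le_one (by positivity) hB
    (col_bound hd hb hc.le hzR zero_le_one hB')
  have n3 := norm_sum_mul_le zero_le_one zero_le_one hB hB'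
  simp only [hzz, mul_one] at n3
  have hR : ∑ b, z b ∈ R := sum_mem fun b _ => hzR b
  have n4 := (hb _ hR).trans (mul_le_of_le_one_right hc.le n3)
  refine (mb_congr (mb_sub (mb_add (mb_add (mb_mul h1 zero_le_one n1 hone)
    (mb_block (fun b => (hz b).1) hB' hC h)) (mb_mul h1 zero_le_one hone n2))
    (mb_mul h1 zero_le_one hone n4)) fun i j => ?_).mono (by linarith)
  have e1 : a i j * ∑ b, z b = ∑ b, z b * a i j * z b := by
    rw [mul_sum]
    exact sum_congr rfl fun b _ => by rw [(hz b).2.2 _ (ha i j), mul_assoc, hzz]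
  have e2 := hd _ (ha i j) _ hR
  rw [e1, map_sum] at e2
  rw [eq_sub_iff_add_eq, add_comm, one_mul, ← e2, mul_one, sum_mul, mul_sum, ← sum_add_distrib,
    ← sum_add_distrib]
  refine sum_congr rfl fun b _ => ?_
  rw [der3 hd (hzR b) (ha i j) (hzR b), mul_assoc (δ (z b)), ← (hz b).2.2 _ (ha i j),
    ← mul_assoc, ← mul_assoc, ← (hz b).2.2 _ (ha i j)]

theorem glue (hd : Der R δ) (hb : Bd R δ c) (hc : 0 < c) (ha : ∀ i j, a i j ∈ R) (h1 : MB a 1)
    {C : ℝ} (hC : 0 ≤ C) (h : ∀ z, Cen R z → z ≠ 0 →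
      ∃ z', Cen R z' ∧ z' ≠ 0 ∧ z * z' = z' ∧ MB (fun i j => z' * δ (a i j) * z') C) :
    MB (fun i j => δ (a i j)) (C + 9 * c) := by
  classical
  obtain ⟨S, hS⟩ := zorn_subset {S : Set (Op H) | (∀ z ∈ S, Cen R z ∧
      MB (fun i j => z * δ (a i j) * z) C) ∧ S.Pairwise fun z w => z * w = 0} (by
    intro K hK hch
    refine ⟨⋃₀ K, ⟨fun z ⟨s, hs, hz⟩ => (hK hs).1 z hz, ?_⟩, fun s hs => Set.subset_sUnion_of_mem hs⟩
    exact (Set.pairwise_sUnion hch.directedOn).2 fun s hs => (hK hs).2)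
  obtain ⟨hS1, hS2⟩ := hS.prop
  obtain ⟨q, hq, hq1, -, hq3, -, hq5⟩ := exists_proj {ζ : H | ∃ z ∈ S, z ζ = ζ}
  have hcomm : ∀ t : Op H, (∀ z ∈ S, t * z = z * t) → (∀ z ∈ S, star t * z = z * star t) →
      t * q = q * t := by
    have k : ∀ t : Op H, (∀ z ∈ S, t * z = z * t) → ∀ ζ ∈ {ζ : H | ∃ z ∈ S, z ζ = ζ},
        q (t ζ) = t ζ := fun t ht ζ ⟨z, hz, e⟩ => hq1 _ ⟨z, hz, by
      rw [← ContinuousLinearMap.mul_apply, ← ht z hz, ContinuousLinearMap.mul_apply, e]⟩
    exact fun t h1 h2 => hq5 t (k t h1) (k _ h2)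
  have hqc : Cen R q := ⟨hq, mem_of_comm fun s hs => hcomm s
    (fun z hz => comm_of_mem (hS1 z hz).1.2.1 hs)
    fun z hz => comm_of_mem (hS1 z hz).1.2.1 (star_mem hs), fun x hx => (hcomm x
      (fun z hz => ((hS1 z hz).1.2.2 x hx).symm)
      fun z hz => ((hS1 z hz).1.2.2 _ (star_mem hx)).symm).symm⟩
  have hq1' : 1 - q = 0 := by
    by_contra hne
    obtain ⟨z', k1, k2, k3, k4⟩ := h _ hqc.one_sub hne
    have k5 : ∀ z ∈ S, z' * z = 0 := fun z hz => by
      have hzz : z * z = z := (hS1 z hz).1.1.isIdempotentElem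
      have : q * z = z := ContinuousLinearMap.ext fun ζ =>
        hq1 (z ζ) ⟨z, hz, congrArg (fun x : Op H => x ζ) hzz⟩
      rw [← k3, ← k1.2.2 _ hqc.one_sub.2.1, mul_assoc, sub_mul, one_mul, this, sub_self, mul_zero]
    have hmem : z' ∈ S := hS.mem_of_prop_insert ⟨fun z hz => by
      rcases hz with rfl | hz
      exacts [⟨k1, k4⟩, hS1 z hz], hS2.insert fun z hz _ =>
        ⟨k5 z hz, by rw [← k1.2.2 z (hS1 z hz).1.2.1, k5 z hz]⟩⟩
    exact k2 (by rw [← k5 z' hmem]; exact k1.1.isIdempotentElem.symm)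
  have hdense : Dense (Submodule.span ℂ {ζ : H | ∃ z ∈ S, z ζ = ζ} : Set H) := fun ζ => by
    have := hq3 ζ
    rw [← sub_eq_zero.1 hq1'] at this
    exact this
  have hspan : ∀ ζ ∈ Submodule.span ℂ {ζ : H | ∃ z ∈ S, z ζ = ζ}, ∃ F : Finset (Op H),
      ↑F ⊆ S ∧ ∀ G : Finset (Op H), F ⊆ G → ↑G ⊆ S → (∑ z ∈ G, z) ζ = ζ := by
    intro ζ hζ
    induction hζ using Submodule.span_induction with
    | mem ζ hζ =>
      obtain ⟨z, hz, e⟩ := hζ
      refine ⟨{z}, by simpa using hz, fun G hG hGS => ?_⟩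
      rw [ContinuousLinearMap.sum_apply, sum_eq_single z (fun w hw hwz => ?_)
        (fun hn => absurd (hG (mem_singleton_self z)) hn), e]
      rw [← e, ← ContinuousLinearMap.mul_apply, hS2 (hGS hw) hz hwz]; rfl
    | zero => exact ⟨∅, by simp, fun G _ _ => map_zero _⟩
    | add x y _ _ hx hy =>
      obtain ⟨F, hF, hF'⟩ := hx
      obtain ⟨G, hG, hG'⟩ := hy
      refine ⟨F ∪ G, by simp [hF, hG], fun K hK hKS => ?_⟩
      rw [map_add, hF' K (subset_union_left.trans hK) hKS, hG' K (subset_union_right.trans hK) hKS]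
    | smul r x _ hx =>
      obtain ⟨F, hF, hF'⟩ := hx
      exact ⟨F, hF, fun K hK hKS => by rw [map_smul, hF' K hK hKS]⟩
  intro ξ η
  refine (dense_pi Set.univ fun _ _ => hdense).induction (P := fun ξ : ι → H =>
    ‖∑ i, ∑ j, ⟪η i, δ (a i j) (ξ j)⟫_ℂ‖ ≤
      (C + 9 * c) * √(∑ j, ‖ξ j‖ ^ 2) * √(∑ i, ‖η i‖ ^ 2)) (fun ξ hξ => ?_)
    (isClosed_le (by fun_prop) (by fun_prop)) ξ
  choose F hF hF' using fun j => hspan (ξ j) (hξ j trivial)
  set G := univ.biUnion F with hG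
  have hGS : ↑G ⊆ S := fun z hz => by
    obtain ⟨j, -, hj⟩ := mem_biUnion.1 hz
    exact hF j hj
  have hmem : ∀ b, (G.equivFin.symm b : Op H) ∈ S := fun b => hGS (G.equivFin.symm b).2
  have := glue_fin hd hb hc ha h1 hC (z := fun b => (G.equivFin.symm b : Op H))
    (fun b => (hS1 _ (hmem b)).1)
    (fun b b' hb => hS2 (hmem b) (hmem b') fun e => hb (G.equivFin.symm.injective (Subtype.ext e)))
    (fun b => (hS1 _ (hmem b)).2) ξ η
  rw [G.equivFin.symm.sum_comp fun z => (z : Op H), sum_coe_sort G fun z => z] at this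
  simpa only [ContinuousLinearMap.mul_apply,
    hF' _ G (subset_biUnion_of_mem F (mem_univ _)) hGS] using this

end Pool.Agent.Kad
end
end

-- part Pool.Agent.Lib.MP_22c5db_an.Inner
section

/-! Completely bounded derivations are inner. -/

open scoped InnerProductSpace ComplexConjugate
open Finset

noncomputable section

namespace Pool.Agent.Kad

universe u

variable {H : Type u} [NormedAddCommGroup H] [InnerProductSpace ℂ H] [CompleteSpace H]

namespace Inner

section frame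

variable {R : VonNeumannAlgebra H}
  {K : Type u} [NormedAddCommGroup K] [InnerProductSpace ℂ K] [CompleteSpace K]
  {ι : Type} [Fintype ι] [DecidableEq ι] {J : ι → H →L[ℂ] K} {N : VonNeumannAlgebra K}

/-- a column of vectors -/
def vec (J : ι → H →L[ℂ] K) (ζ : ι → H) : K := ∑ i, J i (ζ i)

lemma adj_vec (h : Frame R 1 J N) (ζ : ι → H) (a : ι) :
    ContinuousLinearMap.adjoint (J a) (vec J ζ) = ζ a := by
  have h1 : ∀ b, ContinuousLinearMap.adjoint (J a) (J b (ζ b)) = if a = b then ζ b else 0 := by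
    intro b
    have := congrArg (fun x : Op H => x (ζ b)) (h.adj a b)
    simp only [ContinuousLinearMap.comp_apply] at this
    rw [this]
    split_ifs <;> simp
  simp only [vec, map_sum, h1, sum_ite_eq, mem_univ, if_true]

lemma inner_vec (h : Frame R 1 J N) (χ ζ : ι → H) :
    ⟪vec J χ, vec J ζ⟫_ℂ = ∑ i, ⟪χ i, ζ i⟫_ℂ := by
  conv_lhs => rw [vec]
  rw [sum_inner]
  refine sum_congr rfl fun i _ => ?_
  rw [← ContinuousLinearMap.adjoint_inner_right, adj_vec h]

lemma mat_vec (h : Frame R 1 J N) (m : ι → ι → Op H) (ζ : ι → H) :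
    mat J m (vec J ζ) = vec J fun a => ∑ b, m a b (ζ b) := by
  simp only [mat, _root_.sum_apply, ContinuousLinearMap.comp_apply, adj_vec h]
  simp only [vec, map_sum]

omit [DecidableEq ι] in
lemma ent_vec (x : Op K) (ζ : ι → H) (a : ι) :
    ∑ b, ent J x a b (ζ b) = ContinuousLinearMap.adjoint (J a) (x (vec J ζ)) := by
  simp only [ent, ContinuousLinearMap.comp_apply, vec, map_sum]

/-- the vanishing lemma -/
lemma vanish (h : Frame R 1 J N) {δ : Op H →ₗ[ℂ] Op H} (hd : Der R δ) {w : ι → ι → Op H}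
    (hw : ∀ i j, w i j ∈ R) {α β : ι → H} (hα : ∀ i, ∑ j, w i j (α j) = 0)
    (hβ : ∀ j, ∑ i, star (w i j) (β i) = 0) : ∑ i, ∑ j, ⟪β i, δ (w i j) (α j)⟫_ℂ = 0 := by
  have hW : mat J w ∈ N := h.mat_mem hw
  have h1 : mat J w (vec J α) = 0 := by
    rw [mat_vec h]
    simp only [hα, vec, map_zero, sum_const_zero]
  have h2 : star (mat J w) (vec J β) = 0 := by
    rw [mat_star, mat_vec h]
    simp only [hβ, vec, map_zero, sum_const_zero]
  obtain ⟨q, hq, hq1, hq2, -, hq4⟩ := exists_rp (star (mat J w))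
  have hqN : q ∈ N := by
    refine mem_of_comm fun s hs => hq4 s ?_ ?_
    · exact comm_of_mem (star_mem hW) hs
    · exact comm_of_mem (star_mem hW) (star_mem hs)
  have h3 : mat J w * q = mat J w := by
    have := congrArg star hq1
    rwa [star_mul, star_star, hq.isSelfAdjoint.star_eq] at this
  have h4 : q (vec J α) = 0 := hq2 _ (by rw [star_star]; exact h1)
  have h5 := h.der hd _ hW _ hqN
  rw [h3] at h5
  have h6 : ⟪vec J β, dl J δ (mat J w) (vec J α)⟫_ℂ = 0 := by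
    rw [h5, add_apply, mul_apply_eq_comp, mul_apply_eq_comp, h4, map_zero, add_zero,
      ← ContinuousLinearMap.adjoint_inner_left, ← ContinuousLinearMap.star_eq_adjoint, h2,
      inner_zero_left]
  rw [h.dl_mat, mat_vec h, inner_vec h] at h6
  simpa only [inner_sum, one_mul, mul_one] using h6

/-- the cyclic projection -/
lemma cyc (h : Frame R 1 J N) {ζ χ : ι → H}
    (ho : ∀ s ∈ R.commutant, ∑ i, ⟪χ i, s (ζ i)⟫_ℂ = 0) :
    ∃ p : ι → ι → Op H, (∀ i j, p i j ∈ R) ∧ MB p 1 ∧ (∀ i, ∑ j, p i j (ζ j) = ζ i) ∧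
      ∀ j, ∑ i, star (p i j) (χ i) = 0 := by
  obtain ⟨q, hq, hq1, hq2, -, -, hq5⟩ :=
    exists_proj {k : K | ∃ s ∈ R.commutant, k = vec J fun i => s (ζ i)}
  have hamp : ∀ (t : Op H) (ξ : ι → H),
      mat J (fun a b => if a = b then t else 0) (vec J ξ) = vec J fun i => t (ξ i) := by
    intro t ξ
    rw [mat_vec h]
    congr 1
    funext a
    rw [sum_eq_single a (fun b _ hb => by rw [if_neg (Ne.symm hb)]; rfl) (by simp), if_pos rfl]
  refine ⟨ent J q, fun i j => mem_of_comm fun t ht => ?_, fun ξ η => ?_, fun i => ?_, fun j => ?_⟩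
  · have h1 : mat J (fun a b => if a = b then t else 0) * q =
        q * mat J (fun a b => if a = b then t else 0) := by
      refine hq5 _ ?_ ?_
      · rintro _ ⟨s, hs, rfl⟩
        rw [hamp]
        exact hq1 _ ⟨t * s, mul_mem ht hs, rfl⟩
      · rintro _ ⟨s, hs, rfl⟩
        have : star (mat J fun a b => if a = b then t else 0) =
            mat J fun a b => if a = b then star t else 0 := by
          rw [mat_star]
          congr 1
          funext a b
          by_cases hab : a = b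
          · rw [if_pos hab, if_pos hab.symm]
          · rw [if_neg hab, if_neg (Ne.symm hab), star_zero]
        rw [this, hamp]
        exact hq1 _ ⟨star t * s, mul_mem (star_mem ht) hs, rfl⟩
    have h2 := congrArg (fun x => ent J x i j) h1
    simp only [h.ent_mul, h.ent_mat, one_mul, mul_one, ite_mul, mul_ite, zero_mul, mul_zero,
      sum_ite_eq, sum_ite_eq', mem_univ, if_true] at h2
    exact h2
  · refine (h.mb_ent q ξ η).trans ?_
    gcongr
    exact hq.norm_le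
  · rw [ent_vec, hq1 (vec J ζ) ⟨1, one_mem _, rfl⟩, adj_vec h]
  · simp only [← ent_star]
    rw [ent_vec, hq.isSelfAdjoint.star_eq, hq2, map_zero]
    rintro _ ⟨s, hs, rfl⟩
    rw [← inner_conj_symm, inner_vec h, ho s hs, map_zero]

end frame

omit [CompleteSpace H] in
/-- the scalar matrix -/
lemma exists_scalar {τ : Type} [Fintype τ] [DecidableEq τ] {α β : τ → H}
    (h : ∀ u v, ∑ j, ⟪u, α j⟫_ℂ * ⟪β j, v⟫_ℂ = 0) :
    ∃ e : τ → τ → ℂ, (∀ i, ∑ j, e i j • α j = α i) ∧ ∀ j, ∑ i, conj (e i j) • β i = 0 := by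
  obtain ⟨q, hq, hq1, hq2, -⟩ := exists_proj
    {k : EuclideanSpace ℂ τ | ∃ u : H, k = WithLp.toLp 2 fun j => ⟪u, α j⟫_ℂ}
  have hex : ∀ (k : EuclideanSpace ℂ τ) (i : τ),
      q k i = ∑ j, q (EuclideanSpace.single j 1) i * k j := by
    intro k i
    have hk : k = ∑ j, k j • EuclideanSpace.single j (1 : ℂ) := by
      ext j
      simp [Pi.single_apply]
    conv_lhs => rw [hk]
    simp [mul_comm]
  have hsa : ∀ i j, conj (q (EuclideanSpace.single j 1) i) = q (EuclideanSpace.single i 1) j := by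
    intro i j
    have h1 := ContinuousLinearMap.adjoint_inner_left q (EuclideanSpace.single i (1 : ℂ))
      (EuclideanSpace.single j (1 : ℂ))
    rw [← ContinuousLinearMap.star_eq_adjoint, hq.isSelfAdjoint.star_eq] at h1
    simpa [EuclideanSpace.inner_single_left, EuclideanSpace.inner_single_right] using h1
  refine ⟨fun i j => q (EuclideanSpace.single j 1) i, fun i => ?_, fun j => ?_⟩
  · refine ext_inner_left ℂ fun u => ?_
    have h1 := hex (WithLp.toLp 2 fun j => ⟪u, α j⟫_ℂ) i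
    rw [hq1 _ ⟨u, rfl⟩] at h1
    simp only [inner_sum, inner_smul_right]
    exact h1.symm
  · refine ext_inner_left ℂ fun v => ?_
    have h1 := hex (WithLp.toLp 2 fun j => ⟪v, β j⟫_ℂ) j
    rw [hq2] at h1
    · simp only [inner_sum, inner_smul_right, hsa, inner_zero_right]
      exact h1.symm
    · rintro _ ⟨u, rfl⟩
      rw [← inner_conj_symm, PiLp.inner_apply]
      simp only [RCLike.inner_apply, inner_conj_symm]
      rw [h u v, map_zero]

/-- the key inequality -/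
lemma key {R : VonNeumannAlgebra H} {δ : Op H →ₗ[ℂ] Op H} (hd : Der R δ) {C : ℝ}
    (h : ∀ (ι : Type) [Fintype ι] (a : ι → ι → Op H), (∀ i j, a i j ∈ R) → MB a 1 →
      MB (fun i j => δ (a i j)) C) {κ ι : Type} [Fintype κ] [Fintype ι] {a : κ → Op H}
    (ha : ∀ k, a k ∈ R) {ξ η : κ → H} {ζ χ : ι → H}
    (hs : ∀ u v, ∑ k, (⟪u, a k (ξ k)⟫_ℂ * ⟪η k, v⟫_ℂ - ⟪u, ξ k⟫_ℂ * ⟪star (a k) (η k), v⟫_ℂ) =
      ∑ i, ⟪u, ζ i⟫_ℂ * ⟪χ i, v⟫_ℂ) :
    ‖∑ k, ⟪η k, δ (a k) (ξ k)⟫_ℂ‖ ≤ C * √(∑ i, ‖ζ i‖ ^ 2) * √(∑ i, ‖χ i‖ ^ 2) := by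
  classical
  set α : κ ⊕ κ ⊕ ι → H := Sum.elim (fun k => a k (ξ k)) (Sum.elim ξ ζ) with hα
  set β : κ ⊕ κ ⊕ ι → H :=
    Sum.elim η (Sum.elim (fun k => -(star (a k) (η k))) fun i => -χ i) with hβ
  obtain ⟨e, he1, he2⟩ : ∃ e : κ ⊕ κ ⊕ ι → κ ⊕ κ ⊕ ι → ℂ, (∀ i, ∑ j, e i j • α j = α i) ∧
      ∀ j, ∑ i, conj (e i j) • β i = 0 := by
    refine exists_scalar fun u v => ?_
    have := hs u v
    rw [sum_sub_distrib] at this
    simp only [hα, hβ, Fintype.sum_sum_type, Sum.elim_inl, Sum.elim_inr, inner_neg_left, mul_neg,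
      sum_neg_distrib]
    linear_combination this
  have ho : ∀ s : Op H, ∑ j, ⟪β j, s (α j)⟫_ℂ = 0 := by
    intro s
    calc ∑ i, ⟪β i, s (α i)⟫_ℂ = ∑ i, ⟪β i, s (∑ j, e i j • α j)⟫_ℂ := by simp only [he1]
      _ = ∑ j, ⟪∑ i, conj (e i j) • β i, s (α j)⟫_ℂ := by
        simp only [map_sum, map_smul, inner_sum, sum_inner, inner_smul_right, inner_smul_left,
          RingHomCompTriple.comp_apply, RingHom.id_apply]
        exact sum_comm
      _ = 0 := by simp only [he2, inner_zero_left, sum_const_zero]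
  obtain ⟨K, _, _, _, J, N, hF⟩ := exists_frame (R := R) (IsStarProjection.one _) (one_mem R) ι
  obtain ⟨p, hp, hp1, hp2, hp3⟩ : ∃ p : ι → ι → Op H, (∀ i j, p i j ∈ R) ∧ MB p 1 ∧
      (∀ i, ∑ j, p i j (ζ j) = ζ i) ∧ ∀ j, ∑ i, star (p i j) (χ i) = 0 := by
    refine cyc hF fun s hsR => ?_
    have h1 := ho s
    have h2 : ∀ k, ⟪η k, s (a k (ξ k))⟫_ℂ = ⟪star (a k) (η k), s (ξ k)⟫_ℂ := by
      intro k
      rw [ContinuousLinearMap.star_eq_adjoint, ContinuousLinearMap.adjoint_inner_left,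
        ← mul_apply_eq_comp, comm_of_mem (ha k) hsR, mul_apply_eq_comp]
    simp only [hα, hβ, Fintype.sum_sum_type, Sum.elim_inl, Sum.elim_inr, inner_neg_left,
      sum_neg_distrib, h2] at h1
    linear_combination -h1
  obtain ⟨K', _, _, _, J', N', hF'⟩ :=
    exists_frame (R := R) (IsStarProjection.one _) (one_mem R) (κ ⊕ κ ⊕ ι)
  set x : κ ⊕ κ ⊕ ι → κ ⊕ κ ⊕ ι → Op H := Sum.elim
    (fun k => Sum.elim 0 (Sum.elim (fun l => if k = l then a k else 0) 0))
    (Sum.elim (fun k => Sum.elim 0 (Sum.elim (fun l => if k = l then 1 else 0) 0))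
      fun i => Sum.elim 0 (Sum.elim 0 (p i))) with hx
  have hxR : ∀ i j, x i j ∈ R := by
    rintro (i | i | i) (j | j | j) <;>
      simp only [hx, Sum.elim_inl, Sum.elim_inr, Pi.zero_apply, zero_mem, hp]
    · split_ifs
      exacts [ha i, zero_mem R]
    · split_ifs
      exacts [one_mem R, zero_mem R]
  have i1 : ∀ (c : Prop) [Decidable c] (t : Op H) (v : H),
      (if c then t else 0) v = if c then t v else 0 := by
    intro c _ t v
    split_ifs <;> rfl
  have i2 : ∀ (c : Prop) [Decidable c] (t : Op H) (v : H),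
      star (if c then t else 0) v = if c then star t v else 0 := by
    intro c _ t v
    split_ifs <;> simp
  have i3 : ∀ (c : Prop) [Decidable c] (t : Op H) (u v : H),
      ⟪u, δ (if c then t else 0) v⟫_ℂ = if c then ⟪u, δ t v⟫_ℂ else 0 := by
    intro c _ t u v
    split_ifs <;> simp
  have hx1 : ∀ i, ∑ j, x i j (α j) = α i := by
    rintro (i | i | i)
    · simp [hx, hα, Fintype.sum_sum_type, i1]
    · simp [hx, hα, Fintype.sum_sum_type, i1]
    · simp [hx, hα, Fintype.sum_sum_type, hp2]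
  have hx2 : ∀ j, ∑ i, star (x i j) (β i) = 0 := by
    rintro (j | j | j)
    · simp [hx, hβ, Fintype.sum_sum_type]
    · simp [hx, hβ, Fintype.sum_sum_type, i2]
    · simp [hx, hβ, Fintype.sum_sum_type, hp3]
  have hv := vanish hF' hd (w := fun i j => x i j - e i j • (1 : Op H))
    (fun i j => sub_mem (hxR i j) (smul_mem' _ (one_mem R))) (α := α) (β := β)
    (fun i => by
      simp only [sub_apply, smul_apply, one_apply_eq_self, sum_sub_distrib, hx1, he1, sub_self])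
    (fun j => by
      simp only [star_sub, star_smul, star_one, sub_apply, smul_apply, one_apply_eq_self,
        sum_sub_distrib, hx2, RCLike.star_def, he2, sub_self])
  simp only [map_sub, map_smul, hd.one, smul_zero, sub_zero] at hv
  have hfin : ∑ k, ⟪η k, δ (a k) (ξ k)⟫_ℂ = ∑ i, ∑ j, ⟪χ i, δ (p i j) (ζ j)⟫_ℂ := by
    simp [hx, hα, hβ, Fintype.sum_sum_type, i3, hd.one] at hv
    linear_combination hv
  rw [hfin]
  exact h ι p hp hp1 ζ χ

/-- Hahn-Banach along a linear map -/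
lemma hb {F W : Type*} [AddCommGroup F] [Module ℂ F] [AddCommGroup W] [Module ℂ W]
    (Φ : F →ₗ[ℂ] W) (l : F →ₗ[ℂ] ℂ) (ν : Seminorm ℂ W) (h : ∀ f, ‖l f‖ ≤ ν (Φ f)) :
    ∃ Λ : W →ₗ[ℂ] ℂ, (∀ f, Λ (Φ f) = l f) ∧ ∀ w, ‖Λ w‖ ≤ ν w := by
  have hk : LinearMap.ker Φ ≤ LinearMap.ker l := by
    intro f hf
    have := h f
    rw [LinearMap.mem_ker.1 hf, map_zero] at this
    exact norm_le_zero_iff.1 this
  set g : LinearMap.range Φ →ₗ[ℂ] ℂ :=
    ((LinearMap.ker Φ).liftQ l hk).comp Φ.quotKerEquivRange.symm.toLinearMap with hg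
  have hg1 : ∀ f, g ⟨Φ f, LinearMap.mem_range_self Φ f⟩ = l f := by
    intro f
    simp [hg]
  obtain ⟨Λ, h1, h2⟩ := Module.Dual.exists_extension_of_le_seminorm (LinearMap.range Φ) g
    (p := ν) (by
      rintro ⟨_, f, rfl⟩
      rw [hg1]
      exact h f)
  exact ⟨Λ, fun f => (h1 ⟨Φ f, LinearMap.mem_range_self Φ f⟩).trans (hg1 f), h2⟩

omit [CompleteSpace H] in
/-- rescaling a rank one operator -/
lemma rescale (c : ℂ) (ζ χ : H) : ∃ ζ' χ' : H,
    (∀ u v, ⟪u, ζ'⟫_ℂ * ⟪χ', v⟫_ℂ = c * (⟪u, ζ⟫_ℂ * ⟪χ, v⟫_ℂ)) ∧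
      ‖ζ'‖ ^ 2 = ‖c‖ * (‖ζ‖ * ‖χ‖) ∧ ‖χ'‖ ^ 2 = ‖c‖ * (‖ζ‖ * ‖χ‖) := by
  by_cases h1 : c • ζ = 0
  · refine ⟨0, 0, fun u v => ?_, ?_, ?_⟩
    · rw [← mul_assoc, ← inner_smul_right u ζ c, h1]
      simp
    · rw [← mul_assoc, ← norm_smul, h1]
      simp
    · rw [← mul_assoc, ← norm_smul, h1]
      simp
  by_cases h2 : χ = 0
  · exact ⟨0, 0, fun u v => by simp [h2], by simp [h2], by simp [h2]⟩
  have h3 : 0 < ‖c • ζ‖ := norm_pos_iff.2 h1
  have h4 : 0 < ‖χ‖ := norm_pos_iff.2 h2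
  set t : ℝ := √(‖χ‖ / ‖c • ζ‖) with ht
  have ht0 : 0 < t := Real.sqrt_pos.2 (div_pos h4 h3)
  have ht2 : t ^ 2 = ‖χ‖ / ‖c • ζ‖ := Real.sq_sqrt (div_pos h4 h3).le
  refine ⟨(t : ℂ) • c • ζ, ((t⁻¹ : ℝ) : ℂ) • χ, fun u v => ?_, ?_, ?_⟩
  · have : (t : ℂ) ≠ 0 := Complex.ofReal_ne_zero.2 ht0.ne'
    rw [inner_smul_right, inner_smul_right, inner_smul_left, Complex.conj_ofReal,
      Complex.ofReal_inv]
    field_simp
  · rw [norm_smul, mul_pow, Complex.norm_real, Real.norm_eq_abs, sq_abs, ht2, ← mul_assoc,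
      ← norm_smul]
    field_simp
  · rw [norm_smul, mul_pow, Complex.norm_real, Real.norm_eq_abs, sq_abs, inv_pow, ht2, ← mul_assoc,
      ← norm_smul]
    field_simp

/-- the weighted sum of absolute values -/
def nu {X : Type*} (w : X → ℝ) (hw : ∀ x, 0 ≤ w x) : Seminorm ℂ (X →₀ ℂ) :=
  Seminorm.of (fun g => ∑ x ∈ g.support, ‖g x‖ * w x)
    (fun f g => by
      classical
      have h1 : ∀ (k : X →₀ ℂ) (s : Finset X), k.support ⊆ s →
          ∑ x ∈ k.support, ‖k x‖ * w x = ∑ x ∈ s, ‖k x‖ * w x := fun k s hs =>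
        sum_subset hs fun x _ hx => by rw [Finsupp.notMem_support_iff.1 hx, norm_zero, zero_mul]
      rw [h1 (f + g) _ Finsupp.support_add, h1 f _ subset_union_left,
        h1 g _ subset_union_right, ← sum_add_distrib]
      refine sum_le_sum fun x _ => ?_
      rw [← add_mul]
      exact mul_le_mul_of_nonneg_right (norm_add_le _ _) (hw x))
    (fun c g => by
      rw [sum_subset (Finsupp.support_smul (b := c) (g := g)) fun x _ hx => by
        rw [Finsupp.notMem_support_iff.1 hx, norm_zero, zero_mul], mul_sum]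
      refine sum_congr rfl fun x _ => ?_
      rw [Finsupp.smul_apply, norm_smul, mul_assoc])

lemma nu_apply {X : Type*} (w : X → ℝ) (hw : ∀ x, 0 ≤ w x) (g : X →₀ ℂ) :
    nu w hw g = ∑ x ∈ g.support, ‖g x‖ * w x := rfl

end Inner

open _root_.Pool.Agent.Kad.Inner in
theorem inner_of_cb {R : VonNeumannAlgebra H} {δ : Op H →ₗ[ℂ] Op H} (hd : Der R δ) {C : ℝ}
    (hC : 0 ≤ C) (h : ∀ (ι : Type) [Fintype ι] (a : ι → ι → Op H), (∀ i j, a i j ∈ R) → MB a 1 →
      MB (fun i j => δ (a i j)) C) : ∃ T : Op H, ∀ a ∈ R, δ a = T * a - a * T := by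
  classical
  set Ψ : ((H × H) →₀ ℂ) →ₗ[ℂ] (H → H → ℂ) :=
    Finsupp.linearCombination ℂ fun p u v => ⟪u, p.1⟫_ℂ * ⟪p.2, v⟫_ℂ with hΨ
  have hΨ1 : ∀ ζ χ u v, Ψ (Finsupp.single (ζ, χ) 1) u v = ⟪u, ζ⟫_ℂ * ⟪χ, v⟫_ℂ := by
    intro ζ χ u v
    rw [hΨ, Finsupp.linearCombination_single, one_smul]
  set S : Submodule ℂ ((H → H → ℂ) × ℂ) := Submodule.span ℂ {y | ∃ a ∈ R, ∃ ξ η : H,
    y = (fun u v => ⟪u, a ξ⟫_ℂ * ⟪η, v⟫_ℂ - ⟪u, ξ⟫_ℂ * ⟪star a η, v⟫_ℂ, ⟪η, δ a ξ⟫_ℂ)} with hS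
  set F : Submodule ℂ (((H × H) →₀ ℂ) × ℂ) := S.comap (Ψ.prodMap LinearMap.id) with hF
  have hw : ∀ p : H × H, 0 ≤ C * (‖p.1‖ * ‖p.2‖) := fun p => by positivity
  obtain ⟨Λ, hΛ1, hΛ2⟩ := hb (F := F) ((LinearMap.fst ℂ ((H × H) →₀ ℂ) ℂ).comp F.subtype)
    ((LinearMap.snd ℂ ((H × H) →₀ ℂ) ℂ).comp F.subtype) (nu _ hw) (by
      rintro ⟨⟨g, c⟩, hgc⟩
      obtain ⟨n, f, y, hy⟩ := Submodule.mem_span_set'.1 (Submodule.mem_comap.1 hgc)
      choose a ha ξ η hyk using fun k => (y k).2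
      choose ζ χ hr1 hr2 hr3 using fun i : Fin g.support.card =>
        rescale (g (g.support.equivFin.symm i)) (g.support.equivFin.symm i).1.1
          (g.support.equivFin.symm i).1.2
      have hsum : ∀ {M : Type} [AddCommMonoid M] (φ : H × H → M),
          ∑ i : Fin g.support.card, φ (g.support.equivFin.symm i) = ∑ p ∈ g.support, φ p := by
        intro M _ φ
        rw [Equiv.sum_comp g.support.equivFin.symm fun p => φ p, sum_coe_sort]
      have hy1 := congrArg Prod.fst hy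
      have hy2 := congrArg Prod.snd hy
      simp only [hyk, Prod.fst_sum, Prod.snd_sum, Prod.smul_fst, Prod.smul_snd,
        LinearMap.prodMap_apply, LinearMap.id_apply, smul_eq_mul] at hy1 hy2
      have hk := key hd h ha (ξ := fun k => f k • ξ k) (η := η) (ζ := ζ) (χ := χ) (fun u v => by
        have h1 := congrFun (congrFun hy1 u) v
        rw [hΨ, Finsupp.linearCombination_apply, Finsupp.sum] at h1
        simp only [Finset.sum_apply, Pi.smul_apply, smul_eq_mul] at h1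
        simp only [hr1]
        rw [hsum fun p => g p * (⟪u, p.1⟫_ℂ * ⟪p.2, v⟫_ℂ), ← h1]
        refine sum_congr rfl fun k _ => ?_
        simp only [map_smul, inner_smul_right]
        ring)
      simp only [hr2, hr3, map_smul, inner_smul_right, hy2] at hk
      rw [mul_assoc, Real.mul_self_sqrt (by positivity),
        hsum fun p => ‖g p‖ * (‖p.1‖ * ‖p.2‖), mul_sum] at hk
      refine hk.trans (le_of_eq ?_)
      rw [nu_apply]
      exact sum_congr rfl fun p _ => by simp [mul_left_comm])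
  have hΛ3 : ∀ g c, (Ψ g, c) ∈ S → Λ g = c := fun g c hgc => hΛ1 ⟨(g, c), hgc⟩
  have hΛ4 : ∀ g g', Ψ g = Ψ g' → Λ g = Λ g' := by
    intro g g' hgg
    rw [← sub_eq_zero, ← map_sub]
    refine hΛ3 _ _ ?_
    rw [map_sub, hgg, sub_self]
    exact S.zero_mem
  set B : H →ₗ⋆[ℂ] H →ₗ[ℂ] ℂ := LinearMap.mk₂'ₛₗ (starRingEnd ℂ) (RingHom.id ℂ)
    (fun χ ζ => Λ (Finsupp.single (ζ, χ) 1))
    (fun χ χ' ζ => by
      rw [← map_add]
      refine hΛ4 _ _ ?_
      funext u v
      simp only [map_add, Pi.add_apply, hΨ1, inner_add_left, mul_add])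
    (fun c χ ζ => by
      rw [← map_smul]
      refine hΛ4 _ _ ?_
      funext u v
      simp only [map_smul, Pi.smul_apply, hΨ1, inner_smul_left, smul_eq_mul]
      ring)
    (fun χ ζ ζ' => by
      rw [← map_add]
      refine hΛ4 _ _ ?_
      funext u v
      simp only [map_add, Pi.add_apply, hΨ1, inner_add_right, add_mul])
    (fun c χ ζ => by
      rw [← map_smul]
      refine hΛ4 _ _ ?_
      funext u v
      simp only [map_smul, Pi.smul_apply, hΨ1, inner_smul_right, smul_eq_mul, RingHom.id_apply]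
      ring) with hB
  have hB1 : ∀ χ ζ, B χ ζ = Λ (Finsupp.single (ζ, χ) 1) := fun _ _ => rfl
  have hB2 : ∀ χ ζ, ‖B χ ζ‖ ≤ C * ‖χ‖ * ‖ζ‖ := by
    intro χ ζ
    refine (hΛ2 _).trans (le_of_eq ?_)
    rw [nu_apply, Finsupp.support_single _ one_ne_zero, sum_singleton,
      Finsupp.single_eq_same, norm_one]
    ring
  set T := ContinuousLinearMap.adjoint
    (InnerProductSpace.continuousLinearMapOfBilin (B.mkContinuous₂ C hB2)) with hT
  have hT1 : ∀ χ ζ, ⟪χ, T ζ⟫_ℂ = Λ (Finsupp.single (ζ, χ) 1) := by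
    intro χ ζ
    rw [hT, ContinuousLinearMap.adjoint_inner_right,
      InnerProductSpace.continuousLinearMapOfBilin_apply]
    rfl
  refine ⟨T, fun a ha => ?_⟩
  ext ξ
  refine ext_inner_left ℂ fun η => ?_
  rw [sub_apply, mul_apply_eq_comp, mul_apply_eq_comp, inner_sub_right,
    ← ContinuousLinearMap.adjoint_inner_left a, ← ContinuousLinearMap.star_eq_adjoint, hT1, hT1,
    ← map_sub]
  refine (hΛ3 _ _ (Submodule.subset_span ⟨a, ha, ξ, η, ?_⟩)).symm
  congr 1
  funext u v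
  simp only [map_sub, Pi.sub_apply, hΨ1]

end Pool.Agent.Kad
end
end
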