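import Pool.Agent.Lib.MP_22c5db_an.VN2B

/-! Type decomposition, in local form. -/

open scoped InnerProductSpace ComplexConjugate
open Finset

noncomputable section

namespace Pool.Agent.Kad

universe u

variable {H : Type u} [NormedAddCommGroup H] [InnerProductSpace ℂ H] [CompleteSpace H]

variable {R : VonNeumannAlgebra H}

theorem exists_nil {p : Op H} (hp : IsStarProjection p) (hpR : p ∈ R) (h : ¬ Ab R p) :
    ∃ v ∈ R, v ≠ 0 ∧ v * star v * v = v ∧ p * v = v ∧ v * p = v ∧ v * v = 0 :=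
  VN2.exists_nil' hp hpR h

/-- without abelian projections there are matrix units of every size -/
theorem halving {z : Op H} (hz : IsStarProjection z) (hzR : z ∈ R)
    (h : ∀ p ∈ R, IsStarProjection p → p ≠ 0 → z * p = p → ¬ Ab R p) {K : ℕ} (hK : 0 < K) :
    ∃ f : Fin K → Fin K → Op H, MU f z ∧ ∀ i j, f i j ∈ R := by
  obtain ⟨K, rfl⟩ := Nat.exists_eq_succ_of_ne_zero hK.ne'
  exact VN2.halving' hz hzR h K

namespace VN2

theorem ab_comm {p x y : Op H} (hab : Ab R p) (hx : x ∈ R) (hy : y ∈ R) (h1 : p * x = x)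
    (h2 : x * p = x) (h3 : p * y = y) (h4 : y * p = y) : x * y = y * x := by
  have := hab x hx y hy
  rwa [h1, h2, h3, h4, mul_assoc, h4, mul_assoc, h2] at this

theorem star_left {p x : Op H} (hp : IsStarProjection p) (h : x * p = x) :
    p * star x = star x := by
  have := congrArg star h
  rwa [star_mul, hp.isSelfAdjoint.star_eq] at this

theorem piso_right {v e : Op H} (he : IsStarProjection e) (h : star v * v = e) : v * e = v := by
  have h2 := piso_of_proj (v := v) (h ▸ he)
  rwa [mul_assoc, h] at h2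

/-- the finite case, for a given family -/
theorem typeI_fin {z p e : Op H} (hp : IsStarProjection p) (hab : Ab R p) (he : IsStarProjection e)
    (he0 : e ≠ 0) (hpe : p * e = e) {κ : Type*} [Fintype κ] [DecidableEq κ] [Nonempty κ]
    {u : κ → Op H} (hu : ∀ i, u i ∈ R ∧ z * u i = u i)
    (huu : ∀ i j, star (u i) * u j = if i = j then e else 0)
    (hfull : ∀ y ∈ R, (∑ i, u i * star (u i)) * (y * e) = y * e) :
    ∃ (k : ℕ) (e : Fin (k + 1) → Fin (k + 1) → Op H) (P : Op H), Cen R P ∧ P ≠ 0 ∧ z * P = P ∧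
      MU e P ∧ (∀ i j, e i j ∈ R) ∧ Ab R (e 0 0) := by
  obtain ⟨k, hk⟩ := Nat.exists_eq_succ_of_ne_zero (Fintype.card_ne_zero (α := κ))
  let σ : Fin (k + 1) ≃ κ := (Fintype.equivFinOfCardEq hk).symm
  have hvv : ∀ i j, star (u (σ i)) * u (σ j) = if i = j then e else 0 := fun i j => by
    simp only [huu, σ.injective.eq_iff]
  have hmu := mu_of_tup he hvv
  have hsum : ∑ i, u (σ i) * star (u (σ i)) = ∑ i, u i * star (u i) :=
    Equiv.sum_comp σ fun i => u i * star (u i)
  rw [hsum] at hmu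
  set P := ∑ i, u i * star (u i) with hP
  have hPp : IsStarProjection P := MU.isProj hmu
  have hPR : P ∈ R := sum_mem fun t _ => mul_mem (hu t).1 (star_mem (hu t).1)
  have hue : ∀ i, u i * e = u i := fun i => piso_right he (by rw [huu, if_pos rfl])
  have h1 : ∀ x ∈ R, P * (x * P) = x * P := fun x hx => by
    have h2 : x * P = ∑ i, x * u i * e * star (u i) := by
      rw [hP, mul_sum]
      exact sum_congr rfl fun i _ => by rw [mul_assoc x (u i) e, hue, mul_assoc]
    rw [h2, mul_sum]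
    exact sum_congr rfl fun i _ => by rw [← mul_assoc, hfull _ (mul_mem hx (hu i).1)]
  refine ⟨k, _, P, ⟨hPp, hPR, fun x hx => ?_⟩, fun h0 => he0 ?_, ?_, hmu,
    fun i j => mul_mem (hu _).1 (star_mem (hu _).1), fun x hx y hy => ?_⟩
  · have h2 := congrArg star (h1 _ (star_mem hx))
    rw [star_mul, star_mul, star_star, hPp.isSelfAdjoint.star_eq] at h2
    rw [← h2, mul_assoc, h1 x hx]
  · have := hfull 1 (one_mem R)
    rw [h0, zero_mul, one_mul] at this
    exact this.symm
  · rw [hP, mul_sum]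
    exact sum_congr rfl fun i _ => by rw [← mul_assoc, (hu i).2]
  · set v := u (σ 0) with hv
    have hvR : v ∈ R := (hu _).1
    have hve : v * e = v := hue (σ 0)
    have hvp : v * p = v := by rw [← hve, mul_assoc, mul_comm_proj hp he hpe]
    have hpv := star_left hp hvp
    have h3 : ∀ x : Op H, p * (star v * x * v) = star v * x * v := fun x => by
      rw [← mul_assoc, ← mul_assoc, hpv]
    have h4 : ∀ x : Op H, star v * x * v * p = star v * x * v := fun x => by
      rw [mul_assoc, hvp]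
    have h5 := ab_comm hab (mul_mem (mul_mem (star_mem hvR) hx) hvR)
      (mul_mem (mul_mem (star_mem hvR) hy) hvR) (h3 x) (h4 x) (h3 y) (h4 y)
    calc v * star v * x * (v * star v) * y * (v * star v)
        = v * (star v * x * v * (star v * y * v)) * star v := by simp only [mul_assoc]
      _ = v * (star v * y * v * (star v * x * v)) * star v := by rw [h5]
      _ = _ := by simp only [mul_assoc]

/-- the infinite case: an isometry of `c H` into the ranges of a subfamily -/
theorem exists_isom {c p : Op H} {I : Type*} {W V : I → Op H} (hW : ∀ i, W i ∈ R ∧ c * W i = W i)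
    (hWp : ∀ i, IsStarProjection (star (W i) * W i)) (hpW : ∀ i, p * star (W i) = star (W i))
    (hWW : ∀ i j, i ≠ j → star (W i) * W j = 0) (hV : ∀ i, V i ∈ R ∧ star (V i) * V i = p)
    (hVV : ∀ i j, i ≠ j → star (V i) * V j = 0)
    (hfull : ∀ η, (∀ i, star (W i) η = 0) → c η = 0) :
    ∃ s ∈ R, star s * s = c ∧ (∀ η, (∀ i, star (V i) η = 0) → star s η = 0) ∧
      ∀ y : Op H, (∀ i, y * V i = 0) → y * s = 0 := by
  let G : Set (H × H) := {g | ∃ i ζ, (star (W i) * W i) ζ = ζ ∧ g = (W i ζ, V i ζ)}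
  obtain ⟨s, hsR, -, h1, h2, h3⟩ := pgraph (R := R) G (by
    rintro _ ⟨i, ζ, hζ, rfl⟩ _ ⟨j, ζ', hζ', rfl⟩
    show ⟪W i ζ, W j ζ'⟫_ℂ = ⟪V i ζ, V j ζ'⟫_ℂ
    rw [inner_mul, inner_mul]
    by_cases hij : i = j
    · subst hij
      rw [(hV i).2, hζ']
      congr 1
      rw [← hζ', ← mulA, ← mul_assoc, hpW]
    · rw [hWW i j hij, hVV i j hij]) (by
    rintro a ha _ ⟨i, ζ, hζ, rfl⟩
    refine ⟨i, a ζ, ?_, Prod.ext ?_ ?_⟩
    · rw [← mulA, ← comm_of_mem (mul_mem (star_mem (hW i).1) (hW i).1) ha, mulA, hζ]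
    · show a (W i ζ) = W i (a ζ)
      rw [← mulA, comm_of_mem (hW i).1 ha, mulA]
    · show a (V i ζ) = V i (a ζ)
      rw [← mulA, comm_of_mem (hV i).1 ha, mulA])
  have hs0 : ∀ η, (∀ ζ ∈ Prod.fst '' G, ⟪ζ, η⟫_ℂ = 0) → s η = 0 := fun η hη =>
    h2 η fun g hg => hη _ ⟨g, hg, rfl⟩
  refine ⟨s, hsR, ext_set (Prod.fst '' G) ?_ fun η hη => ?_, fun η hη => h3 η ?_,
    fun y hy => ext_set (Prod.fst '' G) ?_ fun η hη => ?_⟩
  · rintro _ ⟨g, hg, rfl⟩
    rw [mulA, (h1 g hg).1, (h1 g hg).2]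
    obtain ⟨i, ζ, -, rfl⟩ := hg
    show W i ζ = c (W i ζ)
    rw [← mulA, (hW i).2]
  · rw [mulA, hs0 η hη, map_zero]
    refine (hfull η fun i => star_apply_eq_zero fun ζ => ?_).symm
    refine hη _ ⟨(W i ((star (W i) * W i) ζ), V i ((star (W i) * W i) ζ)), ⟨i, _, ?_, rfl⟩, ?_⟩
    · rw [← mulA, (hWp i).isIdempotentElem.eq]
    · show W i ((star (W i) * W i) ζ) = W i ζ
      rw [← mulA, piso_right (hWp i) rfl]
  · rintro _ ⟨i, ζ, -, rfl⟩
    show ⟪V i ζ, η⟫_ℂ = 0
    rw [← inner_star_right, hη, inner_zero_right]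
  · rintro _ ⟨g, hg, rfl⟩
    rw [mulA, (h1 g hg).1]
    obtain ⟨i, ζ, -, rfl⟩ := hg
    show y (V i ζ) = 0
    rw [← mulA, hy, zeroA]
  · rw [mulA, hs0 η hη, map_zero, zeroA]

/-- orthogonal families of copies of `p` -/
def Fam (R : VonNeumannAlgebra H) (p : Op H) (S : Set (Op H)) : Prop :=
  (∀ v ∈ S, v ∈ R ∧ star v * v = p) ∧ ∀ v ∈ S, ∀ v' ∈ S, v ≠ v' → star v * v' = 0

theorem exists_max_fam {p : Op H} (hp : IsStarProjection p) (hpR : p ∈ R) :
    ∃ S, p ∈ S ∧ Maximal (fun S => S ∈ {S | Fam R p S}) S := by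
  obtain ⟨S, h1, h2⟩ := zorn_subset_nonempty {S | Fam R p S} (fun c hc hch _ =>
    ⟨⋃₀ c, ⟨by
      rintro v ⟨A, hA, hv⟩
      exact (hc hA).1 v hv, by
      rintro v ⟨A, hA, hv⟩ v' ⟨B, hB, hv'⟩
      rcases hch.total hA hB with h | h
      · exact (hc hB).2 v (h hv) v' hv'
      · exact (hc hA).2 v hv v' (h hv')⟩, fun s hs => Set.subset_sUnion_of_mem hs⟩) {p}
    ⟨by
      rintro v rfl
      exact ⟨hpR, by rw [hp.isSelfAdjoint.star_eq, hp.isIdempotentElem.eq]⟩, by
      rintro v rfl v' rfl h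
      exact absurd rfl h⟩
  exact ⟨S, h1 rfl, h2⟩

theorem exists_inj (α : Type u) [Infinite α] : Nonempty (Option α ⊕ Option α ↪ α) := by
  rw [← Cardinal.le_def, Cardinal.mk_sum, Cardinal.lift_id, Cardinal.mk_option,
    Cardinal.add_one_eq (Cardinal.aleph0_le_mk α), Cardinal.add_eq_self (Cardinal.aleph0_le_mk α)]

/-- the data given by a maximal family -/
theorem exists_data {z p : Op H} (hz : Cen R z) (hp : IsStarProjection p) (hpR : p ∈ R)
    (hp0 : p ≠ 0) (hzp : z * p = p) : ∃ (S : Set (Op H)) (c E w : Op H), p ∈ S ∧ Fam R p S ∧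
      Cen R c ∧ c * p ≠ 0 ∧ z * c = c ∧ (∀ v ∈ S, E * v = v) ∧
      (∀ η, (∀ v ∈ S, star v η = 0) → E η = 0) ∧ IsStarProjection E ∧ w ∈ R ∧
      star w * w = c * (1 - E) ∧ IsStarProjection (c * (1 - E)) ∧ p * w = w ∧ c * w = w := by
  obtain ⟨S, hpS, hS, hmax⟩ := exists_max_fam hp hpR
  replace hS : Fam R p S := hS
  obtain ⟨E, hE, hE1, hE2, -, -, hE3⟩ := exists_proj {η : H | ∃ v ∈ S, ∃ ζ, η = v ζ}
  have hEv : ∀ v ∈ S, E * v = v := fun v hv => by
    ext ζ
    exact hE1 _ ⟨v, hv, ζ, rfl⟩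
  have hER : E ∈ R := by
    have h1 : ∀ a ∈ R.commutant, ∀ η ∈ {η : H | ∃ v ∈ S, ∃ ζ, η = v ζ}, E (a η) = a η := by
      rintro a ha _ ⟨v, hv, ζ, rfl⟩
      rw [← mulA a, comm_of_mem (hS.1 v hv).1 ha]
      exact hE1 _ ⟨v, hv, a ζ, rfl⟩
    exact mem_of_comm fun a ha => hE3 a (h1 a ha) (h1 _ (star_mem ha))
  have hE'R : 1 - E ∈ R := sub_mem (one_mem R) hER
  obtain ⟨z', hz', hle1, hle2⟩ := compare hE.one_sub hp hE'R hpR
  have hz'E : IsStarProjection (z' * (1 - E)) := hz'.1.mul hE.one_sub (hz'.2.2 _ hE'R)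
  obtain ⟨w, hwR, hww, hpw⟩ := hle1.isom hz'E (mul_mem hz'.2.1 hE'R) hp
  have hc : Cen R (z * z') := hz.mul hz'
  have hzw : z * w = w := by rw [← hpw, ← mul_assoc, hzp]
  have hz'w : z' * w = w := by
    rw [hz'.2.2 w hwR, ← piso_right hz'E hww, mul_assoc, mul_assoc, ← hz'.2.2 _ hE'R, ← mul_assoc z',
      hz'.1.isIdempotentElem.eq]
  refine ⟨S, z * z', E, w, hpS, hS, hc, fun h0 => ?_, ?_, hEv, fun η hη => hE2 η ?_, hE, hwR, ?_,
    hc.1.mul hE.one_sub (hc.2.2 _ hE'R), hpw, by rw [mul_assoc, hz'w, hzw]⟩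
  · rw [hz.2.2 _ hz'.2.1, mul_assoc, hzp] at h0
    rw [sub_mul, one_mul, h0, sub_zero] at hle2
    obtain ⟨v, hvR, hvv, hEv'⟩ := hle2.isom hp hpR hE.one_sub
    have h1 : ∀ u ∈ S, star u * v = 0 := fun u hu => by
      have h2 := congrArg star (hEv u hu)
      rw [star_mul, hE.isSelfAdjoint.star_eq] at h2
      rw [← hEv', ← mul_assoc, mul_sub, mul_one, h2, sub_self, zero_mul]
    have h2 : Fam R p (insert v S) := by
      refine ⟨?_, ?_⟩
      · rintro u (rfl | hu)
        · exact ⟨hvR, hvv⟩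
        · exact hS.1 u hu
      · rintro u (rfl | hu) u' (rfl | hu') hne
        · exact absurd rfl hne
        · have h3 := congrArg star (h1 u' hu')
          rwa [star_mul, star_star, star_zero] at h3
        · exact h1 u hu
        · exact hS.2 u hu u' hu' hne
    have h3 := h1 v (hmax h2 (Set.subset_insert _ _) (Set.mem_insert _ _))
    exact hp0 (hvv ▸ h3)
  · rw [← mul_assoc, hz.1.isIdempotentElem.eq]
  · rintro _ ⟨v, hv, ζ, rfl⟩
    rw [← inner_star_right, hη v hv, inner_zero_right]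
  · rw [mul_assoc, ← hww, hz.2.2 _ (mul_mem (star_mem hwR) hwR), mul_assoc, ← hz.2.2 w hwR, hzw]

end VN2

open VN2 in
/-- the type I case -/
theorem typeI {z p : Op H} (hz : Cen R z) (hp : IsStarProjection p) (hpR : p ∈ R) (hp0 : p ≠ 0)
    (hzp : z * p = p) (hab : Ab R p) :
    (∃ c, Cen R c ∧ c ≠ 0 ∧ z * c = c ∧ PI R c) ∨
    ∃ (k : ℕ) (e : Fin (k + 1) → Fin (k + 1) → Op H) (P : Op H), Cen R P ∧ P ≠ 0 ∧ z * P = P ∧
      MU e P ∧ (∀ i j, e i j ∈ R) ∧ Ab R (e 0 0) := by
  classical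
  obtain ⟨S, c, E, w, hpS, hS, hc, hcp0, hzc, hEv, hE0, hE, hwR, hww, hcE, hpw, hcw⟩ :=
    exists_data hz hp hpR hp0 hzp
  have hcc := hc.1.isIdempotentElem.eq
  have hcs := hc.1.isSelfAdjoint.star_eq
  have hwpi : w * star w * w = w := piso_of_proj (hww ▸ hcE)
  have hw'p : IsStarProjection (w * star w) := (piso_proj hwpi).2
  have hwsR : star w ∈ R := star_mem hwR
  have hcws : c * star w = star w := star_left hc.1 (by rw [← hc.2.2 w hwR, hcw])
  have hwE : w * (1 - E) = w := by
    rw [← piso_right hcE hww, mul_assoc, mul_assoc, hE.one_sub.isIdempotentElem.eq]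
  have hwv : ∀ v ∈ S, w * v = 0 := fun v hv => by
    rw [← hwE, mul_assoc, sub_mul, one_mul, hEv v hv, sub_self, mul_zero]
  have hvw : ∀ v ∈ S, star v * star w = 0 := fun v hv => by
    rw [← star_mul, hwv v hv, star_zero]
  have hvp : ∀ v ∈ S, v * p = v := fun v hv => piso_right hp (hS.1 v hv).2
  have hcp : IsStarProjection (c * p) := hc.1.mul hp (hc.2.2 p hpR)
  rcases S.finite_or_infinite with hfin | hinf
  · right
    have : Fintype S := hfin.fintype
    have : Nonempty S := ⟨⟨p, hpS⟩⟩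
    have hEsum : E = ∑ v : S, v.1 * star v.1 := by
      refine ext_set {η : H | ∃ v ∈ S, ∃ ζ, η = v ζ} ?_ fun η hη => ?_
      · rintro _ ⟨v, hv, ζ, rfl⟩
        rw [← mulA, hEv v hv, ← mulA, sum_mul, sum_eq_single (⟨v, hv⟩ : S)]
        · rw [mul_assoc, (hS.1 v hv).2, hvp v hv]
        · intro u _ hu
          rw [mul_assoc, hS.2 u.1 u.2 v hv fun h => hu (Subtype.ext h), mul_zero]
        · intro h
          exact absurd (mem_univ _) h
      · have h1 : ∀ v ∈ S, star v η = 0 := fun v hv =>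
          star_apply_eq_zero fun ζ => hη _ ⟨v, hv, ζ, rfl⟩
        rw [hE0 η h1, sumA]
        exact (sum_eq_zero fun v _ => by rw [mulA, h1 v.1 v.2, map_zero]).symm
    have key : ∀ e ∈ R, IsStarProjection e → p * e = e → c * e = e →
        (∀ v : S, v.1 * e ∈ R ∧ z * (v.1 * e) = v.1 * e) ∧
        (∀ v v' : S, star (v.1 * e) * (v'.1 * e) = if v = v' then e else 0) ∧
        ∀ y ∈ R, (∑ v : S, v.1 * e * star (v.1 * e) + star w * w) * (y * e) = y * e := by
      intro e heR he hpe hce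
      have hee := he.isIdempotentElem.eq
      have hes := he.isSelfAdjoint.star_eq
      have hep := mul_comm_proj hp he hpe
      refine ⟨fun v => ⟨mul_mem (hS.1 v.1 v.2).1 heR, ?_⟩, fun v v' => ?_, fun y hy => ?_⟩
      · rw [← mul_assoc, hz.2.2 _ (hS.1 v.1 v.2).1, mul_assoc, ← hce, ← mul_assoc z, hzc]
      · rw [star_mul, hes, mul_assoc, ← mul_assoc (star v.1)]
        split_ifs with h
        · rw [h, (hS.1 v'.1 v'.2).2, hpe, hee]
        · rw [hS.2 v.1 v.2 v'.1 v'.2 fun h' => h (Subtype.ext h'), zero_mul, mul_zero]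
      · have h1 : ∀ v : S, v.1 * e * star (v.1 * e) * (y * e) = v.1 * star v.1 * (y * e) := by
          intro v
          have h2 := ab_comm hab heR (mul_mem (mul_mem (star_mem (hS.1 v.1 v.2).1) hy) heR) hpe hep
            (by rw [← mul_assoc, ← mul_assoc, star_left hp (hvp v.1 v.2)])
            (by rw [mul_assoc, hep])
          rw [mul_assoc _ e e, hee] at h2
          rw [star_mul, hes, ← mul_assoc (v.1 * e), mul_assoc v.1 e e, hee]
          calc v.1 * e * star v.1 * (y * e) = v.1 * (e * (star v.1 * y * e)) := by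
                simp only [mul_assoc]
            _ = _ := by rw [h2]; simp only [mul_assoc]
        have h3 : c * (y * e) = y * e := by rw [← mul_assoc, hc.2.2 y hy, mul_assoc, hce]
        have h4 : E ∈ R := by
          rw [hEsum]
          exact sum_mem fun v _ => mul_mem (hS.1 v.1 v.2).1 (star_mem (hS.1 v.1 v.2).1)
        rw [add_mul, sum_mul, sum_congr rfl fun v _ => h1 v, ← sum_mul, ← hEsum, hww,
          hc.2.2 _ (sub_mem (one_mem R) h4), mul_assoc, h3, sub_mul, one_mul, add_sub_cancel]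
    by_cases hw0 : w = 0
    · obtain ⟨k1, k2, k3⟩ := key (c * p) (mul_mem hc.2.1 hpR) hcp
        (by rw [hc.2.2 p hpR, ← mul_assoc, hp.isIdempotentElem.eq]) (by rw [← mul_assoc, hcc])
      refine typeI_fin hp hab hcp hcp0
        (by rw [hc.2.2 p hpR, ← mul_assoc, hp.isIdempotentElem.eq]) k1 k2 fun y hy => ?_
      have := k3 y hy
      rwa [hw0, mul_zero, add_zero] at this
    · have hpe : p * (w * star w) = w * star w := by rw [← mul_assoc, hpw]
      obtain ⟨k1, k2, k3⟩ := key (w * star w) (mul_mem hwR hwsR) hw'p hpe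
        (by rw [← mul_assoc, hcw])
      refine typeI_fin (κ := Option S)
        (u := fun i => i.elim (star w) fun v => v.1 * (w * star w)) hp hab hw'p
        (fun h0 => hw0 (by rw [← hwpi, h0, zero_mul])) hpe ?_ ?_ fun y hy => ?_
      · rintro (_ | v)
        · exact ⟨hwsR, by
            show z * star w = star w
            rw [← hcws, ← mul_assoc, hzc]⟩
        · exact k1 v
      · rintro (_ | v) (_ | v')
        · show star (star w) * star w = _
          rw [star_star, if_pos rfl]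
        · show star (star w) * (v'.1 * (w * star w)) = _
          rw [star_star, ← mul_assoc, hwv v'.1 v'.2, zero_mul, if_neg (by simp)]
        · show star (v.1 * (w * star w)) * star w = _
          rw [star_mul, mul_assoc, hvw v.1 v.2, mul_zero, if_neg (by simp)]
        · show star (v.1 * (w * star w)) * (v'.1 * (w * star w)) = _
          simp only [k2, Option.some.injEq]
      · have := k3 y hy
        rw [Fintype.sum_option, add_comm]
        simpa only [Option.elim_none, Option.elim_some, star_star] using this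
  · left
    have : Infinite S := hinf.to_subtype
    obtain ⟨φ⟩ := exists_inj S
    have main : ∀ ψ : Option S → S, Function.Injective ψ → ∃ s ∈ R, star s * s = c ∧
        (∀ η, (∀ i, star (ψ i).1 η = 0) → star s η = 0) ∧
        ∀ y : Op H, (∀ i, y * (ψ i).1 = 0) → y * s = 0 := by
      intro ψ hψ
      have hcv : ∀ v v' : S, star (c * v.1) * (c * v'.1) = c * (star v.1 * v'.1) := by
        intro v v'
        rw [star_mul, hcs, mul_assoc, ← mul_assoc c c, hcc, ← mul_assoc,
          ← hc.2.2 _ (star_mem (hS.1 v.1 v.2).1), mul_assoc]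
      refine exists_isom (p := p) (W := fun i : Option S => i.elim (star w) fun v => c * v.1)
        ?_ ?_ ?_ ?_ (fun i => hS.1 _ (ψ i).2)
        (fun i j hij => hS.2 _ (ψ i).2 _ (ψ j).2 fun h => hij (hψ (Subtype.ext h)))
        fun η hη => ?_
      · rintro (_ | v)
        · exact ⟨hwsR, hcws⟩
        · exact ⟨mul_mem hc.2.1 (hS.1 v.1 v.2).1, by
            show c * (c * v.1) = c * v.1
            rw [← mul_assoc, hcc]⟩
      · rintro (_ | v)
        · show IsStarProjection (star (star w) * star w)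
          rwa [star_star]
        · show IsStarProjection (star (c * v.1) * (c * v.1))
          rwa [hcv, (hS.1 v.1 v.2).2]
      · rintro (_ | v)
        · show p * star (star w) = star (star w)
          rw [star_star, hpw]
        · show p * star (c * v.1) = star (c * v.1)
          exact star_left hp (by rw [mul_assoc, hvp v.1 v.2])
      · rintro (_ | v) (_ | v') hne
        · exact absurd rfl hne
        · show star (star w) * (c * v'.1) = 0
          rw [star_star, ← mul_assoc, ← hc.2.2 w hwR, hcw, hwv v'.1 v'.2]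
        · show star (c * v.1) * star w = 0
          rw [star_mul, hcs, mul_assoc, hcws, hvw v.1 v.2]
        · show star (c * v.1) * (c * v'.1) = 0
          rw [hcv, hS.2 v.1 v.2 v'.1 v'.2 fun h => hne (congrArg some (Subtype.ext h)), mul_zero]
      · have h1 : E (c η) = 0 := hE0 _ fun v hv => by
          have h2 : star (c * v) η = 0 := hη (some ⟨v, hv⟩)
          rwa [star_mul, hcs, mulA] at h2
        have h2 : star (star w) η = 0 := hη none
        rw [star_star] at h2
        have h3 : (star w * w) (c η) = 0 := by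
          rw [mulA, ← mulA w c, ← hc.2.2 w hwR, hcw, h2, map_zero]
        rwa [hww, mulA, subA, oneA, h1, sub_zero, ← mulA, hcc] at h3
    obtain ⟨s₁, hs₁R, h11, h12, -⟩ := main (fun i => φ (Sum.inl i))
      (φ.injective.comp Sum.inl_injective)
    obtain ⟨s₂, hs₂R, h21, -, h23⟩ := main (fun i => φ (Sum.inr i))
      (φ.injective.comp Sum.inr_injective)
    refine ⟨c, hc, fun h0 => hcp0 (by rw [h0, zero_mul]), hzc, s₁, hs₁R, s₂, hs₂R, h11, h21,
      h23 _ fun j => ?_⟩
    ext ζ
    refine h12 _ fun i => ?_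
    show (star (φ (Sum.inl i)).1 * (φ (Sum.inr j)).1) ζ = 0
    rw [hS.2 _ (φ _).2 _ (φ _).2 fun h => Sum.inl_ne_inr (φ.injective (Subtype.ext h)), zeroA]

end Pool.Agent.Kad
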