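import Pool.Agent.Lib.MP_22c5db_an.CaseC
import Pool.Agent.Lib.MP_22c5db_an.Inner
import Pool.Agent.Lib.MP_22c5db_an.VN2

import Pool.Agent.Lib.MP_22c5db_an.Auto

/-! Assembly. -/

open scoped InnerProductSpace ComplexConjugate
open Finset

noncomputable section

namespace Pool.Agent.Kad

universe u

variable {H : Type u} [NormedAddCommGroup H] [InnerProductSpace ℂ H] [CompleteSpace H]

theorem inner_of_der {R : VonNeumannAlgebra H} {δ : Op H →ₗ[ℂ] Op H} (hd : Der R δ) :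
    ∃ T : Op H, ∀ a ∈ R, δ a = T * a - a * T := by
  obtain ⟨c, hc, hb⟩ := auto hd
  refine inner_of_cb hd (C := 1000 * c + 9 * c) (by positivity) fun ι _ a ha h1 => ?_
  refine glue hd hb hc ha h1 (by positivity) fun z hz hz0 => ?_
  by_cases hA : ∃ c', Cen R c' ∧ c' ≠ 0 ∧ z * c' = c' ∧ PI R c'
  · obtain ⟨c', h₁, h₂, h₃, h₄⟩ := hA
    exact ⟨c', h₁, h₂, h₃, caseA hd hb hc ha h1 h₁ h₄⟩
  by_cases hB : ∃ p ∈ R, IsStarProjection p ∧ p ≠ 0 ∧ z * p = p ∧ Ab R p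
  · obtain ⟨p, hpR, hp, hp0, hzp, hab⟩ := hB
    rcases typeI hz hp hpR hp0 hzp hab with h | ⟨k, e, P, hP, hP0, hzP, he, heR, hab'⟩
    · exact absurd h hA
    · obtain ⟨z', h₁, h₂, h₃, h₄⟩ := caseB hd hb hc ha h1 hP hP0 he heR hab'
      exact ⟨z', h₁, h₂, by rw [← h₃, ← mul_assoc, hzP], h₄⟩
  · refine ⟨z, hz, hz0, hz.1.isIdempotentElem, caseC hd hb hc ha h1 hz
      (fun c' h₁ h₂ h₃ h₄ => hA ⟨c', h₁, h₂, h₃, h₄⟩) fun K hK => halving hz.1 hz.2.1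
      (fun p hpR hp hp0 hzp hab => hB ⟨p, hpR, hp, hp0, hzp, hab⟩) hK⟩

end Pool.Agent.Kad
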