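import Pool.Agent.Lib.MP_22c5db_an.RM2

-- part Pool.Agent.Lib.MP_22c5db_an.RM3
section

/-! The main integration by parts. -/

open scoped InnerProductSpace ComplexConjugate
open Finset

noncomputable section

namespace Pool.Agent.Kad

universe u

variable {H : Type u} [NormedAddCommGroup H] [InnerProductSpace ℂ H] [CompleteSpace H]

variable {ι : Type} [Fintype ι] [DecidableEq ι] {E : ι → ι → Op H}

set_option linter.unusedSectionVars false

namespace RM

variable {y : Op H} {M : ℕ} {δ : ℝ}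

theorem norm_dw {X u : Op H} {β : ℝ} (hy : y ∈ unitary (Op H)) (hu : u ∈ unitary (Op H))
    (hX : ‖X‖ ≤ β) (m : ℕ) : ‖dw y X u m‖ ≤ m * β := by
  have hβ := (norm_nonneg _).trans hX
  induction m with
  | zero => simp [dw]
  | succ m ih =>
    have h1 : ‖(y * u) ^ m * (X * u)‖ ≤ 1 * (β * 1) := (norm_mul_le _ _).trans
      (mul_le_mul (unit_le (pow_mem (mul_mem hy hu) m)) ((norm_mul_le _ _).trans
        (mul_le_mul hX (unit_le hu) (norm_nonneg _) hβ)) (norm_nonneg _) zero_le_one)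
    have h2 : ‖dw y X u m * (y * u)‖ ≤ m * β * 1 := (norm_mul_le _ _).trans
      (mul_le_mul ih (unit_le (mul_mem hy hu)) (norm_nonneg _) (by positivity))
    rw [dw]
    refine (norm_add_le _ _).trans ((add_le_add h1 h2).trans (le_of_eq ?_))
    push_cast
    ring

theorem cont_dw (h : MU E 1) (y X : Op H) (m : ℕ) :
    Continuous fun v : U ι => dw y X (rho E v) m := (dif_dw h y X m).choose_spec.1.contU

theorem good_one : Good M fun _ : Matrix ι ι ℂ => (1 : Op H) :=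
  (Good.const (unit_le (one_mem _))).mono (Nat.cast_nonneg M)

theorem Sm.dw (h : MU E 1) (hS : Sm E M δ) (hy : y ∈ unitary (Op H)) {X₀ : Op H}
    (hX : ‖X₀‖ ≤ 1) {β : ℝ} (hβ : 0 ≤ β) (ξ : H) (j : ℕ) : ∀ l : List (Op H),
    j + l.length ≤ M → (∀ B ∈ l, ‖B‖ ≤ 1) →
    Ex (fun v : U ι => ‖ce E (dw y ((β : ℂ) • X₀) (rho E v) j * wd E l v) ξ‖) ≤
      j * β * (δ * ‖ξ‖) := by
  induction j with
  | zero => intro l _ _; simp [Kad.dw, ce, Ex_const]
  | succ j ih =>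
    intro l hl hB
    have hB1 : ∀ B ∈ y :: l, ‖B‖ ≤ 1 := fun B hB' => by
      rcases List.mem_cons.1 hB' with rfl | hB'
      · exact unit_le hy
      · exact hB B hB'
    have hB2 : ∀ B ∈ List.replicate j y ++ X₀ :: l, ‖B‖ ≤ 1 := fun B hB' => by
      rcases List.mem_append.1 hB' with hB' | hB'
      · rw [List.eq_of_mem_replicate hB']; exact unit_le hy
      · rcases List.mem_cons.1 hB' with rfl | hB'
        · exact hX
        · exact hB B hB'
    have k1 := ih (y :: l) (by simp only [List.length_cons]; omega) hB1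
    have k2 := hS (List.replicate j y ++ X₀ :: l) (by simp) (by simp; omega) hB2 _ good_one ξ
    have c1 := cont_ce (E := E) ((cont_dw h y ((β : ℂ) • X₀) j).fun_mul (good_wd h _ hB1).cont)
      (continuous_const (y := (1 : Op H))) ξ
    have c2 := cont_ce (E := E) (good_wd h _ hB2).cont (continuous_const (y := (1 : Op H))) ξ
    have c3 := cont_ce (E := E) ((cont_dw h y ((β : ℂ) • X₀) (j + 1)).fun_mul
      (good_wd h _ hB).cont) (continuous_const (y := (1 : Op H))) ξ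
    simp only [one_apply_eq_self] at k2 c1 c2 c3
    refine (Ex_mono c3 ((continuous_const (y := β).fun_mul c2).fun_add c1) fun v => ?_).trans ?_
    · have e : Kad.dw y ((β : ℂ) • X₀) (rho E v) (j + 1) * wd E l v =
          (β : ℂ) • wd E (List.replicate j y ++ X₀ :: l) v +
            Kad.dw y ((β : ℂ) • X₀) (rho E v) j * wd E (y :: l) v := by
        simp only [Kad.dw, wd_append, wd_replicate, wd, add_mul, smul_mul_assoc, mul_smul_comm,
          mul_assoc]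
      rw [e, ce_add, MUL.ce_smul, add_apply, smul_apply]
      refine (norm_add_le _ _).trans (le_of_eq ?_)
      rw [norm_smul, Complex.norm_real, Real.norm_of_nonneg hβ]
    · rw [Ex_add (continuous_const.fun_mul c2) c1, Ex_mul_real]
      refine (add_le_add (mul_le_mul_of_nonneg_left k2 hβ) k1).trans (le_of_eq ?_)
      push_cast
      ring

theorem main [Nonempty ι] (h : MU E 1) (hy : y ∈ unitary (Op H)) (hS : Sm E M δ) {X₀ : Op H}
    (hX : ‖X₀‖ ≤ 1) {β : ℝ} (hβ : 0 ≤ β) {n : ℕ} (hn : n + 1 ≤ M) (ξ η : H) :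
    ‖Ex fun v : U ι => ⟪((y * rho E v) ^ (n + 1)) η, dw y ((β : ℂ) • X₀) (rho E v) (n + 1) ξ⟫_ℂ -
      ∑ c ∈ range (n + 1), ⟪((y * rho E v) ^ (n - c)) η, ce E (star ((y * rho E v) ^ (c + 1)) *
        dw y ((β : ℂ) • X₀) (rho E v) (n + 1)) ξ⟫_ℂ‖ ≤ n * (n + 1) * β * δ * (‖ξ‖ * ‖η‖) := by
  have hD : (0 : ℝ) < Fintype.card ι := Nat.cast_pos.2 Fintype.card_pos
  set X := (β : ℂ) • X₀ with hXd
  have hXβ : ‖X‖ ≤ β := by
    rw [hXd, norm_smul, Complex.norm_real, Real.norm_of_nonneg hβ]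
    exact mul_le_of_le_one_right hβ hX
  have cw : ∀ n, Continuous fun v : U ι => (y * rho E v) ^ n := fun n => (good_pow h hy n).cont
  have c0 : Continuous fun v : U ι =>
      ⟪((y * rho E v) ^ (n + 1)) η, dw y X (rho E v) (n + 1) ξ⟫_ℂ -
      ∑ c ∈ range (n + 1), ⟪((y * rho E v) ^ (n - c)) η, ce E (star ((y * rho E v) ^ (c + 1)) *
        dw y X (rho E v) (n + 1)) ξ⟫_ℂ :=
    (((cw _).clm_apply continuous_const).inner ((cont_dw h y X _).clm_apply continuous_const)).sub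
      (continuous_finsetSum _ fun c _ => ((cw _).clm_apply continuous_const).inner
        (((continuous_ce E).comp ((cw _).star.mul (cont_dw h y X _))).clm_apply continuous_const))
  set g₁ : ℕ → U ι → ℝ := fun c v => ‖η‖ * ((c + 1) * β) *
    ‖ce E ((y * rho E v) ^ (n - c)) ξ‖ with hg₁
  set g₂ : ℕ → U ι → ℝ := fun c v => ‖η‖ * ‖ce E (dw y X (rho E v) (n - c)) ξ‖ with hg₂
  have c1 : ∀ c, Continuous (g₁ c) := fun c =>
    continuous_const.mul (cont_ce (cw _) (continuous_const (y := (1 : Op H))) _)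
  have c2 : ∀ c, Continuous (g₂ c) := fun c =>
    continuous_const.mul (cont_ce (cont_dw h y X _) (continuous_const (y := (1 : Op H))) _)
  obtain ⟨d', hd, hd'⟩ := dif_dw h y X (n + 1)
  have key := sd_right_bound (fun i k => hd.mul (Dif.const (E k i))) (dif_pow E y (n + 1)) ξ η
    (continuous_const (y := (Fintype.card ι : ℂ)).fun_mul c0)
    (continuous_const (y := (Fintype.card ι : ℝ)).fun_mul
      (continuous_finsetSum (range n) fun c _ => (c1 c).fun_add (c2 c))) fun v => ?_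
  · rw [Ex_mul, Ex_mul_real, norm_mul, Complex.norm_natCast,
      Ex_sum _ fun c _ => (c1 c).fun_add (c2 c)] at key
    refine (le_of_mul_le_mul_left key hD).trans ?_
    have h3 : ∀ c ∈ range n, Ex (fun v => g₁ c v + g₂ c v) ≤ (n + 1) * β * δ * (‖ξ‖ * ‖η‖) := by
      intro c hc
      have hc' := mem_range.1 hc
      rw [Ex_add (c1 c) (c2 c), hg₁, hg₂, Ex_mul_real, Ex_mul_real]
      have k1 := hS.pow hy (b := n - c - 1) (by omega) good_one ξ
      have k2 := hS.dw h hy hX hβ ξ (n - c) [] (by simp; omega) (by simp)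
      rw [show n - c - 1 + 1 = n - c by omega] at k1
      simp only [one_apply_eq_self] at k1
      simp only [wd, mul_one, ← hXd] at k2
      rw [Nat.cast_sub hc'.le] at k2
      calc _ ≤ ‖η‖ * ((c + 1) * β) * (δ * ‖ξ‖) + ‖η‖ * ((n - c) * β * (δ * ‖ξ‖)) := by gcongr
        _ = _ := by ring
    refine (sum_le_card_nsmul _ _ _ h3).trans (le_of_eq ?_)
    rw [card_range, nsmul_eq_mul]
    ring
  simp only [hd']
  set ρ := rho E v with hρ
  have hρu : ρ ∈ unitary (Op H) := h.rho_unitary v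
  have hwu : ∀ n, (y * ρ) ^ n ∈ unitary (Op H) := w_unit h hy v
  have e1 : ∑ i, ∑ k, (∑ c ∈ range (n + 1), (dw y X ρ (c + 1) * E i k * (y * ρ) ^ (n - c) +
      (y * ρ) ^ (c + 1) * E i k * dw y X ρ (n - c))) * E k i = (Fintype.card ι : ℂ) •
      (∑ c ∈ range n, (dw y X ρ (c + 1) * ce E ((y * ρ) ^ (n - c)) +
        (y * ρ) ^ (c + 1) * ce E (dw y X ρ (n - c))) + dw y X ρ (n + 1)) := by
    have e2 : ∀ c, ∑ i, ∑ k, (dw y X ρ (c + 1) * E i k * (y * ρ) ^ (n - c) +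
        (y * ρ) ^ (c + 1) * E i k * dw y X ρ (n - c)) * E k i = (Fintype.card ι : ℂ) •
        (dw y X ρ (c + 1) * ce E ((y * ρ) ^ (n - c)) +
          (y * ρ) ^ (c + 1) * ce E (dw y X ρ (n - c))) := by
      intro c
      rw [smul_add, ← mul_smul_comm, ← mul_smul_comm, ← sum_ce, ← sum_ce]
      simp only [add_mul, sum_add_distrib, mul_sum, mul_assoc]
    simp only [sum_mul, sum_comm (s := univ) (t := range (n + 1)), e2]
    rw [← smul_sum, sum_range_succ, Nat.sub_self, pow_zero, h.ce_one, mul_one, dw.eq_1]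
    simp [ce]
  have e3 : ∀ c, ∑ i, ∑ k, ⟪((y * ρ) ^ c * (y * (ρ * E k i)) * (y * ρ) ^ (n - c)) η,
      (dw y X ρ (n + 1) * E k i) ξ⟫_ℂ = (Fintype.card ι : ℂ) *
      ⟪((y * ρ) ^ (n - c)) η, ce E (star ((y * ρ) ^ (c + 1)) * dw y X ρ (n + 1)) ξ⟫_ℂ := by
    intro c
    rw [← inner_smul_right, ← smul_apply, ← sum_ce, sapp, inner_sum]
    refine sum_congr rfl fun i _ => ?_
    rw [sapp, inner_sum]
    refine sum_congr rfl fun k _ => ?_
    simp only [pow_succ, mapp, ← MUL.inner_E h, ← inner_star']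
  simp only [mul_zero, add_zero, h.rho_mul, rho_single, ← hρ, Nat.add_sub_cancel]
  rw [show ∀ T : ι → ι → Op H, ∑ i, ∑ k, ⟪((y * ρ) ^ (n + 1)) η, T i k ξ⟫_ℂ =
    ⟪((y * ρ) ^ (n + 1)) η, (∑ i, ∑ k, T i k) ξ⟫_ℂ from fun T => by simp only [sapp, inner_sum], e1]
  simp only [sapp, sum_inner]
  simp only [sum_comm (s := univ) (t := range (n + 1)), e3]
  rw [← mul_sum _ _ (Fintype.card ι : ℂ), smul_apply, inner_smul_right, add_apply, inner_add_right,
    show ∀ D a s r : ℂ, D * (a - s) - (D * (r + a) - D * s) = -(D * r) from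
      fun D a s r => by ring, norm_neg, norm_mul, Complex.norm_natCast, sapp, inner_sum]
  refine mul_le_mul_of_nonneg_left (norm_sum_le_of_le _ fun c _ => ?_) hD.le
  refine (norm_inner_le_norm _ _).trans ((mul_le_mul (app_le (unit_le (hwu _)) _)
    (norm_add_le _ _) (norm_nonneg _) (norm_nonneg _)).trans ?_)
  rw [mul_add]
  simp only [hg₁, hg₂, mul_assoc ‖η‖]
  refine add_le_add (mul_le_mul_of_nonneg_left ?_ (norm_nonneg _))
    (mul_le_mul_of_nonneg_left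
      (app_le (unit_le (hwu (c + 1))) (ce E (dw y X ρ (n - c)) ξ)) (norm_nonneg _))
  exact (dw y X ρ (c + 1)).le_of_opNorm_le
    (by exact_mod_cast norm_dw hy hρu hXβ (c + 1)) (ce E ((y * ρ) ^ (n - c)) ξ)

theorem theta [Nonempty ι] (h : MU E 1) (s : Finset ℕ) (W : ℕ → Op H) (χ : ℕ → H) {d : Op H}
    {C : ℝ} (hC : 0 ≤ C) (hd : ∀ k, ‖d * E k k‖ ≤ C) (ξ : H) :
    ‖∑ c ∈ s, ⟪χ c, ce E (star (W c) * d) ξ⟫_ℂ‖ ≤
      C * ‖ξ‖ * √(∑ c ∈ s, ∑ c' ∈ s, ‖⟪χ c, ce E (star (W c) * W c') (χ c')⟫_ℂ‖) := by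
  have hD : (0 : ℝ) < Fintype.card ι := Nat.cast_pos.2 Fintype.card_pos
  have e : ∀ (x z : Op H) (a b : H), (Fintype.card ι : ℂ) * ⟪a, ce E (star x * z) b⟫_ℂ =
      ∑ i, ∑ k, ⟪x (E k i a), z (E k i b)⟫_ℂ := by
    intro x z a b
    rw [← inner_smul_right, ← smul_apply, ← sum_ce, sapp, inner_sum]
    refine sum_congr rfl fun i _ => ?_
    rw [sapp, inner_sum]
    refine sum_congr rfl fun k _ => ?_
    simp only [mapp, ← MUL.inner_E h, ← inner_star']
  set Θ := ∑ c ∈ s, ∑ c' ∈ s, ‖⟪χ c, ce E (star (W c) * W c') (χ c')⟫_ℂ‖ with hΘ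
  have hΘ0 : 0 ≤ Θ := sum_nonneg fun _ _ => sum_nonneg fun _ _ => norm_nonneg _
  have h1 : ∑ i, ∑ k, ‖∑ c ∈ s, W c (E k i (χ c))‖ ^ 2 ≤ (√(Fintype.card ι) * √Θ) ^ 2 := by
    rw [mul_pow, Real.sq_sqrt hD.le, Real.sq_sqrt hΘ0]
    have h2 : ((∑ i, ∑ k, ‖∑ c ∈ s, W c (E k i (χ c))‖ ^ 2 : ℝ) : ℂ) =
        Fintype.card ι * ∑ c ∈ s, ∑ c' ∈ s, ⟪χ c, ce E (star (W c) * W c') (χ c')⟫_ℂ := by
      simp only [mul_sum, e]
      simp only [← sum_comm (s := univ) (t := s)]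
      simp only [← inner_sum, ← sum_inner, inner_self_eq_norm_sq_to_K]
      simp
    refine (le_abs_self _).trans ?_
    rw [← Real.norm_eq_abs, ← Complex.norm_real, h2, norm_mul, Complex.norm_natCast]
    exact mul_le_mul_of_nonneg_left (norm_sum_le_of_le _ fun _ _ => norm_sum_le _ _) hD.le
  have h3 : ∑ i, ∑ k, ‖d (E k i ξ)‖ ^ 2 ≤ (C * (√(Fintype.card ι) * ‖ξ‖)) ^ 2 := by
    rw [mul_pow, sq_card, ← MUL.sum_sum_sq h, sum_comm, mul_sum]
    refine sum_le_sum fun k _ => ?_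
    rw [mul_sum]
    refine sum_le_sum fun i _ => ?_
    have : d (E k i ξ) = (d * E k k) (E k i ξ) := by rw [mapp, MUL.app h, if_pos rfl]
    rw [this, ← mul_pow]
    gcongr
    exact ContinuousLinearMap.le_of_opNorm_le _ (hd k) _
  have h4 := inner2 (by positivity) (by positivity) h1 h3
  simp only [sum_inner, sum_comm (s := univ) (t := s), ← e, ← mul_sum, norm_mul,
    Complex.norm_natCast] at h4
  refine le_of_mul_le_mul_left (h4.trans (le_of_eq ?_)) hD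
  have := Real.mul_self_sqrt hD.le
  calc _ = (√(Fintype.card ι) * √(Fintype.card ι)) * (C * ‖ξ‖ * √Θ) := by ring
    _ = _ := by rw [this]

end RM

end Pool.Agent.Kad
end
end

-- part Pool.Agent.Lib.MP_22c5db_an.RM
section

/-! The random matrix estimate. -/

open scoped InnerProductSpace ComplexConjugate
open Finset

noncomputable section

namespace Pool.Agent.Kad

universe u

set_option linter.unusedSectionVars false

namespace RM

variable {H : Type u} [NormedAddCommGroup H] [InnerProductSpace ℂ H] [CompleteSpace H]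
  {A B : Type} [Fintype A] [Fintype B] [DecidableEq A] [DecidableEq B]
  {E : A × B → A × B → Op H} {y : Op H} {M : ℕ} {δ : ℝ}

theorem ce_FA [Nonempty B] (h : MU E 1) (γ γ' : A) :
    ce E (FA E γ γ') = (if γ = γ' then (Fintype.card A : ℂ)⁻¹ else 0) • 1 := by
  have hB : (Fintype.card B : ℂ) ≠ 0 := Nat.cast_ne_zero.2 Fintype.card_ne_zero
  rw [FA, ce_sum]
  simp only [h.ce_E, Prod.mk.injEq, and_true]
  split_ifs
  · rw [sum_const, card_univ, ← Nat.cast_smul_eq_nsmul ℂ, smul_smul, Fintype.card_prod]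
    congr 1
    push_cast
    rw [mul_inv, mul_left_comm, mul_inv_cancel₀ hB, mul_one]
  · simp

theorem nu [Nonempty A] [Nonempty B] (h : MU E 1) (hy : y ∈ unitary (Op H)) (hS : Sm E M δ)
    (hδ : 0 ≤ δ) (hc : ∀ α γ, y * FA E α γ = FA E α γ * y) {b : ℕ} (hb : b + 1 ≤ M) (η : H) :
    Ex (fun v : U (A × B) => ‖ce (FA E) ((y * rho E v) ^ (b + 1)) η‖ ^ 2) ≤
      ((Fintype.card A : ℝ)⁻¹ ^ 2 + 2 * Fintype.card A * M * δ) * ‖η‖ ^ 2 := by
  have ha : (0 : ℝ) < Fintype.card A := Nat.cast_pos.2 Fintype.card_pos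
  have hF := h.fa
  set t : A → A → A → U (A × B) → ℂ := fun α γ γ' v => ⟪((y * rho E v) ^ (b + 1)) (FA E γ α η),
    FA E γ γ' (((y * rho E v) ^ (b + 1)) (FA E γ' α η))⟫_ℂ with ht
  have ct : ∀ α γ γ', Continuous (t α γ γ') := fun α γ γ' =>
    ((good_pow h hy _).cont.clm_apply continuous_const).inner
      ((FA E γ γ').continuous.comp ((good_pow h hy _).cont.clm_apply continuous_const))
  have e1 : ∀ v : U (A × B), ((‖ce (FA E) ((y * rho E v) ^ (b + 1)) η‖ ^ 2 : ℝ) : ℂ) =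
      (Fintype.card A : ℂ)⁻¹ ^ 2 * ∑ α, ∑ γ, ∑ γ', t α γ γ' v := by
    intro v
    have e2 : ∀ ζ : H, ((‖ζ‖ ^ 2 : ℝ) : ℂ) = ⟪ζ, ζ⟫_ℂ := fun ζ => by
      rw [inner_self_eq_norm_sq_to_K]; simp
    rw [e2, ce, smul_apply, inner_smul_left, inner_smul_right, map_inv₀, map_natCast, ← mul_assoc,
      ← pow_two]
    congr 1
    simp only [sapp, sum_inner, inner_sum, mapp]
    rw [← sum4]
    refine sum_congr rfl fun α _ => sum_congr rfl fun γ _ => ?_
    simp only [MUL.inner_E hF α γ, MUL.app hF, apply_ite (inner ℂ _), inner_zero_right]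
    rw [sum_comm]
    simp [ht]
  have e3 : ∀ α γ γ', ‖Ex (t α γ γ')‖ ≤ (if γ = γ' then (Fintype.card A : ℝ)⁻¹ * ‖FA E γ α η‖ ^ 2
      else 0) + 2 * M * δ * ‖η‖ ^ 2 := by
    intro α γ γ'
    have k := conj_pow h hy hS (hF.norm_le γ γ') (hc γ γ') (fun x => by
      rw [hF.adj]
      simp only [FA, sum_mul, mul_sum, ce_sum, MUL.ce_left h, MUL.ce_right h])
      (ce_FA h γ γ') hb (FA E γ' α η) (FA E γ α η)
    refine (norm_le_norm_add_norm_sub' _ _).trans (add_le_add ?_ (k.trans ?_))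
    · split_ifs with hγ
      · rw [hγ, norm_mul, norm_inv, Complex.norm_natCast, inner_self_eq_norm_sq_to_K]
        simp
      · simp
    · have hb' : (b : ℝ) ≤ M := by exact_mod_cast (by omega : b ≤ M)
      rw [pow_two]
      gcongr
      · exact app_le (hF.norm_le _ _) _
      · exact app_le (hF.norm_le _ _) _
  refine (le_abs_self _).trans ?_
  rw [← Real.norm_eq_abs, ← Complex.norm_real, ← Ex_ofReal]
  simp only [e1]
  rw [Ex_mul, Ex_sum _ fun α _ => continuous_finsetSum _ fun γ _ =>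
    continuous_finsetSum _ fun γ' _ => ct α γ γ']
  simp only [Ex_sum _ fun γ _ => continuous_finsetSum _ fun γ' _ => ct _ γ γ',
    Ex_sum _ fun γ' _ => ct _ _ γ']
  rw [norm_mul, norm_pow, norm_inv, Complex.norm_natCast]
  refine (mul_le_mul_of_nonneg_left (norm_sum_le_of_le _ fun α _ => norm_sum_le_of_le _
    fun γ _ => norm_sum_le_of_le _ fun γ' _ => e3 α γ γ') (by positivity)).trans (le_of_eq ?_)
  simp only [sum_add_distrib, sum_ite_eq, mem_univ, if_true, sum_const, card_univ, nsmul_eq_mul,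
    ← mul_sum]
  rw [sum_comm, MUL.sum_sum_sq hF]
  field_simp

theorem theta_le [Nonempty A] [Nonempty B] (h : MU E 1) (hy : y ∈ unitary (Op H)) (hS : Sm E M δ)
    (hδ : 0 ≤ δ) (hc : ∀ α γ, y * FA E α γ = FA E α γ * y) {n : ℕ} (hn : n + 1 ≤ M)
    (hM : M ≤ Fintype.card A ^ 2) (hδ' : (2 * Fintype.card A + 1) * M ^ 2 * δ ≤ 2) (η : H) :
    ∑ c ∈ range (n + 1), ∑ c' ∈ range (n + 1), Ex (fun v : U (A × B) =>
      ‖⟪ce (FA E) ((y * rho E v) ^ (n - c)) η, ce E (star ((y * rho E v) ^ (c + 1)) *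
        (y * rho E v) ^ (c' + 1)) (ce (FA E) ((y * rho E v) ^ (n - c')) η)⟫_ℂ‖) ≤
      (2 * ‖η‖) ^ 2 := by
  have ha : (0 : ℝ) < Fintype.card A := Nat.cast_pos.2 Fintype.card_pos
  have hF := h.fa
  have gν : ∀ b : ℕ, Good b fun v => ce (FA E) ((y * rho E v) ^ b) := fun b =>
    (good_pow h hy b).ce hF
  have cw : ∀ n, Continuous fun v : U (A × B) => (y * rho E v) ^ n :=
    fun n => (good_pow h hy n).cont
  set t : ℕ → ℕ → U (A × B) → ℝ := fun c c' v =>
    ‖⟪ce (FA E) ((y * rho E v) ^ (n - c)) η, ce E (star ((y * rho E v) ^ (c + 1)) *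
        (y * rho E v) ^ (c' + 1)) (ce (FA E) ((y * rho E v) ^ (n - c')) η)⟫_ℂ‖ with ht
  have ct : ∀ c c', Continuous (t c c') := fun c c' =>
    (((gν _).cont.clm_apply continuous_const).inner (((continuous_ce E).comp
      ((cw _).star.mul (cw _))).clm_apply ((gν _).cont.clm_apply continuous_const))).norm
  have hsymm : ∀ c c', t c c' = t c' c := fun c c' => funext fun v => by
    simp only [ht]
    rw [inner_star, ← h.ce_star, star_mul, star_star, norm_inner_symm]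
  have hlt : ∀ c c', c < c' → c' ≤ n → Ex (t c c') ≤ δ * ‖η‖ ^ 2 := by
    intro c c' h1 h2
    obtain ⟨b, rfl⟩ := Nat.exists_eq_add_of_lt h1
    have k := hS.pow hy (b := b) (by omega) ((gν (n - (c + b + 1))).mono
      (by exact_mod_cast (by omega : n - (c + b + 1) ≤ M))) η
    refine (Ex_mono (ct _ _) (continuous_const (y := ‖η‖).fun_mul
      (cont_ce (E := E) (cw (b + 1)) (gν (n - (c + b + 1))).cont η)) fun v => ?_).trans ?_
    · simp only [ht]
      rw [show c + b + 1 + 1 = (c + 1) + (b + 1) by ring, pow_add _ (c + 1), ← mul_assoc,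
        (w_unit h hy v _).1, one_mul]
      exact (norm_inner_le_norm _ _).trans (mul_le_mul_of_nonneg_right
        (app_le ((gν _).norm_le v) η) (norm_nonneg _))
    · rw [Ex_mul_real]
      calc _ ≤ ‖η‖ * (δ * ‖η‖) := by gcongr
        _ = _ := by ring
  have hdiag : ∀ c, t c c = fun v : U (A × B) => ‖ce (FA E) ((y * rho E v) ^ (n - c)) η‖ ^ 2 :=
    fun c => funext fun v => by
      simp only [ht]
      rw [(w_unit h hy v _).1, h.ce_one, one_apply_eq_self, inner_self_eq_norm_sq_to_K]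
      simp
  have h1 : ∀ c ∈ range (n + 1), ∑ c' ∈ range (n + 1), Ex (t c c') ≤
      Ex (t c c) + M * (δ * ‖η‖ ^ 2) := by
    intro c hc
    rw [← add_sum_erase _ _ hc]
    refine add_le_add le_rfl ((sum_le_card_nsmul _ _ (δ * ‖η‖ ^ 2) fun c' hc' => ?_).trans ?_)
    · obtain ⟨k1, k2⟩ := mem_erase.1 hc'
      have k3 := mem_range.1 k2
      have k4 := mem_range.1 hc
      rcases lt_or_gt_of_ne k1 with k | k
      · rw [hsymm]; exact hlt _ _ k (by omega)
      · exact hlt _ _ k (by omega)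
    · rw [nsmul_eq_mul]
      gcongr
      exact (card_erase_le.trans (card_range _).le).trans hn
  have h2 : ∀ c ∈ range n, Ex (t c c) ≤
      ((Fintype.card A : ℝ)⁻¹ ^ 2 + 2 * Fintype.card A * M * δ) * ‖η‖ ^ 2 := by
    intro c hc
    have k4 := mem_range.1 hc
    rw [hdiag, show n - c = n - c - 1 + 1 by omega]
    exact nu h hy hS hδ ‹_› (by omega) η
  have h3 : Ex (t n n) ≤ ‖η‖ ^ 2 := by
    rw [hdiag, Nat.sub_self]
    simp [hF.ce_one, Ex_const]
  refine (sum_le_sum h1).trans ?_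
  rw [sum_add_distrib, sum_range_succ, sum_const, card_range, nsmul_eq_mul]
  have h4 := sum_le_card_nsmul _ _ _ h2
  rw [card_range, nsmul_eq_mul] at h4
  have hn' : ((n + 1 : ℕ) : ℝ) ≤ M := by exact_mod_cast hn
  have hn'' : (n : ℝ) ≤ M := by exact_mod_cast (by omega : n ≤ M)
  have h5 : (M : ℝ) * (Fintype.card A : ℝ)⁻¹ ^ 2 ≤ 1 := by
    rw [inv_pow, ← div_eq_mul_inv, div_le_one (by positivity)]
    exact_mod_cast hM
  calc _ ≤ M * (((Fintype.card A : ℝ)⁻¹ ^ 2 + 2 * Fintype.card A * M * δ) * ‖η‖ ^ 2) + ‖η‖ ^ 2 +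
        M * (M * (δ * ‖η‖ ^ 2)) :=
        add_le_add (add_le_add (h4.trans (by gcongr)) h3) (by gcongr)
    _ = (M * (Fintype.card A : ℝ)⁻¹ ^ 2 + 1 + (2 * Fintype.card A + 1) * M ^ 2 * δ) * ‖η‖ ^ 2 := by
        ring
    _ ≤ (1 + 1 + 2) * ‖η‖ ^ 2 := by gcongr
    _ = _ := by ring

theorem final [Nonempty A] [Nonempty B] (h : MU E 1) (hy : y ∈ unitary (Op H)) (hS : Sm E M δ)
    (hδ : 0 ≤ δ) (hc : ∀ α γ, y * FA E α γ = FA E α γ * y) {n : ℕ} (hn : n + 1 ≤ M)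
    (hM : M ≤ Fintype.card A ^ 2) (hδ' : (2 * Fintype.card A + 1) * M ^ 2 * δ ≤ 2) {X₀ : Op H}
    (hX : ‖X₀‖ ≤ 1) {β : ℝ} (hβ : 0 ≤ β) {C : ℝ} (hC : 0 ≤ C)
    (hd : ∀ (v : U (A × B)) k, ‖dw y ((β : ℂ) • X₀) (rho E v) (n + 1) * E k k‖ ≤ C) (ξ η : H) :
    ‖(Fintype.card A : ℂ)⁻¹ * ∑ α, ∑ γ, Ex fun v : U (A × B) =>
      ⟪((y * rho E v) ^ (n + 1)) (FA E γ α η),
        dw y ((β : ℂ) • X₀) (rho E v) (n + 1) (FA E γ α ξ)⟫_ℂ‖ ≤
      (2 * C + M ^ 2 * β * δ) * ‖ξ‖ * ‖η‖ := by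
  have ha : (0 : ℝ) < Fintype.card A := Nat.cast_pos.2 Fintype.card_pos
  have hF := h.fa
  set X := (β : ℂ) • X₀ with hXd
  have cw : ∀ n, Continuous fun v : U (A × B) => (y * rho E v) ^ n :=
    fun n => (good_pow h hy n).cont
  have gν : ∀ b : ℕ, Good b fun v => ce (FA E) ((y * rho E v) ^ b) := fun b =>
    (good_pow h hy b).ce hF
  set T : A → A → U (A × B) → ℂ := fun α γ v => ⟪((y * rho E v) ^ (n + 1)) (FA E γ α η),
    dw y X (rho E v) (n + 1) (FA E γ α ξ)⟫_ℂ with hT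
  set S : A → A → U (A × B) → ℂ := fun α γ v => ∑ c ∈ range (n + 1),
    ⟪((y * rho E v) ^ (n - c)) (FA E γ α η), ce E (star ((y * rho E v) ^ (c + 1)) *
      dw y X (rho E v) (n + 1)) (FA E γ α ξ)⟫_ℂ with hSd
  have cT : ∀ α γ, Continuous (T α γ) := fun α γ =>
    ((cw _).clm_apply continuous_const).inner ((cont_dw h y X _).clm_apply continuous_const)
  have cS : ∀ α γ, Continuous (S α γ) := fun α γ =>
    continuous_finsetSum _ fun c _ => ((cw _).clm_apply continuous_const).inner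
      (((continuous_ce E).comp ((cw _).star.mul (cont_dw h y X _))).clm_apply continuous_const)
  have h1 : ∀ α γ, ‖Ex (T α γ) - Ex (S α γ)‖ ≤ M ^ 2 * β * δ * (‖FA E γ α ξ‖ * ‖FA E γ α η‖) := by
    intro α γ
    rw [← Ex_sub (cT α γ) (cS α γ)]
    refine (main h hy hS hX hβ hn _ _).trans ?_
    have hn' : (n + 1 : ℝ) ≤ M := by exact_mod_cast hn
    rw [pow_two]
    gcongr
    linarith
  have h2 : ∑ α, ∑ γ, ‖FA E γ α ξ‖ * ‖FA E γ α η‖ ≤ Fintype.card A * (‖ξ‖ * ‖η‖) := by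
    have k : ∀ ζ : H, ∑ α, ∑ γ, ‖FA E γ α ζ‖ ^ 2 ≤ (√(Fintype.card A) * ‖ζ‖) ^ 2 := fun ζ => by
      rw [sq_card, sum_comm, MUL.sum_sum_sq hF]
    refine (cs2 (by positivity) (by positivity) (k ξ) (k η)).trans (le_of_eq ?_)
    rw [mul_mul_mul_comm, Real.mul_self_sqrt ha.le]
  set Θ : U (A × B) → ℝ := fun v => ∑ c ∈ range (n + 1), ∑ c' ∈ range (n + 1),
    ‖⟪ce (FA E) ((y * rho E v) ^ (n - c)) η, ce E (star ((y * rho E v) ^ (c + 1)) *
      (y * rho E v) ^ (c' + 1)) (ce (FA E) ((y * rho E v) ^ (n - c')) η)⟫_ℂ‖ with hΘ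
  have ct : ∀ c c', Continuous fun v : U (A × B) =>
      ‖⟪ce (FA E) ((y * rho E v) ^ (n - c)) η, ce E (star ((y * rho E v) ^ (c + 1)) *
        (y * rho E v) ^ (c' + 1)) (ce (FA E) ((y * rho E v) ^ (n - c')) η)⟫_ℂ‖ := fun c c' =>
    (((gν _).cont.clm_apply continuous_const).inner (((continuous_ce E).comp
      ((cw _).star.mul (cw _))).clm_apply ((gν _).cont.clm_apply continuous_const))).norm
  have cΘ : Continuous Θ :=
    continuous_finsetSum _ fun c _ => continuous_finsetSum _ fun c' _ => ct c c'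
  have h3 : Ex (fun v => √(Θ v)) ≤ 2 * ‖η‖ := by
    refine Ex_le_of_sq cΘ.sqrt (by positivity) ?_
    have k : ∀ v, √(Θ v) ^ 2 = Θ v := fun v =>
      Real.sq_sqrt (sum_nonneg fun _ _ => sum_nonneg fun _ _ => norm_nonneg _)
    simp only [k]
    rw [hΘ, Ex_sum _ fun c _ => continuous_finsetSum _ fun c' _ => ct c c']
    simp only [Ex_sum _ fun c' _ => ct _ c']
    exact theta_le h hy hS hδ hc hn hM hδ' η
  have h4 : ‖(Fintype.card A : ℂ)⁻¹ * ∑ α, ∑ γ, Ex (S α γ)‖ ≤ C * ‖ξ‖ * (2 * ‖η‖) := by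
    simp only [← Ex_sum _ fun γ _ => cS _ γ]
    rw [← Ex_sum _ fun α _ => continuous_finsetSum _ fun γ _ => cS α γ, ← Ex_mul]
    refine (norm_Ex_le (continuous_const (y := C * ‖ξ‖).fun_mul cΘ.sqrt) fun v => ?_).trans ?_
    · refine le_of_eq_of_le ?_ (theta h (range (n + 1)) (fun c => (y * rho E v) ^ (c + 1))
        (fun c => ce (FA E) ((y * rho E v) ^ (n - c)) η) hC (hd v) ξ)
      congr 1
      simp only [hSd, sum_comm (s := univ) (t := range (n + 1)), mul_sum (range (n + 1))]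
      refine sum_congr rfl fun c _ => ?_
      have k : ∀ x γ α, ce E x (FA E γ α ξ) = FA E γ α (ce E x ξ) := fun x γ α => by
        rw [← mapp, ← mapp, FA, mul_sum, sum_mul]
        simp only [h.ce_comm]
      simp only [k, ← MUL.inner_E hF]
      rw [ce.eq_1 (FA E), smul_apply, inner_smul_left, map_inv₀, map_natCast]
      simp only [sapp, sum_inner, mapp]
    · rw [Ex_mul_real]
      gcongr
  have h5 : (Fintype.card A : ℂ)⁻¹ * ∑ α, ∑ γ, Ex (T α γ) =
      (Fintype.card A : ℂ)⁻¹ * ∑ α, ∑ γ, Ex (S α γ) +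
      (Fintype.card A : ℂ)⁻¹ * ∑ α, ∑ γ, (Ex (T α γ) - Ex (S α γ)) := by
    simp only [sum_sub_distrib]
    ring
  rw [h5]
  refine (norm_add_le _ _).trans ((add_le_add h4 ?_).trans (le_of_eq (by ring :
    C * ‖ξ‖ * (2 * ‖η‖) + M ^ 2 * β * δ * (‖ξ‖ * ‖η‖) = _)))
  rw [norm_mul, norm_inv, Complex.norm_natCast, inv_mul_le_iff₀ ha]
  refine (norm_sum_le_of_le _ fun α _ => norm_sum_le_of_le _ fun γ _ => h1 α γ).trans ?_
  simp only [← mul_sum]
  rw [mul_left_comm]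
  gcongr

end RM

theorem rm (a : ℕ) (β ε : ℝ) (hε : 0 < ε) : ∃ D₀ : ℕ, ∀ m ≤ a ^ 2, ∀ {K : Type u}
    [NormedAddCommGroup K] [InnerProductSpace ℂ K] [CompleteSpace K] {A B : Type} [Fintype A]
    [Fintype B] [DecidableEq A] [DecidableEq B] (E : A × B → A × B → Op K), MU E 1 →
    Fintype.card A = a → D₀ ≤ Fintype.card (A × B) → ∀ y ∈ unitary (Op K),
    (∀ α γ, y * FA E α γ = FA E α γ * y) → ∀ X : Op K, ‖X‖ ≤ β → ∀ C : ℝ, 0 ≤ C →
    (∀ (v : U (A × B)) k, ‖dw y X (rho E v) m * E k k‖ ≤ C) → ∀ ξ η : K,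
    ‖(a : ℂ)⁻¹ * ∑ α, ∑ γ, Ex fun v : U (A × B) =>
      ⟪((y * rho E v) ^ m) (FA E γ α η), dw y X (rho E v) m (FA E γ α ξ)⟫_ℂ‖ ≤
      (2 * C + ε) * ‖ξ‖ * ‖η‖ := by
  set M := a ^ 2 with hM
  set b := |β| + 1 with hb
  have hb0 : 0 < b := by positivity
  set δ : ℝ := min (2 / ((2 * a + 1) * M ^ 2 + 1)) (ε / (M ^ 2 * b + 1)) with hδ
  have hδ0 : 0 < δ := by positivity
  have h1 : (2 * a + 1) * M ^ 2 * δ ≤ 2 := by
    have := (le_div_iff₀ (by positivity)).1 (min_le_left _ _ : δ ≤ _)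
    nlinarith
  have h2 : M ^ 2 * b * δ ≤ ε := by
    have := (le_div_iff₀ (by positivity)).1 (min_le_right _ _ : δ ≤ _)
    nlinarith
  refine ⟨⌈(2 ^ M * (4 * M) : ℝ) / δ ^ 2⌉₊ + 1, ?_⟩
  intro m hm K _ _ _ A B _ _ _ _ E h ha hD y hy hc X hX C hC hd ξ η
  have hne : Nonempty (A × B) := Fintype.card_pos_iff.1 (by omega)
  have hA : Nonempty A := hne.map Prod.fst
  have hB : Nonempty B := hne.map Prod.snd
  rcases m with _ | n
  · simp only [dw, zero_apply, inner_zero_right, Ex_const, sum_const_zero, mul_zero, norm_zero]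
    positivity
  have hS : RM.Sm E M δ := by
    refine RM.sm h hδ0.le ?_
    rw [mul_comm (δ ^ 2), ← div_le_iff₀ (by positivity)]
    exact (Nat.le_ceil _).trans (Nat.cast_le.2 (Nat.le_of_succ_le hD))
  obtain ⟨X₀, hX₀, rfl⟩ : ∃ X₀ : Op K, ‖X₀‖ ≤ 1 ∧ X = (b : ℂ) • X₀ := by
    refine ⟨(b : ℂ)⁻¹ • X, ?_, ?_⟩
    · rw [norm_smul, norm_inv, Complex.norm_real, Real.norm_of_nonneg hb0.le, inv_mul_le_iff₀ hb0]
      linarith [le_abs_self β]
    · rw [smul_smul, mul_inv_cancel₀ (by exact_mod_cast hb0.ne'), one_smul]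
  subst ha
  refine (RM.final h hy hS hδ0.le hc hm le_rfl h1 hX₀ hb0.le hC hd ξ η).trans ?_
  gcongr

end Pool.Agent.Kad
end
end

-- part Pool.Agent.Lib.MP_22c5db_an.VN0
section

/-! Basic von Neumann algebra theory: projections. -/

open scoped InnerProductSpace ComplexConjugate
open Finset

noncomputable section

namespace Pool.Agent.Kad

universe u

variable {H : Type u} [NormedAddCommGroup H] [InnerProductSpace ℂ H] [CompleteSpace H]

variable {R : VonNeumannAlgebra H}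

theorem smul_mem' (c : ℂ) {x : Op H} (hx : x ∈ R) : c • x ∈ R := R.toStarSubalgebra.smul_mem hx c

/-- an operator commuting with the commutant is in `R` -/
theorem mem_of_comm {x : Op H} (h : ∀ s ∈ R.commutant, s * x = x * s) : x ∈ R := by
  rw [← R.commutant_commutant, VonNeumannAlgebra.mem_commutant_iff]
  exact h

theorem comm_of_mem {x s : Op H} (hx : x ∈ R) (hs : s ∈ R.commutant) : s * x = x * s :=
  (VonNeumannAlgebra.mem_commutant_iff.1 hs x hx).symm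

theorem isClosed_vn (R : VonNeumannAlgebra H) : IsClosed (R : Set (Op H)) := by
  rw [← R.centralizer_centralizer]
  exact Set.isClosed_centralizer _

theorem Cen.one : Cen R 1 := ⟨.one _, one_mem R, fun x _ => by rw [one_mul, mul_one]⟩
theorem Cen.zero : Cen R 0 := ⟨.zero _, zero_mem R, fun x _ => by rw [zero_mul, mul_zero]⟩
theorem Cen.mul {c z : Op H} (hc : Cen R c) (hz : Cen R z) : Cen R (c * z) :=
  ⟨hc.1.mul hz.1 (hc.2.2 z hz.2.1), mul_mem hc.2.1 hz.2.1, fun x hx => by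
    rw [mul_assoc, hz.2.2 x hx, ← mul_assoc, hc.2.2 x hx, mul_assoc]⟩
theorem Cen.one_sub {c : Op H} (hc : Cen R c) : Cen R (1 - c) :=
  ⟨hc.1.one_sub, sub_mem (one_mem R) hc.2.1, fun x hx => by
    rw [sub_mul, mul_sub, hc.2.2 x hx, one_mul, mul_one]⟩

namespace VN0

omit [CompleteSpace H] in
theorem kill {F : Type*} [NormedAddCommGroup F] [NormedSpace ℂ F] {V : Set H} (f : H →L[ℂ] F)
    (h : ∀ ζ ∈ V, f ζ = 0) {ζ : H} (hζ : ζ ∈ (Submodule.span ℂ V).topologicalClosure) :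
    f ζ = 0 := by
  have h1 : Submodule.span ℂ V ≤ f.ker := Submodule.span_le.2 fun ζ hζ => h ζ hζ
  exact Submodule.topologicalClosure_minimal _ h1 f.isClosed_ker hζ

theorem inner_star_left (x : Op H) (ζ η : H) : ⟪star x ζ, η⟫_ℂ = ⟪ζ, x η⟫_ℂ := by
  rw [ContinuousLinearMap.star_eq_adjoint, ContinuousLinearMap.adjoint_inner_left]

theorem inner_star_right (x : Op H) (ζ η : H) : ⟪ζ, star x η⟫_ℂ = ⟪x ζ, η⟫_ℂ := by
  rw [ContinuousLinearMap.star_eq_adjoint, ContinuousLinearMap.adjoint_inner_right]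

theorem re_inner_star_mul (s : Op H) (ζ : H) : (⟪ζ, (star s * s) ζ⟫_ℂ).re = ‖s ζ‖ ^ 2 := by
  rw [mul_apply_eq_comp, inner_star_right, inner_self_eq_norm_sq_to_K]
  norm_cast

theorem norm_proj_le {q : Op H} (hq : IsStarProjection q) (ζ : H) : ‖q ζ‖ ≤ ‖ζ‖ :=
  (q.le_opNorm ζ).trans (mul_le_of_le_one_left (norm_nonneg _) (hq.norm_le q))

theorem proj_proj {q : Op H} (hq : IsStarProjection q) (ζ : H) : q (q ζ) = q ζ := by
  rw [← mul_apply_eq_comp, hq.isIdempotentElem.eq]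

end VN0

open VN0

/-- the projection onto the closed span of a set -/
theorem exists_proj (V : Set H) : ∃ q : Op H, IsStarProjection q ∧ (∀ ζ ∈ V, q ζ = ζ) ∧
    (∀ η, (∀ ζ ∈ V, ⟪ζ, η⟫_ℂ = 0) → q η = 0) ∧
    (∀ ζ, q ζ ∈ (Submodule.span ℂ V).topologicalClosure) ∧
    (∀ x : Op H, (∀ ζ ∈ V, x ζ = 0) → x * q = 0) ∧
    ∀ t : Op H, (∀ ζ ∈ V, q (t ζ) = t ζ) → (∀ ζ ∈ V, q (star t ζ) = star t ζ) →
      t * q = q * t := by
  set W := (Submodule.span ℂ V).topologicalClosure with hW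
  have hq : IsStarProjection W.starProjection := isStarProjection_starProjection
  have h5 : ∀ x : Op H, (∀ ζ ∈ V, x ζ = 0) → x * W.starProjection = 0 := fun x hx =>
    ContinuousLinearMap.ext fun ζ => kill x hx (W.starProjection_apply_mem ζ)
  refine ⟨W.starProjection, hq, fun ζ hζ => ?_, fun η hη => ?_, W.starProjection_apply_mem, h5,
    fun t h1 h2 => ?_⟩
  · exact Submodule.starProjection_eq_self_iff.2
      (Submodule.le_topologicalClosure _ (Submodule.subset_span hζ))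
  · refine Submodule.eq_starProjection_of_mem_of_inner_eq_zero W.zero_mem fun w hw => ?_
    rw [sub_zero]
    exact kill (innerSL ℂ η) (fun ζ hζ => inner_eq_zero_symm.1 (hη ζ hζ)) hw
  · have h3 := h5 ((1 - W.starProjection) * t) fun ζ hζ => by
      simp [h1 ζ hζ]
    have h4 := h5 ((1 - W.starProjection) * star t) fun ζ hζ => by
      simp [h2 ζ hζ]
    have h6 := congrArg star h4
    rw [star_mul, star_mul, star_star, star_sub, star_one, hq.isSelfAdjoint.star_eq,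
      star_zero] at h6
    generalize W.starProjection = q at h3 h6
    rw [sub_mul, sub_mul, one_mul, sub_eq_zero] at h3
    rw [mul_sub, mul_sub, mul_one, sub_eq_zero] at h6
    rw [h3, mul_assoc, ← h6]

/-- range projection -/
theorem exists_rp (x : Op H) : ∃ q : Op H, IsStarProjection q ∧ q * x = x ∧
    (∀ η, star x η = 0 → q η = 0) ∧ (∀ y : Op H, y * x = 0 → y * q = 0) ∧
    ∀ t : Op H, t * x = x * t → star t * x = x * star t → t * q = q * t := by
  obtain ⟨q, hq, h1, h2, -, h4, h5⟩ := exists_proj (Set.range x)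
  have h6 : ∀ t : Op H, t * x = x * t → ∀ ζ ∈ Set.range x, q (t ζ) = t ζ := by
    rintro t ht _ ⟨ζ, rfl⟩
    rw [← mul_apply_eq_comp t, ht]
    exact h1 _ ⟨_, rfl⟩
  refine ⟨q, hq, ContinuousLinearMap.ext fun ζ => h1 _ ⟨ζ, rfl⟩, fun η hη => h2 η ?_,
    fun y hy => h4 y ?_, fun t ht ht' => h5 t (h6 t ht) (h6 _ ht')⟩
  · rintro _ ⟨ζ, rfl⟩
    rw [← inner_star_right, hη, inner_zero_right]
  · rintro _ ⟨ζ, rfl⟩
    rw [← mul_apply_eq_comp, hy, zero_apply]

/-- central support -/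
theorem exists_csupp {p : Op H} (hp : p ∈ R) : ∃ z, Cen R z ∧ z * p = p ∧
    ∀ y : Op H, (∀ x ∈ R, y * x * p = 0) → y * z = 0 := by
  obtain ⟨z, hz, h1, -, -, h4, h5⟩ := exists_proj {η : H | ∃ x ∈ R, ∃ ζ, η = x (p ζ)}
  have h6 : ∀ s ∈ R.commutant, ∀ η ∈ {η : H | ∃ x ∈ R, ∃ ζ, η = x (p ζ)}, z (s η) = s η := by
    rintro s hs _ ⟨x, hx, ζ, rfl⟩
    refine h1 _ ⟨x, hx, s ζ, ?_⟩
    have := congrArg (fun y : Op H => y ζ) (comm_of_mem (mul_mem hx hp) hs)
    simpa only [mul_apply_eq_comp] using this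
  have h7 : ∀ t ∈ R, ∀ η ∈ {η : H | ∃ x ∈ R, ∃ ζ, η = x (p ζ)}, z (t η) = t η := by
    rintro t ht _ ⟨x, hx, ζ, rfl⟩
    exact h1 _ ⟨t * x, mul_mem ht hx, ζ, rfl⟩
  refine ⟨z, ⟨hz, mem_of_comm fun s hs => h5 s (h6 s hs) (h6 _ (star_mem hs)),
    fun t ht => (h5 t (h7 t ht) (h7 _ (star_mem ht))).symm⟩,
    ContinuousLinearMap.ext fun ζ => h1 _ ⟨1, one_mem R, ζ, rfl⟩, fun y hy => h4 y ?_⟩
  rintro _ ⟨x, hx, ζ, rfl⟩
  exact congrArg (fun y : Op H => y ζ) (hy x hx)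

/-- the spectral projection of `(0, ∞)` -/
theorem exists_spec {b : Op H} (hb : IsSelfAdjoint b) : ∃ q : Op H, IsStarProjection q ∧
    (∀ t : Op H, t * b = b * t → t * q = q * t) ∧ (∀ ζ, q ζ = 0 → (⟪ζ, b ζ⟫_ℂ).re ≤ 0) ∧
    ∀ ζ, q ζ = ζ → ζ ≠ 0 → 0 < (⟪ζ, b ζ⟫_ℂ).re := by
  obtain ⟨q, hq, h1, h2, h3, h4⟩ := exists_rp (b⁺)
  have hc : ∀ t : Op H, t * b = b * t → t * b⁺ = b⁺ * t := fun t ht =>
    ((show Commute b t from ht.symm).cfcₙ_real _).symm.eq
  have hsub := CFC.posPart_sub_negPart b hb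
  have hmul := CFC.negPart_mul_posPart b
  obtain ⟨s, hs⟩ := CStarAlgebra.nonneg_iff_eq_star_mul_self.1 (CFC.posPart_nonneg b)
  obtain ⟨r, hr⟩ := CStarAlgebra.nonneg_iff_eq_star_mul_self.1 (CFC.negPart_nonneg b)
  have hst : star (b⁺) = b⁺ := by rw [hs, star_mul, star_star]
  refine ⟨q, hq, fun t ht => h4 t (hc t ht) (hc _ ?_), fun ζ hζ => ?_, fun ζ hζ h0 => ?_⟩
  · have := congrArg star ht
    rw [star_mul, star_mul, hb.star_eq] at this
    exact this.symm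
  · have h5 := congrArg star h1
    rw [star_mul, hst, hq.isSelfAdjoint.star_eq] at h5
    have h6 : b⁺ ζ = 0 := by rw [← h5, mul_apply_eq_comp, hζ, map_zero]
    have h7 : b ζ = -(star r * r) ζ := by
      rw [← hr]
      conv_lhs => rw [← hsub]
      rw [sub_apply, h6, zero_sub]
    rw [h7, inner_neg_right, Complex.neg_re, re_inner_star_mul]
    exact neg_nonpos.2 (sq_nonneg _)
  · have h6 : b⁻ ζ = 0 := by
      rw [← hζ, ← mul_apply_eq_comp, h3 _ hmul, zero_apply]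
    have h7 : b ζ = (star s * s) ζ := by
      rw [← hs]
      conv_lhs => rw [← hsub]
      rw [sub_apply, h6, sub_zero]
    rw [h7, re_inner_star_mul]
    refine pow_pos (norm_pos_iff.2 fun h8 => h0 ?_) 2
    rw [← hζ]
    refine h2 ζ ?_
    rw [hst, hs, mul_apply_eq_comp, h8, map_zero]

namespace VN0

/-- a self adjoint operator has approximate eigenvectors in every invariant subspace -/
theorem not_bdd_below {a q : Op H} (ha : IsSelfAdjoint a) (hq : IsStarProjection q) (hq0 : q ≠ 0)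
    (haq : a * q = q * a) {ε : ℝ} (hε : 0 < ε)
    (h : ∀ (t : ℝ) ζ, q ζ = ζ → ε * ‖ζ‖ ≤ ‖a ζ - (t : ℂ) • ζ‖) : False := by
  set s : ℝ := ‖a * q‖ with hs
  have hs0 : 0 ≤ s := norm_nonneg _
  have hinv : ∀ ζ, q ζ = ζ → q (a ζ) = a ζ := fun ζ hζ => by
    rw [← mul_apply_eq_comp, ← haq, mul_apply_eq_comp, hζ]
  have key : ∀ ζ, q ζ = ζ → s ^ 2 * ‖a ζ‖ ^ 2 ≤ (s ^ 4 - ε ^ 4) * ‖ζ‖ ^ 2 := by
    intro ζ hζ
    have h1 := h (-s) ζ hζ
    have h2 := h s (a ζ - ((-s : ℝ) : ℂ) • ζ) (by rw [map_sub, map_smul, hinv ζ hζ, hζ])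
    have h3 : a (a ζ - ((-s : ℝ) : ℂ) • ζ) - (s : ℂ) • (a ζ - ((-s : ℝ) : ℂ) • ζ) =
        a (a ζ) - ((s ^ 2 : ℝ) : ℂ) • ζ := by
      rw [map_sub, map_smul]
      push_cast
      module
    rw [h3] at h2
    have h4 : ‖a (a ζ)‖ ≤ s * ‖a ζ‖ := by
      have := (a * q).le_opNorm (a ζ)
      rwa [mul_apply_eq_comp, hinv ζ hζ] at this
    have h5 : ‖a (a ζ) - ((s ^ 2 : ℝ) : ℂ) • ζ‖ ^ 2 =
        ‖a (a ζ)‖ ^ 2 - 2 * (s ^ 2 * ‖a ζ‖ ^ 2) + (s ^ 2 * ‖ζ‖) ^ 2 := by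
      rw [@norm_sub_sq ℂ, inner_smul_right, norm_smul, Complex.norm_real,
        Real.norm_of_nonneg (sq_nonneg s)]
      have h6 : ⟪a (a ζ), ζ⟫_ℂ = ((‖a ζ‖ ^ 2 : ℝ) : ℂ) := by
        rw [← inner_star_right, ha.star_eq, inner_self_eq_norm_sq_to_K]; norm_cast
      rw [h6, ← Complex.ofReal_mul, RCLike.re_to_complex, Complex.ofReal_re]
    have h7 : ε * (ε * ‖ζ‖) ≤ ‖a (a ζ) - ((s ^ 2 : ℝ) : ℂ) • ζ‖ :=
      (mul_le_mul_of_nonneg_left h1 hε.le).trans h2
    have h8 := pow_le_pow_left₀ (by positivity) h7 2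
    have h9 := pow_le_pow_left₀ (norm_nonneg _) h4 2
    rw [h5] at h8
    nlinarith
  obtain ⟨ζ0, hζ0⟩ : ∃ ζ, q ζ ≠ 0 := by
    by_contra h1
    push Not at h1
    exact hq0 (ContinuousLinearMap.ext h1)
  have hε4 : 0 < ε ^ 4 := by positivity
  have h1 : 0 ≤ s ^ 4 - ε ^ 4 := by
    have h2 := key _ (proj_proj hq ζ0)
    have h3 : 0 < ‖q ζ0‖ ^ 2 := pow_pos (norm_pos_iff.2 hζ0) 2
    exact nonneg_of_mul_nonneg_left (le_trans (by positivity) h2) h3
  have hs1 : 0 < s := by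
    rcases hs0.eq_or_lt with h2 | h2
    · rw [← h2] at h1; norm_num at h1; linarith
    · exact h2
  have h2 : s ≤ √(s ^ 4 - ε ^ 4) / s := by
    refine ContinuousLinearMap.opNorm_le_bound _ (by positivity) fun ζ => ?_
    rw [mul_apply_eq_comp, div_mul_eq_mul_div, le_div_iff₀ hs1]
    refine (pow_le_pow_iff_left₀ (by positivity) (by positivity) two_ne_zero).1 ?_
    rw [mul_pow, mul_pow, Real.sq_sqrt h1, mul_comm]
    refine (key _ (proj_proj hq ζ)).trans ?_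
    gcongr
    exact norm_proj_le hq ζ
  rw [le_div_iff₀ hs1] at h2
  have h3 := pow_le_pow_left₀ (by positivity) h2 2
  rw [Real.sq_sqrt h1] at h3
  nlinarith

end VN0

/-- local spectral theorem -/
theorem exists_loc {a q : Op H} (ha : IsSelfAdjoint a) (hq : IsStarProjection q) (hq0 : q ≠ 0)
    (haq : a * q = q * a) {ε : ℝ} (hε : 0 < ε) : ∃ (t : ℝ) (q' : Op H), IsStarProjection q' ∧
      q' ≠ 0 ∧ q * q' = q' ∧ (∀ s : Op H, s * a = a * s → s * q = q * s → s * q' = q' * s) ∧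
      ‖(a - (t : ℂ) • 1) * q'‖ ≤ ε := by
  have hst : ∀ t : ℝ, star (a - (t : ℂ) • 1) = a - (t : ℂ) • 1 := fun t => by
    rw [star_sub, ha.star_eq, star_smul, star_one, Complex.star_def, Complex.conj_ofReal]
  have hb : ∀ t : ℝ, IsSelfAdjoint
      (((ε ^ 2 : ℝ) : ℂ) • (1 : Op H) - star (a - (t : ℂ) • 1) * (a - (t : ℂ) • 1)) := fun t => by
    rw [IsSelfAdjoint, star_sub, star_mul, star_star, star_smul, star_one, Complex.star_def,
      Complex.conj_ofReal]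
  have hre : ∀ (t : ℝ) ζ, (⟪ζ, (((ε ^ 2 : ℝ) : ℂ) • (1 : Op H) -
      star (a - (t : ℂ) • 1) * (a - (t : ℂ) • 1)) ζ⟫_ℂ).re =
      (ε * ‖ζ‖) ^ 2 - ‖(a - (t : ℂ) • 1) ζ‖ ^ 2 := fun t ζ => by
    rw [sub_apply, inner_sub_right, Complex.sub_re, re_inner_star_mul,
      smul_apply, inner_smul_right, one_apply_eq_self,
      inner_self_eq_norm_sq_to_K, mul_pow, Complex.re_ofReal_mul]
    norm_cast
  choose Q hQ hQc hQ0 hQ1 using fun t => exists_spec (hb t)
  have hc : ∀ (t : ℝ) (s : Op H), s * a = a * s → s * Q t = Q t * s := fun t s hs => by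
    refine hQc t s ?_
    have h1 : Commute s (a - (t : ℂ) • 1) :=
      (show Commute s a from hs).sub_right ((Commute.one_right s).smul_right _)
    rw [hst]
    exact (((Commute.one_right s).smul_right _).sub_right (h1.mul_right h1)).eq
  obtain ⟨t, ht⟩ : ∃ t, q * Q t ≠ 0 := by
    by_contra h1
    push Not at h1
    refine not_bdd_below ha hq hq0 haq hε fun t ζ hζ => ?_
    have h2 : Q t ζ = 0 := by
      rw [← hζ, ← mul_apply_eq_comp, ← hc t q haq.symm, h1,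
        zero_apply]
    have h3 := hQ0 t ζ h2
    rw [hre, sub_nonpos] at h3
    exact (pow_le_pow_iff_left₀ (by positivity) (norm_nonneg _) two_ne_zero).1 h3
  have hp : IsStarProjection (q * Q t) := hq.mul (hQ t) (hc t q haq.symm)
  refine ⟨t, q * Q t, hp, ht, by rw [← mul_assoc, hq.isIdempotentElem.eq], fun s h1 h2 => by
    rw [← mul_assoc, h2, mul_assoc, hc t s h1, mul_assoc], ?_⟩
  refine ContinuousLinearMap.opNorm_le_bound _ hε.le fun ζ => ?_
  rw [mul_apply_eq_comp]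
  refine le_trans ?_ (mul_le_mul_of_nonneg_left (norm_proj_le hp ζ) hε.le)
  have h1 : Q t ((q * Q t) ζ) = (q * Q t) ζ := by
    rw [hc t q haq.symm, mul_apply_eq_comp, proj_proj (hQ t)]
  generalize (q * Q t) ζ = χ at h1
  by_cases h0 : χ = 0
  · simp [h0]
  have h2 := hQ1 t χ h1 h0
  rw [hre, sub_pos] at h2
  exact (pow_le_pow_iff_left₀ (norm_nonneg _) (by positivity) two_ne_zero).1 h2.le

/-- the meet of two projections -/
theorem exists_meet {p q : Op H} (hp : IsStarProjection p) (hq : IsStarProjection q) (hpR : p ∈ R)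
    (hqR : q ∈ R) : ∃ m ∈ R, IsStarProjection m ∧ ∀ ζ, m ζ = ζ ↔ p ζ = ζ ∧ q ζ = ζ := by
  have _ := hp
  have _ := hq
  obtain ⟨m, hm, h1, -, -, h4, h5⟩ := exists_proj {ζ : H | p ζ = ζ ∧ q ζ = ζ}
  have h6 : ∀ s ∈ R.commutant, ∀ ζ ∈ {ζ : H | p ζ = ζ ∧ q ζ = ζ}, m (s ζ) = s ζ := by
    intro s hs ζ hζ
    refine h1 _ ⟨?_, ?_⟩
    · rw [← mul_apply_eq_comp, ← comm_of_mem hpR hs, mul_apply_eq_comp,
        hζ.1]
    · rw [← mul_apply_eq_comp, ← comm_of_mem hqR hs, mul_apply_eq_comp,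
        hζ.2]
  have h7 : ∀ x : Op H, (∀ ζ, p ζ = ζ ∧ q ζ = ζ → x ζ = ζ) → ∀ ζ, m ζ = ζ → x ζ = ζ := by
    intro x hx ζ hζ
    have h8 := h4 (x - 1) fun ζ hζ => by simp [hx ζ hζ]
    have h9 := congrArg (fun y : Op H => y ζ) h8
    simpa [mul_apply_eq_comp, hζ, sub_eq_zero] using h9
  exact ⟨m, mem_of_comm fun s hs => h5 s (h6 s hs) (h6 _ (star_mem hs)), hm, fun ζ =>
    ⟨fun h => ⟨h7 p (fun _ h => h.1) ζ h, h7 q (fun _ h => h.2) ζ h⟩, h1 ζ⟩⟩

end Pool.Agent.Kad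
end
end

-- part Pool.Agent.Lib.MP_22c5db_an.VN1
section

/-! Basic von Neumann algebra theory: polar decomposition, comparison. -/

open scoped InnerProductSpace ComplexConjugate
open Finset

noncomputable section

namespace Pool.Agent.Kad

universe u

variable {H : Type u} [NormedAddCommGroup H] [InnerProductSpace ℂ H] [CompleteSpace H]

variable {R : VonNeumannAlgebra H}

namespace VN1

lemma inner_star_left (x : Op H) (ζ η : H) : ⟪star x ζ, η⟫_ℂ = ⟪ζ, x η⟫_ℂ := by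
  rw [ContinuousLinearMap.star_eq_adjoint, ContinuousLinearMap.adjoint_inner_left]

lemma inner_star_right (x : Op H) (ζ η : H) : ⟪ζ, star x η⟫_ℂ = ⟪x ζ, η⟫_ℂ := by
  rw [ContinuousLinearMap.star_eq_adjoint, ContinuousLinearMap.adjoint_inner_right]

lemma inner_sa {x : Op H} (hx : IsSelfAdjoint x) (ζ η : H) : ⟪x ζ, η⟫_ℂ = ⟪ζ, x η⟫_ℂ := by
  rw [← inner_star_left, hx.star_eq]

/-- an operator vanishing on a set and on its orthogonal complement vanishes -/
lemma eq_zero_of_set (V : Set H) {x : Op H} (h1 : ∀ ζ ∈ V, x ζ = 0)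
    (h2 : ∀ η, (∀ ζ ∈ V, ⟪ζ, η⟫_ℂ = 0) → x η = 0) : x = 0 := by
  obtain ⟨q, hq, q1, -, -, q2, -⟩ := exists_proj V
  ext η
  have k1 : x (q η) = 0 := congrArg (fun t : Op H => t η) (q2 x h1)
  have k2 := h2 (η - q η) fun ζ hζ => by
    rw [inner_sub_right, ← inner_sa hq.isSelfAdjoint, q1 ζ hζ, sub_self]
  rw [map_sub, k1, sub_zero] at k2
  exact k2

omit [CompleteSpace H] in
lemma mul_eq_of_ker {v y p : Op H} (h : ∀ η, y η = 0 → v η = 0) (hy : y * p = y) : v * p = v := by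
  ext η
  have k := h (η - p η) (by
    rw [map_sub, ← mul_apply_eq_comp, hy, sub_self])
  rw [map_sub, sub_eq_zero] at k
  exact k.symm

lemma mul_eq_of_star {v p : Op H} (hp : IsSelfAdjoint p) (h : star v * p = star v) : p * v = v := by
  have := congrArg star h
  rwa [star_mul, star_star, hp.star_eq] at this

lemma star_mul_eq {v p : Op H} (hp : IsSelfAdjoint p) (h : p * v = v) : star v * p = star v := by
  have := congrArg star h
  rwa [star_mul, hp.star_eq] at this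

lemma mul_star_eq {v p : Op H} (hp : IsSelfAdjoint p) (h : v * p = v) : p * star v = star v := by
  have := congrArg star h
  rwa [star_mul, hp.star_eq] at this

lemma piso_star {v : Op H} (h : v * star v * v = v) : star v * v * star v = star v := by
  have := congrArg star h
  rwa [star_mul, star_mul, star_star, ← mul_assoc] at this

/-- the partial isometry with a given graph, without the membership -/
lemma pgraph0 (G : Set (H × H)) (hiso : ∀ g ∈ G, ∀ g' ∈ G, ⟪g.1, g'.1⟫_ℂ = ⟪g.2, g'.2⟫_ℂ) :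
    ∃ v : Op H, v * star v * v = v ∧ (∀ g ∈ G, v g.1 = g.2 ∧ star v g.2 = g.1) ∧
      (∀ η, (∀ g ∈ G, ⟪g.1, η⟫_ℂ = 0) → v η = 0) ∧
      (∀ η, (∀ g ∈ G, ⟪g.2, η⟫_ℂ = 0) → star v η = 0) := by
  obtain ⟨q, hq, q1, q2, -, q3, -⟩ := exists_proj (H := WithLp 2 (H × H)) (WithLp.toLp 2 '' G)
  let T := (WithLp.prodContinuousLinearEquiv 2 ℂ H H).symm.toContinuousLinearMap
  let i1 : H →L[ℂ] WithLp 2 (H × H) := T.comp (ContinuousLinearMap.inl ℂ H H)
  let i2 : H →L[ℂ] WithLp 2 (H × H) := T.comp (ContinuousLinearMap.inr ℂ H H)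
  let p1 := WithLp.fstL 2 ℂ H H
  let p2 := WithLp.sndL 2 ℂ H H
  have a1 : ∀ k η, ⟪k, i1 η⟫_ℂ = ⟪p1 k, η⟫_ℂ := fun k η => by
    simp [i1, T, p1, WithLp.prod_inner_apply]
  have a2 : ∀ k η, ⟪k, i2 η⟫_ℂ = ⟪p2 k, η⟫_ℂ := fun k η => by
    simp [i2, T, p2, WithLp.prod_inner_apply]
  have a2' : ∀ k η, ⟪i2 η, k⟫_ℂ = ⟪η, p2 k⟫_ℂ := fun k η => by
    rw [← inner_conj_symm, a2, inner_conj_symm]
  have a3 : ∀ k, i1 (p1 k) + i2 (p2 k) = k := fun k => by
    apply WithLp.ofLp_injective 2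
    simp [i1, i2, T, p1, p2]
    rfl
  have u0 : q * (q * (i1.comp p1 - i2.comp p2)) * q = 0 := by
    rw [mul_assoc, q3, mul_zero]
    rintro _ ⟨g, hg, rfl⟩
    refine q2 _ ?_
    rintro _ ⟨g', hg', rfl⟩
    change ⟪_, i1 g.1 - i2 g.2⟫_ℂ = 0
    rw [inner_sub_right, a1, a2]
    exact sub_eq_zero.2 (hiso g' hg' g hg)
  have qq : ∀ k, q (q k) = q k := fun k => congrArg (fun t => t k) hq.isIdempotentElem.eq
  have u1 : ∀ k, q k = k → (2 : ℂ) • q (i1 (p1 k)) = k ∧ (2 : ℂ) • q (i2 (p2 k)) = k := by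
    intro k hk
    have k1 : q (q (i1 (p1 (q k)) - i2 (p2 (q k)))) = 0 := congrArg (fun t => t k) u0
    rw [qq, hk, map_sub, sub_eq_zero] at k1
    have k2 := congrArg q (a3 k)
    rw [map_add, hk] at k2
    rw [two_smul, two_smul]
    exact ⟨by rw [← k1] at k2; exact k2, by rw [k1] at k2; exact k2⟩
  let v : Op H := p2.comp (((2 : ℂ) • q).comp i1)
  have hv : ∀ η, v η = p2 ((2 : ℂ) • q (i1 η)) := fun _ => rfl
  have hv' : ∀ η, star v η = p1 ((2 : ℂ) • q (i2 η)) := fun η => by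
    refine ext_inner_right ℂ fun ζ => ?_
    rw [inner_star_left, hv, ← a1, ← a2', inner_smul_left, inner_smul_right,
      inner_sa hq.isSelfAdjoint]
    simp only [map_ofNat]
  have key : ∀ k, q k = k → v (p1 k) = p2 k ∧ star v (p2 k) = p1 k := fun k hk => by
    rw [hv, hv', (u1 k hk).1, (u1 k hk).2]
    exact ⟨rfl, rfl⟩
  refine ⟨v, ?_, fun g hg => key _ (q1 _ ⟨g, hg, rfl⟩), fun η hη => ?_, fun η hη => ?_⟩
  · ext η
    obtain ⟨k1, k2⟩ := key ((2 : ℂ) • q (i1 η)) (by rw [map_smul, qq])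
    rw [mul_apply_eq_comp, mul_apply_eq_comp, hv η, k2, k1]
  · rw [hv, q2, smul_zero, map_zero]
    rintro _ ⟨g, hg, rfl⟩
    rw [a1]
    exact hη g hg
  · rw [hv', q2, smul_zero, map_zero]
    rintro _ ⟨g, hg, rfl⟩
    rw [a2]
    exact hη g hg

end VN1

open VN1

/-- a partial isometry from its graph -/
theorem pgraph (G : Set (H × H))
    (hiso : ∀ g ∈ G, ∀ g' ∈ G, ⟪g.1, g'.1⟫_ℂ = ⟪g.2, g'.2⟫_ℂ)
    (hinv : ∀ s ∈ R.commutant, ∀ g ∈ G, (s g.1, s g.2) ∈ G) :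
    ∃ v ∈ R, v * star v * v = v ∧ (∀ g ∈ G, v g.1 = g.2 ∧ star v g.2 = g.1) ∧
      (∀ η, (∀ g ∈ G, ⟪g.1, η⟫_ℂ = 0) → v η = 0) ∧
      (∀ η, (∀ g ∈ G, ⟪g.2, η⟫_ℂ = 0) → star v η = 0) := by
  obtain ⟨v, h1, h2, h3, h4⟩ := pgraph0 G hiso
  refine ⟨v, mem_of_comm fun s hs => sub_eq_zero.1 (eq_zero_of_set (Prod.fst '' G) ?_ ?_),
    h1, h2, h3, h4⟩
  · rintro _ ⟨g, hg, rfl⟩
    rw [_root_.sub_apply, mul_apply_eq_comp,
      mul_apply_eq_comp, (h2 g hg).1, (h2 _ (hinv s hs g hg)).1, sub_self]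
  · intro η hη
    rw [_root_.sub_apply, mul_apply_eq_comp,
      mul_apply_eq_comp, h3 η fun g hg => hη _ ⟨g, hg, rfl⟩, map_zero, h3, sub_self]
    intro g hg
    rw [← inner_star_left]
    exact hη _ ⟨_, hinv (star s) (star_mem hs) g hg, rfl⟩

/-- polar decomposition, with the formula for the modulus -/
theorem VN1.polar' {x : Op H} (hx : x ∈ R) : ∃ v ∈ R, ∃ h ∈ R, IsSelfAdjoint h ∧
    h * h = star x * x ∧ x = v * h ∧ v * star v * v = v ∧ (∀ η, x η = 0 → v η = 0) ∧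
    (∀ η, star x η = 0 → star v η = 0) ∧ star v * x = h := by
  have h1 : IsSelfAdjoint (CFC.abs x) := .of_nonneg (CFC.abs_nonneg x)
  have h2 := CFC.abs_mul_abs x
  have h3 : ∀ s ∈ R.commutant, s * CFC.abs x = CFC.abs x * s := fun s hs =>
    Commute.cfcAbs_right (comm_of_mem hx hs).symm (comm_of_mem hx (star_mem hs)).symm
  generalize CFC.abs x = h at h1 h2 h3
  have h4 : ∀ ζ η, ⟪h ζ, h η⟫_ℂ = ⟪x ζ, x η⟫_ℂ := fun ζ η => by
    rw [inner_sa h1, ← mul_apply_eq_comp, h2, mul_apply_eq_comp,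
      inner_star_right]
  obtain ⟨v, hv, v1, v2, v3, v4⟩ := pgraph (R := R) (Set.range fun ζ => (h ζ, x ζ))
    (by
      rintro _ ⟨ζ, rfl⟩ _ ⟨η, rfl⟩
      exact h4 ζ η)
    (by
      rintro s hs _ ⟨ζ, rfl⟩
      exact ⟨s ζ, Prod.ext (congrArg (fun t : Op H => t ζ) (h3 s hs).symm)
        (congrArg (fun t : Op H => t ζ) (comm_of_mem hx hs).symm)⟩)
  refine ⟨v, hv, h, mem_of_comm h3, h1, h2, ?_, v1, fun η hη => v3 η ?_, fun η hη => v4 η ?_, ?_⟩
  · ext ζ
    exact (v2 _ ⟨ζ, rfl⟩).1.symm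
  · rintro _ ⟨ζ, rfl⟩
    have k := h4 η η
    rw [hη, inner_zero_left, inner_self_eq_zero] at k
    rw [inner_sa h1, k, inner_zero_right]
  · rintro _ ⟨ζ, rfl⟩
    rw [← inner_star_right, hη, inner_zero_right]
  · ext ζ
    exact (v2 _ ⟨ζ, rfl⟩).2

/-- polar decomposition -/
theorem polar {x : Op H} (hx : x ∈ R) : ∃ v ∈ R, ∃ h ∈ R, IsSelfAdjoint h ∧ h * h = star x * x ∧
    x = v * h ∧ v * star v * v = v ∧ (∀ η, x η = 0 → v η = 0) ∧
    ∀ η, star x η = 0 → star v η = 0 := by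
  obtain ⟨v, hv, h, hh, h1, h2, h3, h4, h5, h6, -⟩ := polar' hx
  exact ⟨v, hv, h, hh, h1, h2, h3, h4, h5, h6⟩

theorem piso_proj {v : Op H} (h : v * star v * v = v) :
    IsStarProjection (star v * v) ∧ IsStarProjection (v * star v) := by
  refine ⟨⟨?_, IsSelfAdjoint.star_mul_self v⟩, ⟨?_, IsSelfAdjoint.mul_star_self v⟩⟩
  · rw [IsIdempotentElem, ← mul_assoc, piso_star h]
  · rw [IsIdempotentElem, ← mul_assoc, h]

theorem piso_norm {v : Op H} (h : v * star v * v = v) : ‖v‖ ≤ 1 := by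
  have h1 := (piso_proj h).1.norm_le
  rw [CStarRing.norm_star_mul_self] at h1
  nlinarith [norm_nonneg v]

theorem piso_of_proj {v : Op H} (h : IsStarProjection (star v * v)) : v * star v * v = v := by
  have h1 : star (v * (1 - star v * v)) * (v * (1 - star v * v)) = 0 := by
    rw [star_mul, h.one_sub.isSelfAdjoint.star_eq, mul_assoc, ← mul_assoc (star v),
      h.mul_one_sub_self, mul_zero]
  rw [CStarRing.star_mul_self_eq_zero_iff, mul_sub, mul_one, sub_eq_zero, ← mul_assoc] at h1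
  exact h1.symm

theorem Le.isom {q p : Op H} (h : Le R q p) (hq : IsStarProjection q) (hqR : q ∈ R)
    (hp : IsStarProjection p) : ∃ v ∈ R, star v * v = q ∧ p * v = v := by
  obtain ⟨x, hx, h1, h2⟩ := h
  obtain ⟨v, hv, h, -, hh, -, v1, v2, v3, v4, v5⟩ := polar' (mul_mem hx hqR)
  have hqq := hq.isIdempotentElem.eq
  have k1 : v * q = v := mul_eq_of_ker v3 (by rw [mul_assoc, hqq])
  have k2 : p * v = v := mul_eq_of_star hp.isSelfAdjoint
    (mul_eq_of_ker v4 (star_mul_eq hp.isSelfAdjoint (by rw [← mul_assoc, h1])))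
  refine ⟨v, hv, ?_, k2⟩
  have k3 : q * (q - star v * v) = q - star v * v := by
    rw [mul_sub, hqq, ← mul_assoc, mul_star_eq hq.isSelfAdjoint k1]
  have k4 : v * (q - star v * v) = 0 := by
    rw [mul_sub, k1, ← mul_assoc, v2, sub_self]
  have k5 : x * (q - star v * v) = 0 := by
    rw [← k3, ← mul_assoc, v1, ← hh.star_eq, ← v5, star_mul, star_star, mul_assoc, mul_assoc, k4,
      mul_zero, mul_zero]
  symm
  rw [← sub_eq_zero]
  ext ζ
  exact h2 _ (congrArg (fun t : Op H => t ζ) k3) (congrArg (fun t : Op H => t ζ) k5)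

/-- a nonzero partial isometry between two projections -/
theorem exists_piso {p q x : Op H} (hp : IsStarProjection p) (hq : IsStarProjection q)
    (hpR : p ∈ R) (hqR : q ∈ R) (hx : x ∈ R) (h : q * x * p ≠ 0) :
    ∃ v ∈ R, v ≠ 0 ∧ v * star v * v = v ∧ q * v = v ∧ v * p = v := by
  obtain ⟨v, hv, k, -, -, -, v1, v2, v3, v4⟩ := polar (mul_mem (mul_mem hqR hx) hpR)
  refine ⟨v, hv, fun h0 => h (by rw [v1, h0, zero_mul]), v2, mul_eq_of_star hq.isSelfAdjoint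
    (mul_eq_of_ker v4 (star_mul_eq hq.isSelfAdjoint ?_)), mul_eq_of_ker v3 ?_⟩
  · rw [← mul_assoc, ← mul_assoc, hq.isIdempotentElem.eq]
  · rw [mul_assoc, hp.isIdempotentElem.eq]

/-- comparison theorem -/
theorem compare {p q : Op H} (hp : IsStarProjection p) (hq : IsStarProjection q) (hpR : p ∈ R)
    (hqR : q ∈ R) : ∃ z, Cen R z ∧ Le R (z * p) q ∧ Le R ((1 - z) * q) p := by
  obtain ⟨G, hG⟩ := zorn_subset {G : Set (H × H) | (∀ g ∈ G, p g.1 = g.1 ∧ q g.2 = g.2) ∧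
      (∀ g ∈ G, ∀ g' ∈ G, ⟪g.1, g'.1⟫_ℂ = ⟪g.2, g'.2⟫_ℂ) ∧
      ∀ s ∈ R.commutant, ∀ g ∈ G, (s g.1, s g.2) ∈ G} fun c hc hch =>
    ⟨⋃₀ c, ⟨fun g ⟨A, hA, hg⟩ => (hc hA).1 g hg, fun g ⟨A, hA, hg⟩ g' ⟨B, hB, hg'⟩ => by
      rcases hch.total hA hB with h | h
      · exact (hc hB).2.1 g (h hg) g' hg'
      · exact (hc hA).2.1 g hg g' (h hg'),
      fun s hs g ⟨A, hA, hg⟩ => ⟨A, hA, (hc hA).2.2 s hs g hg⟩⟩, fun A hA => Set.subset_sUnion_of_mem hA⟩
  obtain ⟨g1, g2, g3⟩ := hG.prop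
  obtain ⟨v, hv, v1, v2, v3, v4⟩ := pgraph G g2 g3
  have hvp : v * p = v := by
    ext η
    have k := v3 (η - p η) fun g hg => by
      rw [inner_sub_right, ← inner_sa hp.isSelfAdjoint, (g1 g hg).1, sub_self]
    rw [map_sub, sub_eq_zero] at k
    exact k.symm
  have hvq : star v * q = star v := by
    ext η
    have k := v4 (η - q η) fun g hg => by
      rw [inner_sub_right, ← inner_sa hq.isSelfAdjoint, (g1 g hg).2, sub_self]
    rw [map_sub, sub_eq_zero] at k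
    exact k.symm
  have hqv := mul_eq_of_star hq.isSelfAdjoint hvq
  have hpv := mul_star_eq hp.isSelfAdjoint hvp
  have hv' := star_mem hv
  have p1 : IsStarProjection (p - star v * v) :=
    (piso_proj v1).1.sub_of_mul_eq_left hp (by rw [mul_assoc, hvp])
  have q1 : IsStarProjection (q - v * star v) :=
    (piso_proj v1).2.sub_of_mul_eq_left hq (by rw [mul_assoc, hvq])
  have p1R : p - star v * v ∈ R := sub_mem hpR (mul_mem hv' hv)
  have q1R : q - v * star v ∈ R := sub_mem hqR (mul_mem hv hv')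
  have key : ∀ x ∈ R, (q - v * star v) * x * (p - star v * v) = 0 := by
    intro x hx
    by_contra hne
    obtain ⟨w, hw, w0, w1, w2, w3⟩ := exists_piso p1 q1 p1R q1R hx hne
    have w4 := star_mul_eq q1.isSelfAdjoint w2
    have w5 := mul_star_eq p1.isSelfAdjoint w3
    have w6 : p * star w = star w := by
      rw [← w5, ← mul_assoc, mul_sub, hp.isIdempotentElem.eq, ← mul_assoc, hpv]
    have w7 : q * w = w := by
      rw [← w2, ← mul_assoc, mul_sub, hq.isIdempotentElem.eq, ← mul_assoc, hqv]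
    have c1 : ∀ g ∈ G, w g.1 = 0 := fun g hg => by
      rw [← w3, mul_apply_eq_comp, _root_.sub_apply,
        mul_apply_eq_comp, (g1 g hg).1, (v2 g hg).1, (v2 g hg).2, sub_self, map_zero]
    have c2 : ∀ g ∈ G, star w g.2 = 0 := fun g hg => by
      rw [← w4, mul_apply_eq_comp, _root_.sub_apply,
        mul_apply_eq_comp, (g1 g hg).2, (v2 g hg).2, (v2 g hg).1, sub_self, map_zero]
    have c3 : ∀ g ∈ G, ∀ ζ, ⟪g.1, star w (w ζ)⟫_ℂ = ⟪g.2, w ζ⟫_ℂ := fun g hg ζ => by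
      rw [inner_star_right, c1 g hg, ← inner_star_left w g.2, c2 g hg, inner_zero_left,
        inner_zero_left]
    have hle := hG.le_of_ge (y := G ∪ Set.range fun ζ => (star w (w ζ), w ζ)) ⟨?_, ?_, ?_⟩
      Set.subset_union_left
    · refine w0 (CStarRing.star_mul_self_eq_zero_iff w |>.1 ?_)
      ext ζ
      exact c2 _ (hle (Or.inr ⟨ζ, rfl⟩))
    · rintro g (hg | ⟨ζ, rfl⟩)
      · exact g1 g hg
      · exact ⟨congrArg (fun t : Op H => t (w ζ)) w6, congrArg (fun t : Op H => t ζ) w7⟩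
    · rintro g (hg | ⟨ζ, rfl⟩) g' (hg' | ⟨ζ', rfl⟩)
      · exact g2 g hg g' hg'
      · exact c3 g hg ζ'
      · rw [← inner_conj_symm, c3 g' hg' ζ, inner_conj_symm]
      · rw [inner_star_left]
        exact congrArg (fun t : Op H => ⟪w ζ, t ζ'⟫_ℂ) w1
    · rintro s hs g (hg | ⟨ζ, rfl⟩)
      · exact Or.inl (g3 s hs g hg)
      · exact Or.inr ⟨s ζ, Prod.ext
          (congrArg (fun t : Op H => t ζ) (comm_of_mem (mul_mem (star_mem hw) hw) hs).symm)
          (congrArg (fun t : Op H => t ζ) (comm_of_mem hw hs).symm)⟩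
  obtain ⟨z, hz, z1, z2⟩ := exists_csupp p1R
  have z3 := z2 _ key
  refine ⟨1 - z, hz.one_sub, ⟨v, hv, hqv, fun ζ h1 h2 => ?_⟩, ⟨star v, hv', hpv, fun ζ h1 h2 => ?_⟩⟩
  · have k : (1 - z) * p = (1 - z) * (star v * v) := by
      rw [← sub_eq_zero, ← mul_sub, sub_mul, one_mul, z1, sub_self]
    rw [← h1, k, mul_apply_eq_comp, mul_apply_eq_comp, h2, map_zero,
      map_zero]
  · have k : (1 - (1 - z)) * q = z * (v * star v) := by
      rw [sub_sub_cancel, ← sub_eq_zero, ← mul_sub, hz.2.2 _ q1R, z3]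
    rw [← h1, k, mul_apply_eq_comp, mul_apply_eq_comp, h2, map_zero,
      map_zero]

end Pool.Agent.Kad
end
end
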